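import Pool.Agent.Work.MP_f82ddf_P.Interface3

set_option autoImplicit false

/-! # THEOREM G (MP_f82ddf_nt), block VER: the composition with the Veronese map of degree `e` -/

namespace Pool.ThmP

open MvPolynomial Finset Pool.Agent.Work.MP_f82ddf_nt Pool.Agent.Work.MP_f82ddf_nt.DQ Pool.ThmM
  Pool.ThmM0 Pool.Agent.Work.MP_f82ddf_M5

/-- The value at `w` of the monomial with exponent `μ`. -/
private def VER_mon {Ω : Type} [Field Ω] {n : ℕ} (w : Fin n → Ω) (μ : Fin n →₀ ℕ) : Ω :=
  ∏ i, w i ^ μ i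

private theorem VER_smul {Ω : Type} [Field Ω] {n : ℕ} (c : Ω) (w : Fin n → Ω) (μ : Fin n →₀ ℕ) :
    VER_mon (fun i => c * w i) μ = c ^ (∑ i, μ i) * VER_mon w μ := by
  unfold VER_mon
  simp only [mul_pow]
  rw [Finset.prod_mul_distrib, Finset.prod_pow_eq_pow_sum]

private theorem VER_zero {Ω : Type} [Field Ω] {n e : ℕ} (he : 1 ≤ e) (w : Fin n → Ω)
    (hw : ∀ i, w i = 0) (μ : Fin n →₀ ℕ) (hμ : ∑ i, μ i = e) : VER_mon w μ = 0 := by
  have h1 : w = fun i => (0 : Ω) * (w i) := by
    funext i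
    rw [hw i, mul_zero]
  rw [h1, VER_smul, hμ, zero_pow (by omega), zero_mul]

private theorem VER_single {Ω : Type} [Field Ω] {n : ℕ} (w : Fin n → Ω) (i : Fin n) (e : ℕ) :
    VER_mon w (Finsupp.single i e) = w i ^ e := by
  unfold VER_mon
  rw [Finset.prod_eq_single i]
  · rw [Finsupp.single_eq_same]
  · intro j _ hj
    rw [Finsupp.single_eq_of_ne hj, pow_zero]
  · intro h
    exact absurd (Finset.mem_univ i) h

private theorem VER_add {Ω : Type} [Field Ω] {n : ℕ} (w : Fin n → Ω) (μ ν : Fin n →₀ ℕ) :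
    VER_mon w (μ + ν) = VER_mon w μ * VER_mon w ν := by
  unfold VER_mon
  rw [← Finset.prod_mul_distrib]
  refine Finset.prod_congr rfl fun i _ => ?_
  rw [Finsupp.add_apply, pow_add]

private theorem VER_sum_single {n : ℕ} (i : Fin n) (e : ℕ) :
    ∑ j, (Finsupp.single i e : Fin n →₀ ℕ) j = e := by
  rw [Finset.sum_eq_single i]
  · rw [Finsupp.single_eq_same]
  · intro j _ hj
    rw [Finsupp.single_eq_of_ne hj]
  · intro h
    exact absurd (Finset.mem_univ i) h

private theorem VER_prop {Ω : Type} [Field Ω] {ι : Type} (p q : ι → Ω) (i₀ : ι) (h0 : p i₀ ≠ 0)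
    (h : ∀ j, p i₀ * q j = p j * q i₀) : ∀ j, q j = q i₀ / p i₀ * p j := by
  intro j
  have h1 := h j
  field_simp
  linear_combination h1

private theorem VER_compat {Ω : Type} [Field Ω] {n e : ℕ} (he : 1 ≤ e) (p q : Fin n → Ω)
    (h : ∀ i j, p i * q j = p j * q i) (μ ν : Fin n →₀ ℕ) (hμ : ∑ i, μ i = e)
    (hν : ∑ i, ν i = e) : VER_mon p μ * VER_mon q ν = VER_mon p ν * VER_mon q μ := by
  by_cases hp : ∀ i, p i = 0
  · rw [VER_zero he p hp μ hμ, VER_zero he p hp ν hν, zero_mul, zero_mul]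
  · push Not at hp
    obtain ⟨i₀, hi⟩ := hp
    have h1 := VER_prop p q i₀ hi (h i₀)
    have h2 : q = fun j => q i₀ / p i₀ * p j := funext h1
    rw [h2, VER_smul, VER_smul, hμ, hν]
    ring

/-- Two vectors whose monomials of degree `e` are proportional are proportional. -/
private theorem VER_back {Ω : Type} [Field Ω] {n e : ℕ} (he : 1 ≤ e) (p w : Fin n → Ω)
    (i₀ : Fin n) (hw : w i₀ ≠ 0)
    (h : ∀ μ ν : Fin n →₀ ℕ, ∑ i, μ i = e → ∑ i, ν i = e →
      VER_mon p μ * VER_mon w ν = VER_mon p ν * VER_mon w μ) (c d : Fin n) :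
    p c * w d = p d * w c := by
  have hwe : ∀ t : ℕ, w i₀ ^ t ≠ 0 := fun t => pow_ne_zero t hw
  have key : ∀ j, w i₀ * p j = w j * p i₀ := by
    intro j
    by_cases hp : p i₀ = 0
    · have h1 := h (Finsupp.single i₀ e) (Finsupp.single j e) (VER_sum_single _ _)
        (VER_sum_single _ _)
      rw [VER_single, VER_single, VER_single, VER_single, hp, zero_pow (by omega), zero_mul] at h1
      have h2 : p j ^ e = 0 := by
        rcases mul_eq_zero.1 h1.symm with h3 | h3
        · exact h3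
        · exact absurd h3 (hwe e)
      have h4 : p j = 0 := pow_eq_zero_iff (by omega) |>.1 h2
      rw [h4, hp, mul_zero, mul_zero]
    · obtain ⟨f, rfl⟩ : ∃ f, e = f + 1 := ⟨e - 1, by omega⟩
      have hs : ∑ i, (Finsupp.single i₀ f + Finsupp.single j 1 : Fin n →₀ ℕ) i = f + 1 := by
        simp only [Finsupp.add_apply]
        rw [Finset.sum_add_distrib, VER_sum_single, VER_sum_single]
      have h1 := h (Finsupp.single i₀ (f + 1)) (Finsupp.single i₀ f + Finsupp.single j 1)
        (VER_sum_single _ _) hs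
      rw [VER_add, VER_add, VER_single, VER_single, VER_single, VER_single, VER_single,
        VER_single] at h1
      have hne : p i₀ ^ f * w i₀ ^ f ≠ 0 := mul_ne_zero (pow_ne_zero _ hp) (hwe f)
      apply mul_left_cancel₀ hne
      calc p i₀ ^ f * w i₀ ^ f * (w i₀ * p j) = p i₀ ^ f * p j ^ 1 * w i₀ ^ (f + 1) := by ring
        _ = p i₀ ^ (f + 1) * (w i₀ ^ f * w j ^ 1) := h1.symm
        _ = p i₀ ^ f * w i₀ ^ f * (w j * p i₀) := by ring
  have h2 := VER_prop w p i₀ hw key
  rw [h2 c, h2 d]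
  ring

theorem p_VER : Stmt_VER := by
  intro K Ω _ _ _ m b e S g he
  classical
  -- the enumeration of the exponents
  set A : Finset (Fin (b + 1) →₀ ℕ) := (Finset.univ : Finset (Fin (b + 1))).finsuppAntidiag e
    with hA
  have hmem : ∀ μ : Fin (b + 1) →₀ ℕ, μ ∈ A ↔ ∑ i, μ i = e := by
    intro μ
    rw [hA, Finset.mem_finsuppAntidiag]
    exact ⟨fun h => h.1, fun h => ⟨h, Finset.subset_univ _⟩⟩
  have hcard : Fintype.card A = (b + e).choose e - 1 + 1 := by
    rw [Fintype.card_coe, hA, Finset.card_finsuppAntidiag_nat_eq_choose, Finset.card_univ,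
      Fintype.card_fin]
    have h1 : 0 < (b + e).choose e := Nat.choose_pos (by omega)
    have h2 : b + 1 + e - 1 = b + e := by omega
    rw [h2]
    omega
  set E : Fin ((b + e).choose e - 1 + 1) ≃ A := (Fintype.equivFinOfCardEq hcard).symm with hE
  have hεs : ∀ c, ∑ i, (E c).1 i = e := fun c => (hmem _).1 (E c).2
  have hεx : ∀ μ : Fin (b + 1) →₀ ℕ, ∑ i, μ i = e → ∃ c, (E c).1 = μ := by
    intro μ hμ
    refine ⟨E.symm ⟨μ, (hmem μ).2 hμ⟩, ?_⟩
    rw [Equiv.apply_symm_apply]
  have hev : ∀ (v : Fin (m + 1) → Ω) (s : Fin (b + 1) → MvPolynomial (Fin (m + 1)) Ω)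
      (μ : Fin (b + 1) →₀ ℕ),
      eval v (∏ i, s i ^ μ i) = VER_mon (fun i => eval v (s i)) μ := by
    intro v s μ
    unfold VER_mon
    rw [map_prod]
    refine Finset.prod_congr rfl fun i _ => ?_
    rw [map_pow]
  have hne : ∀ (v : Fin (m + 1) → Ω) (s : Fin (b + 1) → MvPolynomial (Fin (m + 1)) Ω),
      (∃ c, eval v (s c) ≠ 0) → ∃ c, eval v (∏ i, s i ^ (E c).1 i) ≠ 0 := by
    rintro v s ⟨c, hc⟩
    obtain ⟨c', hc'⟩ := hεx (Finsupp.single c e) (VER_sum_single c e)
    refine ⟨c', ?_⟩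
    rw [hev, hc', VER_single]
    exact pow_ne_zero _ hc
  -- the morphism
  let g' : Mor K Ω m ((b + e).choose e - 1) S :=
    { tuples := {t | ∃ s ∈ g.tuples, t = fun c => ∏ i, s i ^ (E c).1 i}
      homogeneous := by
        rintro t ⟨s, hs, rfl⟩
        obtain ⟨q, hq⟩ := g.homogeneous s hs
        refine ⟨q * e, fun c => ?_⟩
        have h1 := MvPolynomial.IsHomogeneous.prod Finset.univ (fun i => s i ^ (E c).1 i)
          (fun i => q * (E c).1 i) (fun i _ => (hq i).pow _)
        rw [← Finset.mul_sum, hεs c] at h1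
        exact h1
      compatible := by
        rintro t ⟨s, hs, rfl⟩ t' ⟨s', hs', rfl⟩ v hv c d
        simp only [hev]
        exact VER_compat he _ _ (fun i j => g.compatible s hs s' hs' v hv i j) _ _ (hεs c) (hεs d)
      defined := by
        intro v hv hX
        obtain ⟨s, hs, h1⟩ := g.defined v hv hX
        exact ⟨_, ⟨s, hs, rfl⟩, hne v s h1⟩ }
  have hsum : ∀ (F : MvPolynomial (Fin (b + 1)) Ω), F.IsHomogeneous e → ∀ p : Fin (b + 1) → Ω,
      ∑ c, coeff (E c).1 F * VER_mon p (E c).1 = eval p F := by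
    intro F hF p
    have h1 : ∑ c, coeff (E c).1 F * VER_mon p (E c).1 =
        ∑ μ : A, coeff μ.1 F * VER_mon p μ.1 :=
      Equiv.sum_comp E (fun μ : A => coeff μ.1 F * VER_mon p μ.1)
    rw [h1, Finset.sum_coe_sort A (fun μ => coeff μ F * VER_mon p μ), MvPolynomial.eval_eq']
    symm
    refine Finset.sum_subset ?_ ?_
    · intro d hd
      rw [hmem]
      by_contra h2
      rw [MvPolynomial.mem_support_iff] at hd
      apply hd
      apply hF.coeff_eq_zero
      rw [Finsupp.degree_eq_sum]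
      exact h2
    · intro d _ hd
      rw [MvPolynomial.notMem_support_iff] at hd
      rw [hd, zero_mul]
  refine ⟨fun c => (E c).1, g', ?_, ?_, rfl, ?_, ?_⟩
  · intro c d h
    exact E.injective (Subtype.ext h)
  · intro μ
    constructor
    · exact hεx μ
    · rintro ⟨c, rfl⟩
      exact hεs c
  · -- finite fibres
    intro hfin w' hw'
    obtain ⟨c₀, hc₀⟩ : ∃ c, w' c ≠ 0 := by
      by_contra h
      push Not at h
      exact hw' (funext h)
    rcases Set.eq_empty_or_nonempty {P : PSpace Ω m | OnX S P.rep ∧ ∀ s ∈ g'.tuples, ∀ c d,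
      eval P.rep (s c) * w' d = eval P.rep (s d) * w' c} with h | ⟨P₀, hP₀, hP₁⟩
    · rw [h]
      exact Set.finite_empty
    · obtain ⟨s, hs, i₀, hi₀⟩ := g.defined P₀.rep P₀.rep_nonzero hP₀
      have hw : (fun i => eval P₀.rep (s i)) ≠ 0 := fun h => hi₀ (congrFun h i₀)
      refine (hfin (fun i => eval P₀.rep (s i)) hw).subset ?_
      rintro P ⟨hP, hP'⟩
      refine ⟨hP, fun t ht c d => ?_⟩
      -- proportionality of the monomials
      have hA1 : ∀ (Q : PSpace Ω m) (r : Fin (b + 1) → MvPolynomial (Fin (m + 1)) Ω),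
          r ∈ g.tuples → (∀ s ∈ g'.tuples, ∀ c d,
            eval Q.rep (s c) * w' d = eval Q.rep (s d) * w' c) →
          ∃ lam : Ω, ∀ c, VER_mon (fun i => eval Q.rep (r i)) (E c).1 = lam * w' c := by
        intro Q r hr hQ
        have h1 := hQ _ ⟨r, hr, rfl⟩
        simp only [hev] at h1
        refine ⟨_, VER_prop w' (fun c => VER_mon (fun i => eval Q.rep (r i)) (E c).1) c₀ hc₀ ?_⟩
        intro j
        rw [mul_comm, mul_comm (w' j)]
        exact (h1 c₀ j).symm
      obtain ⟨lam, hlam⟩ := hA1 P t ht hP'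
      obtain ⟨kap, hkap⟩ := hA1 P₀ s hs hP₁
      refine VER_back he (fun i => eval P.rep (t i)) (fun i => eval P₀.rep (s i)) i₀ hi₀ ?_ c d
      intro μ ν hμ hν
      obtain ⟨x, rfl⟩ := hεx μ hμ
      obtain ⟨y, rfl⟩ := hεx ν hν
      rw [hlam, hlam, hkap, hkap]
      ring
  · intro F hF
    constructor
    · intro v
      constructor
      · intro h s hs
        have h1 := h _ ⟨s, hs, rfl⟩
        simp only [hev] at h1
        rw [hsum F hF] at h1
        exact h1
      · rintro h t ⟨s, hs, rfl⟩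
        simp only [hev]
        rw [hsum F hF]
        exact h s hs
    · intro k h v hv hX
      obtain ⟨s, hs, h1, d, e', a, b', ha, hb, hav, h2⟩ := h v hv hX
      refine ⟨_, ⟨s, hs, rfl⟩, hne v s h1, d, e', a, b', ha, hb, hav, fun u hu => ?_⟩
      simp only [hev]
      rw [hsum F hF]
      exact h2 u hu

end Pool.ThmP
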