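import Pool.Agent.Work.MP_f82ddf_P.Interface3
import Pool.Agent.Work.MP_f82ddf_V.Interface

set_option autoImplicit false

/-! # Theorem V (generic nodes) for forms of degree `e` -/

namespace Pool.ThmP

open MvPolynomial Finset Pool.Agent.Work.MP_f82ddf_nt Pool.Agent.Work.MP_f82ddf_nt.DQ Pool.ThmM
  Pool.ThmM0

/-- Near every point `v` of `X` the pull back under `g` of the hypersurface `F = 0` is, up to a unit,
a product of powers with exponents at least `k`. -/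
def FullF {K Ω : Type} [Field K] [Field Ω] [Algebra K Ω] {m n : ℕ}
    {S : Set (MvPolynomial (Fin (m + 1)) K)} (g : Mor K Ω m n S) (k : ℕ)
    (F : MvPolynomial (Fin (n + 1)) Ω) : Prop :=
  ∀ v : Fin (m + 1) → Ω, v ≠ 0 → OnX S v →
    ∃ s ∈ g.tuples, (∃ c, eval v (s c) ≠ 0) ∧
      ∃ (d t : ℕ) (a : MvPolynomial (Fin (m + 1)) Ω) (b : Fin t → MvPolynomial (Fin (m + 1)) Ω)
        (e μ : Fin t → ℕ), a.IsHomogeneous d ∧ (∀ i, (b i).IsHomogeneous (e i)) ∧
        (∀ i, k ≤ μ i) ∧ eval v a ≠ 0 ∧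
        ∀ u, OnX S u → eval u a * eval (fun c => eval u (s c)) F = ∏ i, eval u (b i) ^ μ i

/-- the exponents of a form of degree `e` -/
theorem VGF_exp {R : Type} [CommSemiring R] {b e : ℕ} {F : MvPolynomial (Fin b) R}
    (hF : F.IsHomogeneous e) {d : Fin b →₀ ℕ} (hd : coeff d F ≠ 0) : ∑ i, d i = e := by
  have h := hF hd
  rw [Finsupp.weight_apply] at h
  rw [← h, Finsupp.sum_fintype]
  · simp
  · simp

/-- the value of a form as a sum over the exponents of degree `e` -/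
theorem VGF_val {b e t : ℕ} {Ω : Type} [Field Ω]
    (ε : Fin t → Fin b →₀ ℕ) (hε : Function.Injective ε)
    (hεs : ∀ μ : Fin b →₀ ℕ, ∑ i, μ i = e ↔ ∃ c, ε c = μ) (F : MvPolynomial (Fin b) Ω)
    (hF : F.IsHomogeneous e) (y : Fin b → Ω) :
    eval y F = ∑ c, coeff (ε c) F * ∏ i, y i ^ ε c i := by
  classical
  have h2 : ∑ c, coeff (ε c) F * ∏ i, y i ^ ε c i =
      ∑ d ∈ univ.image ε, coeff d F * ∏ i, y i ^ d i := by
    rw [sum_image (fun a _ b _ h => hε h)]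
  rw [eval_eq', h2]
  apply sum_subset
  · intro d hd
    obtain ⟨c, hc⟩ := (hεs d).1 (VGF_exp hF (mem_support_iff.1 hd))
    exact mem_image.2 ⟨c, mem_univ _, hc⟩
  · intro d _ hd
    rw [notMem_support_iff.1 hd]
    simp

theorem full_ver {K Ω : Type} [Field K] [Field Ω] [Algebra K Ω] {m b e n : ℕ}
    {S : Set (MvPolynomial (Fin (m + 1)) K)} (g : Mor K Ω m b S)
    (ε : Fin (n + 1) → Fin (b + 1) →₀ ℕ) (g' : Mor K Ω m n S) (hε : Function.Injective ε)
    (hεs : ∀ μ : Fin (b + 1) →₀ ℕ, ∑ i, μ i = e ↔ ∃ c, ε c = μ)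
    (hg' : g'.tuples = {t | ∃ s ∈ g.tuples, t = fun c => ∏ i, s i ^ ε c i})
    (k : ℕ) (F : MvPolynomial (Fin (b + 1)) Ω) (hF : F.IsHomogeneous e) (h : FullF g k F) :
    Pool.MPV.Full g' k (fun c => coeff (ε c) F) := by
  classical
  intro v hv hvX
  obtain ⟨s, hs, ⟨i, hi⟩, d, t, a, b', e', μ, ha, hb, hμ, hav, hu⟩ := h v hv hvX
  refine ⟨fun c => ∏ i, s i ^ ε c i, ?_, ?_, d, t, a, b', e', μ, ha, hb, hμ, hav, ?_⟩
  · rw [hg']
    exact ⟨s, hs, rfl⟩
  · obtain ⟨c, hc⟩ := (hεs (Finsupp.single i e)).1 (by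
      rw [Finset.sum_eq_single i]
      · rw [Finsupp.single_eq_same]
      · intro j _ hj
        rw [Finsupp.single_eq_of_ne hj]
      · intro h
        exact absurd (Finset.mem_univ i) h)
    refine ⟨c, ?_⟩
    rw [map_prod, Finset.prod_eq_single i]
    · rw [map_pow]
      exact pow_ne_zero _ hi
    · intro j _ hj
      rw [hc, Finsupp.single_eq_of_ne hj, pow_zero, map_one]
    · intro h
      exact absurd (Finset.mem_univ i) h
  · intro u huX
    rw [← hu u huX, VGF_val ε hε hεs F hF]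
    congr 1
    refine Finset.sum_congr rfl fun c _ => ?_
    rw [map_prod]
    simp only [map_pow]

/-- Theorem V for generic forms of degree `e`. -/
def Stmt_VGF : Prop :=
  ∀ b e : ℕ, 1 ≤ e → ∃ D : ℕ, ∀ (N : ℕ),
    ∀ (K : Type) [Field K] [CharZero K] (m : ℕ) (S : Set (MvPolynomial (Fin (m + 1)) K)),
      (∀ F ∈ S, ∃ d, F.IsHomogeneous d) →
      ∀ (g : Mor K (AlgebraicClosure K) m b S)
        (F : Fin (N + 1) → MvPolynomial (Fin (b + 1)) (AlgebraicClosure K)),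
        g.Finite → (∀ j, (F j).IsHomogeneous e) → NoHypersurfaceF D e F →
        (∀ j, FullF g 2 (F j)) → ∀ σ : K →+* ℂ, KobayashiHyperbolic (complexPoints S σ)

theorem noHyp_ver {Ω : Type} [Field Ω] {b n N e D : ℕ} (ε : Fin (n + 1) → Fin (b + 1) →₀ ℕ)
    (hε : Function.Injective ε) (hεs : ∀ μ : Fin (b + 1) →₀ ℕ, ∑ i, μ i = e ↔ ∃ c, ε c = μ)
    (F : Fin (N + 1) → MvPolynomial (Fin (b + 1)) Ω) (h : NoHypersurfaceF D e F) :
    NoHypersurface D (fun j c => coeff (ε c) (F j)) := by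
  classical
  intro t P ht hP hP0
  obtain ⟨f, hf⟩ : ∃ f : Fin (n + 1) → {μ : Fin (b + 1) →₀ ℕ // ∑ i, μ i = e},
      ∀ c, (f c).1 = ε c := ⟨fun c => ⟨ε c, (hεs _).2 ⟨c, rfl⟩⟩, fun _ => rfl⟩
  have hfi : Function.Injective f := by
    intro c c' hcc
    apply hε
    rw [← hf, ← hf, hcc]
  obtain ⟨j, hj⟩ := h t (rename f P) ht (hP.rename_isHomogeneous)
    (fun h0 => hP0 (rename_injective f hfi (by rw [h0, map_zero])))
  refine ⟨j, ?_⟩
  rw [eval_rename] at hj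
  have h3 : ((fun μ : {μ : Fin (b + 1) →₀ ℕ // ∑ i, μ i = e} => coeff μ.1 (F j)) ∘ f) =
      fun c => coeff (ε c) (F j) := by
    funext c
    show coeff (f c).1 (F j) = _
    rw [hf]
  rwa [h3] at hj

theorem VGF_of (hVER : Stmt_VER) (hVG : Pool.MPV.Stmt_VG) : Stmt_VGF := by
  intro b e he
  obtain ⟨D, hD⟩ := hVG ((b + e).choose e - 1)
  refine ⟨D, fun N K _ _ m S hS g F hg hF hno hfull σ => ?_⟩
  obtain ⟨ε, g', hε, hεs, hg', hfin, -⟩ := hVER K (AlgebraicClosure K) m b e S g he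
  exact hD N K m S hS g' (fun j c => coeff (ε c) (F j)) (hfin hg) (noHyp_ver ε hε hεs F hno)
    (fun j => full_ver g ε g' hε hεs hg' 2 (F j) (hF j) (hfull j)) σ

end Pool.ThmP
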