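import Pool.Agent.Work.MP_f82ddf_P.Interface

set_option autoImplicit false

/-! # Block ALJ: independent quotients of the linear forms -/

namespace Pool.ThmP

open MvPolynomial Finset Pool.Agent.Work.MP_f82ddf_nt Pool.Agent.Work.MP_f82ddf_nt.DQ Pool.ThmM
  Pool.ThmM0

theorem p_ALJ (hVAL : Stmt_VAL) (hFIB : Stmt_FIB) (hTRX : Stmt_TRX)
    (hHOMR : Pool.ThmM0.Stmt_HOMR) : Stmt_ALJ := by
  intro K Ω _ _ _ _ m n N M S g l J hS hfin hJ τ x hx s hs j₀ hj₀ hz r hr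
  have hr0 : x (r 0) ≠ 0 := by
    have h := hr 1 (X 0) (X_ne_zero _) (isHomogeneous_X _ _)
    rwa [aeval_X] at h
  have hx0 : x ≠ 0 := by
    intro h
    apply hr0
    rw [h]
    rfl
  have hind := hHOMR M (fun i => x (r i)) hr0 hr
  obtain ⟨c₀, hc₀⟩ : ∃ c₀, eval₂ (tm τ) x (s c₀) ≠ 0 := by
    by_contra h
    push Not at h
    apply hz
    apply Finset.sum_eq_zero
    intro c _
    rw [h c, mul_zero]
  set A : Set Mer := Set.range fun c => eval₂ (tm τ) x (s c) / eval₂ (tm τ) x (s c₀) with hA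
  set B : Set Mer := {q : Mer | ∃ j ∈ J,
          q = (∑ c, tm τ (l j c) * eval₂ (tm τ) x (s c)) /
            ∑ c, tm τ (l j₀ c) * eval₂ (tm τ) x (s c)} with hB
  have h1 : ∀ j : Fin (M + 1), IsAlgebraic (Algebra.adjoin ℂ A) (x (r j.succ) / x (r 0)) := by
    intro j
    exact hFIB K Ω m n S g hS hfin τ x hx s hs c₀ hc₀ (r j.succ) (r 0) hr0
  have h2 : ∀ c, IsAlgebraic (Algebra.adjoin ℂ B) (eval₂ (tm τ) x (s c) /
      ∑ c, tm τ (l j₀ c) * eval₂ (tm τ) x (s c)) := by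
    intro c
    exact hVAL K Ω m n N S g l J hS hJ τ x hx hx0 s hs j₀ hj₀ hz c
  have h3 : ∀ a ∈ A, IsAlgebraic (Algebra.adjoin ℂ B) a := by
    rintro a ⟨c, rfl⟩
    have h4 := (h2 c).mul (h2 c₀).inv
    have h5 : (eval₂ (tm τ) x (s c) / ∑ c, tm τ (l j₀ c) * eval₂ (tm τ) x (s c)) *
        (eval₂ (tm τ) x (s c₀) / ∑ c, tm τ (l j₀ c) * eval₂ (tm τ) x (s c))⁻¹ =
        eval₂ (tm τ) x (s c) / eval₂ (tm τ) x (s c₀) := by
      field_simp
    rw [h5] at h4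
    exact h4
  obtain ⟨t, ht1, ht2⟩ := hTRX (M + 1) _ A B hind h1 h3
  exact ⟨t, ht2, ht1⟩

end Pool.ThmP
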