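import Pool.Agent.Work.MP_f82ddf_P.Interface

/-! # THEOREM P, block BAS (helper26) -/

set_option autoImplicit false

namespace Pool.ThmP

open MvPolynomial Finset Pool.Agent.Work.MP_f82ddf_nt Pool.Agent.Work.MP_f82ddf_nt.DQ Pool.ThmM
  Pool.ThmM0

/-- A basis among finitely many vectors, with coordinates. -/
private lemma BAS_aux {N : ℕ} (z : Fin N → Mer) (hz : z ≠ 0) :
    ∃ (ρ : ℕ) (τ : Fin (ρ + 1) → Fin N) (u : Fin N → Fin (ρ + 1) → ℂ),
      Function.Injective τ ∧ LinearIndependent ℂ (fun i => z (τ i)) ∧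
      ∀ j, z j = ∑ i, algebraMap ℂ Mer (u j i) * z (τ i) := by
  obtain ⟨κ, a, ha, hspan, hli⟩ := exists_linearIndependent' (K := ℂ) z
  have : Finite κ := Finite.of_injective a ha
  have : Fintype κ := Fintype.ofFinite κ
  have hcard : 0 < Fintype.card κ := by
    rw [Fintype.card_pos_iff]
    by_contra hne
    rw [not_nonempty_iff] at hne
    apply hz
    funext j
    have h1 : z j ∈ Submodule.span ℂ (Set.range z) := Submodule.subset_span ⟨j, rfl⟩
    rw [← hspan, Set.range_eq_empty (z ∘ a), Submodule.span_empty, Submodule.mem_bot] at h1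
    exact h1
  obtain ⟨ρ, hρ⟩ : ∃ ρ, Fintype.card κ = ρ + 1 := ⟨Fintype.card κ - 1, by omega⟩
  let e : Fin (ρ + 1) ≃ κ := (Fintype.equivFinOfCardEq hρ).symm
  have hrange : Set.range (fun i => z (a (e i))) = Set.range (z ∘ a) := by
    ext x
    constructor
    · rintro ⟨i, rfl⟩
      exact ⟨e i, rfl⟩
    · rintro ⟨c, rfl⟩
      exact ⟨e.symm c, by simp⟩
  have hex : ∀ j, ∃ c : Fin (ρ + 1) → ℂ, ∑ i, c i • z (a (e i)) = z j := by
    intro j
    have h1 : z j ∈ Submodule.span ℂ (Set.range z) := Submodule.subset_span ⟨j, rfl⟩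
    rw [← hspan, ← hrange, Submodule.mem_span_range_iff_exists_fun] at h1
    exact h1
  choose u hu using hex
  refine ⟨ρ, fun i => a (e i), u, ha.comp e.injective, ?_, ?_⟩
  · exact hli.comp e e.injective
  · intro j
    rw [← hu j]
    refine Finset.sum_congr rfl fun i _ => ?_
    rw [Algebra.smul_def]

private lemma BAS_coeff {ρ : ℕ} {x : Fin (ρ + 1) → Mer} (hx : LinearIndependent ℂ x)
    (c : Fin (ρ + 1) → ℂ) (h : ∑ i, algebraMap ℂ Mer (c i) * x i = 0) : ∀ i, c i = 0 := by
  rw [Fintype.linearIndependent_iff] at hx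
  apply hx c
  rw [← h]
  refine Finset.sum_congr rfl fun i _ => ?_
  rw [Algebra.smul_def]

theorem p_BAS : Stmt_BAS := by
  intro n y hy
  obtain ⟨ρ, ι, b, hι, hli, hb⟩ := BAS_aux y hy
  have hbι : ∀ i l, b (ι i) l = if l = i then 1 else 0 := by
    intro i l
    have h1 := hb (ι i)
    have h2 : ∑ l, algebraMap ℂ Mer (b (ι i) l - if l = i then 1 else 0) * y (ι l) = 0 := by
      have h3 : ∀ l, algebraMap ℂ Mer (b (ι i) l - if l = i then 1 else 0) * y (ι l)
          = algebraMap ℂ Mer (b (ι i) l) * y (ι l) -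
            (if l = i then y (ι l) else 0) := by
        intro l
        split_ifs with hl
        · rw [map_sub, map_one, sub_mul, one_mul]
        · rw [sub_zero, sub_zero]
      rw [Finset.sum_congr rfl fun l _ => h3 l, Finset.sum_sub_distrib, ← h1,
        Finset.sum_ite_eq' Finset.univ i (fun l => y (ι l))]
      simp
    have h4 := BAS_coeff hli _ h2 l
    exact sub_eq_zero.1 h4
  refine ⟨ρ, ι, b, ?_, hli, hb, ?_⟩
  · have h1 := Fintype.card_le_of_injective ι hι
    rw [Fintype.card_fin, Fintype.card_fin] at h1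
    omega
  · rw [Fintype.linearIndependent_iff]
    intro a ha i
    have h1 := congrFun ha (ι i)
    rw [Finset.sum_apply] at h1
    have h2 : ∀ l, (a l • fun c => b c l) (ι i) = if l = i then a l else 0 := by
      intro l
      rw [Pi.smul_apply, hbι i l, smul_eq_mul]
      split_ifs
      · rw [mul_one]
      · rw [mul_zero]
    rw [Finset.sum_congr rfl fun l _ => h2 l, Finset.sum_ite_eq' Finset.univ i (fun l => a l)] at h1
    simpa using h1

end Pool.ThmP
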