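import Pool.Agent.Work.MP_f82ddf_P.Interface

set_option autoImplicit false

/-! # Block CDP: descent to the span of `T` -/

namespace Pool.ThmP

open MvPolynomial Finset Pool.Agent.Work.MP_f82ddf_nt Pool.Agent.Work.MP_f82ddf_nt.DQ Pool.ThmM
  Pool.ThmM0

namespace CDP

theorem per_add {x y : Mer} (hx : Per x) (hy : Per y) : Per (x + y) := by
  obtain ⟨f, hf, rfl, h1⟩ := hx
  obtain ⟨g, hg, rfl, h2⟩ := hy
  refine ⟨fun z => f z + g z, fun z => (hf z).add (hg z), ?_, fun z => ?_⟩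
  · rw [Mer.mk_add]
  · show f _ + g _ = f z + g z
    rw [h1, h2]

theorem per_const_mul {x : Mer} (a : ℂ) (hx : Per x) : Per (algebraMap ℂ Mer a * x) := by
  obtain ⟨f, hf, rfl, h1⟩ := hx
  refine ⟨fun z => a * f z, fun z => (MeromorphicAt.const a z).mul (hf z), ?_, fun z => ?_⟩
  · rw [Mer.algebraMap_eq, Mer.mk_mul]
  · show a * f _ = a * f z
    rw [h1]

theorem per_zero : Per (0 : Mer) := by
  refine ⟨fun _ => 0, fun z => MeromorphicAt.const 0 z, ?_, fun z => rfl⟩
  rw [← Mer.algebraMap_eq, map_zero]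

theorem per_sum {ι : Type} (s : Finset ι) (x : ι → Mer) (h : ∀ i ∈ s, Per (x i)) :
    Per (∑ i ∈ s, x i) := by
  classical
  induction s using Finset.induction_on with
  | empty => rw [Finset.sum_empty]; exact per_zero
  | insert a s ha ih =>
    rw [Finset.sum_insert ha]
    exact per_add (h a (Finset.mem_insert_self _ _))
      (ih fun i hi => h i (Finset.mem_insert_of_mem hi))

/-- the linear map `u ↦ ⟨u, x⟩` -/
noncomputable def L {r : ℕ} (x : Fin (r + 1) → Mer) : (Fin (r + 1) → ℂ) →ₗ[ℂ] Mer :=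
  Fintype.linearCombination ℂ x

theorem L_apply {r : ℕ} (x : Fin (r + 1) → Mer) (u : Fin (r + 1) → ℂ) :
    L x u = ∑ i, algebraMap ℂ Mer (u i) * x i := by
  unfold L
  rw [Fintype.linearCombination_apply]
  exact Finset.sum_congr rfl fun i _ => Algebra.smul_def _ _

theorem L_inj {r : ℕ} {x : Fin (r + 1) → Mer} (hx : LinearIndependent ℂ x) :
    Function.Injective (L x) := by
  rw [injective_iff_map_eq_zero]
  intro u hu
  funext i
  refine Fintype.linearIndependent_iff.1 hx u ?_ i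
  rw [← hu]
  unfold L
  rw [Fintype.linearCombination_apply]

/-- The first case: no vector is orthogonal to all of `T`. -/
theorem case1 (hP5 : Pool.Agent.Work.MP_f82ddf_M5.Stmt_P5) (hTRD : Pool.ThmM0.Stmt_TRD)
    {r w d k : ℕ} {Q : MvPolynomial (Fin (w + 2)) ℂ}
    {A : Fin (r + 1) → MvPolynomial (Fin (w + 2)) ℂ} {T : Finset (Fin (r + 1) → ℂ)}
    {lift : (Fin (r + 1) → ℂ) → (Fin (w + 2) → ℂ)} (hD : HypData r w d Q A T lift)
    (hsp : ∀ v : Fin (r + 1) → ℂ, (∀ u ∈ T, ∑ i, v i * u i = 0) → v = 0)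
    {x : Fin (r + 1) → Mer} (hx : LinearIndependent ℂ x)
    {c : Mer} {Fix : MvPolynomial (Fin 2 × Fin (w + 2)) ℂ}
    {Psi : MvPolynomial (Fin 2 × Fin (w + 2)) Mer}
    (hch : Pool.Agent.Work.MP_f82ddf_M5.chow d d (map (algebraMap ℂ Mer) Q)
            (Pool.Agent.Work.MP_f82ddf_M5.comb (algebraMap ℂ Mer) A x) =
          C c * map (algebraMap ℂ Mer) Fix * Psi ^ k)
    (m : ℕ) (u₀ : Fin (r + 1) → ℂ) (τ : Fin m → Fin (r + 1) → ℂ)
    (hind : AlgebraicIndependent ℂ (fun j => (∑ i, algebraMap ℂ Mer (τ j i) * x i) /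
            ∑ i, algebraMap ℂ Mer (u₀ i) * x i)) : m * k ≤ r := by
  have hx0 : x 0 ≠ 0 := hx.ne_zero 0
  have hmem : ∀ u : Fin (r + 1) → ℂ, (∑ i, algebraMap ℂ Mer (u i) * x i) / x 0 ∈
      IntermediateField.adjoin ℂ (Set.range fun i => x i / x 0) := by
    intro u
    rw [Finset.sum_div]
    refine sum_mem fun i _ => ?_
    rw [mul_div_assoc]
    exact mul_mem (algebraMap_mem _ _) (IntermediateField.subset_adjoin _ _ ⟨i, rfl⟩)
  obtain ⟨ι, hι⟩ := hTRD (r + 1) m 1 (fun i => x i / x 0)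
    (fun j => (∑ i, algebraMap ℂ Mer (τ j i) * x i) / ∑ i, algebraMap ℂ Mer (u₀ i) * x i)
    le_rfl hind (fun j => by
      rw [pow_one]
      have h1 : (∑ i, algebraMap ℂ Mer (τ j i) * x i) / ∑ i, algebraMap ℂ Mer (u₀ i) * x i =
          ((∑ i, algebraMap ℂ Mer (τ j i) * x i) / x 0) /
            ((∑ i, algebraMap ℂ Mer (u₀ i) * x i) / x 0) := by
        rw [div_div_div_cancel_right₀ hx0]
      rw [h1]
      exact div_mem (hmem _) (hmem _))
  refine hP5 (w + 2) r d d k Q A ⟨hD.irr, hD.homQ, hD.homA, ?_⟩ Mer x c Fix Psi 0 m ι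
    hx0 hch hι
  intro y hy
  refine hsp y fun u hu => ?_
  obtain ⟨c', hc', hA⟩ := hD.prop u hu
  obtain ⟨B, hB⟩ := hy
  have h4 : eval (lift u) (Pool.Agent.Work.MP_f82ddf_M5.comb (RingHom.id ℂ) A y) = 0 := by
    rw [hB, map_mul, hD.zero u hu, zero_mul]
  have h5 : eval (lift u) (Pool.Agent.Work.MP_f82ddf_M5.comb (RingHom.id ℂ) A y) =
      c' * ∑ i, y i * u i := by
    rw [Pool.Agent.Work.MP_f82ddf_M5.comb, map_sum, Finset.mul_sum]
    refine Finset.sum_congr rfl fun i _ => ?_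
    rw [map_mul, eval_C, map_id, hA]
    ring
  rw [h5] at h4
  exact (mul_eq_zero.1 h4).resolve_left hc'

/-- coordinates in the span -/
theorem coords {r : ℕ} (T : Finset (Fin (r + 1) → ℂ)) (v : Fin (r + 1) → ℂ) (hv : v ≠ 0)
    (hvT : ∀ u ∈ T, ∑ i, v i * u i = 0) (u₁ : Fin (r + 1) → ℂ) (hu₁ : u₁ ∈ T) (hu0 : u₁ ≠ 0) :
    ∃ (r' : ℕ) (E : (Fin (r' + 1) → ℂ) →ₗ[ℂ] (Fin (r + 1) → ℂ))
      (Cc : (Fin (r + 1) → ℂ) →ₗ[ℂ] (Fin (r' + 1) → ℂ)), r' < r ∧ Function.Injective E ∧
      (∀ a, Cc (E a) = a) ∧ ∀ u ∈ T, E (Cc u) = u := by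
  obtain ⟨W, hW⟩ : ∃ W, W = Submodule.span ℂ (T : Set (Fin (r + 1) → ℂ)) := ⟨_, rfl⟩
  have hTW : ∀ u ∈ T, u ∈ W := fun u hu => by
    rw [hW]; exact Submodule.subset_span hu
  -- the orthogonality
  let φ : (Fin (r + 1) → ℂ) →ₗ[ℂ] ℂ := Fintype.linearCombination ℂ v
  have hφ : ∀ u, φ u = ∑ i, v i * u i := by
    intro u
    show Fintype.linearCombination ℂ v u = _
    rw [Fintype.linearCombination_apply]
    exact Finset.sum_congr rfl fun i _ => by rw [smul_eq_mul, mul_comm]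
  have hWφ : W ≤ LinearMap.ker φ := by
    rw [hW, Submodule.span_le]
    intro u hu
    show φ u = 0
    rw [hφ]
    exact hvT u hu
  have hWtop : W ≠ ⊤ := by
    intro h
    apply hv
    funext i
    have h1 : (Pi.single i 1 : Fin (r + 1) → ℂ) ∈ W := by rw [h]; trivial
    have h2 : φ (Pi.single i 1) = 0 := hWφ h1
    rw [hφ] at h2
    simpa [Pi.single_apply] using h2
  have hlt : Module.finrank ℂ W < r + 1 := by
    have := Submodule.finrank_lt hWtop
    rwa [Module.finrank_fin_fun] at this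
  have hpos : 0 < Module.finrank ℂ W := by
    have : Nontrivial W := ⟨⟨⟨u₁, hTW u₁ hu₁⟩, 0, fun h => hu0 (congrArg Subtype.val h)⟩⟩
    exact Module.finrank_pos
  obtain ⟨r', hr'⟩ : ∃ r', Module.finrank ℂ W = r' + 1 := ⟨Module.finrank ℂ W - 1, by omega⟩
  let bas := Module.finBasisOfFinrankEq ℂ W hr'
  let E : (Fin (r' + 1) → ℂ) →ₗ[ℂ] (Fin (r + 1) → ℂ) :=
    W.subtype.comp bas.equivFun.symm.toLinearMap
  have hE : Function.Injective E :=
    Subtype.val_injective.comp bas.equivFun.symm.injective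
  obtain ⟨Cc, hCc⟩ := LinearMap.exists_leftInverse_of_injective E (LinearMap.ker_eq_bot.2 hE)
  have hCE : ∀ a, Cc (E a) = a := fun a => DFunLike.congr_fun hCc a
  refine ⟨r', E, Cc, by omega, hE, hCE, fun u hu => ?_⟩
  have h1 : E (bas.equivFun ⟨u, hTW u hu⟩) = u := by
    show ((bas.equivFun.symm (bas.equivFun ⟨u, hTW u hu⟩) : W) : Fin (r + 1) → ℂ) = u
    rw [LinearEquiv.symm_apply_apply]
  rw [← h1, hCE]

end CDP

open CDP in
theorem p_CDP (h1 : Stmt_CRB) (h2 : Pool.ThmM.Stmt_T3)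
    (h3 : Pool.Agent.Work.MP_f82ddf_M5.Stmt_P5) (h4 : Pool.ThmM0.Stmt_TRD) : Stmt_CDP := by
  classical
  intro r b
  induction r using Nat.strong_induction_on with
  | _ r ih =>
  choose! fN hfN using ih
  choose β hβ using fun w d => h1 r w d
  obtain ⟨N₁, dmax, hT⟩ := h2 r
    (fun w d => max (max b ((Finset.range r).sup fN)) (max 2 (β w d)))
  refine ⟨N₁, fun S hS hcard k x hk hx hper hpow => ?_⟩
  obtain ⟨w, d, Q, A, T, lift, hD, -, hTS, hβT, hdiv⟩ := hT S hS hcard
  have hb : b ≤ T.card := (le_max_left _ _).trans ((le_max_left _ _).trans hβT)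
  have hB : (Finset.range r).sup fN ≤ T.card :=
    (le_max_right _ _).trans ((le_max_left _ _).trans hβT)
  have h2T : 2 ≤ T.card := (le_max_left _ _).trans ((le_max_right _ _).trans hβT)
  have hTβ : β w d ≤ T.card := (le_max_right _ _).trans ((le_max_right _ _).trans hβT)
  have hTnp : ∀ u ∈ T, ∀ v ∈ T, u ≠ v → NonProp u v :=
    fun u hu v hv => hS u (hTS hu) v (hTS hv)
  by_cases hsp : ∀ v : Fin (r + 1) → ℂ, (∀ u ∈ T, ∑ i, v i * u i = 0) → v = 0
  · obtain ⟨c, Fix, Psi, hch⟩ := hβ w d Q A T lift hD hTβ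
      (fun e f he hf hfT => hdiv e f (he.trans ((le_max_right _ _).trans (le_max_right _ _))) hf hfT)
      hTnp hsp k x hk hx hper (fun u hu => hpow u (hTS hu))
    exact ⟨T, hTS, hb, fun m u₀ τ _ _ hind => case1 h3 h4 hD hsp hx hch m u₀ τ hind⟩
  · push Not at hsp
    obtain ⟨v, hvT, hv0⟩ := hsp
    obtain ⟨u₁, hu₁, u₂, hu₂, hne⟩ := Finset.one_lt_card.1 (show 1 < T.card by omega)
    have hu0 : u₁ ≠ 0 := by
      intro h0
      have := hTnp u₁ hu₁ u₂ hu₂ hne 1 0 (by rw [h0]; simp)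
      exact one_ne_zero this.1
    obtain ⟨r', E, Cc, hr', hE, hCE, hEC⟩ := coords T v hv0 hvT u₁ hu₁ hu0
    -- the new functions
    let x' : Fin (r' + 1) → Mer := fun i => L x (E (Pi.single i 1))
    have hLx : ∀ a, L x' a = L x (E a) := by
      intro a
      have h5 : a = ∑ i, a i • (Pi.single i 1 : Fin (r' + 1) → ℂ) := by
        funext j
        simp [Finset.sum_apply, Pi.single_apply]
      conv_rhs => rw [h5, map_sum, map_sum]
      rw [L_apply]
      refine Finset.sum_congr rfl fun i _ => ?_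
      rw [map_smul, map_smul, Algebra.smul_def]
    have hx' : LinearIndependent ℂ x' := by
      rw [Fintype.linearIndependent_iff]
      intro a ha i
      have h5 : L x' a = 0 := by
        rw [← ha]
        unfold L
        rw [Fintype.linearCombination_apply]
      rw [hLx] at h5
      have h6 : E a = 0 := L_inj hx (h5.trans (map_zero _).symm)
      have h7 : a = 0 := hE (h6.trans (map_zero _).symm)
      rw [h7]; rfl
    have hper' : ∀ i, Per (x' i) := by
      intro i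
      show Per (L x (E (Pi.single i 1)))
      rw [L_apply]
      exact per_sum _ _ fun l _ => per_const_mul _ (hper l)
    have hCinj : Set.InjOn Cc (T : Set (Fin (r + 1) → ℂ)) := by
      intro a ha b' hb' hab
      have h5 := congrArg E hab
      rwa [hEC a ha, hEC b' hb'] at h5
    have hcard' : (T.image Cc).card = T.card := Finset.card_image_of_injOn hCinj
    have hS' : ∀ u ∈ T.image Cc, ∀ v ∈ T.image Cc, u ≠ v → NonProp u v := by
      intro u hu v hv huv a b' hab
      obtain ⟨u', hu', rfl⟩ := Finset.mem_image.1 hu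
      obtain ⟨v', hv', rfl⟩ := Finset.mem_image.1 hv
      refine hTnp u' hu' v' hv' (fun h => huv (by rw [h])) a b' ?_
      have h5 := congrArg E hab
      rwa [map_smul, map_smul, hEC u' hu', hEC v' hv'] at h5
    have hLC : ∀ u ∈ T, ∑ i, algebraMap ℂ Mer (Cc u i) * x' i =
        ∑ i, algebraMap ℂ Mer (u i) * x i := by
      intro u hu
      rw [← L_apply, ← L_apply, hLx, hEC u hu]
    have hpow' : ∀ u ∈ T.image Cc, ∃ y : Mer, ∑ i, algebraMap ℂ Mer (u i) * x' i = y ^ k := by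
      intro u hu
      obtain ⟨u', hu', rfl⟩ := Finset.mem_image.1 hu
      obtain ⟨y, hy⟩ := hpow u' (hTS hu')
      exact ⟨y, by rw [hLC u' hu', hy]⟩
    have hN : fN r' ≤ (T.image Cc).card := by
      rw [hcard']
      exact (Finset.le_sup (f := fN) (Finset.mem_range.2 hr')).trans hB
    obtain ⟨T', hT'S, hbT', hT'⟩ := hfN r' hr' (T.image Cc) hS' hN k x' hk hx' hper' hpow'
    refine ⟨T.filter fun u => Cc u ∈ T', (Finset.filter_subset _ _).trans hTS, ?_, ?_⟩
    · refine hbT'.trans ?_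
      have h5 : T' ⊆ (T.filter fun u => Cc u ∈ T').image Cc := by
        intro a ha
        obtain ⟨u, hu, rfl⟩ := Finset.mem_image.1 (hT'S ha)
        exact Finset.mem_image_of_mem _ (Finset.mem_filter.2 ⟨hu, ha⟩)
      exact (Finset.card_le_card h5).trans Finset.card_image_le
    · intro m u₀ τ hu₀ hτ hind
      have h5 := hT' m (Cc u₀) (fun j => Cc (τ j)) (Finset.mem_filter.1 hu₀).2
        (fun j => (Finset.mem_filter.1 (hτ j)).2) (by
          have h6 : (fun j => (∑ i, algebraMap ℂ Mer (Cc (τ j) i) * x' i) /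
              ∑ i, algebraMap ℂ Mer (Cc u₀ i) * x' i) =
              fun j => (∑ i, algebraMap ℂ Mer (τ j i) * x i) /
                ∑ i, algebraMap ℂ Mer (u₀ i) * x i := by
            funext j
            rw [hLC _ (Finset.mem_filter.1 (hτ j)).1, hLC _ (Finset.mem_filter.1 hu₀).1]
          rw [h6]
          exact hind)
      omega

end Pool.ThmP
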