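import Pool.Agent.Work.MP_f82ddf_P.Interface2

set_option autoImplicit false

/-! # Block DIA (helper27): varieties over diagonal complete intersections are instances -/

namespace Pool.ThmP

open MvPolynomial Finset Pool.Agent.Work.MP_f82ddf_nt Pool.Agent.Work.MP_f82ddf_nt.DQ Pool.ThmM
  Pool.ThmM0

/-- a solution with at least `n + 1` zero coordinates vanishes -/
theorem DIA_zero (hM : Stmt_MIN) {K L : Type} [Field K] [CharZero K] [Field L] (σ : K →+* L)
    {r n k : ℕ} (a : Matrix (Fin r) (Fin (n + r + 1)) K) (hk : 2 ≤ k) (ha : SmoothDiag k a)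
    (u : Fin (n + r + 1) → L) (heq : ∀ i, ∑ j, σ (a i j) * u j = 0)
    (hcard : ∃ Z : Finset (Fin (n + r + 1)), n + 1 ≤ Z.card ∧ ∀ j ∈ Z, u j = 0) : u = 0 := by
  classical
  obtain ⟨Z, hZ, hZu⟩ := hcard
  have hsum : (univ.filter fun j : Fin (n + r + 1) => u j = 0).card +
      (univ.filter fun j : Fin (n + r + 1) => ¬ u j = 0).card = n + r + 1 := by
    rw [Finset.card_filter_add_card_filter_not, Finset.card_univ, Fintype.card_fin]
  have hZs : Z ⊆ univ.filter fun j : Fin (n + r + 1) => u j = 0 := fun j hj =>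
    mem_filter.2 ⟨mem_univ _, hZu j hj⟩
  have hZc := Finset.card_le_card hZs
  have hS : (univ.filter fun j : Fin (n + r + 1) => ¬ u j = 0).card ≤ r := by omega
  obtain ⟨T, hST, hT⟩ := Finset.exists_superset_card_eq hS
    (by rw [Fintype.card_fin]; omega)
  have hout : ∀ j, j ∉ T → u j = 0 := by
    intro j hj
    by_contra h
    exact hj (hST (mem_filter.2 ⟨mem_univ _, h⟩))
  let J := T.orderEmbOfFin hT
  have hdet := hM K r (n + r) k a hk ha J J.injective
  have hdet' : ((Matrix.of fun i l => a i (J l)).map σ).det ≠ 0 := by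
    have h1 : ((Matrix.of fun i l => a i (J l)).map σ).det =
        σ ((Matrix.of fun i l => a i (J l)).det) := by
      rw [RingHom.map_det, RingHom.mapMatrix_apply]
    rw [h1]
    exact (map_ne_zero σ).2 hdet
  have hzero : (fun l => u (J l)) = 0 := by
    apply Matrix.eq_zero_of_mulVec_eq_zero hdet'
    funext i
    simp only [Matrix.mulVec, dotProduct, Matrix.map_apply, Matrix.of_apply, Pi.zero_apply]
    rw [← heq i]
    have h2 : ∑ j ∈ T, σ (a i j) * u j = ∑ j, σ (a i j) * u j := by
      apply Finset.sum_subset (subset_univ T)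
      intro j _ hj
      rw [hout j hj, mul_zero]
    rw [← h2]
    have h3 : T = univ.image J := by
      rw [← Finset.coe_inj, Finset.coe_image, Finset.coe_univ, Set.image_univ]
      exact (Finset.range_orderEmbOfFin T hT).symm
    conv_rhs => rw [h3]
    rw [Finset.sum_image]
    intro x _ y _ hxy
    exact J.injective hxy
  funext j
  by_cases hj : j ∈ T
  · have h4 : j ∈ Set.range J := by
      rw [Finset.range_orderEmbOfFin T hT]
      exact hj
    obtain ⟨l, rfl⟩ := h4
    exact congrFun hzero l
  · exact hout j hj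

/-- the parametrisation of the solution space -/
theorem DIA_param (hM : Stmt_MIN) {K : Type} [Field K] [CharZero K]
    {r n k : ℕ} (a : Matrix (Fin r) (Fin (n + r + 1)) K) (hk : 2 ≤ k) (ha : SmoothDiag k a) :
    ∃ (ι : Fin (n + 1) → Fin (n + r + 1)) (l : Fin (n + r + 1) → Fin (n + 1) → K),
      Function.Injective ι ∧ (∀ i c, ∑ j, a i j * l j c = 0) ∧
      ∀ d c, l (ι d) c = if d = c then 1 else 0 := by
  classical
  let e : Fin (n + 1) ⊕ Fin r ≃ Fin (n + r + 1) :=
    finSumFinEquiv.trans (finCongr (by omega))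
  let ι : Fin (n + 1) → Fin (n + r + 1) := fun c => e (Sum.inl c)
  let κ : Fin r → Fin (n + r + 1) := fun i => e (Sum.inr i)
  have hκ : Function.Injective κ := fun x y h => Sum.inr_injective (e.injective h)
  let A : Matrix (Fin r) (Fin r) K := Matrix.of fun i l => a i (κ l)
  have hA : A.det ≠ 0 := hM K r (n + r) k a hk ha κ hκ
  have hAu : IsUnit A.det := isUnit_iff_ne_zero.2 hA
  let l : Fin (n + r + 1) → Fin (n + 1) → K := fun j c =>
    Sum.elim (fun d => if d = c then (1 : K) else 0)
      (fun i => -((A⁻¹).mulVec (fun i' => a i' (ι c))) i) (e.symm j)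
  have hl1 : ∀ d c, l (ι d) c = if d = c then 1 else 0 := by
    intro d c
    show Sum.elim _ _ (e.symm (e (Sum.inl d))) = _
    rw [e.symm_apply_apply]
    rfl
  have hl2 : ∀ i c, l (κ i) c = -((A⁻¹).mulVec (fun i' => a i' (ι c))) i := by
    intro i c
    show Sum.elim _ _ (e.symm (e (Sum.inr i))) = _
    rw [e.symm_apply_apply]
    rfl
  refine ⟨ι, l, fun x y h => Sum.inl_injective (e.injective h), ?_, hl1⟩
  intro i c
  rw [← e.sum_comp, Fintype.sum_sum_type]
  have h1 : ∑ d, a i (e (Sum.inl d)) * l (e (Sum.inl d)) c = a i (ι c) := by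
    have h2 : ∀ d, a i (e (Sum.inl d)) * l (e (Sum.inl d)) c =
        if d = c then a i (ι d) else 0 := by
      intro d
      rw [show l (e (Sum.inl d)) c = _ from hl1 d c]
      split_ifs with h
      · rw [mul_one]
      · rw [mul_zero]
    rw [Finset.sum_congr rfl fun d _ => h2 d]
    simp
  have h3 : ∑ i', a i (e (Sum.inr i')) * l (e (Sum.inr i')) c = -a i (ι c) := by
    have h4 : ∀ i', a i (e (Sum.inr i')) * l (e (Sum.inr i')) c =
        -(A i i' * ((A⁻¹).mulVec (fun i' => a i' (ι c))) i') := by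
      intro i'
      rw [show l (e (Sum.inr i')) c = _ from hl2 i' c, mul_neg]
      rfl
    rw [Finset.sum_congr rfl fun i' _ => h4 i', Finset.sum_neg_distrib]
    congr 1
    have h5 : (A.mulVec ((A⁻¹).mulVec (fun i' => a i' (ι c)))) i = a i (ι c) := by
      rw [Matrix.mulVec_mulVec, Matrix.mul_nonsing_inv A hAu, Matrix.one_mulVec]
    exact h5
  rw [h1, h3, add_neg_cancel]

theorem p_DIA (h1 : Stmt_FFB) (h2 : Pool.ThmM0.Stmt_MIN) : Stmt_DIA := by
  classical
  intro n r k hk K _ _ a ha
  obtain ⟨ι, l, hι, hl1, hl2⟩ := DIA_param h2 a hk ha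
  -- every solution over an extension is given by its first coordinates
  have hsol : ∀ {L : Type} [Field L] (σ : K →+* L) (u : Fin (n + r + 1) → L),
      (∀ i, ∑ j, σ (a i j) * u j = 0) → ∀ j, ∑ c, σ (l j c) * u (ι c) = u j := by
    intro L _ σ u hu j
    have h3 : (fun j => ∑ c, σ (l j c) * u (ι c) - u j) = 0 := by
      refine DIA_zero h2 σ a hk ha _ ?_ ⟨univ.image ι, ?_, ?_⟩
      · intro i
        simp only [mul_sub, Finset.sum_sub_distrib, hu i, sub_zero]
        simp only [Finset.mul_sum]
        rw [Finset.sum_comm]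
        refine Finset.sum_eq_zero fun c _ => ?_
        have h4 : ∀ j, σ (a i j) * (σ (l j c) * u (ι c)) = σ (a i j * l j c) * u (ι c) := by
          intro j
          rw [map_mul, mul_assoc]
        rw [Finset.sum_congr rfl fun j _ => h4 j, ← Finset.sum_mul, ← map_sum, hl1, map_zero,
          zero_mul]
      · rw [Finset.card_image_of_injective _ hι, Finset.card_univ, Fintype.card_fin]
      · intro j hj
        obtain ⟨d, -, rfl⟩ := Finset.mem_image.1 hj
        have h4 : ∀ c, σ (l (ι d) c) * u (ι c) = if d = c then u (ι c) else 0 := by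
          intro c
          rw [hl2 d c]
          split_ifs with h
          · rw [map_one, one_mul]
          · rw [map_zero, zero_mul]
        rw [Finset.sum_congr rfl fun c _ => h4 c]
        simp
    exact sub_eq_zero.1 (congrFun h3 j)
  refine ⟨l, ⟨hl1, ?_⟩, ?_⟩
  · rw [Fintype.linearIndependent_iff]
    intro g hg d
    have h3 := congrFun hg (ι d)
    simp only [Finset.sum_apply, Pi.smul_apply, smul_eq_mul, hl2, Pi.zero_apply] at h3
    simpa using h3
  intro m e S h hS hF
  obtain ⟨he, hhom, hpt⟩ := hF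
  let φ : K →+* AlgebraicClosure K := algebraMap K (AlgebraicClosure K)
  let s : Fin (n + 1) → MvPolynomial (Fin (m + 1)) (AlgebraicClosure K) :=
    fun c => map φ (h (ι c)) ^ k
  have hev : ∀ (v : Fin (m + 1) → AlgebraicClosure K) (F : MvPolynomial (Fin (m + 1)) K),
      eval v (map φ F) = aeval v F := by
    intro v F
    rw [eval_map, aeval_def]
  have hs : ∀ (v : Fin (m + 1) → AlgebraicClosure K) c,
      eval v (s c) = aeval v (h (ι c)) ^ k := by
    intro v c
    show eval v (map φ (h (ι c)) ^ k) = _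
    rw [map_pow, hev]
  have hk0 : k ≠ 0 := by omega
  -- the vector of the powers
  have hu : ∀ v : Fin (m + 1) → AlgebraicClosure K, OnX S v → ∀ j,
      ∑ c, φ (l j c) * eval v (s c) = aeval v (h j) ^ k := by
    intro v hv j
    rw [← hsol φ (fun j => aeval v (h j) ^ k) (hpt v hv).1 j]
    exact Finset.sum_congr rfl fun c _ => by rw [hs]
  have hzero : ∀ v : Fin (m + 1) → AlgebraicClosure K, OnX S v → (∀ c, eval v (s c) = 0) →
      v = 0 := by
    intro v hv h0
    refine (hpt v hv).2 fun j => ?_
    have h3 := hu v hv j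
    rw [Finset.sum_eq_zero fun c _ => by rw [h0 c, mul_zero]] at h3
    exact pow_eq_zero_iff hk0 |>.1 h3.symm
  obtain ⟨g, hg1, hg2⟩ := h1 K (AlgebraicClosure K) m n (e * k) S s hS
    (Nat.mul_pos he (by omega)) (fun c => ((hhom (ι c)).map φ).pow k) hzero
  refine ⟨g, hg2, ?_, ?_⟩
  · intro v hv0 hv
    by_contra hcon
    push Not at hcon
    apply hv0
    have h3 : (fun j => aeval v (h j) ^ k) = 0 := by
      refine DIA_zero h2 φ a hk ha _ (hpt v hv).1
        ⟨(Set.toFinite {j | g.Meets (fun c => φ (l j c)) v}).toFinset, ?_, ?_⟩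
      · rw [← Set.ncard_eq_toFinset_card]
        exact hcon
      · intro j hj
        rw [Set.Finite.mem_toFinset] at hj
        have h4 : ∑ c, φ (l j c) * eval v (s c) = 0 := hj s (by rw [hg1]; rfl)
        rw [hu v hv j] at h4
        exact h4
    refine (hpt v hv).2 fun j => ?_
    exact pow_eq_zero_iff hk0 |>.1 (congrFun h3 j)
  · intro j v hv0 hv
    refine ⟨s, by rw [hg1]; rfl, ?_, 0, e, 1, map φ (h j), isHomogeneous_one _ _,
      (hhom j).map φ, ?_, ?_⟩
    · by_contra hcon
      push Not at hcon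
      exact hv0 (hzero v hv hcon)
    · rw [map_one]
      exact one_ne_zero
    · intro u hu'
      rw [map_one, one_mul, hev]
      exact hu u hu' j

end Pool.ThmP
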