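import Pool.Agent.Work.MP_f82ddf_P.Interface

/-!
# Theorem P: the dimension bound for points with values in `Mer`
-/

set_option autoImplicit false

namespace Pool.ThmP

open MvPolynomial Finset Pool.Agent.Work.MP_f82ddf_nt Pool.Agent.Work.MP_f82ddf_nt.DQ Pool.ThmM
  Pool.ThmM0

/-- The dimension bound over any field. -/
def Stmt_DIM : Prop :=
  ∀ n c : ℕ, ∃ N₀ : ℕ, ∀ (k N : ℕ), 2 ≤ k → N₀ ≤ N →
    ∀ (K : Type) [Field K] (m : ℕ) (S : Set (MvPolynomial (Fin (m + 1)) K)),
      (∀ F ∈ S, ∃ d, F.IsHomogeneous d) →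
      ∀ (g : Mor K (AlgebraicClosure K) m n S) (l : Fin (N + 1) → Fin (n + 1) → AlgebraicClosure K),
        g.Finite →
        (∀ v, v ≠ 0 → OnX S v → {j | g.Meets (l j) v}.ncard ≤ c) →
        (∀ j, g.Divisible k (l j)) → DimMer S (n / k)

theorem p_DIM (h1 : Stmt_ONP) : Stmt_DIM := by
  intro n c
  obtain ⟨N₀, hN⟩ := h1 n c
  refine ⟨N₀, fun k N hk hNN K _ m S hS g l hfin hc hdiv => ?_⟩
  have hlt : n < (n / k + 1) * k := by
    have h5 := Nat.lt_mul_div_succ n (show 0 < k by omega)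
    rw [mul_comm]
    exact h5
  intro σ x hx s
  let τ : AlgebraicClosure K →+* ℂ :=
    letI : Algebra K ℂ := σ.toAlgebra
    (IsAlgClosed.lift (R := K) (M := ℂ) (S := AlgebraicClosure K)).toRingHom
  have hτ : τ.comp (algebraMap K (AlgebraicClosure K)) = σ := by
    let : Algebra K ℂ := σ.toAlgebra
    exact AlgHom.comp_algebraMap
      (IsAlgClosed.lift (R := K) (M := ℂ) (S := AlgebraicClosure K))
  have hx' : OnK (tm τ) S x := by
    intro F hF
    have h6 : (tm τ).comp (algebraMap K (AlgebraicClosure K)) =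
        (algebraMap ℂ Mer).comp σ := by
      rw [tm, RingHom.comp_assoc, hτ]
    rw [h6]
    exact hx F hF
  exact hN k N (n / k) hk hNN hlt K (AlgebraicClosure K) m S hS g l hfin hc hdiv τ x hx' s

end Pool.ThmP
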