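import Pool.Agent.Work.MP_f82ddf_P.Interface

set_option autoImplicit false

/-! # Block EXT (helper54): extension of homomorphisms to an algebraically closed field -/

namespace Pool.ThmP

open Polynomial

/-- the extension property for `R → S` -/
private def EXT_P (Ω R S : Type) [Field Ω] [CommRing R] [CommRing S] [Algebra R S] : Prop :=
  ∀ v : S, v ≠ 0 → ∃ u : R, u ≠ 0 ∧ ∀ θ : R →+* Ω, θ u ≠ 0 →
    ∃ Θ : S →+* Ω, (∀ r : R, Θ (algebraMap R S r) = θ r) ∧ Θ v ≠ 0

private theorem EXT_lift {Ω R S : Type} [Field Ω] [CommRing R] [CommRing S] [Algebra R S] (b : S)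
    (hb : Function.Surjective (aeval b : R[X] →ₐ[R] S)) (θ : R →+* Ω) (ξ : Ω)
    (h : ∀ f : R[X], aeval b f = 0 → eval₂ θ ξ f = 0) :
    ∃ Θ : S →+* Ω, ∀ f : R[X], Θ (aeval b f) = eval₂ θ ξ f := by
  have hb' : Function.Surjective (aeval b : R[X] →ₐ[R] S).toRingHom := hb
  refine ⟨(RingHom.liftOfSurjective (aeval b : R[X] →ₐ[R] S).toRingHom hb')
    ⟨eval₂RingHom θ ξ, fun f hf => h f hf⟩, fun f => ?_⟩
  exact RingHom.liftOfRightInverse_comp_apply _ _ _ _ f

private theorem EXT_one {Ω R S : Type} [Field Ω] [IsAlgClosed Ω] [CommRing R] [CommRing S]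
    [IsDomain S] [Algebra R S] (hinj : Function.Injective (algebraMap R S)) (b : S)
    (hb : Function.Surjective (aeval b : R[X] →ₐ[R] S)) : EXT_P Ω R S := by
  classical
  intro v hv
  have hR : IsDomain R := hinj.isDomain _
  by_cases hi : Function.Injective (aeval b : R[X] →ₐ[R] S)
  · -- `b` is transcendental
    obtain ⟨p, rfl⟩ := hb v
    have hp : p ≠ 0 := by
      rintro rfl
      exact hv (map_zero _)
    refine ⟨p.leadingCoeff, leadingCoeff_ne_zero.2 hp, fun θ hθ => ?_⟩
    have hp' : p.map θ ≠ 0 := by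
      intro h0
      apply hθ
      rw [← leadingCoeff_map_of_leadingCoeff_ne_zero θ hθ, h0, leadingCoeff_zero]
    obtain ⟨ξ, hξ⟩ : ∃ ξ, (p.map θ).eval ξ ≠ 0 := by
      by_contra hcon
      push Not at hcon
      exact hp' (Polynomial.funext fun x => by rw [hcon x, eval_zero])
    obtain ⟨Θ, hΘ⟩ := EXT_lift b hb θ ξ (fun f hf => by
      have : f = 0 := hi (by rw [hf, map_zero])
      rw [this, eval₂_zero])
    refine ⟨Θ, fun r => ?_, ?_⟩
    · have h1 := hΘ (C r)
      rwa [aeval_C, eval₂_C] at h1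
    · rw [hΘ, ← eval_map]
      exact hξ
  · -- `b` is algebraic
    obtain ⟨f₀, hf₀, hf₀'⟩ : ∃ f : R[X], f ≠ 0 ∧ aeval b f = 0 := by
      by_contra hcon
      push Not at hcon
      apply hi
      rw [injective_iff_map_eq_zero]
      intro f hf
      by_contra hf0
      exact hcon f hf0 hf
    have hex : ∃ n, ∃ f : R[X], f ≠ 0 ∧ aeval b f = 0 ∧ f.natDegree = n := ⟨_, f₀, hf₀, hf₀', rfl⟩
    obtain ⟨m, hm0, hmb, hmn⟩ := Nat.find_spec hex
    have hmin : ∀ f : R[X], f ≠ 0 → aeval b f = 0 → m.natDegree ≤ f.natDegree := by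
      intro f hf hfb
      rw [hmn]
      exact Nat.find_min' hex ⟨f, hf, hfb, rfl⟩
    have hdeg : 0 < m.natDegree := by
      rw [Nat.pos_iff_ne_zero]
      intro h0
      have h1 := eq_C_of_natDegree_eq_zero h0
      rw [h1, aeval_C] at hmb
      have h2 : m.coeff 0 = 0 := hinj (by rw [hmb, map_zero])
      apply hm0
      rw [h1, h2, C_0]
    have hbalg : IsAlgebraic R b := ⟨f₀, hf₀, hf₀'⟩
    have hvalg : IsAlgebraic R v := by
      obtain ⟨p, rfl⟩ := hb v
      induction p using Polynomial.induction_on' with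
      | add p q hp hq =>
        rw [map_add]
        by_cases h1 : (aeval b p : S) = 0
        · rw [h1, zero_add]
          by_cases h2 : (aeval b q : S) = 0
          · rw [h2]
            exact isAlgebraic_zero
          · exact hq h2
        · by_cases h2 : (aeval b q : S) = 0
          · rw [h2, add_zero]
            exact hp h1
          · exact (hp h1).add (hq h2)
      | monomial n a =>
        rw [aeval_monomial]
        exact (isAlgebraic_algebraMap a).mul (hbalg.pow n)
    obtain ⟨r, hr, hvr⟩ := hvalg.exists_nonzero_dvd (mem_nonZeroDivisors_of_ne_zero hv)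
    refine ⟨m.leadingCoeff * r, mul_ne_zero (leadingCoeff_ne_zero.2 hm0) hr, fun θ hθ => ?_⟩
    rw [map_mul] at hθ
    have hθa : θ m.leadingCoeff ≠ 0 := left_ne_zero_of_mul hθ
    have hθr : θ r ≠ 0 := right_ne_zero_of_mul hθ
    obtain ⟨ξ, hξ⟩ := IsAlgClosed.exists_root (m.map θ) (by
      have h1 : (m.map θ).natDegree = m.natDegree := natDegree_map_of_leadingCoeff_ne_zero θ hθa
      intro h2
      rw [degree_eq_natDegree (by
        intro h3
        rw [h3, natDegree_zero] at h1
        omega), h1] at h2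
      have h4 : m.natDegree = 0 := by exact_mod_cast h2
      omega)
    have hmξ : eval₂ θ ξ m = 0 := by
      rw [← eval_map]
      exact hξ
    have key : ∀ n : ℕ, ∀ f : R[X], f.natDegree = n → aeval b f = 0 → eval₂ θ ξ f = 0 := by
      intro n
      induction n using Nat.strong_induction_on with
      | _ n ih =>
        intro f hfn hfb
        by_cases hf : f = 0
        · rw [hf, eval₂_zero]
        have h1 := hmin f hf hfb
        have h2 := natDegree_cancelLeads_lt_of_natDegree_le_natDegree h1 (by omega)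
        have h3 : aeval b (m.cancelLeads f) = 0 := by
          rw [cancelLeads, map_sub, map_mul, hfb, mul_zero, map_mul, hmb, mul_zero, sub_zero]
        have h4 := ih _ (by rw [← hfn]; exact h2) _ rfl h3
        rw [cancelLeads, Nat.sub_eq_zero_of_le h1, pow_zero, mul_one, eval₂_sub, eval₂_mul,
          eval₂_C, eval₂_mul, hmξ, mul_zero, sub_zero] at h4
        exact (mul_eq_zero.1 h4).resolve_left hθa
    obtain ⟨Θ, hΘ⟩ := EXT_lift b hb θ ξ (fun f hf => key _ f rfl hf)
    have hΘr : ∀ r : R, Θ (algebraMap R S r) = θ r := by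
      intro r
      have h1 := hΘ (C r)
      rwa [aeval_C, eval₂_C] at h1
    refine ⟨Θ, hΘr, fun h0 => ?_⟩
    obtain ⟨w, hw⟩ := hvr
    apply hθr
    rw [← hΘr, hw, map_mul, h0, zero_mul]

private theorem EXT_fin {Ω S : Type} [Field Ω] [IsAlgClosed Ω] [CommRing S] [IsDomain S]
    (s : Finset S) : ∀ (R : Type) [CommRing R] [Algebra R S],
      Function.Injective (algebraMap R S) → Algebra.adjoin R (s : Set S) = ⊤ → EXT_P Ω R S := by
  classical
  induction s using Finset.induction_on with
  | empty =>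
    intro R _ _ hinj htop v hv
    rw [Finset.coe_empty, Algebra.adjoin_empty] at htop
    have hsurj : Function.Surjective (algebraMap R S) := by
      intro x
      have hx : x ∈ (⊤ : Subalgebra R S) := trivial
      rw [← htop] at hx
      exact Algebra.mem_bot.1 hx
    obtain ⟨u, rfl⟩ := hsurj v
    refine ⟨u, fun h => hv (by rw [h, map_zero]), fun θ hθ => ?_⟩
    let e : R ≃+* S := RingEquiv.ofBijective (algebraMap R S) ⟨hinj, hsurj⟩
    have he : ∀ r, e.symm (algebraMap R S r) = r := fun r => e.symm_apply_apply r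
    refine ⟨θ.comp e.symm.toRingHom, fun r => ?_, ?_⟩
    · show θ (e.symm (algebraMap R S r)) = θ r
      rw [he]
    · show θ (e.symm (algebraMap R S u)) ≠ 0
      rw [he]
      exact hθ
  | insert b s hbs ih =>
    intro R _ _ hinj htop v hv
    have h1 : Algebra.adjoin (Algebra.adjoin R ({b} : Set S)) (s : Set S) = ⊤ := by
      have h2 := Algebra.adjoin_union_eq_adjoin_adjoin R ({b} : Set S) (s : Set S)
      rw [Set.singleton_union, ← Finset.coe_insert, htop] at h2
      rw [eq_top_iff]
      intro x _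
      have h3 : x ∈ (Algebra.adjoin (Algebra.adjoin R ({b} : Set S)) (s : Set S)).restrictScalars R := by
        rw [← h2]
        trivial
      exact h3
    obtain ⟨w, hw, hw'⟩ := ih (Algebra.adjoin R ({b} : Set S)) Subtype.val_injective h1 v hv
    have hone : EXT_P Ω R (Algebra.adjoin R ({b} : Set S)) := by
      refine EXT_one ?_ ⟨b, Algebra.subset_adjoin (Set.mem_singleton b)⟩ ?_
      · intro x y hxy
        exact hinj (congrArg Subtype.val hxy)
      · rintro ⟨x, hx⟩
        have hx' := hx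
        rw [Algebra.adjoin_singleton_eq_range_aeval] at hx'
        obtain ⟨p, hp⟩ := hx'
        refine ⟨p, Subtype.ext ?_⟩
        have h5 := aeval_algebraMap_apply S (⟨b, Algebra.subset_adjoin (Set.mem_singleton b)⟩ :
          Algebra.adjoin R ({b} : Set S)) p
        exact h5.symm.trans hp
    obtain ⟨u, hu, hu'⟩ := hone w hw
    refine ⟨u, hu, fun θ hθ => ?_⟩
    obtain ⟨Θ₁, h3, h4⟩ := hu' θ hθ
    obtain ⟨Θ, h5, h6⟩ := hw' Θ₁ h4
    refine ⟨Θ, fun r => ?_, h6⟩
    rw [← h3 r, ← h5]
    rfl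

theorem p_EXT : Stmt_EXT := by
  intro Ω B _ _ _ _ _ hfin A
  obtain ⟨s, hs⟩ := hfin.1
  have htop : Algebra.adjoin A (s : Set B) = ⊤ := by
    rw [eq_top_iff]
    intro x _
    have hx : x ∈ Algebra.adjoin Ω (s : Set B) := by
      rw [hs]
      trivial
    have hle : Algebra.adjoin Ω (s : Set B) ≤ (Algebra.adjoin A (s : Set B)).restrictScalars Ω :=
      Algebra.adjoin_le Algebra.subset_adjoin
    exact hle hx
  obtain ⟨h, hh, H⟩ := EXT_fin (Ω := Ω) s A Subtype.val_injective htop 1 one_ne_zero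
  refine ⟨h, hh, fun θ hθ => ?_⟩
  obtain ⟨Θ, h1, -⟩ := H θ.toRingHom hθ
  refine ⟨{ Θ with commutes' := fun c => ?_ }, fun a => h1 a⟩
  have h2 := h1 (algebraMap Ω A c)
  have h3 : θ.toRingHom (algebraMap Ω A c) = c := θ.commutes c
  rw [h3] at h2
  exact h2

end Pool.ThmP
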