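import Pool.Agent.Work.MP_f82ddf_P.Interface2
import Pool.Agent.Work.MP_f82ddf_M0.B_FMN

set_option autoImplicit false

/-! # Block FFB (helper81): forms without common zero define a morphism with finite fibres -/

namespace Pool.ThmP

open MvPolynomial Finset Pool.Agent.Work.MP_f82ddf_nt Pool.Agent.Work.MP_f82ddf_nt.DQ Pool.ThmM
  Pool.ThmM0

attribute [local instance] MvPolynomial.gradedAlgebra

/-- some power of every variable is in the ideal -/
private theorem FFB_pow_mem {Ω : Type} [Field Ω] [IsAlgClosed Ω] {m n : ℕ}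
    (S : Set (MvPolynomial (Fin (m + 1)) Ω)) (s : Fin (n + 1) → MvPolynomial (Fin (m + 1)) Ω)
    (hz : ∀ v : Fin (m + 1) → Ω, (∀ F ∈ S, eval v F = 0) → (∀ j, eval v (s j) = 0) → v = 0) :
    ∃ t : ℕ, ∀ i, (X i : MvPolynomial (Fin (m + 1)) Ω) ^ t ∈
      Ideal.span S ⊔ Ideal.span (Set.range s) := by
  have h0 : ∀ i, ∃ t : ℕ, (X i : MvPolynomial (Fin (m + 1)) Ω) ^ t ∈
      Ideal.span S ⊔ Ideal.span (Set.range s) := by
    intro i
    have h1 : (X i : MvPolynomial (Fin (m + 1)) Ω) ∈ vanishingIdeal Ω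
        (zeroLocus Ω (Ideal.span S ⊔ Ideal.span (Set.range s))) := by
      intro v hv
      have h2 : v = 0 := hz v
        (fun F hF => hv F (Ideal.mem_sup_left (Ideal.subset_span hF)))
        (fun j => hv _ (Ideal.mem_sup_right (Ideal.subset_span ⟨j, rfl⟩)))
      rw [aeval_X, h2]
      rfl
    rw [vanishingIdeal_zeroLocus_eq_radical] at h1
    exact h1
  choose t ht using h0
  refine ⟨∑ i, t i, fun i => ?_⟩
  obtain ⟨c, hc⟩ := Nat.exists_eq_add_of_le
    (Finset.single_le_sum (fun j _ => Nat.zero_le (t j)) (Finset.mem_univ i) : t i ≤ ∑ j, t j)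
  rw [hc, pow_add]
  exact Ideal.mul_mem_right _ _ (ht i)

private theorem FFB_decomp {Ω : Type} [Field Ω] {m n e : ℕ}
    (S : Set (MvPolynomial (Fin (m + 1)) Ω))
    (s : Fin (n + 1) → MvPolynomial (Fin (m + 1)) Ω) (hS : ∀ F ∈ S, ∃ d, F.IsHomogeneous d)
    (hs : ∀ j, (s j).IsHomogeneous e)
    (p : MvPolynomial (Fin (m + 1)) Ω) (T : ℕ) (hp : p.IsHomogeneous T) (hT : e ≤ T)
    (hpI : p ∈ Ideal.span S ⊔ Ideal.span (Set.range s)) :
    ∃ g : Fin (n + 1) → MvPolynomial (Fin (m + 1)) Ω, (∀ j, (g j).IsHomogeneous (T - e)) ∧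
      ∀ v : Fin (m + 1) → Ω, (∀ F ∈ S, eval v F = 0) →
        eval v p = ∑ j, eval v (g j) * eval v (s j) := by
  obtain ⟨a, ha, b, hb, hab⟩ := Submodule.mem_sup.1 hpI
  obtain ⟨g, hg⟩ := Ideal.mem_span_range_iff_exists_fun.1 hb
  have hI := Ideal.homogeneous_span (homogeneousSubmodule (Fin (m + 1)) Ω) S
    (fun F hF => by
      obtain ⟨d, hd⟩ := hS F hF
      exact ⟨d, hd⟩)
  have h1 : ((DirectSum.decompose (homogeneousSubmodule (Fin (m + 1)) Ω) a T :
      homogeneousSubmodule (Fin (m + 1)) Ω T) : MvPolynomial (Fin (m + 1)) Ω) ∈ Ideal.span S :=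
    hI T ha
  have h2 : ((DirectSum.decompose (homogeneousSubmodule (Fin (m + 1)) Ω) p T :
      homogeneousSubmodule (Fin (m + 1)) Ω T) : MvPolynomial (Fin (m + 1)) Ω) = p :=
    DirectSum.decompose_of_mem_same _ hp
  refine ⟨fun j => (DirectSum.decompose (homogeneousSubmodule (Fin (m + 1)) Ω) (g j) (T - e) :
      homogeneousSubmodule (Fin (m + 1)) Ω (T - e)), fun j => (mem_homogeneousSubmodule _ _).1
        (SetLike.coe_mem (DirectSum.decompose (homogeneousSubmodule (Fin (m + 1)) Ω) (g j)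
          (T - e))), ?_⟩
  intro v hv
  have h3 : eval v ((DirectSum.decompose (homogeneousSubmodule (Fin (m + 1)) Ω) a T :
      homogeneousSubmodule (Fin (m + 1)) Ω T) : MvPolynomial (Fin (m + 1)) Ω) = 0 := by
    have h4 : Ideal.span S ≤ RingHom.ker (eval v) := by
      rw [Ideal.span_le]
      exact fun F hF => hv F hF
    exact h4 h1
  have h5 : p = ((DirectSum.decompose (homogeneousSubmodule (Fin (m + 1)) Ω) a T :
      homogeneousSubmodule (Fin (m + 1)) Ω T) : MvPolynomial (Fin (m + 1)) Ω) +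
      ∑ j, ((DirectSum.decompose (homogeneousSubmodule (Fin (m + 1)) Ω) (g j) (T - e) :
      homogeneousSubmodule (Fin (m + 1)) Ω (T - e)) : MvPolynomial (Fin (m + 1)) Ω) * s j := by
    conv_lhs => rw [← h2, ← hab, ← hg]
    rw [DirectSum.decompose_add, DirectSum.add_apply, Submodule.coe_add,
      DirectSum.decompose_sum, DFinsupp.finsetSum_apply, AddSubmonoidClass.coe_finsetSum]
    congr 1
    refine Finset.sum_congr rfl fun j _ => ?_
    exact DirectSum.coe_decompose_mul_of_right_mem_of_le _ (hs j) hT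
  conv_lhs => rw [h5]
  rw [map_add, h3, zero_add, map_sum]
  refine Finset.sum_congr rfl fun j _ => ?_
  rw [map_mul]

private theorem FFB_eval {Ω : Type} [Field Ω] {m D : ℕ} (v : Fin (m + 1) → Ω)
    (q : MvPolynomial (Fin (m + 1)) Ω) (hq : q.IsHomogeneous D) :
    eval v q = ∑ γ : {β // β ∈ Finset.finsuppAntidiag (univ : Finset (Fin (m + 1))) D},
      coeff γ.1 q * ∏ i, v i ^ γ.1 i := by
  classical
  rw [eval_eq', Finset.sum_coe_sort (Finset.finsuppAntidiag (univ : Finset (Fin (m + 1))) D)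
    (fun γ => coeff γ q * ∏ i, v i ^ γ i)]
  refine Finset.sum_subset ?_ ?_
  · intro γ hγ
    exact Finset.mem_finsuppAntidiag.2 ⟨FMN.deg_eq hq hγ, Finset.subset_univ _⟩
  · intro γ _ hγ
    rw [notMem_support_iff.1 hγ, zero_mul]

private theorem FFB_poly {Ω : Type} [Field Ω] [IsAlgClosed Ω] {m n e : ℕ}
    (S : Set (MvPolynomial (Fin (m + 1)) Ω))
    (s : Fin (n + 1) → MvPolynomial (Fin (m + 1)) Ω) (hS : ∀ F ∈ S, ∃ d, F.IsHomogeneous d)
    (hs : ∀ j, (s j).IsHomogeneous e)
    (hz : ∀ v : Fin (m + 1) → Ω, (∀ F ∈ S, eval v F = 0) → (∀ j, eval v (s j) = 0) → v = 0)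
    (w : Fin (n + 1) → Ω) (i : Fin (m + 1)) :
    ∃ f : Polynomial Ω, f.Monic ∧ ∀ v : Fin (m + 1) → Ω, v ≠ 0 → (∀ F ∈ S, eval v F = 0) →
      (∀ j, eval v (s j) = w j) → f.eval (v i ^ e) = 0 := by
  classical
  obtain ⟨t, ht⟩ := FFB_pow_mem S s hz
  set D := (m + 1) * t with hD
  have hg : ∀ β : {β // β ∈ Finset.finsuppAntidiag (univ : Finset (Fin (m + 1))) D},
      ∃ g : Fin (n + 1) → MvPolynomial (Fin (m + 1)) Ω, (∀ j, (g j).IsHomogeneous D) ∧
        ∀ v : Fin (m + 1) → Ω, (∀ F ∈ S, eval v F = 0) →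
          (∏ l, v l ^ β.1 l) * v i ^ e = ∑ j, eval v (g j) * eval v (s j) := by
    intro β
    have hβ1 : ∑ i, β.1 i = D := (Finset.mem_finsuppAntidiag.1 β.2).1
    have hp : (monomial β.1 (1 : Ω) * X i ^ e).IsHomogeneous (D + e) := by
      refine IsHomogeneous.mul (isHomogeneous_monomial _ ?_) (isHomogeneous_X_pow i e)
      rw [Finsupp.degree_eq_sum]
      exact hβ1
    obtain ⟨g, hg, hgv⟩ := FFB_decomp S s hS hs _ (D + e) hp (by omega)
      (FMN.form_mem _ t ht _ _ hp (by omega))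
    rw [Nat.add_sub_cancel] at hg
    refine ⟨g, hg, fun v hv => ?_⟩
    rw [← hgv v hv, map_mul, map_pow, eval_X, eval_monomial, one_mul, Finsupp.prod_fintype]
    intro i
    exact pow_zero _
  choose g hg hgv using hg
  set B : Matrix {β // β ∈ Finset.finsuppAntidiag (univ : Finset (Fin (m + 1))) D}
    {β // β ∈ Finset.finsuppAntidiag (univ : Finset (Fin (m + 1))) D} Ω :=
    fun β γ => ∑ j, coeff γ.1 (g β j) * w j with hB
  refine ⟨B.charpoly, B.charpoly_monic, fun v hv0 hv hvw => ?_⟩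
  rw [Matrix.eval_charpoly]
  rw [← Matrix.exists_mulVec_eq_zero_iff]
  refine ⟨fun γ => ∏ l, v l ^ γ.1 l, ?_, ?_⟩
  · obtain ⟨l, hl⟩ : ∃ l, v l ≠ 0 := by
      by_contra hcon
      push Not at hcon
      exact hv0 (funext hcon)
    intro h0
    have hmem : Finsupp.single l D ∈ Finset.finsuppAntidiag (univ : Finset (Fin (m + 1))) D := by
      refine Finset.mem_finsuppAntidiag.2 ⟨?_, Finset.subset_univ _⟩
      rw [Finset.sum_eq_single l]
      · rw [Finsupp.single_eq_same]
      · intro b _ hb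
        rw [Finsupp.single_eq_of_ne hb]
      · intro hl'
        exact absurd (Finset.mem_univ _) hl'
    have h1 := congrFun h0 ⟨Finsupp.single l D, hmem⟩
    simp only [Pi.zero_apply] at h1
    rw [Finset.prod_eq_zero_iff] at h1
    obtain ⟨b, -, hb⟩ := h1
    by_cases hbl : b = l
    · subst hbl
      rw [Finsupp.single_eq_same] at hb
      exact pow_ne_zero _ hl hb
    · rw [Finsupp.single_eq_of_ne hbl, pow_zero] at hb
      exact one_ne_zero hb
  · rw [Matrix.sub_mulVec, sub_eq_zero]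
    ext β
    have h1 : ((Matrix.scalar _ (v i ^ e)).mulVec fun γ : {β // β ∈
        Finset.finsuppAntidiag (univ : Finset (Fin (m + 1))) D} => ∏ l, v l ^ γ.1 l) β =
        v i ^ e * ∏ l, v l ^ β.1 l := by
      rw [Matrix.scalar_apply, Matrix.mulVec_diagonal]
    rw [h1, mul_comm, hgv β v hv]
    simp only [Matrix.mulVec, dotProduct, hB, Finset.sum_mul]
    rw [Finset.sum_comm]
    refine Finset.sum_congr rfl fun j _ => ?_
    rw [hvw j, FFB_eval v (g β j) (hg β j), Finset.sum_mul]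
    refine Finset.sum_congr rfl fun γ _ => ?_
    ring

theorem p_FFB (_hNUL : Stmt_NUL) : Stmt_FFB := by
  classical
  intro K Ω _ _ _ _ m n e S s hS he hs hz
  let g : Mor K Ω m n S :=
    { tuples := {s}
      homogeneous := by
        intro s' hs'
        rw [Set.mem_singleton_iff] at hs'
        subst hs'
        exact ⟨e, hs⟩
      compatible := by
        intro s₁ h₁ s₂ h₂ v _ c d
        rw [Set.mem_singleton_iff] at h₁ h₂
        subst h₁
        subst h₂
        exact mul_comm _ _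
      defined := by
        intro v hv hvX
        refine ⟨s, rfl, ?_⟩
        by_contra hcon
        push Not at hcon
        exact hv (hz v hvX hcon) }
  refine ⟨g, rfl, ?_⟩
  intro w hw
  set S' : Set (MvPolynomial (Fin (m + 1)) Ω) := (map (algebraMap K Ω)) '' S with hS'
  have hX : ∀ v : Fin (m + 1) → Ω, OnX S v ↔ ∀ F ∈ S', eval v F = 0 := by
    intro v
    constructor
    · rintro h _ ⟨F, hF, rfl⟩
      rw [eval_map]
      exact h F hF
    · intro h F hF
      have := h _ ⟨F, hF, rfl⟩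
      rw [eval_map] at this
      exact this
  have hS'h : ∀ F ∈ S', ∃ d, F.IsHomogeneous d := by
    rintro _ ⟨F, hF, rfl⟩
    obtain ⟨d, hd⟩ := hS F hF
    exact ⟨d, hd.map _⟩
  have hz' : ∀ v : Fin (m + 1) → Ω, (∀ F ∈ S', eval v F = 0) → (∀ j, eval v (s j) = 0) → v = 0 :=
    fun v hv hj => hz v ((hX v).2 hv) hj
  choose f hfm hf using fun i => FFB_poly S' s hS'h hs hz' w i
  have hfin : (Set.pi Set.univ fun i => {z : Ω | (f i).eval (z ^ e) = 0}).Finite := by
    refine Set.Finite.pi fun i => ?_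
    have h1 : ((f i).comp (Polynomial.X ^ e)).Monic := by
      refine (hfm i).comp (Polynomial.monic_X_pow e) ?_
      rw [Polynomial.natDegree_X_pow]
      omega
    have h2 := Polynomial.finite_setOfPred_isRoot h1.ne_zero
    refine h2.subset ?_
    intro z hz
    simp only [Set.mem_ofPred_eq, Polynomial.IsRoot.def, Polynomial.eval_comp,
      Polynomial.eval_pow, Polynomial.eval_X] at hz ⊢
    exact hz
  have : Finite {v : Fin (m + 1) → Ω // v ∈ (Set.pi Set.univ fun i =>
      {z : Ω | (f i).eval (z ^ e) = 0}) ∧ v ≠ 0} :=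
    (hfin.subset (fun v hv => hv.1) : {v : Fin (m + 1) → Ω | v ∈ (Set.pi Set.univ fun i =>
      {z : Ω | (f i).eval (z ^ e) = 0}) ∧ v ≠ 0}.Finite).to_subtype
  refine (Set.finite_range (fun v : {v : Fin (m + 1) → Ω // v ∈ (Set.pi Set.univ fun i =>
      {z : Ω | (f i).eval (z ^ e) = 0}) ∧ v ≠ 0} =>
      (Projectivization.mk Ω v.1 v.2.2 : PSpace Ω m))).subset ?_
  rintro P ⟨hP1, hP2⟩
  have hP3 := hP2 s rfl
  obtain ⟨d, hd⟩ : ∃ d, w d ≠ 0 := by
    by_contra hcon
    push Not at hcon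
    exact hw (funext hcon)
  have hsd : eval P.rep (s d) ≠ 0 := by
    intro h0
    apply P.rep_nonzero
    refine hz P.rep hP1 fun c => ?_
    have := hP3 c d
    rw [h0, zero_mul] at this
    exact (mul_eq_zero.mp this).resolve_right hd
  obtain ⟨a, ha⟩ := IsAlgClosed.exists_pow_nat_eq (w d / eval P.rep (s d)) (by omega : 0 < e)
  have ha0 : a ≠ 0 := by
    intro h0
    rw [h0, zero_pow (by omega)] at ha
    exact (div_ne_zero hd hsd) ha.symm
  have hv0 : a • P.rep ≠ 0 := smul_ne_zero ha0 P.rep_nonzero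
  have hvX : OnX S (a • P.rep) := by
    intro F hF
    obtain ⟨d', hd'⟩ := hS F hF
    have h1 := eval₂_smul_hom hd' (algebraMap K Ω) P.rep a
    have h2 : eval₂ (algebraMap K Ω) P.rep F = 0 := hP1 F hF
    rw [h2, mul_zero] at h1
    exact h1
  have hvs : ∀ j, eval (a • P.rep) (s j) = w j := by
    intro j
    have h1 := eval₂_smul_hom (hs j) (RingHom.id Ω) P.rep a
    have h2 : eval (a • P.rep) (s j) = a ^ e * eval P.rep (s j) := h1
    rw [h2, ha, div_mul_eq_mul_div, div_eq_iff hsd, mul_comm, hP3 j d, mul_comm]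
  refine ⟨⟨a • P.rep, ?_, hv0⟩, ?_⟩
  · intro i _
    exact hf i (a • P.rep) hv0 ((hX _).1 hvX) hvs
  · show Projectivization.mk Ω (a • P.rep) hv0 = P
    conv_rhs => rw [← P.mk_rep]
    rw [Projectivization.mk_eq_mk_iff']
    exact ⟨a, rfl⟩

end Pool.ThmP
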