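import Pool.Agent.Work.MP_f82ddf_P.Interface

set_option autoImplicit false

/-! # Block FIB: finite fibres give algebraicity -/

namespace Pool.ThmP

open MvPolynomial Finset Pool.Agent.Work.MP_f82ddf_nt Pool.Agent.Work.MP_f82ddf_nt.DQ Pool.ThmM
  Pool.ThmM0

namespace FIB

/-- homomorphisms of a finitely generated algebra with prescribed values -/
theorem key (hEXT : Stmt_EXT) {Ω κ : Type} [Field Ω] [IsAlgClosed Ω] [Field κ] [Algebra Ω κ]
    (Y : Set κ) (hY : Y.Finite) (t : κ) (ht : Transcendental (Algebra.adjoin Ω Y) t)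
    (Z : Set κ) (hZ : Z.Finite)
    (htZ : t ∈ Algebra.adjoin Ω Z) :
    ∃ (θ₀ : Algebra.adjoin Ω Y →ₐ[Ω] Ω) (G : Set Ω), G.Infinite ∧ ∀ t₀ ∈ G,
      ∃ Θ : Algebra.adjoin Ω Z →ₐ[Ω] Ω,
        (∀ y (hy : y ∈ Algebra.adjoin Ω Y) (hy' : y ∈ Algebra.adjoin Ω Z),
          Θ ⟨y, hy'⟩ = θ₀ ⟨y, hy⟩) ∧ Θ ⟨t, htZ⟩ = t₀ := by
  classical
  let f : Polynomial (Algebra.adjoin Ω Y) →ₐ[Ω] κ :=
    (Polynomial.aeval t : Polynomial (Algebra.adjoin Ω Y) →ₐ[Algebra.adjoin Ω Y] κ).restrictScalars Ω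
  have hf : Function.Injective f := transcendental_iff_injective.1 ht
  have hfC : ∀ y (hy : y ∈ Algebra.adjoin Ω Y), f (Polynomial.C ⟨y, hy⟩) = y := by
    intro y hy
    show Polynomial.aeval t (Polynomial.C (⟨y, hy⟩ : Algebra.adjoin Ω Y)) = y
    rw [Polynomial.aeval_C]
    rfl
  have hfX : f Polynomial.X = t := by
    show Polynomial.aeval t (Polynomial.X : Polynomial (Algebra.adjoin Ω Y)) = t
    rw [Polynomial.aeval_X]
  have hFT : ∀ W : Set κ, W.Finite → Algebra.FiniteType Ω (Algebra.adjoin Ω W) := by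
    intro W hW
    rw [← Subalgebra.fg_iff_finiteType]
    have := Subalgebra.fg_adjoin_finset (R := Ω) hW.toFinset
    rwa [Set.Finite.coe_toFinset] at this
  obtain ⟨h, hh0, hh⟩ := hEXT Ω (Algebra.adjoin Ω Z) (hFT Z hZ)
    (f.range.comap (Algebra.adjoin Ω Z).val)
  obtain ⟨P, hP⟩ : ∃ P, f P = ((h : Algebra.adjoin Ω Z) : κ) := h.2
  have hP0 : P ≠ 0 := by
    intro h0
    rw [h0, map_zero] at hP
    apply hh0
    apply Subtype.ext
    apply Subtype.ext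
    exact hP.symm
  obtain ⟨q, hq⟩ : ∃ q, P.coeff q ≠ 0 := by
    by_contra hc
    push Not at hc
    exact hP0 (Polynomial.ext fun q => by rw [hc q, Polynomial.coeff_zero])
  obtain ⟨a, ha⟩ : ∃ a, a = P.coeff q := ⟨_, rfl⟩
  have ha0 : (a : κ) ≠ 0 := by
    intro h0
    apply hq
    rw [← ha]
    exact Subtype.ext h0
  -- the homomorphism `θ₀`
  obtain ⟨h', hh'0, hh'⟩ := hEXT Ω (Algebra.adjoin Ω (Y ∪ {(a : κ)⁻¹}))
    (hFT _ (hY.union (Set.finite_singleton _))) ⊥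
  obtain ⟨Θ₀, -⟩ := hh' (Algebra.botEquiv Ω (Algebra.adjoin Ω (Y ∪ {(a : κ)⁻¹}))).toAlgHom (by
    intro h0
    apply hh'0
    have h1 : (Algebra.botEquiv Ω (Algebra.adjoin Ω (Y ∪ {(a : κ)⁻¹}))) h' = 0 := h0
    exact (map_eq_zero_iff _ (Algebra.botEquiv Ω _).injective).1 h1)
  have hle : Algebra.adjoin Ω Y ≤ Algebra.adjoin Ω (Y ∪ {(a : κ)⁻¹}) :=
    Algebra.adjoin_mono Set.subset_union_left
  have hainv : (a : κ)⁻¹ ∈ Algebra.adjoin Ω (Y ∪ {(a : κ)⁻¹}) :=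
    Algebra.subset_adjoin (Or.inr rfl)
  let θ₀ : Algebra.adjoin Ω Y →ₐ[Ω] Ω := Θ₀.comp (Subalgebra.inclusion hle)
  have hθa : θ₀ a ≠ 0 := by
    intro h0
    have h1 : Θ₀ (Subalgebra.inclusion hle a) * Θ₀ ⟨(a : κ)⁻¹, hainv⟩ = 1 := by
      rw [← map_mul, ← map_one Θ₀]
      congr 1
      apply Subtype.ext
      show (a : κ) * (a : κ)⁻¹ = 1
      exact mul_inv_cancel₀ ha0
    have h2 : Θ₀ (Subalgebra.inclusion hle a) = 0 := h0
    rw [h2, zero_mul] at h1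
    exact zero_ne_one h1
  have hmap : P.map (θ₀ : Algebra.adjoin Ω Y →+* Ω) ≠ 0 := by
    intro h0
    apply hθa
    have h1 := congrArg (fun R : Polynomial Ω => R.coeff q) h0
    simp only [Polynomial.coeff_map, Polynomial.coeff_zero] at h1
    rw [ha]
    exact h1
  refine ⟨θ₀, {t₀ | (P.map (θ₀ : Algebra.adjoin Ω Y →+* Ω)).IsRoot t₀}ᶜ, ?_, ?_⟩
  · have : Infinite Ω := IsAlgClosed.instInfinite
    exact (Polynomial.finite_setOfPred_isRoot hmap).infinite_compl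
  intro t₀ ht₀
  let ev : Polynomial (Algebra.adjoin Ω Y) →ₐ[Ω] Ω :=
    { Polynomial.eval₂RingHom (θ₀ : Algebra.adjoin Ω Y →+* Ω) t₀ with
      commutes' := by
        intro r
        show Polynomial.eval₂ (θ₀ : Algebra.adjoin Ω Y →+* Ω) t₀
          (algebraMap Ω (Polynomial (Algebra.adjoin Ω Y)) r) = r
        rw [Polynomial.algebraMap_apply, Polynomial.eval₂_C]
        exact θ₀.commutes r }
  have hevC : ∀ y, ev (Polynomial.C y) = θ₀ y := by
    intro y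
    show Polynomial.eval₂ (θ₀ : Algebra.adjoin Ω Y →+* Ω) t₀ (Polynomial.C y) = θ₀ y
    rw [Polynomial.eval₂_C]
    rfl
  have hevX : ev Polynomial.X = t₀ := by
    show Polynomial.eval₂ (θ₀ : Algebra.adjoin Ω Y →+* Ω) t₀ Polynomial.X = t₀
    rw [Polynomial.eval₂_X]
  let eqv := AlgEquiv.ofInjective f hf
  let gg : (f.range.comap (Algebra.adjoin Ω Z).val) →ₐ[Ω] f.range :=
    ((Algebra.adjoin Ω Z).val.comp (f.range.comap (Algebra.adjoin Ω Z).val).val).codRestrict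
      f.range (fun b => b.2)
  let θ : (f.range.comap (Algebra.adjoin Ω Z).val) →ₐ[Ω] Ω :=
    (ev.comp eqv.symm.toAlgHom).comp gg
  have hθ : ∀ (b : f.range.comap (Algebra.adjoin Ω Z).val) (R : Polynomial (Algebra.adjoin Ω Y)),
      f R = ((b : Algebra.adjoin Ω Z) : κ) → θ b = ev R := by
    intro b R hR
    show ev (eqv.symm (gg b)) = ev R
    congr 1
    rw [AlgEquiv.symm_apply_eq]
    apply Subtype.ext
    exact hR.symm
  obtain ⟨Θ, hΘ⟩ := hh θ (by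
    rw [hθ h P hP]
    intro h0
    apply ht₀
    show Polynomial.eval t₀ (P.map (θ₀ : Algebra.adjoin Ω Y →+* Ω)) = 0
    rw [Polynomial.eval_map]
    exact h0)
  refine ⟨Θ, fun y hy hy' => ?_, ?_⟩
  · have h1 := hΘ ⟨⟨y, hy'⟩, ⟨Polynomial.C ⟨y, hy⟩, hfC y hy⟩⟩
    rw [hθ _ (Polynomial.C ⟨y, hy⟩) (hfC y hy), hevC] at h1
    exact h1
  · have h1 := hΘ ⟨⟨t, htZ⟩, ⟨Polynomial.X, hfX⟩⟩
    rw [hθ _ Polynomial.X hfX, hevX] at h1
    exact h1

/-- inclusion of subalgebras over different rings -/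
theorem incl_exists {R₁ R₂ M : Type} [CommRing R₁] [CommRing R₂] [CommRing M] [Algebra R₁ M]
    [Algebra R₂ M] (A : Subalgebra R₁ M) (B : Subalgebra R₂ M) (h : ∀ a ∈ A, a ∈ B) :
    ∃ f : A →+* B, (algebraMap B M).comp f = algebraMap A M ∧ Function.Injective f := by
  refine ⟨{ toFun := fun a => ⟨a, h a a.2⟩
            map_one' := rfl
            map_mul' := fun _ _ => rfl
            map_zero' := rfl
            map_add' := fun _ _ => rfl }, ?_, ?_⟩
  · ext a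
    rfl
  · intro a b hab
    exact Subtype.ext (congrArg (fun z : B => (z : M)) hab)

end FIB

open FIB in
theorem p_FIB (hMPT : Stmt_MPT) (hEXT : Stmt_EXT) : Stmt_FIB := by
  classical
  intro K Ω _ _ _ _ m n S g hS hfin τ x hx s hs c₀ hc₀ i i₀ hi₀
  letI : Algebra Ω Mer := (tm τ).toAlgebra
  have hτ : algebraMap Ω Mer = tm τ := rfl
  obtain ⟨x', hx'⟩ : ∃ x' : Fin (m + 1) → Mer, x' = (x i₀)⁻¹ • x := ⟨_, rfl⟩
  have hx'K : OnK (tm τ) S x' := by
    intro F hF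
    obtain ⟨d, hd⟩ := hS F hF
    rw [hx', eval₂_smul_hom hd, hx F hF, mul_zero]
  have hx'0 : x' i₀ = 1 := by
    rw [hx']
    exact inv_mul_cancel₀ hi₀
  have hx't : x i / x i₀ = x' i := by
    rw [hx', Pi.smul_apply, smul_eq_mul, div_eq_mul_inv, mul_comm]
  obtain ⟨e, he⟩ := g.homogeneous s hs
  have hsx : ∀ c, eval₂ (tm τ) x' (s c) = ((x i₀)⁻¹) ^ e * eval₂ (tm τ) x (s c) := fun c => by
    rw [hx', eval₂_smul_hom (he c)]
  have hu : ((x i₀)⁻¹) ^ e ≠ 0 := pow_ne_zero _ (inv_ne_zero hi₀)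
  have hc₀' : eval₂ (tm τ) x' (s c₀) ≠ 0 := by
    rw [hsx]; exact mul_ne_zero hu hc₀
  have hyy : (fun c => eval₂ (tm τ) x (s c) / eval₂ (tm τ) x (s c₀)) =
      fun c => eval₂ (tm τ) x' (s c) / eval₂ (tm τ) x' (s c₀) := by
    funext c
    rw [hsx, hsx, mul_div_mul_left _ _ hu]
  rw [hyy, hx't]
  obtain ⟨y, hy⟩ : ∃ y : Fin (n + 1) → Mer,
      y = fun c => eval₂ (tm τ) x' (s c) / eval₂ (tm τ) x' (s c₀) := ⟨_, rfl⟩
  rw [← hy]
  by_contra htr
  have ht : Transcendental (Algebra.adjoin Ω (Set.range y)) (x' i) := by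
    rintro ⟨p, hp0, hp⟩
    have hsub : ∀ a ∈ Algebra.adjoin Ω (Set.range y), a ∈ Algebra.adjoin ℂ (Set.range y) := by
      intro a ha
      induction ha using Algebra.adjoin_induction with
      | mem a ha => exact Algebra.subset_adjoin ha
      | algebraMap r => exact (Algebra.adjoin ℂ (Set.range y)).algebraMap_mem (τ r)
      | add a b _ _ ha hb => exact add_mem ha hb
      | mul a b _ _ ha hb => exact mul_mem ha hb
    obtain ⟨incl, hincl, hinj⟩ := incl_exists (Algebra.adjoin Ω (Set.range y))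
      (Algebra.adjoin ℂ (Set.range y)) hsub
    refine htr ⟨p.map incl, ?_, ?_⟩
    · intro h0
      apply hp0
      apply Polynomial.map_injective incl hinj
      rw [h0, Polynomial.map_zero]
    · rw [Polynomial.aeval_def, Polynomial.eval₂_map, hincl]
      rw [Polynomial.aeval_def] at hp
      exact hp
  obtain ⟨Z, hZ⟩ : ∃ Z : Set Mer, Z = Set.range x' ∪ {(eval₂ (tm τ) x' (s c₀))⁻¹} := ⟨_, rfl⟩
  have hZfin : Z.Finite := by
    rw [hZ]
    exact (Set.finite_range x').union (Set.finite_singleton _)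
  have hxZ : ∀ l, x' l ∈ Algebra.adjoin Ω Z := fun l =>
    Algebra.subset_adjoin (by rw [hZ]; exact Or.inl ⟨l, rfl⟩)
  have hinvZ : (eval₂ (tm τ) x' (s c₀))⁻¹ ∈ Algebra.adjoin Ω Z :=
    Algebra.subset_adjoin (by rw [hZ]; exact Or.inr rfl)
  obtain ⟨θ₀, G, hG, hΘ⟩ := key hEXT (Set.range y) (Set.finite_range y) (x' i) ht Z hZfin (hxZ i)
  -- polynomials in `x'`
  let xB : Fin (m + 1) → Algebra.adjoin Ω Z := fun l => ⟨x' l, hxZ l⟩
  have hxB : ∀ H : MvPolynomial (Fin (m + 1)) Ω,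
      ((aeval xB H : Algebra.adjoin Ω Z) : Mer) = eval₂ (tm τ) x' H := by
    intro H
    have h1 := MvPolynomial.comp_aeval_apply xB (Algebra.adjoin Ω Z).val H
    exact h1
  have hyZ : ∀ c, y c ∈ Algebra.adjoin Ω Z := by
    intro c
    rw [hy]
    show eval₂ (tm τ) x' (s c) / eval₂ (tm τ) x' (s c₀) ∈ _
    rw [div_eq_mul_inv, ← hxB]
    exact mul_mem (aeval xB (s c) : Algebra.adjoin Ω Z).2 hinvZ
  have hyA : ∀ c, y c ∈ Algebra.adjoin Ω (Set.range y) := fun c =>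
    Algebra.subset_adjoin ⟨c, rfl⟩
  obtain ⟨w, hw⟩ : ∃ w : Fin (n + 1) → Ω, w = fun c => θ₀ ⟨y c, hyA c⟩ := ⟨_, rfl⟩
  have hw0 : w ≠ 0 := by
    intro h0
    have h1 : w c₀ = 1 := by
      rw [hw]
      show θ₀ ⟨y c₀, hyA c₀⟩ = 1
      rw [← map_one θ₀]
      congr 1
      apply Subtype.ext
      show y c₀ = 1
      rw [hy]
      exact div_self hc₀'
    rw [h0] at h1
    exact zero_ne_one h1
  have hmain : ∀ t₀ ∈ G, ∃ P : PSpace Ω m, (OnX S P.rep ∧ ∀ s ∈ g.tuples, ∀ c d,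
      eval P.rep (s c) * w d = eval P.rep (s d) * w c) ∧
      P.rep i₀ ≠ 0 ∧ P.rep i = t₀ * P.rep i₀ := by
    intro t₀ ht₀
    obtain ⟨Θ, h1, h2⟩ := hΘ t₀ ht₀
    obtain ⟨p, hp⟩ : ∃ p : Fin (m + 1) → Ω, p = fun l => Θ (xB l) := ⟨_, rfl⟩
    have hpe : ∀ H : MvPolynomial (Fin (m + 1)) Ω, eval p H = Θ (aeval xB H) := by
      intro H
      have h3 := MvPolynomial.comp_aeval_apply xB Θ H
      rw [h3, hp]
      rfl
    have hpX : OnX S p := by
      intro F hF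
      have h3 : eval p (map (algebraMap K Ω) F) = 0 := by
        rw [hpe]
        have h4 : (aeval xB (map (algebraMap K Ω) F) : Algebra.adjoin Ω Z) = 0 := by
          apply Subtype.ext
          rw [hxB, eval₂_map]
          exact hx'K F hF
        rw [h4, map_zero]
      rw [eval_map] at h3
      exact h3
    have hp0 : p i₀ = 1 := by
      rw [hp]
      show Θ (xB i₀) = 1
      rw [← map_one Θ]
      congr 1
      exact Subtype.ext hx'0
    have hpi : p i = t₀ := by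
      rw [hp]
      exact h2
    have hpw : ∀ s' ∈ g.tuples, ∀ c d, eval p (s' c) * w d = eval p (s' d) * w c := by
      intro s' hs' c d
      rw [hpe, hpe, hw]
      show Θ (aeval xB (s' c)) * θ₀ ⟨y d, hyA d⟩ = Θ (aeval xB (s' d)) * θ₀ ⟨y c, hyA c⟩
      rw [← h1 (y d) (hyA d) (hyZ d), ← h1 (y c) (hyA c) (hyZ c), ← map_mul, ← map_mul]
      congr 1
      apply Subtype.ext
      show ((aeval xB (s' c) : Algebra.adjoin Ω Z) : Mer) * y d =
        ((aeval xB (s' d) : Algebra.adjoin Ω Z) : Mer) * y c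
      rw [hxB, hxB, hy]
      show eval₂ (tm τ) x' (s' c) * (eval₂ (tm τ) x' (s d) / eval₂ (tm τ) x' (s c₀)) =
        eval₂ (tm τ) x' (s' d) * (eval₂ (tm τ) x' (s c) / eval₂ (tm τ) x' (s c₀))
      rw [← mul_div_assoc, ← mul_div_assoc,
        (hMPT K Ω Mer m n S g (tm τ) x' hx'K).2 s' hs' s hs c d]
    have hpne : p ≠ 0 := by
      intro h0
      rw [h0] at hp0
      exact zero_ne_one hp0
    obtain ⟨a, ha⟩ := Projectivization.exists_smul_eq_mk_rep Ω p hpne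
    have ha' : (Projectivization.mk Ω p hpne).rep = (a : Ω) • p := ha.symm
    refine ⟨Projectivization.mk Ω p hpne, ⟨?_, ?_⟩, ?_, ?_⟩
    · intro F hF
      obtain ⟨d, hd⟩ := hS F hF
      rw [ha']
      show eval₂ (algebraMap K Ω) ((a : Ω) • p) F = 0
      rw [eval₂_smul_hom hd]
      have h3 : eval₂ (algebraMap K Ω) p F = 0 := hpX F hF
      rw [h3, mul_zero]
    · intro s' hs' c d
      obtain ⟨e', he'⟩ := g.homogeneous s' hs'
      have h3 : ∀ c, eval ((a : Ω) • p) (s' c) = (a : Ω) ^ e' * eval p (s' c) := fun c =>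
        eval₂_smul_hom (he' c) (RingHom.id Ω) p (a : Ω)
      rw [ha', h3, h3, mul_assoc, mul_assoc, hpw s' hs' c d]
    · rw [ha', Pi.smul_apply, hp0, smul_eq_mul, mul_one]
      exact a.ne_zero
    · rw [ha', Pi.smul_apply, Pi.smul_apply, hp0, hpi, smul_eq_mul, smul_eq_mul]
      ring
  choose! Q hQ1 hQ2 hQ3 using hmain
  refine Set.infinite_of_injOn_mapsTo (f := Q) ?_ (fun t ht => hQ1 t ht) hG (hfin w hw0)
  intro t₀ ht₀ t₁ ht₁ hq
  have h3 := hQ3 t₀ ht₀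
  have h4 := hQ3 t₁ ht₁
  rw [hq] at h3
  have h5 : t₀ * (Q t₁).rep i₀ = t₁ * (Q t₁).rep i₀ := by rw [← h3, h4]
  exact mul_right_cancel₀ (hQ2 t₁ ht₁) h5

end Pool.ThmP
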