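import Pool.Agent.Work.MP_f82ddf_P.Interface

/-!
# Theorem P, block GNP
-/

set_option autoImplicit false

namespace Pool.ThmP

open MvPolynomial Finset Pool.Agent.Work.MP_f82ddf_nt Pool.Agent.Work.MP_f82ddf_nt.DQ Pool.ThmM
  Pool.ThmM0

private lemma GNP_hom_smul {σ : Type} {n : ℕ} {p : MvPolynomial σ ℂ} (hp : p.IsHomogeneous n)
    (c : ℂ) (t : σ → ℂ) : eval (c • t) p = c ^ n * eval t p := by
  rw [eval_eq, eval_eq, Finset.mul_sum]
  refine Finset.sum_congr rfl fun s hs => ?_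
  have h1 : s.degree = n := by
    by_contra h
    exact (mem_support_iff.1 hs) (hp.coeff_eq_zero h)
  rw [← h1]
  have h2 : ∏ i ∈ s.support, (c • t) i ^ s i = c ^ s.degree * ∏ i ∈ s.support, t i ^ s i := by
    simp only [Pi.smul_apply, smul_eq_mul, mul_pow, Finset.prod_mul_distrib]
    congr 1
    rw [Finset.prod_pow_eq_pow_sum]
    rfl
  rw [h2]
  ring

/-- a maximal set of pairwise non proportional vectors in a finite family -/
private lemma GNP_maxset {ρ M : ℕ} (u : Fin M → Fin (ρ + 1) → ℂ) :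
    ∃ S : Finset (Fin (ρ + 1) → ℂ), (∀ v ∈ S, ∀ v' ∈ S, v ≠ v' → NonProp v v') ∧
      (∀ v ∈ S, ∃ j, u j = v) ∧ (∀ j, u j ≠ 0 → ∃ s ∈ S, ∃ c : ℂ, u j = c • s) := by
  classical
  set V : Finset (Fin (ρ + 1) → ℂ) := (Finset.univ.image u).filter (fun v => v ≠ 0) with hV
  set F : Finset (Finset (Fin (ρ + 1) → ℂ)) :=
    V.powerset.filter (fun S => ∀ v ∈ S, ∀ v' ∈ S, v ≠ v' → NonProp v v') with hF
  have hne : F.Nonempty := ⟨∅, by
    rw [hF, Finset.mem_filter]
    exact ⟨Finset.empty_mem_powerset _, by simp⟩⟩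
  obtain ⟨S, hS, hmax⟩ := Finset.exists_max_image F Finset.card hne
  rw [hF, Finset.mem_filter, Finset.mem_powerset] at hS
  obtain ⟨hSV, hSp⟩ := hS
  have hS0 : ∀ s ∈ S, s ≠ 0 := fun s hs => (Finset.mem_filter.1 (hSV hs)).2
  refine ⟨S, hSp, ?_, ?_⟩
  · intro v hv
    have h1 := (Finset.mem_filter.1 (hSV hv)).1
    obtain ⟨j, -, hj⟩ := Finset.mem_image.1 h1
    exact ⟨j, hj⟩
  intro j hj
  by_contra hcon
  push Not at hcon
  have hnot : u j ∉ S := fun h => hcon (u j) h 1 (one_smul _ _).symm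
  have hins : insert (u j) S ∈ F := by
    rw [hF, Finset.mem_filter, Finset.mem_powerset]
    refine ⟨?_, ?_⟩
    · intro v hv
      rcases Finset.mem_insert.1 hv with rfl | hv
      · rw [hV, Finset.mem_filter]
        exact ⟨Finset.mem_image_of_mem _ (Finset.mem_univ _), hj⟩
      · exact hSV hv
    · have hnp : ∀ s ∈ S, ∀ a b : ℂ, a • u j = b • s → a = 0 ∧ b = 0 := by
        intro s hs a b hab
        have ha : a = 0 := by
          by_contra ha
          apply hcon s hs (a⁻¹ * b)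
          rw [mul_smul, ← hab, smul_smul, inv_mul_cancel₀ ha, one_smul]
        refine ⟨ha, ?_⟩
        rw [ha, zero_smul] at hab
        rcases smul_eq_zero.1 hab.symm with h | h
        · exact h
        · exact absurd h (hS0 s hs)
      intro v hv v' hv' hvv'
      rcases Finset.mem_insert.1 hv with rfl | hv
      · rcases Finset.mem_insert.1 hv' with rfl | hv'
        · exact absurd rfl hvv'
        · exact hnp v' hv'
      · rcases Finset.mem_insert.1 hv' with rfl | hv'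
        · intro a b hab
          have := hnp v hv b a hab.symm
          exact ⟨this.2, this.1⟩
        · exact hSp v hv v' hv' hvv'
  have h1 := hmax _ hins
  rw [Finset.card_insert_of_notMem hnot] at h1
  omega

/-- GNP -/
theorem p_GNP (hMPT : Stmt_MPT) (hKTH : Stmt_KTH) (hFIB : Stmt_FIB) (hBAS : Stmt_BAS)
    (hLGP : Stmt_LGP) (hNHC : Pool.ThmM0.Stmt_NHC) (hPUL : Pool.ThmM0.Stmt_PUL)
    (hCST : Pool.ThmM0.Stmt_CST) (hEXPO : Pool.ThmM0.Stmt_EXPO) : Stmt_GNP := by
  classical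
  intro n
  let β : ℕ → ℕ := fun ρ => if h : 1 ≤ ρ then (hLGP ρ h).choose else 0
  refine ⟨max 1 ((Finset.range (n + 1)).sup β), ?_⟩
  intro k N hk K Ω _ _ _ _ m S hS g l hfin hno hdiv τ x hx i₀ i hi₀
  have hx0 : x ≠ 0 := fun h => hi₀ (congrFun h i₀)
  obtain ⟨s, hs, c₁, hc₁⟩ := (hMPT K Ω Mer m n S g (tm τ) x hx).1 hx0
  set y : Fin (n + 1) → Mer := fun c => eval₂ (tm τ) x (s c) with hy
  have hy0 : y ≠ 0 := fun h => hc₁ (congrFun h c₁)
  obtain ⟨ρ, ι, b, hρ, hlin, hyb, hcols⟩ := hBAS n y hy0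
  rcases Nat.eq_zero_or_pos ρ with h0 | hρ1
  · subst h0
    have hι : y (ι 0) ≠ 0 := hlin.ne_zero 0
    have h1 := hFIB K Ω m n S g hS hfin τ x hx s hs (ι 0) hι i i₀ hi₀
    obtain ⟨z, hz⟩ := hCST n y (ι 0) hι (fun j => ⟨b j 0, by
      rw [hyb j, Fin.sum_univ_one]⟩) (x i / x i₀) h1
    refine ⟨z, ?_⟩
    rw [← hz, div_mul_cancel₀ _ hi₀]
  · exfalso
    obtain ⟨φ, hφ⟩ := hEXPO
    have hinj : Function.Injective φ := φ.toRingHom.injective
    -- the nodes
    set u : Fin (N + 1) → Fin (ρ + 1) → ℂ := fun j i => ∑ c, τ (l j c) * b c i with hu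
    set z : Fin (N + 1) → Mer := fun j => ∑ c, tm τ (l j c) * eval₂ (tm τ) x (s c) with hz
    have hzu : ∀ j, z j = ∑ i, algebraMap ℂ Mer (u j i) * y (ι i) := by
      intro j
      have h1 : ∀ c, tm τ (l j c) * eval₂ (tm τ) x (s c) =
          ∑ i, algebraMap ℂ Mer (τ (l j c) * b c i) * y (ι i) := by
        intro c
        have h2 : eval₂ (tm τ) x (s c) = ∑ i, algebraMap ℂ Mer (b c i) * y (ι i) := hyb c
        rw [h2, Finset.mul_sum]
        refine Finset.sum_congr rfl fun i _ => ?_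
        rw [map_mul, mul_assoc]
        rfl
      rw [hz]
      change ∑ c, tm τ (l j c) * eval₂ (tm τ) x (s c) = _
      rw [Finset.sum_congr rfl fun c _ => h1 c, Finset.sum_comm]
      refine Finset.sum_congr rfl fun i _ => ?_
      rw [hu]
      change _ = algebraMap ℂ Mer (∑ c, τ (l j c) * b c i) * y (ι i)
      rw [map_sum, Finset.sum_mul]
    have hno' := hNHC Ω ℂ τ (N + 1) n _ l hno
    have hno3 : NoHypersurface (max 1 ((Finset.range (n + 1)).sup β)) u :=
      hPUL (N + 1) n ρ _ _ b hno' hcols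
    obtain ⟨S₁, hS1, hS2, hS3⟩ := GNP_maxset u
    obtain ⟨j₁, hj₁⟩ := hno3 1 (X 0) (le_max_left _ _) (isHomogeneous_X _ _) (X_ne_zero _)
    rw [eval_X] at hj₁
    have huj₁ : u j₁ ≠ 0 := fun h => hj₁ (congrFun h 0)
    obtain ⟨s₀, hs₀, c₀, hc₀⟩ := hS3 j₁ huj₁
    have hs₀0 : s₀ ≠ 0 := by
      intro h
      apply huj₁
      rw [hc₀, h, smul_zero]
    obtain ⟨j₀, hj₀⟩ := hS2 s₀ hs₀
    have huj₀ : u j₀ ≠ 0 := by rw [hj₀]; exact hs₀0
    have hmul : ∀ j, ∃ s ∈ S₁, ∃ c : ℂ, u j = c • s := by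
      intro j
      by_cases hj : u j = 0
      · exact ⟨s₀, hs₀, 0, by rw [hj, zero_smul]⟩
      · exact hS3 j hj
    have hz0 : z j₀ ≠ 0 := by
      intro h
      apply huj₀
      rw [hzu j₀] at h
      rw [Fintype.linearIndependent_iff] at hlin
      funext i
      refine hlin (u j₀) ?_ i
      rw [← h]
      refine Finset.sum_congr rfl fun i _ => ?_
      rw [Algebra.smul_def]
    have hβ : (hLGP ρ hρ1).choose ≤ max 1 ((Finset.range (n + 1)).sup β) := by
      have h1 : β ρ ≤ (Finset.range (n + 1)).sup β :=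
        Finset.le_sup (f := β) (Finset.mem_range.2 (by omega))
      have h2 : β ρ = (hLGP ρ hρ1).choose := dif_pos hρ1
      rw [← h2]
      exact h1.trans (le_max_right _ _)
    refine (hLGP ρ hρ1).choose_spec S₁ hS1 ?_ k (fun i => φ (y (ι i) / z j₀)) hk ?_ ?_ ?_
    · intro e G he hG hG0
      by_contra hcon
      push Not at hcon
      obtain ⟨j, hj⟩ := hno3 e G (he.trans hβ) hG hG0
      apply hj
      obtain ⟨s', hs', c, hc⟩ := hmul j
      rw [hc, GNP_hom_smul hG, hcon s' hs', mul_zero]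
    · have h1 := hlin.map' (φ.toLinearMap ∘ₗ LinearMap.mulRight ℂ (z j₀)⁻¹) (by
        rw [LinearMap.ker_eq_bot]
        intro p q hpq
        have h2 : φ (p * (z j₀)⁻¹) = φ (q * (z j₀)⁻¹) := hpq
        exact mul_right_cancel₀ (inv_ne_zero hz0) (hinj h2))
      have e : (fun i => φ (y (ι i) / z j₀)) =
          (φ.toLinearMap ∘ₗ LinearMap.mulRight ℂ (z j₀)⁻¹) ∘ (fun i => y (ι i)) := by
        funext i
        change φ (y (ι i) / z j₀) = φ (y (ι i) * (z j₀)⁻¹)
        rw [div_eq_mul_inv]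
      rw [e]
      exact h1
    · intro i
      exact hφ _
    · intro v hv
      obtain ⟨j, rfl⟩ := hS2 v hv
      obtain ⟨w, hw⟩ := hKTH K Ω m n k S g (by omega) hS τ x hx s hs (l j) (l j₀) (hdiv j)
        (hdiv j₀) hz0
      refine ⟨φ w, ?_⟩
      rw [← map_pow, ← hw]
      change _ = φ (z j / z j₀)
      rw [hzu j, Finset.sum_div, map_sum]
      refine Finset.sum_congr rfl fun i _ => ?_
      rw [mul_div_assoc, map_mul, AlgHom.commutes]

end Pool.ThmP
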