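import Pool.Agent.Work.MP_f82ddf_P.Interface

set_option autoImplicit false

namespace Pool.ThmP

open MvPolynomial Finset Pool.Agent.Work.MP_f82ddf_nt Pool.Agent.Work.MP_f82ddf_nt.DQ Pool.ThmM
  Pool.ThmM0

theorem p_HPT (hNUL : Stmt_NUL) (hMPT : Stmt_MPT) : Stmt_HPT := by
  intro K Ω κ _ _ _ _ _ m n N S g l J hJ τ x hx hx0 s hs hsc
  obtain ⟨d, hd⟩ := hsc
  obtain ⟨i, hi⟩ : ∃ i, x i ≠ 0 := by
    by_contra h
    push Not at h
    exact hx0 (funext h)
  -- an element of `E` which does not vanish at `x`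
  have hE : ∃ j ∈ J, ∃ s' ∈ g.tuples, ∑ c, τ (l j c) * eval₂ τ x (s' c) ≠ 0 := by
    by_contra hcon
    push Not at hcon
    have key := hNUL K Ω κ m S
      {H : MvPolynomial (Fin (m + 1)) Ω | ∃ j ∈ J, ∃ s' ∈ g.tuples, H = ∑ c, C (l j c) * s' c}
      (X i) ?_ τ x hx ?_
    · rw [eval₂_X] at key
      exact hi key
    · intro v hv hvE
      by_cases hv0 : v = 0
      · simp [hv0]
      · exfalso
        obtain ⟨j, hj, hjm⟩ := hJ v hv0 hv
        apply hjm
        intro s' hs'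
        have := hvE _ ⟨j, hj, s', hs', rfl⟩
        simpa [map_sum] using this
    · rintro H ⟨j, hj, s', hs', rfl⟩
      have := hcon j hj s' hs'
      simpa [eval₂_sum, eval₂_mul, eval₂_C] using this
  obtain ⟨j, hj, s', hs', hne⟩ := hE
  refine ⟨j, hj, fun h0 => ?_⟩
  have hprop := (hMPT K Ω κ m n S g τ x hx).2 s' hs' s hs
  apply hne
  have h1 : eval₂ τ x (s d) * ∑ c, τ (l j c) * eval₂ τ x (s' c) =
      eval₂ τ x (s' d) * ∑ c, τ (l j c) * eval₂ τ x (s c) := by
    rw [Finset.mul_sum, Finset.mul_sum]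
    refine Finset.sum_congr rfl fun c _ => ?_
    have := hprop c d
    linear_combination τ (l j c) * this
  rw [h0, mul_zero] at h1
  exact (mul_eq_zero.mp h1).resolve_left hd

end Pool.ThmP
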