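import Pool.Agent.Work.MP_f82ddf_P.Interface

/-! # Theorem P, block LGP: nodes which do not lie on a hypersurface of low degree -/

set_option autoImplicit false

namespace Pool.ThmP

open MvPolynomial Finset Pool.Agent.Work.MP_f82ddf_nt Pool.Agent.Work.MP_f82ddf_nt.DQ Pool.ThmM
  Pool.ThmM0

/-- the node in the hyperplane `X_last = 0` -/
noncomputable def LGP_lift (r : ℕ) (u : Fin (r + 1) → ℂ) : Fin (r + 2) → ℂ :=
  Fin.snoc (α := fun _ => ℂ) u 0

theorem LGP_lift_cast (r : ℕ) (u : Fin (r + 1) → ℂ) (i : Fin (r + 1)) :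
    LGP_lift r u i.castSucc = u i := Fin.snoc_castSucc (α := fun _ => ℂ) 0 u i

theorem LGP_lift_last (r : ℕ) (u : Fin (r + 1) → ℂ) : LGP_lift r u (Fin.last (r + 1)) = 0 :=
  Fin.snoc_last (α := fun _ => ℂ) 0 u

/-- restriction to the hyperplane -/
noncomputable def LGP_res (r : ℕ) : MvPolynomial (Fin (r + 2)) ℂ →ₐ[ℂ] Pr r :=
  aeval (Fin.snoc (α := fun _ => Pr r) (fun i => X i) 0)

theorem LGP_res_cast (r : ℕ) (i : Fin (r + 1)) : LGP_res r (X i.castSucc) = X i := by
  unfold LGP_res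
  rw [aeval_X, Fin.snoc_castSucc]

theorem LGP_res_last (r : ℕ) : LGP_res r (X (Fin.last (r + 1))) = 0 := by
  unfold LGP_res
  rw [aeval_X, Fin.snoc_last]

theorem LGP_res_eval (r : ℕ) (f : MvPolynomial (Fin (r + 2)) ℂ) (u : Fin (r + 1) → ℂ) :
    eval u (LGP_res r f) = eval (LGP_lift r u) f := by
  have h : ((aeval u : Pr r →ₐ[ℂ] ℂ).comp (LGP_res r)) = aeval (LGP_lift r u) := by
    apply algHom_ext
    intro j
    rw [AlgHom.comp_apply, aeval_X]
    refine Fin.lastCases ?_ (fun i => ?_) j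
    · rw [LGP_res_last, map_zero, LGP_lift_last]
    · rw [LGP_res_cast, aeval_X, LGP_lift_cast]
  have h2 := DFunLike.congr_fun h f
  rw [AlgHom.comp_apply] at h2
  exact h2

theorem LGP_res_hom (r e : ℕ) (f : MvPolynomial (Fin (r + 2)) ℂ) (hf : f.IsHomogeneous e) :
    (LGP_res r f).IsHomogeneous e := by
  have h := hf.aeval (Fin.snoc (α := fun _ => Pr r) (fun i => X i) 0) (n := 1) (by
    intro j
    refine Fin.lastCases ?_ (fun i => ?_) j
    · rw [Fin.snoc_last]
      exact isHomogeneous_zero _ _ _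
    · rw [Fin.snoc_castSucc]
      exact isHomogeneous_X _ _)
  rw [one_mul] at h
  exact h

theorem LGP_dvd (r : ℕ) (f : MvPolynomial (Fin (r + 2)) ℂ) (h : LGP_res r f = 0) :
    (X (Fin.last (r + 1)) : MvPolynomial (Fin (r + 2)) ℂ) ∣ f := by
  set I : Ideal (MvPolynomial (Fin (r + 2)) ℂ) := Ideal.span {X (Fin.last (r + 1))} with hI
  have h1 : ((Ideal.Quotient.mkₐ ℂ I).comp
      ((rename Fin.castSucc : Pr r →ₐ[ℂ] MvPolynomial (Fin (r + 2)) ℂ).comp (LGP_res r))) =
      Ideal.Quotient.mkₐ ℂ I := by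
    apply algHom_ext
    intro j
    rw [AlgHom.comp_apply, AlgHom.comp_apply]
    refine Fin.lastCases ?_ (fun i => ?_) j
    · rw [LGP_res_last, map_zero, map_zero]
      symm
      rw [Ideal.Quotient.mkₐ_eq_mk, Ideal.Quotient.eq_zero_iff_mem]
      exact Ideal.subset_span rfl
    · rw [LGP_res_cast, rename_X]
  have h2 := DFunLike.congr_fun h1 f
  rw [AlgHom.comp_apply, AlgHom.comp_apply, h, map_zero, map_zero] at h2
  rw [← Ideal.mem_span_singleton, ← hI, ← Ideal.Quotient.eq_zero_iff_mem]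
  exact h2.symm

/-- a linear form through a given point -/
theorem LGP_lin (r : ℕ) (hr : 1 ≤ r) (u : Fin (r + 1) → ℂ) :
    ∃ l : Pr r, l ≠ 0 ∧ l.IsHomogeneous 1 ∧ eval u l = 0 := by
  classical
  by_cases h0 : u 0 = 0
  · exact ⟨X 0, X_ne_zero 0, isHomogeneous_X _ _, by rw [eval_X, h0]⟩
  · have h01 : (0 : Fin (r + 1)) ≠ Fin.last r := by
      intro h
      have := congrArg Fin.val h
      rw [Fin.val_zero, Fin.val_last] at this
      omega
    refine ⟨C (u (Fin.last r)) * X 0 - C (u 0) * X (Fin.last r), ?_, ?_, ?_⟩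
    · intro h
      have h1 := congrArg (coeff (Finsupp.single (Fin.last r) 1)) h
      have h2 : coeff (Finsupp.single (Fin.last r) 1) (X 0 : Pr r) = 0 := by
        rw [coeff_X, if_neg]
        intro h3
        exact h01 (Finsupp.single_left_injective one_ne_zero h3)
      rw [coeff_sub, coeff_C_mul, coeff_C_mul, h2, coeff_X, if_pos rfl, coeff_zero, mul_zero,
        zero_sub, mul_one, neg_eq_zero] at h1
      exact h0 h1
    · apply IsHomogeneous.sub
      · exact (isHomogeneous_X _ _).C_mul _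
      · exact (isHomogeneous_X _ _).C_mul _
    · rw [map_sub, map_mul, map_mul, eval_C, eval_C, eval_X, eval_X]
      ring

theorem p_LGP (hCORE : Stmt_CRB) (hCH1 : Pool.ThmM0.Stmt_CH1) (hCPW : Pool.ThmM0.Stmt_CPW) :
    Stmt_LGP := by
  classical
  intro r hr
  obtain ⟨β, hβ⟩ := hCORE r r 1
  refine ⟨max β 1, ?_⟩
  intro S hS hG' k x hk hx hPer hpow
  have hG : ∀ (e : ℕ) (G : Pr r), e ≤ β → G.IsHomogeneous e → G ≠ 0 → ∃ u ∈ S, eval u G ≠ 0 :=
    fun e G he => hG' e G (he.trans (le_max_left _ _))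
  have hv : ∀ v : Fin (r + 1) → ℂ, (∀ u ∈ S, ∑ i, v i * u i = 0) → v = 0 := by
    intro v hv0
    by_contra hne
    obtain ⟨i, hi⟩ := Function.ne_iff.1 hne
    obtain ⟨u, hu, hu'⟩ := hG' 1 (∑ i, C (v i) * X i) (le_max_right _ _)
      (IsHomogeneous.sum _ _ _ fun i _ => (isHomogeneous_X _ _).C_mul _)
      (by
        intro h
        have h1 := congrArg (coeff (Finsupp.single i 1)) h
        rw [coeff_sum, coeff_zero, Finset.sum_eq_single i] at h1
        · rw [coeff_C_mul, coeff_X, if_pos rfl, mul_one] at h1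
          exact hi h1
        · intro j _ hj
          rw [coeff_C_mul, coeff_X, if_neg, mul_zero]
          intro h3
          exact hj (Finsupp.single_left_injective one_ne_zero h3)
        · intro h3
          exact absurd (Finset.mem_univ i) h3)
    apply hu'
    rw [map_sum, ← hv0 u hu]
    apply Finset.sum_congr rfl
    intro j _
    rw [map_mul, eval_C, eval_X]
  have hcard : β ≤ S.card := by
    by_contra hlt
    push Not at hlt
    choose l hl0 hl1 hl2 using LGP_lin r hr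
    obtain ⟨u, hu, hne⟩ := hG S.card (∏ u ∈ S, l u) hlt.le
      (by
        have := IsHomogeneous.prod S l (fun _ => 1) (fun u _ => hl1 u)
        rw [Finset.sum_const, smul_eq_mul, mul_one] at this
        exact this)
      (Finset.prod_ne_zero_iff.2 fun u _ => hl0 u)
    apply hne
    rw [map_prod]
    exact Finset.prod_eq_zero hu (hl2 u)
  have hHyp : HypData r r 1 (X (Fin.last (r + 1)) : MvPolynomial (Fin (r + 2)) ℂ)
      (fun i => X i.castSucc) S (LGP_lift r) := by
    refine ⟨hr, le_refl r, le_refl 1, (X_prime).irreducible, isHomogeneous_X _ _,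
      ⟨fun _ => 0, by simp⟩, fun i => isHomogeneous_X _ _, ?_, ?_, ?_⟩
    · intro u _
      rw [eval_X, LGP_lift_last]
    · intro u _
      rw [pderiv_X_self, map_one]
      exact one_ne_zero
    · intro u _
      refine ⟨1, one_ne_zero, fun i => ?_⟩
      rw [eval_X, LGP_lift_cast, one_mul]
  have hdiv : ∀ (e : ℕ) (f : MvPolynomial (Fin (r + 2)) ℂ), e ≤ β → f.IsHomogeneous e →
      (∀ u ∈ S, eval (LGP_lift r u) f = 0) →
      (X (Fin.last (r + 1)) : MvPolynomial (Fin (r + 2)) ℂ) ∣ f := by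
    intro e f he hf hz
    apply LGP_dvd
    by_contra hne
    obtain ⟨u, hu, hne'⟩ := hG e (LGP_res r f) he (LGP_res_hom r e f hf) hne
    apply hne'
    rw [LGP_res_eval]
    exact hz u hu
  obtain ⟨c, Fix, Psi, hP⟩ := hβ _ _ S (LGP_lift r) hHyp hcard hdiv hS hv k x hk hx hPer hpow
  obtain ⟨ε, hε, hcoef, hdeg⟩ := hCH1 r Mer x
  have hx0 : x 0 ≠ 0 := hx.ne_zero 0
  set P := Pool.Agent.Work.MP_f82ddf_M5.chow 1 1
    (map (algebraMap ℂ Mer) (X (Fin.last (r + 1)) : MvPolynomial (Fin (r + 2)) ℂ))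
    (Pool.Agent.Work.MP_f82ddf_M5.comb (algebraMap ℂ Mer)
      (fun i => (X i.castSucc : MvPolynomial (Fin (r + 2)) ℂ)) x) with hPdef
  have hP0 : P ≠ 0 := by
    intro h0
    have h1 := hcoef 0
    rw [h0, coeff_zero] at h1
    exact (mul_ne_zero hε hx0) h1.symm
  obtain ⟨c', hc'⟩ := hCPW (Fin 2 × Fin (r + 2)) Mer P Psi Fix c k hk hP0 hdeg hP
  have hz : ∀ i : Fin (r + 1), ∃ z : ℂ, ε * x i = c' * algebraMap ℂ Mer z := by
    intro i
    obtain ⟨z, hz⟩ := hc' (Finsupp.single ((0 : Fin 2), Fin.last (r + 1)) 1 +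
      Finsupp.single ((1 : Fin 2), i.castSucc) 1)
    exact ⟨z, by rw [← hz, ← hcoef i]⟩
  obtain ⟨z0, hz0⟩ := hz 0
  obtain ⟨z1, hz1⟩ := hz (Fin.last r)
  have h01 : (0 : Fin (r + 1)) ≠ Fin.last r := by
    intro h
    have := congrArg Fin.val h
    rw [Fin.val_zero, Fin.val_last] at this
    omega
  have hli : LinearIndependent ℂ ![x 0, x (Fin.last r)] := by
    have h1 := hx.comp ![0, Fin.last r] (by
      intro i j hij
      fin_cases i <;> fin_cases j
      · rfl
      · exact absurd hij h01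
      · exact absurd hij.symm h01
      · rfl)
    have h2 : x ∘ ![0, Fin.last r] = ![x 0, x (Fin.last r)] := by
      funext i
      fin_cases i <;> rfl
    rw [h2] at h1
    exact h1
  have h2 : z1 • x 0 + (-z0) • x (Fin.last r) = 0 := by
    have h3 : ε * (z1 • x 0 + (-z0) • x (Fin.last r)) = 0 := by
      rw [Algebra.smul_def, Algebra.smul_def, map_neg]
      linear_combination (algebraMap ℂ Mer z1) * hz0 - (algebraMap ℂ Mer z0) * hz1
    exact (mul_eq_zero.1 h3).resolve_left hε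
  have h3 := (LinearIndependent.pair_iff.1 hli) z1 (-z0) h2
  have h4 : z0 = 0 := neg_eq_zero.1 h3.2
  rw [h4, map_zero, mul_zero] at hz0
  exact (mul_ne_zero hε hx0) hz0

end Pool.ThmP
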