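import Pool.Agent.Work.MP_f82ddf_P.Interface

set_option autoImplicit false

/-! # THEOREM P (MP_f82ddf_nt), block MPT -/

namespace Pool.ThmP

open MvPolynomial Finset Pool.Agent.Work.MP_f82ddf_nt Pool.Agent.Work.MP_f82ddf_nt.DQ Pool.ThmM
  Pool.ThmM0

theorem p_MPT (h1 : Stmt_NUL) : Stmt_MPT := by
  intro K Ω κ _ _ _ _ _ m n S g τ x hx
  refine ⟨?_, ?_⟩
  · intro hx0
    by_contra hcon
    push Not at hcon
    apply hx0
    funext i
    have h2 := h1 K Ω κ m S {H | ∃ s ∈ g.tuples, ∃ c, H = s c} (X i) ?_ τ x hx ?_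
    · simpa using h2
    · intro v hv hE
      by_contra hvi
      have hv0 : v ≠ 0 := by
        rintro rfl
        simp at hvi
      obtain ⟨s, hs, c, hc⟩ := g.defined v hv0 hv
      exact hc (hE (s c) ⟨s, hs, c, rfl⟩)
    · rintro H ⟨s, hs, c, rfl⟩
      exact hcon s hs c
  · intro s hs t ht c d
    have h2 := h1 K Ω κ m S ∅ (s c * t d - s d * t c) ?_ τ x hx (by simp)
    · rw [eval₂_sub, eval₂_mul, eval₂_mul, sub_eq_zero] at h2
      exact h2
    · intro v hv _
      rw [map_sub, map_mul, map_mul, sub_eq_zero]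
      exact g.compatible s hs t ht v hv c d

end Pool.ThmP
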