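import Pool.Agent.Work.MP_f82ddf_P.Interface

set_option autoImplicit false

/-! # THEOREM P, block ONP (helper52): main assembly for points with values in `Mer` -/

namespace Pool.ThmP

open MvPolynomial Finset Pool.Agent.Work.MP_f82ddf_nt Pool.Agent.Work.MP_f82ddf_nt.DQ Pool.ThmM
  Pool.ThmM0

theorem p_ONP (hMPT : Stmt_MPT) (hHPT : Stmt_HPT) (hKTH : Stmt_KTH) (hCDP : Stmt_CDP)
    (hBAS : Stmt_BAS) (hREP : Stmt_REP) (hALJ : Stmt_ALJ) (hEXPO : Pool.ThmM0.Stmt_EXPO) :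
    Stmt_ONP := by
  classical
  intro n c
  choose N₁ hN₁ using hCDP
  obtain ⟨B, hB⟩ : ∃ B : ℕ, B = (Finset.range (n + 1)).sup (fun ρ => N₁ ρ (c + 1)) + 1 := ⟨_, rfl⟩
  refine ⟨c + c * B + 1, ?_⟩
  intro k N M hk hN hnM K Ω _ _ _ _ m S hS g l hg hl hdiv τ x hx r
  by_contra hcon
  push Not at hcon
  have hrel : ∀ (e : ℕ) (P : MvPolynomial (Fin (M + 2)) ℂ), P ≠ 0 → P.IsHomogeneous e →
      aeval (fun i => x (r i)) P ≠ 0 := hcon
  have hx0 : x ≠ 0 := by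
    intro h
    apply hrel 1 (X 0) (X_ne_zero 0) (isHomogeneous_X ℂ 0)
    rw [aeval_X, h]
    rfl
  obtain ⟨s, hs, c₁, hc₁⟩ := (hMPT K Ω Mer m n S g (tm τ) x hx).1 hx0
  obtain ⟨y, hy⟩ : ∃ y : Fin (n + 1) → Mer, ∀ c, y c = eval₂ (tm τ) x (s c) := ⟨_, fun _ => rfl⟩
  have hy0 : y ≠ 0 := by
    intro h
    apply hc₁
    rw [← hy, h]
    rfl
  obtain ⟨ρ, ι, b, hρ, hlin, hyb, -⟩ := hBAS n y hy0
  obtain ⟨u, hu⟩ : ∃ u : Fin (N + 1) → Fin (ρ + 1) → ℂ,
      ∀ j i, u j i = ∑ c, τ (l j c) * b c i := ⟨_, fun _ _ => rfl⟩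
  obtain ⟨z, hz⟩ : ∃ z : Fin (N + 1) → Mer,
      ∀ j, z j = ∑ c, tm τ (l j c) * eval₂ (tm τ) x (s c) := ⟨_, fun _ => rfl⟩
  have hzu : ∀ j, z j = ∑ i, algebraMap ℂ Mer (u j i) * y (ι i) := by
    intro j
    rw [hz]
    calc ∑ c, tm τ (l j c) * eval₂ (tm τ) x (s c)
        = ∑ c, ∑ i, algebraMap ℂ Mer (τ (l j c) * b c i) * y (ι i) := by
          refine Finset.sum_congr rfl fun c _ => ?_
          rw [← hy, hyb c, Finset.mul_sum]
          refine Finset.sum_congr rfl fun i _ => ?_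
          rw [map_mul, mul_assoc]
          rfl
      _ = ∑ i, ∑ c, algebraMap ℂ Mer (τ (l j c) * b c i) * y (ι i) := Finset.sum_comm
      _ = ∑ i, algebraMap ℂ Mer (u j i) * y (ι i) := by
          refine Finset.sum_congr rfl fun i _ => ?_
          rw [hu, map_sum, Finset.sum_mul]
  have hlin' := Fintype.linearIndependent_iff.1 hlin
  have hz0 : ∀ j, z j = 0 → u j = 0 := by
    intro j hj
    rw [hzu] at hj
    funext i
    exact hlin' (u j) (by simpa only [Algebra.smul_def] using hj) i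
  have hu0 : ∀ j, u j = 0 → z j = 0 := by
    intro j hj
    rw [hzu, hj]
    simp
  have hJ : ∀ J : Finset (Fin (N + 1)), c < J.card →
      ∀ v, v ≠ 0 → OnX S v → ∃ j ∈ J, ¬ g.Meets (l j) v := by
    intro J hJ v hv hvX
    by_contra hne
    push Not at hne
    have h1 : ((J : Set (Fin (N + 1)))).ncard ≤ {j | g.Meets (l j) v}.ncard :=
      Set.ncard_le_ncard (fun j hj => hne j hj) (Set.toFinite _)
    rw [Set.ncard_coe_finset] at h1
    have h2 := hl v hv hvX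
    omega
  -- (a)
  have ha : (Finset.univ.filter fun j => u j = 0).card ≤ c := by
    by_contra hne
    push Not at hne
    obtain ⟨j, hj, hj'⟩ := hHPT K Ω Mer m n N S g l _ (hJ _ hne) (tm τ) x hx hx0 s hs ⟨c₁, hc₁⟩
    exact hj' ((hz j).symm.trans (hu0 j (Finset.mem_filter.1 hj).2))
  -- (b)
  have hb : ∀ j, u j ≠ 0 → {j' | ∃ a : ℂ, u j' = a • u j}.ncard ≤ c := by
    intro j hj
    by_contra hne
    push Not at hne
    have hjz : z j ≠ 0 := fun h => hj (hz0 j h)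
    have hfin : {j' | ∃ a : ℂ, u j' = a • u j}.Finite := Set.toFinite _
    obtain ⟨t, ht1, ht2⟩ := hALJ K Ω m n N M S g l hfin.toFinset hS hg
      (hJ _ (by rwa [← Set.ncard_eq_toFinset_card _ hfin])) τ x hx s hs j
      (hfin.mem_toFinset.2 ⟨1, (one_smul ℂ _).symm⟩) (by rw [← hz]; exact hjz) r hrel
    obtain ⟨j', hj', ht⟩ := ht2 0
    obtain ⟨a, ha'⟩ := hfin.mem_toFinset.1 hj'
    apply ht1.transcendental 0
    have h1 : z j' = algebraMap ℂ Mer a * z j := by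
      rw [hzu, hzu, ha', Finset.mul_sum]
      refine Finset.sum_congr rfl fun i _ => ?_
      rw [Pi.smul_apply, smul_eq_mul, map_mul, mul_assoc]
    rw [ht, ← hz, ← hz, h1, mul_div_assoc, div_self hjz, mul_one]
    exact isAlgebraic_algebraMap a
  have hBN : N₁ ρ (c + 1) ≤ B := by
    rw [hB]
    have h1 : N₁ ρ (c + 1) ≤ (Finset.range (n + 1)).sup (fun ρ => N₁ ρ (c + 1)) :=
      Finset.le_sup (f := fun ρ => N₁ ρ (c + 1)) (Finset.mem_range.2 (by omega))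
    omega
  obtain ⟨S₁, hS1, hS2, hS3⟩ := hREP ρ c (N + 1) B u ha hb (by omega)
  obtain ⟨v₀, hv₀⟩ : S₁.Nonempty := Finset.card_pos.1 (by omega)
  obtain ⟨hv₀0, j₀, hj₀⟩ := hS3 v₀ hv₀
  have hzj₀ : z j₀ ≠ 0 := fun h => hv₀0 (by rw [← hj₀]; exact hz0 j₀ h)
  have hkth : ∀ j, ∃ w : Mer, z j / z j₀ = w ^ k := by
    intro j
    obtain ⟨w, hw⟩ := hKTH K Ω m n k S g (by omega) hS τ x hx s hs (l j) (l j₀) (hdiv j) (hdiv j₀)
      (by rw [← hz]; exact hzj₀)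
    exact ⟨w, by rw [hz, hz]; exact hw⟩
  obtain ⟨φ, hφ⟩ := hEXPO
  have hinj : Function.Injective φ := φ.toRingHom.injective
  obtain ⟨x'', hx''⟩ : ∃ x'' : Fin (ρ + 1) → Mer, ∀ i, x'' i = φ (y (ι i) / z j₀) :=
    ⟨_, fun _ => rfl⟩
  have hsum : ∀ v : Fin (ρ + 1) → ℂ, ∑ i, algebraMap ℂ Mer (v i) * x'' i =
      φ ((∑ i, algebraMap ℂ Mer (v i) * y (ι i)) / z j₀) := by
    intro v
    rw [Finset.sum_div, map_sum]
    refine Finset.sum_congr rfl fun i _ => ?_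
    rw [mul_div_assoc, map_mul, AlgHom.commutes, hx'']
  have hsumu : ∀ j, ∑ i, algebraMap ℂ Mer (u j i) * x'' i = φ (z j / z j₀) := by
    intro j
    rw [hsum, ← hzu]
  have hlin'' : LinearIndependent ℂ x'' := by
    rw [Fintype.linearIndependent_iff]
    intro v hv
    simp only [Algebra.smul_def] at hv
    rw [hsum, map_eq_zero_iff φ hinj, div_eq_zero_iff] at hv
    rcases hv with hv | hv
    · exact hlin' v (by simpa only [Algebra.smul_def] using hv)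
    · exact absurd hv hzj₀
  obtain ⟨T, hTS, hTc, hT⟩ := hN₁ ρ (c + 1) S₁ hS1 (hBN.trans hS2) k x'' hk hlin''
    (fun i => by rw [hx'']; exact hφ _) (by
      intro v hv
      obtain ⟨-, j, rfl⟩ := hS3 v hv
      obtain ⟨w, hw⟩ := hkth j
      exact ⟨φ w, by rw [hsumu, hw, map_pow]⟩)
  have hjj : ∃ jj : (Fin (ρ + 1) → ℂ) → Fin (N + 1), ∀ v ∈ S₁, u (jj v) = v := by
    refine ⟨fun v => if h : ∃ j, u j = v then h.choose else 0, fun v hv => ?_⟩
    have h := (hS3 v hv).2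
    simp only [h, dif_pos]
    exact h.choose_spec
  obtain ⟨jj, hjj⟩ := hjj
  have hTcard : (T.image jj).card = T.card := by
    apply Finset.card_image_of_injOn
    intro v hv v' hv' h
    rw [← hjj v (hTS hv), ← hjj v' (hTS hv'), h]
  obtain ⟨u₀, hu₀⟩ : T.Nonempty := Finset.card_pos.1 (by omega)
  have hu₀z : z (jj u₀) ≠ 0 := by
    intro h
    exact (hS3 u₀ (hTS hu₀)).1 (by rw [← hjj u₀ (hTS hu₀)]; exact hz0 _ h)
  obtain ⟨t, ht1, ht2⟩ := hALJ K Ω m n N M S g l (T.image jj) hS hg (hJ _ (by omega)) τ x hx s hs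
    (jj u₀) (Finset.mem_image_of_mem jj hu₀) (by rw [← hz]; exact hu₀z) r hrel
  have ht3 : ∀ i, ∃ v ∈ T, t i = z (jj v) / z (jj u₀) := by
    intro i
    obtain ⟨j, hj, hti⟩ := ht2 i
    obtain ⟨v, hv, rfl⟩ := Finset.mem_image.1 hj
    exact ⟨v, hv, by rw [hti, hz, hz]⟩
  choose vv hvT hvt using ht3
  have hfin := hT (M + 1) u₀ vv hu₀ hvT (by
    have h1 : AlgebraicIndependent ℂ (fun i => φ (t i)) := ht1.map' (f := φ) hinj
    have h2 : (fun j => (∑ i, algebraMap ℂ Mer (vv j i) * x'' i) /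
        ∑ i, algebraMap ℂ Mer (u₀ i) * x'' i) = fun i => φ (t i) := by
      funext j
      have h3 : ∀ v ∈ T, ∑ i, algebraMap ℂ Mer (v i) * x'' i = φ (z (jj v) / z j₀) := by
        intro v hv
        rw [← hsumu (jj v), hjj v (hTS hv)]
      rw [h3 _ (hvT j), h3 _ hu₀, ← map_div₀, div_div_div_cancel_right₀ hzj₀, hvt]
    rw [h2]
    exact h1)
  have h4 := hfin.trans hρ
  omega

end Pool.ThmP
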