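import Pool.Agent.Work.MP_f82ddf_P.Interface

set_option autoImplicit false

/-! # Block ORD: orders congruent modulo `k` -/

namespace Pool.ThmP

open MvPolynomial Finset Pool.Agent.Work.MP_f82ddf_nt Pool.Agent.Work.MP_f82ddf_nt.DQ Pool.ThmM
  Pool.ThmM0

/-- homogeneous forms at a multiple of a point -/
private theorem ORD_smul {R κ σ : Type} [CommSemiring R] [CommSemiring κ] (φ : R →+* κ)
    {F : MvPolynomial σ R} {e : ℕ} (hF : F.IsHomogeneous e) (c : κ) (x : σ → κ) :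
    eval₂ φ (fun i => c * x i) F = c ^ e * eval₂ φ x F := by
  rw [eval₂_eq, eval₂_eq, Finset.mul_sum]
  refine Finset.sum_congr rfl fun m hm => ?_
  have hd : ∑ i ∈ m.support, m i = e := by
    have h := hF (mem_support_iff.1 hm)
    rw [← h, Finsupp.weight_apply, Finsupp.sum]
    simp
  have h1 : ∏ i ∈ m.support, (c * x i) ^ m i = c ^ e * ∏ i ∈ m.support, x i ^ m i := by
    simp only [mul_pow]
    rw [Finset.prod_mul_distrib, Finset.prod_pow_eq_pow_sum, hd]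
  rw [h1]
  ring

private theorem ORD_pow (hV : Pool.ThmM.Stmt_VAL) (y : Mer) (z : ℂ) (k : ℕ) (hy : y ≠ 0) :
    om (y ^ k) z = (((k : ℤ) * dv1 y z : ℤ) : WithTop ℤ) := by
  obtain ⟨h1, h2, h3, h4, h5, h6⟩ := hV z
  induction k with
  | zero =>
    have h := h4 1 one_ne_zero
    rw [map_one] at h
    rw [pow_zero, h]
    simp
  | succ k ih =>
    rw [pow_succ, h1, ih, h5 y hy, ← WithTop.coe_add]
    congr 1
    push_cast
    ring

/-- a point with values in the local ring -/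
private theorem ORD_loc {R σ : Type} [Field R] (φ : R →+* ℂ) (O : Subalgebra ℂ Mer)
    (θ : O →ₐ[ℂ] ℂ) (x : σ → O) (F : MvPolynomial σ R) :
    ∃ h : eval₂ ((algebraMap ℂ Mer).comp φ) (fun i => (x i : Mer)) F ∈ O,
      θ ⟨eval₂ ((algebraMap ℂ Mer).comp φ) (fun i => (x i : Mer)) F, h⟩ =
        eval₂ φ (fun i => θ (x i)) F := by
  have h1 : ((eval₂ ((algebraMap ℂ O).comp φ) x F : O) : Mer) =
      eval₂ ((algebraMap ℂ Mer).comp φ) (fun i => (x i : Mer)) F := by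
    have h := eval₂_comp_left (O.val : O →+* Mer) ((algebraMap ℂ O).comp φ) x F
    exact h
  have h2 : eval₂ ((algebraMap ℂ Mer).comp φ) (fun i => (x i : Mer)) F ∈ O :=
    h1 ▸ (eval₂ ((algebraMap ℂ O).comp φ) x F : O).2
  refine ⟨h2, ?_⟩
  have h3 : (⟨eval₂ ((algebraMap ℂ Mer).comp φ) (fun i => (x i : Mer)) F, h2⟩ : O) =
      eval₂ ((algebraMap ℂ O).comp φ) x F := Subtype.ext h1.symm
  rw [h3]
  have h := eval₂_comp_left (θ : O →+* ℂ) ((algebraMap ℂ O).comp φ) x F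
  have h4 : ((θ : O →+* ℂ).comp ((algebraMap ℂ O).comp φ)) = φ := by
    ext a
    simp
  rw [h4] at h
  exact h

private theorem ORD_om_zero {z : ℂ} {O : Subalgebra ℂ Mer} {θ : O →ₐ[ℂ] ℂ}
    (h : Pool.ThmM.Chow.LocAt z O θ) (f : O) (hf : θ f ≠ 0) : om (f : Mer) z = 0 := by
  have h1 : 0 ≤ om (f : Mer) z := (h.mem _).1 f.2
  have h2 : ¬ (1 ≤ om (f : Mer) z) := fun h' => hf ((h.zero f).2 h')
  generalize om (f : Mer) z = a at h1 h2
  induction a using WithTop.recTopCoe with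
  | top => exact absurd le_top h2
  | coe a =>
    have h3 : (0 : ℤ) ≤ a := by exact_mod_cast h1
    have h4 : ¬ ((1 : ℤ) ≤ a) := fun h' => h2 (by exact_mod_cast h')
    have h5 : a = 0 := by omega
    rw [h5]
    rfl

theorem p_ORD (hNUL : Stmt_NUL) (hMPT : Stmt_MPT) (hV : Pool.ThmM.Stmt_VAL)
    (hO : Pool.ThmM.Chow.Stmt_OZE) : Stmt_ORD := by
  classical
  intro K Ω _ _ _ _ m n k S g hk hS τ x hx s hs hsx z₀
  obtain ⟨v1, v2, v3, v4, v5, v6⟩ := hV z₀
  obtain ⟨O, θ, hOθ⟩ := hO z₀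
  obtain ⟨e, hse⟩ := g.homogeneous s hs
  -- the point zero
  by_cases hx0 : x = 0
  · refine ⟨0, fun l _ hl => ⟨0, ?_⟩⟩
    have h1 : ∀ F : MvPolynomial (Fin (m + 1)) Ω,
        eval₂ (tm τ) x F = algebraMap ℂ Mer (τ (constantCoeff F)) := by
      intro F
      rw [hx0, ← coe_eval₂Hom, eval₂Hom_zero_apply]
      rfl
    have h2 : ∑ c, tm τ (l c) * eval₂ (tm τ) x (s c) =
        algebraMap ℂ Mer (∑ c, τ (l c) * τ (constantCoeff (s c))) := by
      rw [map_sum]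
      refine Finset.sum_congr rfl fun c _ => ?_
      rw [h1, map_mul]
      rfl
    rw [h2] at hl ⊢
    rw [v4 _ (fun h => hl (by rw [h, map_zero]))]
    simp
  -- a coordinate of minimal order
  obtain ⟨i₁, -, hi₁⟩ := Finset.exists_min_image (Finset.univ : Finset (Fin (m + 1)))
    (fun i => om (x i) z₀) Finset.univ_nonempty
  have hxi : x i₁ ≠ 0 := by
    intro h0
    apply hx0
    funext i
    have h := hi₁ i (Finset.mem_univ _)
    rw [(v3 (x i₁)).2 h0, top_le_iff, v3] at h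
    exact h
  have hfin : om (x i₁) z₀ ≠ ⊤ := fun h => hxi ((v3 _).1 h)
  have hx'0 : ∀ i, 0 ≤ om ((x i₁)⁻¹ * x i) z₀ := by
    intro i
    have h1 : om ((x i₁)⁻¹ * x i) z₀ + om (x i₁) z₀ = om (x i) z₀ := by
      rw [← v1]
      congr 1
      field_simp
    have h2 := hi₁ i (Finset.mem_univ _)
    change om (x i₁) z₀ ≤ om (x i) z₀ at h2
    rw [← h1] at h2
    by_contra h3
    rw [not_le] at h3
    have h4 := WithTop.add_lt_add_right hfin h3
    rw [zero_add] at h4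
    exact absurd h4 (not_lt.2 h2)
  -- the point with values in the local ring
  obtain ⟨xo, hxo⟩ : ∃ xo : Fin (m + 1) → O, ∀ i, (xo i : Mer) = (x i₁)⁻¹ * x i :=
    ⟨fun i => ⟨(x i₁)⁻¹ * x i, (hOθ.mem _).2 (hx'0 i)⟩, fun _ => rfl⟩
  have hxo' : (fun i => (xo i : Mer)) = fun i => (x i₁)⁻¹ * x i := funext hxo
  obtain ⟨x', hx'⟩ : ∃ x' : Fin (m + 1) → Mer, x' = fun i => (x i₁)⁻¹ * x i := ⟨_, rfl⟩
  have hxx : x = fun i => x i₁ * x' i := by
    funext i
    rw [hx']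
    field_simp
  have hK' : OnK (tm τ) S x' := by
    intro F hF
    obtain ⟨d, hd⟩ := hS F hF
    rw [hx', ORD_smul _ hd, hx F hF, mul_zero]
  obtain ⟨p, hp⟩ : ∃ p : Fin (m + 1) → ℂ, p = fun i => θ (xo i) := ⟨_, rfl⟩
  have hp1 : p i₁ = 1 := by
    have h1 : xo i₁ = 1 := by
      apply Subtype.ext
      rw [hxo]
      exact inv_mul_cancel₀ hxi
    rw [hp]
    change θ (xo i₁) = 1
    rw [h1, map_one]
  have hev : ∀ F : MvPolynomial (Fin (m + 1)) Ω, ∃ f : O, (f : Mer) = eval₂ (tm τ) x' F ∧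
      θ f = eval₂ τ p F := by
    intro F
    obtain ⟨h1, h2⟩ := ORD_loc τ O θ xo F
    refine ⟨⟨_, h1⟩, ?_, ?_⟩
    · change eval₂ ((algebraMap ℂ Mer).comp τ) (fun i => (xo i : Mer)) F = _
      rw [hxo', hx']
      rfl
    · rw [h2, hp]
  have hKp : OnK τ S p := by
    intro F hF
    obtain ⟨h1, h2⟩ := ORD_loc (τ.comp (algebraMap K Ω)) O θ xo F
    rw [← hp] at h2
    rw [← h2]
    have h3 : (⟨eval₂ ((algebraMap ℂ Mer).comp (τ.comp (algebraMap K Ω)))
        (fun i => (xo i : Mer)) F, h1⟩ : O) = 0 := by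
      apply Subtype.ext
      change eval₂ ((algebraMap ℂ Mer).comp (τ.comp (algebraMap K Ω)))
        (fun i => (xo i : Mer)) F = 0
      rw [hxo', ← hx']
      exact hK' F hF
    rw [h3, map_zero]
  -- the minimal order of the coordinates of the image
  obtain ⟨c₂, -, hc₂⟩ := Finset.exists_min_image (Finset.univ : Finset (Fin (n + 1)))
    (fun c => om (eval₂ (tm τ) x (s c)) z₀) Finset.univ_nonempty
  have hc₂0 : eval₂ (tm τ) x (s c₂) ≠ 0 := by
    intro h0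
    obtain ⟨c₀, hc₀⟩ := hsx
    apply hc₀
    have h := hc₂ c₀ (Finset.mem_univ _)
    rw [(v3 _).2 h0, top_le_iff, v3] at h
    exact h
  refine ⟨dv1 (eval₂ (tm τ) x (s c₂)) z₀, fun l hl hzl => ?_⟩
  -- a local equation at the point `p`
  obtain ⟨s', hs', c₁, a, b, hab, hne⟩ : ∃ s' ∈ g.tuples, ∃ (c₁ : Fin (n + 1))
      (a b : MvPolynomial (Fin (m + 1)) Ω),
      (∀ u, OnX S u → eval u a * ∑ c, l c * eval u (s' c) = eval u b ^ k) ∧
      eval₂ τ p (a * s' c₁) ≠ 0 := by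
    by_contra hcon
    push Not at hcon
    have h1 := hNUL K Ω ℂ m S {H | ∃ s' ∈ g.tuples, ∃ (c₁ : Fin (n + 1))
      (a b : MvPolynomial (Fin (m + 1)) Ω),
      (∀ u, OnX S u → eval u a * ∑ c, l c * eval u (s' c) = eval u b ^ k) ∧ H = a * s' c₁}
      (X i₁) ?_ τ p hKp ?_
    · rw [eval₂_X, hp1] at h1
      exact one_ne_zero h1
    · intro v hv hE
      rw [eval_X]
      by_contra hvi
      have hv0 : v ≠ 0 := by
        rintro rfl
        exact hvi rfl
      obtain ⟨s', hs', ⟨c₁, hc₁⟩, d, e', a, b, -, -, ha, hab⟩ := hl v hv0 hv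
      have h2 := hE (a * s' c₁) ⟨s', hs', c₁, a, b, hab, rfl⟩
      rw [map_mul] at h2
      exact (mul_ne_zero ha hc₁) h2
    · rintro H ⟨s', hs', c₁, a, b, hab, rfl⟩
      exact hcon s' hs' c₁ a b hab
  rw [eval₂_mul] at hne
  obtain ⟨hne1, hne2⟩ := mul_ne_zero_iff.1 hne
  obtain ⟨fa, hfa, hfa'⟩ := hev a
  obtain ⟨fs, hfs, hfs'⟩ := hev (s' c₁)
  have hoa : om (eval₂ (tm τ) x' a) z₀ = 0 := by
    rw [← hfa]
    exact ORD_om_zero hOθ fa (by rw [hfa']; exact hne1)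
  have hos : om (eval₂ (tm τ) x' (s' c₁)) z₀ = 0 := by
    rw [← hfs]
    exact ORD_om_zero hOθ fs (by rw [hfs']; exact hne2)
  -- the equation in `Mer`
  have hEq : eval₂ (tm τ) x' a * ∑ c, tm τ (l c) * eval₂ (tm τ) x' (s' c) =
      eval₂ (tm τ) x' b ^ k := by
    have h1 := hNUL K Ω Mer m S ∅ (a * ∑ c, C (l c) * s' c - b ^ k) ?_ (tm τ) x' hK' ?_
    · have h2 : eval₂ (tm τ) x' (∑ c, C (l c) * s' c) =
          ∑ c, tm τ (l c) * eval₂ (tm τ) x' (s' c) := by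
        rw [eval₂_sum]
        refine Finset.sum_congr rfl fun c _ => ?_
        rw [eval₂_mul, eval₂_C]
      rw [← coe_eval₂Hom, map_sub, map_mul, map_pow, coe_eval₂Hom, h2] at h1
      exact sub_eq_zero.1 h1
    · intro v hv _
      have h2 := hab v hv
      rw [map_sub, map_mul, map_sum, map_pow, ← h2]
      simp only [map_mul, eval_C]
      exact sub_self _
    · intro H hH
      exact absurd hH (Set.notMem_empty _)
  -- proportionality
  have hsc : ∀ c, eval₂ (tm τ) x (s c) = x i₁ ^ e * eval₂ (tm τ) x' (s c) := by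
    intro c
    conv_lhs => rw [hxx]
    exact ORD_smul _ (hse c) _ _
  have hprop : ∀ c, eval₂ (tm τ) x (s c) * eval₂ (tm τ) x' (s' c₁) =
      eval₂ (tm τ) x (s c₁) * eval₂ (tm τ) x' (s' c) := by
    intro c
    have h1 := (hMPT K Ω Mer m n S g (tm τ) x' hK').2 s hs s' hs' c c₁
    rw [hsc, hsc, mul_assoc, h1, mul_assoc]
  have hzw : (∑ c, tm τ (l c) * eval₂ (tm τ) x (s c)) * eval₂ (tm τ) x' (s' c₁) =
      eval₂ (tm τ) x (s c₁) * ∑ c, tm τ (l c) * eval₂ (tm τ) x' (s' c) := by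
    rw [Finset.sum_mul, Finset.mul_sum]
    refine Finset.sum_congr rfl fun c _ => ?_
    rw [mul_assoc, hprop]
    ring
  have hs1 : eval₂ (tm τ) x' (s' c₁) ≠ 0 := by
    intro h0
    rw [(v3 _).2 h0] at hos
    exact WithTop.top_ne_zero hos
  have ha0 : eval₂ (tm τ) x' a ≠ 0 := by
    intro h0
    rw [(v3 _).2 h0] at hoa
    exact WithTop.top_ne_zero hoa
  have hprod : eval₂ (tm τ) x (s c₁) * ∑ c, tm τ (l c) * eval₂ (tm τ) x' (s' c) ≠ 0 := by
    rw [← hzw]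
    exact mul_ne_zero hzl hs1
  obtain ⟨hsc1, hw0⟩ := mul_ne_zero_iff.1 hprod
  have hb0 : eval₂ (tm τ) x' b ≠ 0 := by
    intro h0
    rw [h0, zero_pow (by omega)] at hEq
    exact mul_ne_zero ha0 hw0 hEq
  have how : om (∑ c, tm τ (l c) * eval₂ (tm τ) x' (s' c)) z₀ =
      (((k : ℤ) * dv1 (eval₂ (tm τ) x' b) z₀ : ℤ) : WithTop ℤ) := by
    have h1 := congrArg (fun f => om f z₀) hEq
    change om _ z₀ = om _ z₀ at h1
    rw [v1, hoa, zero_add, ORD_pow hV _ _ _ hb0] at h1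
    exact h1
  -- the order of `s c₁` is minimal
  have hmin : om (eval₂ (tm τ) x (s c₁)) z₀ = om (eval₂ (tm τ) x (s c₂)) z₀ := by
    apply le_antisymm
    · obtain ⟨f, hf, -⟩ := hev (s' c₂)
      have h0 : 0 ≤ om (eval₂ (tm τ) x' (s' c₂)) z₀ := by
        rw [← hf]
        exact (hOθ.mem _).1 f.2
      have h1 := congrArg (fun f => om f z₀) (hprop c₂)
      change om _ z₀ = om _ z₀ at h1
      rw [v1, v1, hos, add_zero] at h1
      rw [h1]
      exact le_add_of_nonneg_right h0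
    · exact hc₂ c₁ (Finset.mem_univ _)
  refine ⟨dv1 (eval₂ (tm τ) x' b) z₀, ?_⟩
  have h1 := congrArg (fun f => om f z₀) hzw
  change om _ z₀ = om _ z₀ at h1
  rw [v1, v1, hos, add_zero, hmin, how, v5 _ hc₂0] at h1
  rw [h1, ← WithTop.coe_add]

end Pool.ThmP
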