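import Pool.Agent.Work.MP_f82ddf_P.Interface

/-! # THEOREM P, block REP (helper26) -/

set_option autoImplicit false

namespace Pool.ThmP

open MvPolynomial Finset Pool.Agent.Work.MP_f82ddf_nt Pool.Agent.Work.MP_f82ddf_nt.DQ Pool.ThmM
  Pool.ThmM0

theorem p_REP : Stmt_REP := by
  classical
  intro ρ c M N₁ u h0 hu hM
  -- the nonzero values
  set V : Finset (Fin (ρ + 1) → ℂ) := (Finset.univ.image u).filter (fun v => v ≠ 0) with hV
  set F : Finset (Finset (Fin (ρ + 1) → ℂ)) :=
    V.powerset.filter (fun S => ∀ v ∈ S, ∀ v' ∈ S, v ≠ v' → NonProp v v') with hF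
  have hne : F.Nonempty := ⟨∅, by
    rw [hF, Finset.mem_filter]
    exact ⟨Finset.empty_mem_powerset _, by simp⟩⟩
  obtain ⟨S, hS, hmax⟩ := Finset.exists_max_image F Finset.card hne
  rw [hF, Finset.mem_filter, Finset.mem_powerset] at hS
  obtain ⟨hSV, hSp⟩ := hS
  have hS0 : ∀ s ∈ S, s ≠ 0 := fun s hs => (Finset.mem_filter.1 (hSV hs)).2
  have hSj : ∀ s ∈ S, ∃ j, u j = s := by
    intro s hs
    obtain ⟨j, -, hj⟩ := Finset.mem_image.1 (Finset.mem_filter.1 (hSV hs)).1
    exact ⟨j, hj⟩
  -- every nonzero value is a multiple of an element of S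
  have hmul : ∀ j, u j ≠ 0 → ∃ s ∈ S, ∃ c : ℂ, u j = c • s := by
    intro j hj
    by_contra hcon
    push Not at hcon
    have hnot : u j ∉ S := fun h => hcon (u j) h 1 (one_smul _ _).symm
    have hins : insert (u j) S ∈ F := by
      rw [hF, Finset.mem_filter, Finset.mem_powerset]
      refine ⟨?_, ?_⟩
      · intro v hv
        rcases Finset.mem_insert.1 hv with rfl | hv
        · rw [hV, Finset.mem_filter]
          exact ⟨Finset.mem_image_of_mem _ (Finset.mem_univ _), hj⟩
        · exact hSV hv
      · have hnp : ∀ s ∈ S, ∀ a b : ℂ, a • u j = b • s → a = 0 ∧ b = 0 := by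
          intro s hs a b hab
          have ha : a = 0 := by
            by_contra ha
            apply hcon s hs (a⁻¹ * b)
            rw [mul_smul, ← hab, smul_smul, inv_mul_cancel₀ ha, one_smul]
          refine ⟨ha, ?_⟩
          rw [ha, zero_smul] at hab
          rcases smul_eq_zero.1 hab.symm with h | h
          · exact h
          · exact absurd h (hS0 s hs)
        intro v hv v' hv' hvv'
        rcases Finset.mem_insert.1 hv with rfl | hv
        · rcases Finset.mem_insert.1 hv' with rfl | hv'
          · exact absurd rfl hvv'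
          · exact hnp v' hv'
        · rcases Finset.mem_insert.1 hv' with rfl | hv'
          · intro a b hab
            have := hnp v hv b a hab.symm
            exact ⟨this.2, this.1⟩
          · exact hSp v hv v' hv' hvv'
    have h1 := hmax _ hins
    rw [Finset.card_insert_of_notMem hnot] at h1
    omega
  -- counting
  have hcount : M ≤ c + c * S.card := by
    have hcov : (Finset.univ : Finset (Fin M)) ⊆
        (Finset.univ.filter fun j => u j = 0) ∪
          S.biUnion (fun s => Finset.univ.filter fun j => ∃ c : ℂ, u j = c • s) := by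
      intro j _
      by_cases hj : u j = 0
      · exact Finset.mem_union_left _ (Finset.mem_filter.2 ⟨Finset.mem_univ _, hj⟩)
      · obtain ⟨s, hs, hc⟩ := hmul j hj
        exact Finset.mem_union_right _ (Finset.mem_biUnion.2
          ⟨s, hs, Finset.mem_filter.2 ⟨Finset.mem_univ _, hc⟩⟩)
    have h1 : ∀ s ∈ S, (Finset.univ.filter fun j => ∃ c : ℂ, u j = c • s).card ≤ c := by
      intro s hs
      obtain ⟨j, rfl⟩ := hSj s hs
      have h2 := hu j (hS0 _ hs)
      have h3 : {l | ∃ a : ℂ, u l = a • u j} =
          ((Finset.univ.filter fun l => ∃ a : ℂ, u l = a • u j : Finset (Fin M)) : Set (Fin M)) := by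
        ext l
        simp
      rw [h3, Set.ncard_coe_finset] at h2
      exact h2
    calc M = (Finset.univ : Finset (Fin M)).card := by rw [Finset.card_univ, Fintype.card_fin]
      _ ≤ _ := Finset.card_le_card hcov
      _ ≤ _ := Finset.card_union_le _ _
      _ ≤ c + S.card * c := Nat.add_le_add h0 (Finset.card_biUnion_le_card_mul _ _ _ h1)
      _ = c + c * S.card := by rw [Nat.mul_comm]
  refine ⟨S, hSp, ?_, fun v hv => ⟨hS0 v hv, hSj v hv⟩⟩
  have h2 : c * N₁ < c * S.card := by omega
  exact (Nat.lt_of_mul_lt_mul_left h2).le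

end Pool.ThmP
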