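import Pool.Agent.Work.MP_f82ddf_P.Interface

set_option autoImplicit false

/-! # Block ROL: a local `k`-th root on a disc -/

namespace Pool.ThmP

open MvPolynomial Finset Pool.Agent.Work.MP_f82ddf_nt Pool.Agent.Work.MP_f82ddf_nt.DQ Pool.ThmM
  Pool.ThmM0 Filter Topology Metric

private lemma ROL_log {g : ℂ → ℂ} {c : ℂ} {R : ℝ} (hR : 0 < R)
    (hg : DifferentiableOn ℂ g (ball c R)) (hne : ∀ z ∈ ball c R, g z ≠ 0) :
    ∃ l : ℂ → ℂ, DifferentiableOn ℂ l (ball c R) ∧ ∀ z ∈ ball c R, Complex.exp (l z) = g z := by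
  have hdg : DifferentiableOn ℂ (deriv g) (ball c R) := hg.deriv isOpen_ball
  have hq : DifferentiableOn ℂ (fun z => deriv g z / g z) (ball c R) := hdg.div hg hne
  obtain ⟨F, hF⟩ := hq.isExactOn_ball
  have hFd : DifferentiableOn ℂ F (ball c R) :=
    fun z hz => (hF z hz).differentiableAt.differentiableWithinAt
  have hgat : ∀ z ∈ ball c R, HasDerivAt g (deriv g z) z := fun z hz =>
    (hg.differentiableAt (isOpen_ball.mem_nhds hz)).hasDerivAt
  have hG : ∀ z ∈ ball c R, HasDerivAt (fun z => g z * Complex.exp (-F z)) 0 z := by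
    intro z hz
    have h1 := (hgat z hz).mul ((hF z hz).neg.cexp)
    refine h1.congr_deriv ?_
    have := hne z hz
    field_simp
    ring
  have hGd : DifferentiableOn ℂ (fun z => g z * Complex.exp (-F z)) (ball c R) :=
    fun z hz => (hG z hz).differentiableAt.differentiableWithinAt
  have hconst : ∀ z ∈ ball c R, g z * Complex.exp (-F z) = g c * Complex.exp (-F c) := by
    intro z hz
    exact isOpen_ball.is_const_of_deriv_eq_zero (convex_ball c R).isPreconnected hGd
      (fun x hx => (hG x hx).deriv) hz (mem_ball_self hR)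
  have hcne : g c * Complex.exp (-F c) ≠ 0 :=
    mul_ne_zero (hne c (mem_ball_self hR)) (Complex.exp_ne_zero _)
  refine ⟨fun z => F z + Complex.log (g c * Complex.exp (-F c)), hFd.add_const _, ?_⟩
  intro z hz
  rw [Complex.exp_add, Complex.exp_log hcne, ← hconst z hz]
  rw [mul_left_comm, ← Complex.exp_add]
  simp

private lemma ROL_rep (f : Mer) (z : ℂ) : MeromorphicAt (rep f) z := by
  have h1 : MeromorphicNFOn (rep f) Set.univ := meromorphicNFOn_toMeromorphicNFOn _ _
  exact (h1 (Set.mem_univ z)).meromorphicAt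

theorem p_ROL : Stmt_ROL := by
  classical
  intro k f hk hf0 hord R
  rcases Nat.eq_zero_or_pos R with rfl | hR0
  · refine ⟨fun _ => 0, ?_, ?_⟩ <;> simp
  have hR : (0 : ℝ) < (R : ℝ) := by exact_mod_cast hR0
  choose q hq using hord
  set U : Set ℂ := closedBall (0 : ℂ) R with hU
  have h1 : MeromorphicOn (rep f) U := fun z _ => ROL_rep f z
  have h2 : ∀ u : U, meromorphicOrderAt (rep f) u ≠ ⊤ := by
    intro u
    have h3 := hq u
    rw [om] at h3
    rw [h3]
    exact WithTop.coe_ne_top
  have h3 : (MeromorphicOn.divisor (rep f) U).support.Finite :=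
    (MeromorphicOn.divisor (rep f) U).finiteSupport (isCompact_closedBall _ _)
  obtain ⟨g, hg, hg0, hfg⟩ := MeromorphicOn.extract_zeros_poles h1 h2 h3
  obtain ⟨l, hl, hle⟩ := ROL_log (g := g) (c := 0) hR
    (fun z hz => (hg z (ball_subset_closedBall hz)).differentiableAt.differentiableWithinAt)
    (fun z hz => hg0 ⟨z, ball_subset_closedBall hz⟩)
  set d : ℂ → ℤ := fun u => if u ∈ U then q u else 0 with hd
  have h4 : ∀ u, MeromorphicOn.divisor (rep f) U u = k * d u := by
    intro u
    by_cases hu : u ∈ U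
    · rw [MeromorphicOn.divisor_apply h1 hu]
      have h5 := hq u
      rw [om] at h5
      rw [h5, hd]
      simp [hu]
    · rw [Function.locallyFinsuppWithin.apply_eq_zero_of_notMem _ hu, hd]
      simp [hu]
  have hk0 : (k : ℤ) ≠ 0 := by exact_mod_cast (by omega : k ≠ 0)
  have hkC : (k : ℂ) ≠ 0 := by exact_mod_cast (by omega : k ≠ 0)
  have h5 : (Function.support d).Finite := by
    refine h3.subset ?_
    intro u hu
    rw [Function.mem_support] at hu ⊢
    rw [h4]
    exact mul_ne_zero hk0 hu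
  have h6 : (∏ᶠ u, (fun z : ℂ => z - u) ^ d u) ^ k =
      ∏ᶠ u, (fun z : ℂ => z - u) ^ MeromorphicOn.divisor (rep f) U u := by
    rw [finprod_pow]
    · refine finprod_congr fun u => ?_
      rw [h4]
      funext z
      simp only [Pi.pow_apply]
      rw [zpow_mul', zpow_natCast]
    · rw [Function.HasFiniteMulSupport, Function.FactorizedRational.mulSupport]
      exact h5
  refine ⟨fun z => (∏ᶠ u, (fun z : ℂ => z - u) ^ d u) z * Complex.exp (l z / k), ?_, ?_⟩
  · intro z hz
    have h7 : MeromorphicAt (∏ᶠ u, (fun z : ℂ => z - u) ^ d u) z :=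
      (Function.FactorizedRational.meromorphicNFOn_univ d (Set.mem_univ z)).meromorphicAt
    have h8 : AnalyticAt ℂ l z := hl.analyticAt (isOpen_ball.mem_nhds hz)
    have h9 : AnalyticAt ℂ (fun z => Complex.exp (l z / k)) z := (h8.div_const).cexp
    exact h7.mul h9.meromorphicAt
  · intro z₀ hz₀
    have h7 := (mem_codiscreteWithin_iff_forall_mem_nhdsNE.1 hfg) z₀ (ball_subset_closedBall hz₀)
    have h8 : ball (0 : ℂ) R ∈ 𝓝[≠] z₀ := mem_nhdsWithin_of_mem_nhds (isOpen_ball.mem_nhds hz₀)
    filter_upwards [h7, h8] with z hz hzb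
    rcases hz with hz | hz
    · change rep f z = _ at hz
      rw [hz, Pi.smul_apply', ← h6, mul_pow, ← Complex.exp_nat_mul, mul_div_cancel₀ _ hkC, hle z hzb]
      rfl
    · exact absurd (ball_subset_closedBall hzb) hz

end Pool.ThmP
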