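import Pool.Agent.Work.MP_f82ddf_P.Interface

set_option autoImplicit false

/-! # Block ROO (helper27): global roots of meromorphic functions -/

namespace Pool.ThmP

open Pool.Agent.Work.MP_f82ddf_nt.DQ Pool.ThmM
open Topology Filter

theorem ROO_rep (f : Mer) : ∃ h : ∀ z, MeromorphicAt (rep f) z, Mer.mk (rep f) h = f := by
  have h1 : MeromorphicOn (Mer.exists_mk f).choose Set.univ := fun z _ =>
    (Mer.exists_mk f).choose_spec.choose z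
  have h2 : ∀ z, MeromorphicAt (rep f) z := fun z =>
    (meromorphicNFOn_toMeromorphicNFOn (Mer.exists_mk f).choose Set.univ).meromorphicOn z
      (Set.mem_univ z)
  refine ⟨h2, ?_⟩
  have h3 := (Mer.exists_mk f).choose_spec.choose_spec
  refine Eq.trans ?_ h3.symm
  rw [Mer.mk_eq_mk]
  intro z₀
  have h4 := h1.toMeromorphicNFOn_eq_self_on_nhdsNE (Set.mem_univ z₀)
  filter_upwards [h4] with z hz
  exact hz

/-- two local roots are proportional -/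
theorem ROO_loc {k : ℕ} (hk : 1 ≤ k) {a b F : ℂ → ℂ} {z₀ : ℂ} (ha : MeromorphicAt a z₀)
    (hb : MeromorphicAt b z₀) (haF : ∀ᶠ z in 𝓝[≠] z₀, a z ^ k = F z)
    (hbF : ∀ᶠ z in 𝓝[≠] z₀, b z ^ k = F z) (hF : ∀ᶠ z in 𝓝[≠] z₀, F z ≠ 0) :
    ∃ ζ : ℂ, ζ ^ k = 1 ∧ ∀ᶠ z in 𝓝[≠] z₀, a z = ζ * b z := by
  by_contra hcon
  push Not at hcon
  have h1 : ∀ ζ ∈ Polynomial.nthRootsFinset k (1 : ℂ), ∀ᶠ z in 𝓝[≠] z₀, a z - ζ * b z ≠ 0 := by
    intro ζ hζ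
    have h2 : MeromorphicAt (fun z => a z - ζ * b z) z₀ :=
      ha.sub ((MeromorphicAt.const ζ z₀).mul hb)
    rcases h2.eventually_eq_zero_or_eventually_ne_zero with h3 | h3
    · exfalso
      refine hcon ζ ((Polynomial.mem_nthRootsFinset (by omega) 1).1 hζ) ?_
      filter_upwards [h3] with z hz
      exact not_not.2 (sub_eq_zero.1 hz)
    · exact h3
  rw [← Filter.eventually_all_finset] at h1
  obtain ⟨z, h2, h3, h4, h5⟩ := (h1.and (haF.and (hbF.and hF))).exists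
  have hbz : b z ≠ 0 := by
    intro h
    rw [h, zero_pow (by omega)] at h4
    exact h5 h4.symm
  refine h2 (a z / b z) ((Polynomial.mem_nthRootsFinset (by omega) 1).2 ?_) ?_
  · rw [div_pow, h3, h4, div_self h5]
  · rw [div_mul_cancel₀ _ hbz, sub_self]

/-- the identity theorem on a disc -/
theorem ROO_glob {a b : ℂ → ℂ} {R : ℝ} (hR : 0 < R)
    (ha : ∀ z ∈ Metric.ball (0 : ℂ) R, MeromorphicAt a z)
    (hb : ∀ z ∈ Metric.ball (0 : ℂ) R, MeromorphicAt b z)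
    (h0 : ∀ᶠ z in 𝓝[≠] (0 : ℂ), a z = b z) {z₀ : ℂ} (hz₀ : z₀ ∈ Metric.ball (0 : ℂ) R) :
    ∀ᶠ z in 𝓝[≠] z₀, a z = b z := by
  have h1 : MeromorphicOn (fun z => a z - b z) (Metric.ball (0 : ℂ) R) := fun z hz =>
    (ha z hz).sub (hb z hz)
  have hc : IsConnected (Metric.ball (0 : ℂ) R) :=
    ⟨⟨0, Metric.mem_ball_self hR⟩, (convex_ball (0 : ℂ) R).isPreconnected⟩
  have h2 : meromorphicOrderAt (fun z => a z - b z) 0 = ⊤ := by
    rw [meromorphicOrderAt_eq_top_iff]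
    filter_upwards [h0] with z hz
    exact sub_eq_zero.2 hz
  have h3 : meromorphicOrderAt (fun z => a z - b z) z₀ = ⊤ := by
    by_contra hne
    have h4 := (h1.exists_meromorphicOrderAt_ne_top_iff_forall hc).1 ⟨⟨z₀, hz₀⟩, hne⟩
      ⟨0, Metric.mem_ball_self hR⟩
    exact h4 h2
  rw [meromorphicOrderAt_eq_top_iff] at h3
  filter_upwards [h3] with z hz
  exact sub_eq_zero.1 hz

theorem p_ROO (h1 : Stmt_ROL) : Stmt_ROO := by
  intro k f hk hf hord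
  obtain ⟨hrep, hmk⟩ := ROO_rep f
  choose w hw1 hw2 using fun R : ℕ => h1 k f hk hf hord R
  have hF : ∀ z₀, ∀ᶠ z in 𝓝[≠] z₀, rep f z ≠ 0 := by
    intro z₀
    obtain ⟨q, hq⟩ := hord z₀
    refine (meromorphicOrderAt_ne_top_iff_eventually_ne_zero (hrep z₀)).1 ?_
    have h2 : meromorphicOrderAt (rep f) z₀ = ((k * q : ℤ) : WithTop ℤ) := hq
    rw [h2]
    exact WithTop.coe_ne_top
  have h0 : ∀ R : ℕ, (0 : ℂ) ∈ Metric.ball (0 : ℂ) ((R + 1 : ℕ) : ℝ) := fun R =>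
    Metric.mem_ball_self (by positivity)
  -- normalised roots on the discs of radius `R + 1`
  have hex : ∀ R : ℕ, ∃ ζ : ℂ, ζ ^ k = 1 ∧ ∀ᶠ z in 𝓝[≠] (0 : ℂ), w 1 z = ζ * w (R + 1) z := by
    intro R
    have h01 := h0 0
    rw [zero_add] at h01
    exact ROO_loc hk (hw1 1 0 h01) (hw1 (R + 1) 0 (h0 R)) (hw2 1 0 h01) (hw2 (R + 1) 0 (h0 R))
      (hF 0)
  choose ζ hζ1 hζ2 using hex
  let v : ℕ → ℂ → ℂ := fun R z => ζ R * w (R + 1) z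
  have hv1 : ∀ R : ℕ, ∀ z ∈ Metric.ball (0 : ℂ) ((R + 1 : ℕ) : ℝ), MeromorphicAt (v R) z :=
    fun R z hz => (MeromorphicAt.const (ζ R) z).mul (hw1 (R + 1) z hz)
  have hv2 : ∀ R : ℕ, ∀ z₀ ∈ Metric.ball (0 : ℂ) ((R + 1 : ℕ) : ℝ),
      ∀ᶠ z in 𝓝[≠] z₀, v R z ^ k = rep f z := by
    intro R z₀ hz₀
    filter_upwards [hw2 (R + 1) z₀ hz₀] with z hz
    show (ζ R * w (R + 1) z) ^ k = rep f z
    rw [mul_pow, hζ1, one_mul, hz]
  have hv3 : ∀ R R' : ℕ, R ≤ R' → ∀ z₀ ∈ Metric.ball (0 : ℂ) ((R + 1 : ℕ) : ℝ),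
      ∀ᶠ z in 𝓝[≠] z₀, v R z = v R' z := by
    intro R R' hRR z₀ hz₀
    have hsub : Metric.ball (0 : ℂ) ((R + 1 : ℕ) : ℝ) ⊆ Metric.ball (0 : ℂ) ((R' + 1 : ℕ) : ℝ) :=
      Metric.ball_subset_ball (by exact_mod_cast Nat.succ_le_succ hRR)
    refine ROO_glob (R := ((R + 1 : ℕ) : ℝ)) (by positivity) (hv1 R)
      (fun z hz => hv1 R' z (hsub hz)) ?_ hz₀
    filter_upwards [hζ2 R, hζ2 R'] with z h2 h3
    show ζ R * w (R + 1) z = ζ R' * w (R' + 1) z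
    rw [← h2, ← h3]
  -- the global function
  let r : ℂ → ℕ := fun z => ⌊‖z‖⌋₊ + 1
  let u : ℂ → ℂ := fun z => v (r z) z
  have hu : ∀ z₀ : ℂ, ∃ R : ℕ, z₀ ∈ Metric.ball (0 : ℂ) ((R + 1 : ℕ) : ℝ) ∧
      ∀ᶠ z in 𝓝[≠] z₀, v R z = u z := by
    intro z₀
    let R : ℕ := ⌊‖z₀‖⌋₊ + 2
    have hz₀ : z₀ ∈ Metric.ball (0 : ℂ) ((R + 1 : ℕ) : ℝ) := by
      rw [mem_ball_zero_iff]
      have := Nat.lt_floor_add_one ‖z₀‖
      show ‖z₀‖ < ((⌊‖z₀‖⌋₊ + 2 + 1 : ℕ) : ℝ)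
      push_cast
      linarith
    refine ⟨R, hz₀, ?_⟩
    have h3 : ∀ᶠ z in 𝓝[≠] z₀, ∀ R' ∈ Finset.range (R + 1),
        z₀ ∈ Metric.ball (0 : ℂ) ((R' + 1 : ℕ) : ℝ) → v R' z = v R z := by
      rw [Filter.eventually_all_finset]
      intro R' hR'
      by_cases h4 : z₀ ∈ Metric.ball (0 : ℂ) ((R' + 1 : ℕ) : ℝ)
      · filter_upwards [hv3 R' R (by have := Finset.mem_range.1 hR'; omega) z₀ h4] with z hz _
        exact hz
      · exact Filter.Eventually.of_forall fun z hz => absurd hz h4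
    have h5 : ∀ᶠ z in 𝓝[≠] z₀, z ∈ Metric.ball z₀ (1 : ℝ) :=
      nhdsWithin_le_nhds (Metric.ball_mem_nhds z₀ one_pos)
    filter_upwards [h3, h5] with z h6 h7
    have h8 : ‖z - z₀‖ < 1 := by rwa [Metric.mem_ball, dist_eq_norm] at h7
    have h9 : ‖z‖ < ‖z₀‖ + 1 := by
      have := norm_add_le (z - z₀) z₀
      rw [sub_add_cancel] at this
      linarith
    have h10 : ‖z₀‖ < ‖z‖ + 1 := by
      have := norm_add_le (z₀ - z) z
      rw [sub_add_cancel, norm_sub_rev] at this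
      linarith
    have h11 : z₀ ∈ Metric.ball (0 : ℂ) ((r z + 1 : ℕ) : ℝ) := by
      rw [mem_ball_zero_iff]
      have := Nat.lt_floor_add_one ‖z‖
      show ‖z₀‖ < ((⌊‖z‖⌋₊ + 1 + 1 : ℕ) : ℝ)
      push_cast
      linarith
    have h12 : r z ∈ Finset.range (R + 1) := by
      rw [Finset.mem_range]
      have h13 : ⌊‖z‖⌋₊ ≤ ⌊‖z₀‖⌋₊ + 1 := by
        rw [← Nat.floor_add_one (norm_nonneg z₀)]
        exact Nat.floor_mono h9.le
      show ⌊‖z‖⌋₊ + 1 < ⌊‖z₀‖⌋₊ + 2 + 1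
      omega
    exact (h6 (r z) h12 h11).symm
  have hum : ∀ z, MeromorphicAt u z := by
    intro z₀
    obtain ⟨R, hR1, hR2⟩ := hu z₀
    exact (hv1 R z₀ hR1).congr hR2
  refine ⟨Mer.mk u hum, ?_⟩
  rw [Mer.mk_pow, ← hmk, Mer.mk_eq_mk]
  intro z₀
  obtain ⟨R, hR1, hR2⟩ := hu z₀
  filter_upwards [hR2, hv2 R z₀ hR1] with z h2 h3
  rw [← h2]
  exact h3.symm

end Pool.ThmP
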