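import Pool.Agent.Work.MP_f82ddf_P.Interface2
import Pool.Agent.Work.MP_f82ddf_M0.B_SHARP

set_option autoImplicit false

/-! # Block SHP: the bound `n / k` is attained -/

namespace Pool.ThmP

open MvPolynomial Finset Pool.Agent.Work.MP_f82ddf_nt Pool.Agent.Work.MP_f82ddf_nt.DQ Pool.ThmM
  Pool.ThmM0

private lemma SHP_hom {K : Type} [Field K] {r N k : ℕ} (a : Matrix (Fin r) (Fin (N + 1)) K) :
    ∀ F ∈ diag k a, ∃ d, F.IsHomogeneous d := by
  rintro F ⟨i, rfl⟩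
  refine ⟨k, IsHomogeneous.sum _ _ _ fun j _ => ?_⟩
  have h := (isHomogeneous_C (Fin (N + 1)) (a i j)).mul ((isHomogeneous_X K j).pow k)
  simpa using h

private lemma SHP_fin {K : Type} [Field K] {r N k : ℕ} (hk : 2 ≤ k)
    (a : Matrix (Fin r) (Fin (N + 1)) K) : FiniteTo k a (diag k a) 1 X := by
  refine ⟨le_refl _, fun j => isHomogeneous_X _ _, fun v hv => ⟨fun i => ?_, fun h => ?_⟩⟩
  · have h := hv _ ⟨i, rfl⟩
    rw [map_sum] at h
    rw [← h]
    refine Finset.sum_congr rfl fun j _ => ?_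
    rw [map_mul, map_pow, aeval_X, aeval_C]
  · funext j
    have := h j
    rwa [aeval_X] at this

theorem p_SHP (hDIA : Stmt_DIA) : Stmt_SHP := by
  intro n r k hk
  obtain ⟨a, L, ha, hL, hp⟩ := stmt_SHARP n r k hk
  obtain ⟨l, -, hl⟩ := hDIA n r k hk ℚ a ha
  obtain ⟨g, hg, hm, hd⟩ := hl (n + r) 1 (diag k a) X (SHP_hom a) (SHP_fin hk a)
  exact ⟨diag k a, g, fun j c => algebraMap ℚ (AlgebraicClosure ℚ) (l j c), L, SHP_hom a, hg, hm,
    hd, hL, hp⟩

end Pool.ThmP
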