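import Pool.Agent.Work.MP_f82ddf_P.Interface

set_option autoImplicit false

/-! # THEOREM P (MP_f82ddf_nt), block SPT -/

namespace Pool.ThmP

open MvPolynomial Finset Pool.Agent.Work.MP_f82ddf_nt Pool.Agent.Work.MP_f82ddf_nt.DQ Pool.ThmM
  Pool.ThmM0

theorem p_SPT (h1 : Stmt_MPT) (h2 : Stmt_HPT) : Stmt_SPT := by
  intro K Ω κ _ _ _ _ _ m n N S g l J hS hJ τ V hτ x hx hx0 s hs d hd hV
  -- the largest coordinate
  obtain ⟨i₁, -, hmax⟩ := Finset.exists_max_image Finset.univ (fun i => V.valuation (x i))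
    ⟨0, Finset.mem_univ _⟩
  have hi₁ : x i₁ ≠ 0 := by
    intro h0
    apply hx0
    funext i
    have h3 := hmax i (Finset.mem_univ i)
    rw [h0, map_zero] at h3
    exact (map_eq_zero V.valuation).1 (le_antisymm h3 zero_le)
  have hvi₁ : V.valuation (x i₁) ≠ 0 := (Valuation.ne_zero_iff _).2 hi₁
  have hmem : ∀ i, x i / x i₁ ∈ V := by
    intro i
    rw [← V.valuation_le_one_iff, map_div₀]
    exact div_le_one_of_le₀ (hmax i (Finset.mem_univ i)) zero_le
  set x' : Fin (m + 1) → κ := fun i => x i / x i₁ with hx'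
  have hxx' : x = x i₁ • x' := by
    funext i
    rw [Pi.smul_apply, smul_eq_mul, hx']
    field_simp
  have hx'S : OnK τ S x' := by
    intro F hF
    obtain ⟨e, he⟩ := hS F hF
    have h3 := hx F hF
    rw [hxx', eval₂_smul_hom he] at h3
    exact (mul_eq_zero.1 h3).resolve_left (pow_ne_zero _ hi₁)
  -- the reduction
  set τV : Ω →+* V := τ.codRestrict V.toSubring hτ with hτV
  set xV : Fin (m + 1) → V := fun i => ⟨x' i, hmem i⟩ with hxV
  have hcoe : ∀ H : MvPolynomial (Fin (m + 1)) Ω, ((eval₂ τV xV H : V) : κ) = eval₂ τ x' H := by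
    intro H
    have h3 := eval₂_comp_left V.subtype τV xV H
    exact h3
  have hcoeK : ∀ H : MvPolynomial (Fin (m + 1)) K,
      ((eval₂ (τV.comp (algebraMap K Ω)) xV H : V) : κ) = eval₂ (τ.comp (algebraMap K Ω)) x' H := by
    intro H
    have h3 := eval₂_comp_left V.subtype (τV.comp (algebraMap K Ω)) xV H
    exact h3
  set τr : Ω →+* IsLocalRing.ResidueField V := (IsLocalRing.residue V).comp τV with hτr
  set p : Fin (m + 1) → IsLocalRing.ResidueField V := fun i => IsLocalRing.residue V (xV i) with hp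
  have hres : ∀ H : MvPolynomial (Fin (m + 1)) Ω,
      IsLocalRing.residue V (eval₂ τV xV H) = eval₂ τr p H := by
    intro H
    exact eval₂_comp_left (IsLocalRing.residue V) τV xV H
  have hpS : OnK τr S p := by
    intro F hF
    have h3 : eval₂ (τV.comp (algebraMap K Ω)) xV F = 0 := by
      apply Subtype.ext
      rw [hcoeK F]
      exact hx'S F hF
    have h4 := eval₂_comp_left (IsLocalRing.residue V) (τV.comp (algebraMap K Ω)) xV F
    rw [h3, map_zero] at h4
    exact h4.symm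
  have hp1 : p i₁ = 1 := by
    have h3 : xV i₁ = 1 := by
      apply Subtype.ext
      exact div_self hi₁
    show IsLocalRing.residue V (xV i₁) = 1
    rw [h3, map_one]
  have hp0 : p ≠ 0 := by
    intro h0
    rw [h0] at hp1
    exact zero_ne_one hp1
  obtain ⟨s', hs', c₁, hc₁⟩ := (h1 K Ω _ m n S g τr p hpS).1 hp0
  obtain ⟨j, hj, hjz⟩ := h2 K Ω _ m n N S g l J hJ τr p hpS hp0 s' hs' ⟨c₁, hc₁⟩
  refine ⟨j, hj, ?_⟩
  -- units
  have hunit : ∀ a : V, IsLocalRing.residue V a ≠ 0 → V.valuation (a : κ) = 1 := by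
    intro a ha
    rw [← V.valuation_eq_one_iff]
    exact (IsLocalRing.residue_ne_zero_iff_isUnit a).1 ha
  have hv1 : V.valuation (eval₂ τ x' (s' c₁)) = 1 := by
    rw [← hcoe]
    apply hunit
    rw [hres]
    exact hc₁
  have hv2 : V.valuation (∑ c, τ (l j c) * eval₂ τ x' (s' c)) = 1 := by
    have h3 : ((∑ c, τV (l j c) * eval₂ τV xV (s' c) : V) : κ) =
        ∑ c, τ (l j c) * eval₂ τ x' (s' c) := by
      have h4 : ((∑ c, τV (l j c) * eval₂ τV xV (s' c) : V) : κ) =
          V.subtype (∑ c, τV (l j c) * eval₂ τV xV (s' c)) := rfl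
      rw [h4, map_sum]
      refine Finset.sum_congr rfl fun c _ => ?_
      rw [map_mul]
      congr 1
      exact hcoe (s' c)
    rw [← h3]
    apply hunit
    rw [map_sum]
    have h5 : ∑ c, IsLocalRing.residue V (τV (l j c) * eval₂ τV xV (s' c)) =
        ∑ c, τr (l j c) * eval₂ τr p (s' c) := by
      refine Finset.sum_congr rfl fun c _ => ?_
      rw [map_mul, hres]
      rfl
    rw [h5]
    exact hjz
  -- the two tuples are proportional
  obtain ⟨e, he⟩ := g.homogeneous s' hs'
  have hprop : ∀ c c', eval₂ τ x (s c) * eval₂ τ x' (s' c') =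
      eval₂ τ x (s c') * eval₂ τ x' (s' c) := by
    intro c c'
    have h3 := (h1 K Ω κ m n S g τ x hx).2 s hs s' hs' c c'
    have h4 : ∀ b, eval₂ τ x (s' b) = x i₁ ^ e * eval₂ τ x' (s' b) := by
      intro b
      conv_lhs => rw [hxx']
      exact eval₂_smul_hom (he b) τ x' (x i₁)
    rw [h4, h4] at h3
    apply mul_left_cancel₀ (pow_ne_zero e hi₁)
    linear_combination h3
  have hv0 : eval₂ τ x' (s' c₁) ≠ 0 := by
    intro h0
    rw [h0, map_zero] at hv1
    exact zero_ne_one hv1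
  have hd' : eval₂ τ x' (s' d) ≠ 0 := by
    intro h0
    have h3 := hprop d c₁
    rw [h0, mul_zero] at h3
    rcases mul_eq_zero.1 h3 with h4 | h4
    · exact hd h4
    · exact hv0 h4
  have hvd1 : V.valuation (eval₂ τ x' (s' d)) ≤ 1 := by
    rw [← hcoe]
    exact V.valuation_le_one _
  have hvd2 : 1 ≤ V.valuation (eval₂ τ x' (s' d)) := by
    have h3 := hV c₁
    have h4 : eval₂ τ x (s c₁) / eval₂ τ x (s d) = eval₂ τ x' (s' c₁) / eval₂ τ x' (s' d) := by
      rw [div_eq_div_iff hd hd']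
      linear_combination hprop c₁ d
    rw [h4, ← V.valuation_le_one_iff, map_div₀, hv1] at h3
    have h5 : V.valuation (eval₂ τ x' (s' d)) ≠ 0 := (Valuation.ne_zero_iff _).2 hd'
    rw [div_le_one₀ (zero_lt_iff.2 h5)] at h3
    exact h3
  have hvd : V.valuation (eval₂ τ x' (s' d)) = 1 := le_antisymm hvd1 hvd2
  have hfin : (∑ c, τ (l j c) * eval₂ τ x (s c)) / eval₂ τ x (s d) =
      (∑ c, τ (l j c) * eval₂ τ x' (s' c)) / eval₂ τ x' (s' d) := by
    rw [div_eq_div_iff hd hd', Finset.sum_mul, Finset.sum_mul]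
    refine Finset.sum_congr rfl fun c _ => ?_
    linear_combination τ (l j c) * hprop c d
  rw [ValuationSubring.mem_nonunits_iff, hfin, map_div₀, hv2, hvd, div_one]
  exact lt_irrefl _

end Pool.ThmP
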