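import Pool.Agent.Work.MP_f82ddf_P.Interface

/-! # THEOREM P, block TRX (helper26) -/

set_option autoImplicit false

namespace Pool.ThmP

open MvPolynomial Finset Pool.Agent.Work.MP_f82ddf_nt Pool.Agent.Work.MP_f82ddf_nt.DQ Pool.ThmM
  Pool.ThmM0

theorem p_TRX : Stmt_TRX := by
  classical
  intro m p A B hp hA hB
  let M := AlgebraicIndependent.matroid ℂ Mer
  obtain ⟨I, hI⟩ := M.exists_isBasis B (Set.subset_univ _)
  have hPi : M.Indep (Set.range p) := by
    rw [AlgebraicIndependent.matroid_indep_iff]
    exact hp.to_subtype_range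
  have hAB : A ⊆ M.closure B := by
    intro a ha
    rw [AlgebraicIndependent.matroid_closure_eq]
    exact hB a ha
  have hPA : Set.range p ⊆ M.closure A := by
    rintro _ ⟨j, rfl⟩
    rw [AlgebraicIndependent.matroid_closure_eq]
    exact hA j
  have hPB : Set.range p ⊆ M.closure B := by
    refine hPA.trans ?_
    have h := M.closure_subset_closure hAB
    rwa [Matroid.closure_closure] at h
  have h1 : (Set.range p).encard ≤ M.eRk B := by
    rw [← M.eRk_closure_eq]
    exact hPi.encard_le_eRk_of_subset hPB
  rw [← hI.encard_eq_eRk] at h1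
  have hcard : (Set.range p).encard = m := by
    have hinj : Function.Injective p := hp.injective
    rw [← Set.image_univ, hinj.encard_image]
    simp
  rw [hcard] at h1
  obtain ⟨J, hJI, hJc⟩ := Set.exists_subset_encard_eq h1
  have hJfin : J.Finite := Set.finite_of_encard_eq_coe hJc
  have : Fintype J := hJfin.fintype
  have h3 : Fintype.card J = m := by
    have h4 : J.ncard = m := by rw [Set.ncard, hJc]; rfl
    rw [← Nat.card_eq_fintype_card]
    exact h4
  let e : Fin m ≃ J := (Fintype.equivFinOfCardEq h3).symm
  refine ⟨fun j => (e j : Mer), fun j => hI.subset (hJI (e j).2), ?_⟩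
  have hIi : AlgebraicIndependent ℂ (fun b : I => (b : Mer)) := hI.indep
  have := hIi.comp (fun j => (⟨(e j : Mer), hJI (e j).2⟩ : I)) (by
    intro i j hij
    have := congrArg Subtype.val hij
    exact e.injective (Subtype.ext this))
  exact this

end Pool.ThmP
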