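import Pool.Agent.Work.MP_f82ddf_P.Interface

set_option autoImplicit false

/-! # Block VAL: algebraic by a valuation ring -/

namespace Pool.ThmP

open MvPolynomial Finset Pool.Agent.Work.MP_f82ddf_nt Pool.Agent.Work.MP_f82ddf_nt.DQ Pool.ThmM
  Pool.ThmM0

/-- An element which is not algebraic over a subalgebra is not in some valuation ring which contains
the subalgebra. -/
private lemma VAL_exists {k F : Type} [Field k] [Field F] [Algebra k F] (A : Subalgebra k F) (t : F)
    (ht : ¬ IsAlgebraic A t) : ∃ V : ValuationSubring F, (∀ a ∈ A, a ∈ V) ∧ t ∉ V := by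
  by_contra hno
  push Not at hno
  apply ht
  have h1 : t ∈ (⨅ V : {V : ValuationSubring F // (A : Set F) ⊆ V.toSubring}, V.1.toSubring) := by
    rw [Subring.mem_iInf]
    rintro ⟨V, hV⟩
    exact hno V fun a ha => hV ha
  rw [iInf_valuationSubring_superset] at h1
  have h2 : IsIntegral (Subring.closure (A : Set F)) t := h1
  have hle : Subring.closure (A : Set F) ≤ A.toSubring := Subring.closure_le.2 fun a ha => ha
  obtain ⟨p, hp, hp0⟩ := h2
  have h3 : IsIntegral A t := by
    refine ⟨p.map (Subring.inclusion hle), hp.map _, ?_⟩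
    rw [Polynomial.eval₂_map]
    exact hp0
  exact h3.isAlgebraic

theorem p_VAL (hSPT : Stmt_SPT) : Stmt_VAL := by
  intro K Ω _ _ _ _ m n N S g l J hS hJ τ x hx hx0 s hs j₀ hj₀ hz c
  by_contra hcon
  obtain ⟨V, hV, hVt⟩ := VAL_exists _ _ hcon
  set y : Fin (n + 1) → Mer := fun c => eval₂ (tm τ) x (s c) with hy
  set z : Fin (N + 1) → Mer := fun j => ∑ c, tm τ (l j c) * y c with hzdef
  have hconst : ∀ a : Ω, tm τ a ∈ V := fun a => hV _ (Subalgebra.algebraMap_mem _ (τ a))
  obtain ⟨d, -, hd⟩ := Finset.exists_max_image (Finset.univ : Finset (Fin (n + 1)))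
    (fun i => V.valuation (y i)) ⟨0, Finset.mem_univ _⟩
  have hd' : ∀ i, V.valuation (y i) ≤ V.valuation (y d) := fun i => hd i (Finset.mem_univ _)
  have hyd : y d ≠ 0 := by
    intro h0
    apply hz
    refine Finset.sum_eq_zero fun i _ => ?_
    have h1 := hd' i
    rw [h0, map_zero] at h1
    have h2 : y i = 0 := by
      have h3 := le_antisymm h1 zero_le'
      exact (V.valuation.zero_iff).1 h3
    change tm τ (l j₀ i) * y i = 0
    rw [h2, mul_zero]
  have hvd : 0 < V.valuation (y d) := by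
    rw [zero_lt_iff]
    exact (V.valuation.ne_zero_iff).2 hyd
  have hz0 : z j₀ ≠ 0 := hz
  have hvz : 0 < V.valuation (z j₀) := by
    rw [zero_lt_iff]
    exact (V.valuation.ne_zero_iff).2 hz0
  obtain ⟨j, hj, hjn⟩ := hSPT K Ω Mer m n N S g l J hS hJ (tm τ) V hconst x hx hx0 s hs d hyd
    (fun i => by
      rw [← V.valuation_le_one_iff, map_div₀]
      exact (div_le_one₀ hvd).2 (hd' i))
  rw [V.mem_nonunits_iff, not_lt, map_div₀, one_le_div₀ hvd] at hjn
  have h1 : z j / z j₀ ∈ V := hV _ (Algebra.subset_adjoin ⟨j, hj, rfl⟩)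
  rw [← V.valuation_le_one_iff, map_div₀, div_le_one₀ hvz] at h1
  apply hVt
  rw [← V.valuation_le_one_iff, map_div₀]
  change V.valuation (y c) / V.valuation (z j₀) ≤ 1
  rw [div_le_one₀ hvz]
  exact (hd' c).trans (hjn.trans h1)

end Pool.ThmP
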