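import Pool.Agent.Work.MP_f82ddf_P.B_NUL
import Pool.Agent.Work.MP_f82ddf_P.B_MPT
import Pool.Agent.Work.MP_f82ddf_P.B_HPT
import Pool.Agent.Work.MP_f82ddf_P.B_SPT
import Pool.Agent.Work.MP_f82ddf_P.B_VAL
import Pool.Agent.Work.MP_f82ddf_P.B_EXT
import Pool.Agent.Work.MP_f82ddf_P.B_FIB
import Pool.Agent.Work.MP_f82ddf_P.B_ORD
import Pool.Agent.Work.MP_f82ddf_P.B_ROL
import Pool.Agent.Work.MP_f82ddf_P.B_ROO
import Pool.Agent.Work.MP_f82ddf_P.B_KTH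
import Pool.Agent.Work.MP_f82ddf_P.B_CRB
import Pool.Agent.Work.MP_f82ddf_P.B_CDP
import Pool.Agent.Work.MP_f82ddf_P.B_LGP
import Pool.Agent.Work.MP_f82ddf_P.B_BAS
import Pool.Agent.Work.MP_f82ddf_P.B_REP
import Pool.Agent.Work.MP_f82ddf_P.B_TRX
import Pool.Agent.Work.MP_f82ddf_P.B_ALJ
import Pool.Agent.Work.MP_f82ddf_P.B_ONP
import Pool.Agent.Work.MP_f82ddf_P.B_GNP
import Pool.Agent.Work.MP_f82ddf_P.B_DIM
import Pool.Agent.Work.MP_f82ddf_P.B_F12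
import Pool.Agent.Work.MP_f82ddf_P.B_FP3
import Pool.Agent.Work.MP_f82ddf_P.B_FFB
import Pool.Agent.Work.MP_f82ddf_P.B_DIA
import Pool.Agent.Work.MP_f82ddf_P.B_SHP
import Pool.Agent.Work.MP_f82ddf_M.AllC
import Pool.Agent.Work.MP_f82ddf_M0.All
import Pool.Agent.Work.MP_f82ddf_M0.B_IMG
import Pool.Agent.Work.MP_f82ddf_M0.B_PAI
import Pool.Agent.Work.MP_f82ddf_M0.B_DHO
import Pool.Agent.Work.MP_f82ddf_M0.B_CST
import Pool.Agent.Work.MP_f82ddf_cl.All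

/-!
# THEOREM P: assembly
-/

set_option autoImplicit false

namespace Pool.ThmP

theorem all_NUL : Stmt_NUL := p_NUL
theorem all_MPT : Stmt_MPT := p_MPT all_NUL
theorem all_HPT : Stmt_HPT := p_HPT all_NUL all_MPT
theorem all_SPT : Stmt_SPT := p_SPT all_MPT all_HPT
theorem all_VAL : Stmt_VAL := p_VAL all_SPT
theorem all_FIB : Stmt_FIB := p_FIB all_MPT p_EXT
theorem all_ORD : Stmt_ORD := p_ORD all_NUL all_MPT Pool.ThmM.all_VAL Pool.ThmM.Chow.q_OZE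
theorem all_ROO : Stmt_ROO := p_ROO p_ROL
theorem all_KTH : Stmt_KTH := p_KTH all_ORD all_ROO Pool.ThmM.all_VAL
theorem all_CRB : Stmt_CRB := p_CRB Pool.ThmM.Chow.q_CORE Pool.ThmM.all_TRA
theorem all_CDP : Stmt_CDP := p_CDP all_CRB Pool.ThmM0.all_T3 Pool.Agent.Work.MP_f82ddf_M5.all_P5
  Pool.ThmM0.stmt_TRD
theorem all_LGP : Stmt_LGP := p_LGP all_CRB Pool.ThmM0.stmt_CH1 Pool.ThmM0.stmt_CPW
theorem all_ALJ : Stmt_ALJ := p_ALJ all_VAL all_FIB p_TRX Pool.ThmM0.stmt_HOMR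
theorem all_ONP : Stmt_ONP := p_ONP all_MPT all_HPT all_KTH all_CDP p_BAS p_REP all_ALJ
  Pool.ThmM0.stmt_EXPO
theorem all_DIM : Stmt_DIM := p_DIM all_ONP
theorem all_GNP : Stmt_GNP := p_GNP all_MPT all_KTH all_FIB p_BAS all_LGP Pool.ThmM0.stmt_NHC
  Pool.ThmM0.stmt_PUL Pool.ThmM0.stmt_CST Pool.ThmM0.stmt_EXPO
/-- THEOREM P, parts (i) and (ii). -/
theorem all_P12 : Stmt_P12 := p_F12 all_ONP (Pool.ThmM0.stmt_IMG Pool.ThmM0.stmt_MREL)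
  (Pool.ThmM0.stmt_PAI Pool.ThmM0.stmt_DHO) Pool.MCL.all_P6C
/-- THEOREM P, part (iii). -/
theorem all_P3 : Stmt_P3 := p_FP3 all_GNP
theorem all_FFB : Stmt_FFB := p_FFB all_NUL
theorem all_DIA : Stmt_DIA := p_DIA all_FFB Pool.ThmM0.stmt_MIN
theorem all_SHP : Stmt_SHPP := p_SHP all_DIA

end Pool.ThmP
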