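import Pool.Agent.Work.MP_f82ddf_P.Interface3
import Pool.Agent.Work.MP_f82ddf_P.B_CDP

set_option autoImplicit false

/-! # Block CDG: divisibility at valuation rings, descent to the span of `T` -/

namespace Pool.ThmP

open MvPolynomial Finset Pool.Agent.Work.MP_f82ddf_nt Pool.Agent.Work.MP_f82ddf_nt.DQ Pool.ThmM
  Pool.ThmM0

namespace CDG

open CDP in
/-- The standard vectors are combinations of the elements of `T`. -/
theorem single_mem {r : ℕ} {T : Finset (Fin (r + 1) → ℂ)}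
    (hsp : ∀ v : Fin (r + 1) → ℂ, (∀ u ∈ T, ∑ i, v i * u i = 0) → v = 0) (i : Fin (r + 1)) :
    ∃ a : (Fin (r + 1) → ℂ) → ℂ, ∑ u ∈ T, a u • u = (Pi.single i 1 : Fin (r + 1) → ℂ) := by
  classical
  have htop : Submodule.span ℂ (T : Set (Fin (r + 1) → ℂ)) = ⊤ := by
    by_contra hne
    obtain ⟨f, hf0, hf⟩ := Submodule.exists_le_ker_of_lt_top _ (lt_top_iff_ne_top.2 hne)
    apply hf0
    have h1 : ∀ u : Fin (r + 1) → ℂ, f u = ∑ i, f (Pi.single i 1) * u i := by
      intro u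
      conv_lhs => rw [show u = ∑ i, u i • (Pi.single i 1 : Fin (r + 1) → ℂ) by
        funext j; simp [Finset.sum_apply, Pi.single_apply]]
      rw [map_sum]
      refine Finset.sum_congr rfl fun i _ => ?_
      rw [map_smul, smul_eq_mul, mul_comm]
    have h2 : (fun i => f (Pi.single i 1)) = 0 := hsp _ fun u hu => by
      rw [← h1]
      exact hf (Submodule.subset_span hu)
    ext j
    have := congrFun h2 j
    simpa using this
  have hm : (Pi.single i 1 : Fin (r + 1) → ℂ) ∈ Submodule.span ℂ (T : Set (Fin (r + 1) → ℂ)) := by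
    rw [htop]; trivial
  obtain ⟨a, -, ha⟩ := Submodule.mem_span_finset.1 hm
  exact ⟨a, ha⟩

open CDP in
/-- The first case: no vector is orthogonal to all of `T`. -/
theorem case1 (hGVA : Stmt_GVA) {r w d k : ℕ} (hk : 1 ≤ k) {Q : MvPolynomial (Fin (w + 2)) ℂ}
    {A : Fin (r + 1) → MvPolynomial (Fin (w + 2)) ℂ} {T : Finset (Fin (r + 1) → ℂ)}
    {lift : (Fin (r + 1) → ℂ) → (Fin (w + 2) → ℂ)} (hD : HypData r w d Q A T lift)
    (hsp : ∀ v : Fin (r + 1) → ℂ, (∀ u ∈ T, ∑ i, v i * u i = 0) → v = 0)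
    (hT0 : ∀ u ∈ T, u ≠ 0)
    {x : Fin (r + 1) → Mer} (hx : LinearIndependent ℂ x)
    {c : Mer} {Fix : MvPolynomial (Fin 2 × Fin (w + 2)) ℂ}
    {Psi : MvPolynomial (Fin 2 × Fin (w + 2)) Mer}
    (hch : Pool.Agent.Work.MP_f82ddf_M5.chow d d (map (algebraMap ℂ Mer) Q)
            (Pool.Agent.Work.MP_f82ddf_M5.comb (algebraMap ℂ Mer) A x) =
          C c * map (algebraMap ℂ Mer) Fix * Psi ^ k)
    (F : Type) [Field F] [Algebra ℂ F] (ι : F →ₐ[ℂ] Mer) (V : ValuationSubring F)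
    (hV : ∀ a : ℂ, algebraMap ℂ F a ∈ V) (u₀ : Fin (r + 1) → ℂ) (hu₀ : u₀ ∈ T)
    (ζ : (Fin (r + 1) → ℂ) → F)
    (hζ : ∀ u ∈ T, ζ u ∈ V ∧ ι (ζ u) = (∑ i, algebraMap ℂ Mer (u i) * x i) /
            ∑ i, algebraMap ℂ Mer (u₀ i) * x i) :
    ∀ u ∈ T, UPow V k (ζ u) := by
  classical
  intro u hu
  have hιinj : Function.Injective ι := ι.toRingHom.injective
  obtain ⟨n₀, hn₀⟩ : ∃ n₀, n₀ = ∑ i, algebraMap ℂ Mer (u₀ i) * x i := ⟨_, rfl⟩
  have hLne : ∀ v ∈ T, ∑ i, algebraMap ℂ Mer (v i) * x i ≠ 0 := by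
    intro v hv h0
    rw [← L_apply] at h0
    exact hT0 v hv (L_inj hx (h0.trans (map_zero _).symm))
  have hn0 : n₀ ≠ 0 := by rw [hn₀]; exact hLne u₀ hu₀
  rw [← hn₀] at hζ
  choose a ha using fun i => single_mem hsp i
  obtain ⟨ξ, hξ⟩ : ∃ ξ : Fin (r + 1) → F, ∀ i, ξ i = ∑ v ∈ T, algebraMap ℂ F (a i v) * ζ v :=
    ⟨fun i => _, fun i => rfl⟩
  have hξV : ∀ i, ξ i ∈ V := by
    intro i
    rw [hξ]
    exact sum_mem fun v hv => mul_mem (hV _) (hζ v hv).1
  have hιξ : ∀ i, ι (ξ i) = x i / n₀ := by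
    intro i
    rw [hξ, map_sum]
    have h1 : x i = ∑ v ∈ T, algebraMap ℂ Mer (a i v) * ∑ l, algebraMap ℂ Mer (v l) * x l := by
      have h2 : L x (Pi.single i 1) = x i := by
        rw [L_apply, Finset.sum_eq_single i]
        · simp
        · intro l _ hl
          rw [Pi.single_eq_of_ne hl]; simp
        · intro h; exact absurd (Finset.mem_univ i) h
      rw [← h2, ← ha i, map_sum]
      refine Finset.sum_congr rfl fun v _ => ?_
      rw [map_smul, Algebra.smul_def, L_apply]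
    rw [h1, Finset.sum_div]
    refine Finset.sum_congr rfl fun v hv => ?_
    rw [map_mul, AlgHom.commutes, (hζ v hv).2, mul_div_assoc]
  have hsum : ∀ v : Fin (r + 1) → ℂ, ι (∑ i, algebraMap ℂ F (v i) * ξ i) =
      (∑ i, algebraMap ℂ Mer (v i) * x i) / n₀ := by
    intro v
    rw [map_sum, Finset.sum_div]
    refine Finset.sum_congr rfl fun i _ => ?_
    rw [map_mul, AlgHom.commutes, hιξ, mul_div_assoc]
  have hone : ∑ i, algebraMap ℂ F (u₀ i) * ξ i = 1 := by
    apply hιinj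
    rw [hsum, ← hn₀, div_self hn0, map_one]
  -- some `ξ i₁` is a unit of `V`
  obtain ⟨i₁, hi₁⟩ : ∃ i₁, 1 ≤ V.valuation (ξ i₁) := by
    by_contra hcon
    push Not at hcon
    have h1 : V.valuation (∑ i, algebraMap ℂ F (u₀ i) * ξ i) < 1 := by
      refine Valuation.map_sum_lt _ one_ne_zero fun i _ => ?_
      rw [map_mul]
      calc V.valuation (algebraMap ℂ F (u₀ i)) * V.valuation (ξ i)
          ≤ 1 * V.valuation (ξ i) :=
            mul_le_mul_left ((V.valuation_le_one_iff _).2 (hV _)) _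
        _ < 1 := by rw [one_mul]; exact hcon i
    rw [hone, map_one] at h1
    exact lt_irrefl _ h1
  have hξ0 : ξ i₁ ≠ 0 := by
    intro h0
    rw [h0, map_zero] at hi₁
    exact absurd hi₁ (not_le.2 zero_lt_one)
  have hξinv : (ξ i₁)⁻¹ ∈ V := by
    rw [← V.valuation_le_one_iff, map_inv₀]
    exact inv_le_one_of_one_le₀ hi₁
  have hxi : x i₁ ≠ 0 := hx.ne_zero i₁
  obtain ⟨e, rfl⟩ : ∃ e, d = e + 1 := ⟨d - 1, by have := hD.hd; omega⟩
  obtain ⟨c', hc', hA⟩ := hD.prop u hu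
  have hζu : ∑ i, algebraMap ℂ F (u i) * ξ i = ζ u := by
    apply hιinj
    rw [hsum, (hζ u hu).2]
  have hζ0 : ζ u ≠ 0 := by
    intro h0
    have h1 := (hζ u hu).2
    rw [h0, map_zero] at h1
    exact div_ne_zero (hLne u hu) hn0 h1.symm
  have hsum' : ∑ i, algebraMap ℂ F (u i) * (ξ i / ξ i₁) = ζ u * (ξ i₁)⁻¹ := by
    rw [← hζu, Finset.sum_mul]
    refine Finset.sum_congr rfl fun i _ => ?_
    rw [div_eq_mul_inv, mul_assoc]
  have hdata : Pool.Agent.Work.MP_f82ddf_M5.Data (w + 2) r (e + 1) (e + 1) Q A := by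
    refine ⟨hD.irr, hD.homQ, hD.homA, ?_⟩
    intro y hy
    refine hsp y fun u hu => ?_
    obtain ⟨c', hc', hA⟩ := hD.prop u hu
    obtain ⟨B, hB⟩ := hy
    have h4 : eval (lift u) (Pool.Agent.Work.MP_f82ddf_M5.comb (RingHom.id ℂ) A y) = 0 := by
      rw [hB, map_mul, hD.zero u hu, zero_mul]
    have h5 : eval (lift u) (Pool.Agent.Work.MP_f82ddf_M5.comb (RingHom.id ℂ) A y) =
        c' * ∑ i, y i * u i := by
      rw [Pool.Agent.Work.MP_f82ddf_M5.comb, map_sum, Finset.mul_sum]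
      refine Finset.sum_congr rfl fun i _ => ?_
      rw [map_mul, eval_C, map_id, hA]
      ring
    rw [h5] at h4
    exact (mul_eq_zero.1 h4).resolve_left hc'
  have hU := hGVA (w + 2) r e (e + 1) k Q A hk hdata F Mer ι V hV x i₁ (fun i => ξ i / ξ i₁) hxi
    (fun i => by rw [div_eq_mul_inv]; exact mul_mem (hξV i) hξinv)
    (fun i => by rw [map_div₀, hιξ, hιξ, div_div_div_cancel_right₀ hn0])
    c Fix Psi hch (lift u) c' u (hD.zero u hu) ⟨_, hD.smooth u hu⟩ hc' hA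
    (by rw [hsum']; exact mul_ne_zero hζ0 (inv_ne_zero hξ0))
  rw [hsum'] at hU
  have h6 := hU.mul (ξ i₁) (hξV i₁) hξinv
  rwa [inv_mul_cancel_right₀ hξ0] at h6

end CDG

open CDP in
theorem p_CDG (h1 : Stmt_CRB) (h2 : Pool.ThmM.Stmt_T3) (h3 : Stmt_GVA) : Stmt_CDG := by
  classical
  intro r b
  induction r using Nat.strong_induction_on with
  | _ r ih =>
  choose! fN hfN using ih
  choose β hβ using fun w d => h1 r w d
  obtain ⟨N₁, dmax, hT⟩ := h2 r
    (fun w d => max (max b ((Finset.range r).sup fN)) (max 2 (β w d)))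
  refine ⟨N₁, fun S hS hcard k x hk hx hper hpow => ?_⟩
  obtain ⟨w, d, Q, A, T, lift, hD, -, hTS, hβT, hdiv⟩ := hT S hS hcard
  have hb : b ≤ T.card := (le_max_left _ _).trans ((le_max_left _ _).trans hβT)
  have hB : (Finset.range r).sup fN ≤ T.card :=
    (le_max_right _ _).trans ((le_max_left _ _).trans hβT)
  have h2T : 2 ≤ T.card := (le_max_left _ _).trans ((le_max_right _ _).trans hβT)
  have hTβ : β w d ≤ T.card := (le_max_right _ _).trans ((le_max_right _ _).trans hβT)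
  have hTnp : ∀ u ∈ T, ∀ v ∈ T, u ≠ v → NonProp u v :=
    fun u hu v hv => hS u (hTS hu) v (hTS hv)
  have hT0 : ∀ u ∈ T, u ≠ 0 := by
    intro u hu h0
    obtain ⟨v, hv, hne⟩ : ∃ v ∈ T, v ≠ u := Finset.exists_mem_ne (by omega) u
    have := hTnp u hu v hv hne.symm 1 0 (by rw [h0]; simp)
    exact one_ne_zero this.1
  by_cases hsp : ∀ v : Fin (r + 1) → ℂ, (∀ u ∈ T, ∑ i, v i * u i = 0) → v = 0
  · obtain ⟨c, Fix, Psi, hch⟩ := hβ w d Q A T lift hD hTβ
      (fun e f he hf hfT => hdiv e f (he.trans ((le_max_right _ _).trans (le_max_right _ _))) hf hfT)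
      hTnp hsp k x hk hx hper (fun u hu => hpow u (hTS hu))
    exact ⟨T, hTS, hb, fun F _ _ ι V hV u₀ hu₀ ζ hζ =>
      CDG.case1 h3 (by omega) hD hsp hT0 hx hch F ι V hV u₀ hu₀ ζ hζ⟩
  · push Not at hsp
    obtain ⟨v, hvT, hv0⟩ := hsp
    obtain ⟨u₁, hu₁, u₂, hu₂, hne⟩ := Finset.one_lt_card.1 (show 1 < T.card by omega)
    obtain ⟨r', E, Cc, hr', hE, hCE, hEC⟩ := coords T v hv0 hvT u₁ hu₁ (hT0 u₁ hu₁)
    -- the new functions
    let x' : Fin (r' + 1) → Mer := fun i => L x (E (Pi.single i 1))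
    have hLx : ∀ a, L x' a = L x (E a) := by
      intro a
      have h5 : a = ∑ i, a i • (Pi.single i 1 : Fin (r' + 1) → ℂ) := by
        funext j
        simp [Finset.sum_apply, Pi.single_apply]
      conv_rhs => rw [h5, map_sum, map_sum]
      rw [L_apply]
      refine Finset.sum_congr rfl fun i _ => ?_
      rw [map_smul, map_smul, Algebra.smul_def]
    have hx' : LinearIndependent ℂ x' := by
      rw [Fintype.linearIndependent_iff]
      intro a ha i
      have h5 : L x' a = 0 := by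
        rw [← ha]
        unfold L
        rw [Fintype.linearCombination_apply]
      rw [hLx] at h5
      have h6 : E a = 0 := L_inj hx (h5.trans (map_zero _).symm)
      have h7 : a = 0 := hE (h6.trans (map_zero _).symm)
      rw [h7]; rfl
    have hper' : ∀ i, Per (x' i) := by
      intro i
      show Per (L x (E (Pi.single i 1)))
      rw [L_apply]
      exact per_sum _ _ fun l _ => per_const_mul _ (hper l)
    have hCinj : Set.InjOn Cc (T : Set (Fin (r + 1) → ℂ)) := by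
      intro a ha b' hb' hab
      have h5 := congrArg E hab
      rwa [hEC a ha, hEC b' hb'] at h5
    have hcard' : (T.image Cc).card = T.card := Finset.card_image_of_injOn hCinj
    have hS' : ∀ u ∈ T.image Cc, ∀ v ∈ T.image Cc, u ≠ v → NonProp u v := by
      intro u hu v hv huv a b' hab
      obtain ⟨u', hu', rfl⟩ := Finset.mem_image.1 hu
      obtain ⟨v', hv', rfl⟩ := Finset.mem_image.1 hv
      refine hTnp u' hu' v' hv' (fun h => huv (by rw [h])) a b' ?_
      have h5 := congrArg E hab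
      rwa [map_smul, map_smul, hEC u' hu', hEC v' hv'] at h5
    have hLC : ∀ u ∈ T, ∑ i, algebraMap ℂ Mer (Cc u i) * x' i =
        ∑ i, algebraMap ℂ Mer (u i) * x i := by
      intro u hu
      rw [← L_apply, ← L_apply, hLx, hEC u hu]
    have hpow' : ∀ u ∈ T.image Cc, ∃ y : Mer, ∑ i, algebraMap ℂ Mer (u i) * x' i = y ^ k := by
      intro u hu
      obtain ⟨u', hu', rfl⟩ := Finset.mem_image.1 hu
      obtain ⟨y, hy⟩ := hpow u' (hTS hu')
      exact ⟨y, by rw [hLC u' hu', hy]⟩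
    have hN : fN r' ≤ (T.image Cc).card := by
      rw [hcard']
      exact (Finset.le_sup (f := fN) (Finset.mem_range.2 hr')).trans hB
    obtain ⟨T', hT'S, hbT', hT'⟩ := hfN r' hr' (T.image Cc) hS' hN k x' hk hx' hper' hpow'
    refine ⟨T.filter fun u => Cc u ∈ T', (Finset.filter_subset _ _).trans hTS, ?_, ?_⟩
    · refine hbT'.trans ?_
      have h5 : T' ⊆ (T.filter fun u => Cc u ∈ T').image Cc := by
        intro a ha
        obtain ⟨u, hu, rfl⟩ := Finset.mem_image.1 (hT'S ha)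
        exact Finset.mem_image_of_mem _ (Finset.mem_filter.2 ⟨hu, ha⟩)
      exact (Finset.card_le_card h5).trans Finset.card_image_le
    · intro F _ _ ι V hV u₀ hu₀ ζ hζ u hu
      obtain ⟨hu₀T, hu₀'⟩ := Finset.mem_filter.1 hu₀
      obtain ⟨huT, hu'⟩ := Finset.mem_filter.1 hu
      have h5 := hT' F ι V hV (Cc u₀) hu₀' (fun a => ζ (E a)) (by
        intro a ha
        obtain ⟨u', hu'T, rfl⟩ := Finset.mem_image.1 (hT'S ha)
        have h6 := hζ u' (Finset.mem_filter.2 ⟨hu'T, ha⟩)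
        show ζ (E (Cc u')) ∈ V ∧ ι (ζ (E (Cc u'))) = _
        rw [hEC u' hu'T, hLC u' hu'T, hLC u₀ hu₀T]
        exact h6) (Cc u) hu'
      rwa [hEC u huT] at h5

end Pool.ThmP
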