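import Pool.Agent.Work.MP_f82ddf_P.Interface3
import Pool.Agent.Work.MP_f82ddf_M5.Stmts

set_option autoImplicit false

namespace Pool.ThmP

open MvPolynomial Finset Pool.Agent.Work.MP_f82ddf_nt Pool.Agent.Work.MP_f82ddf_nt.DQ Pool.ThmM
  Pool.ThmM0 Pool.Agent.Work.MP_f82ddf_M5

private theorem CHN_theta (hFUN : Pool.Agent.Work.MP_f82ddf_M5.Stmt_FUN) {N r : ℕ}
    (Q : MvPolynomial (Fin N) ℂ) (A : Fin (r + 1) → MvPolynomial (Fin N) ℂ)
    {κ : Type} [CommRing κ] (φ : ℂ →+* κ) (θ : MvPolynomial (Fin (r + 1)) ℂ →+* κ)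
    (hC : ∀ a, θ (C a) = φ a) (x : Fin (r + 1) → κ) (hX : ∀ i, θ (X i) = x i)
    (p q : Fin N → ℂ) (d' D : ℕ) :
    θ (resAt (RingHom.id (MvPolynomial (Fin (r + 1)) ℂ)) (map C Q) (comb C A (fun i => X i))
      (fun i => C (p i)) (fun i => C (q i)) d' D) =
    resAt (RingHom.id κ) (map φ Q) (comb φ A x) (fun i => φ (p i)) (fun i => φ (q i)) d' D := by
  have hθC : θ.comp C = φ := RingHom.ext fun a => hC a
  have h3 := hFUN.2.2.1 N d' D (MvPolynomial (Fin (r + 1)) ℂ) (MvPolynomial (Fin (r + 1)) ℂ) κ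
    (RingHom.id _) θ (map C Q) (comb C A (fun i => X i)) (fun i => C (p i)) (fun i => C (q i))
  have h4 := hFUN.2.2.2.1 N d' D (MvPolynomial (Fin (r + 1)) ℂ) κ κ (RingHom.id κ) θ
    (map C Q) (comb C A (fun i => X i)) (fun i => φ (p i)) (fun i => φ (q i))
  rw [h3]
  have hQ : map θ (map C Q) = map φ Q := by rw [MvPolynomial.map_map, hθC]
  have hG : map θ (comb C A (fun i => X i)) = comb φ A x := by
    unfold comb
    rw [map_sum]
    refine Finset.sum_congr rfl fun i _ => ?_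
    rw [map_mul, map_C, hX, MvPolynomial.map_map, hθC]
  rw [hQ, hG] at h4
  rw [h4, RingHom.comp_id, RingHom.id_comp]
  simp only [hC]

private theorem CHN_main (hNUL : Stmt_NUL) (hFUN : Pool.Agent.Work.MP_f82ddf_M5.Stmt_FUN)
    {N r : ℕ} (Q : MvPolynomial (Fin N) ℂ) (A : Fin (r + 1) → MvPolynomial (Fin N) ℂ)
    (d' D : ℕ) (P : Set ((Fin N → ℂ) × (Fin N → ℂ)))
    (h : ∀ y : Fin (r + 1) → ℂ, y ≠ 0 → ∃ pq ∈ P,
      resAt (RingHom.id ℂ) Q (comb (RingHom.id ℂ) A y) pq.1 pq.2 d' D ≠ 0)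
    (κ : Type) [Field κ] [Algebra ℂ κ] (x : Fin (r + 1) → κ) (hx : x ≠ 0) :
    ∃ pq ∈ P, resAt (RingHom.id κ) (map (algebraMap ℂ κ) Q)
        (comb (algebraMap ℂ κ) A x) (fun i => algebraMap ℂ κ (pq.1 i))
        (fun i => algebraMap ℂ κ (pq.2 i)) d' D ≠ 0 := by
  by_contra hcon
  push Not at hcon
  apply hx
  funext i
  have key := hNUL ℂ ℂ κ r ∅
    {H | ∃ pq ∈ P, H = resAt (RingHom.id (MvPolynomial (Fin (r + 1)) ℂ)) (map C Q)
      (comb C A (fun i => X i)) (fun i => C (pq.1 i)) (fun i => C (pq.2 i)) d' D} (X i) ?_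
      (algebraMap ℂ κ) x ?_ ?_
  · rw [eval₂_X] at key
    simpa using key
  · intro v _ hv
    rw [eval_X]
    by_contra hvi
    have hv0 : v ≠ 0 := fun h0 => hvi (by rw [h0]; rfl)
    obtain ⟨pq, hpq, hne⟩ := h v hv0
    apply hne
    have h1 := hv _ ⟨pq, hpq, rfl⟩
    have h2 := CHN_theta hFUN Q A (RingHom.id ℂ) (eval v) (fun a => by simp) v
      (fun i => by simp) pq.1 pq.2 d' D
    rw [h1] at h2
    rw [map_id] at h2
    exact h2.symm
  · intro F hF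
    exact absurd hF (Set.notMem_empty F)
  · rintro H ⟨pq, hpq, rfl⟩
    have h2 := CHN_theta hFUN Q A (algebraMap ℂ κ) (eval₂Hom (algebraMap ℂ κ) x)
      (fun a => by simp) x (fun i => by simp) pq.1 pq.2 d' D
    rw [coe_eval₂Hom] at h2
    rw [h2]
    exact hcon pq hpq

private theorem CHN_hom {N r D : ℕ} {A : Fin (r + 1) → MvPolynomial (Fin N) ℂ}
    (hA : ∀ i, (A i).IsHomogeneous D) (y : Fin (r + 1) → ℂ) :
    (comb (RingHom.id ℂ) A y).IsHomogeneous D := by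
  unfold comb
  refine IsHomogeneous.sum _ _ _ fun i _ => ?_
  rw [map_id]
  have := (isHomogeneous_C (Fin N) (y i)).mul (hA i)
  rwa [zero_add] at this

theorem p_CHN (hNUL : Stmt_NUL) (hLINE : Pool.Agent.Work.MP_f82ddf_M5.Stmt_LINE)
    (hPTD : Pool.Agent.Work.MP_f82ddf_M5.Stmt_PTD) (hFUN : Pool.Agent.Work.MP_f82ddf_M5.Stmt_FUN) :
    Stmt_CHN := by
  intro N r d D Q A hD κ _ _ x hx
  constructor
  · have hall : ∀ y : Fin (r + 1) → ℂ, y ≠ 0 → ∃ pq ∈ (Set.univ : Set ((Fin N → ℂ) × (Fin N → ℂ))),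
        resAt (RingHom.id ℂ) Q (comb (RingHom.id ℂ) A y) pq.1 pq.2 d D ≠ 0 := by
      intro y hy
      have hch := hLINE N d D Q (comb (RingHom.id ℂ) A y) hD.irr hD.hom (CHN_hom hD.homA y)
        (fun hdvd => hy (hD.nd y hdvd))
      obtain ⟨z, hz⟩ : ∃ z : Fin 2 × Fin N → ℂ,
          eval z (chow d D Q (comb (RingHom.id ℂ) A y)) ≠ 0 := by
        by_contra hcon
        push Not at hcon
        exact hch (MvPolynomial.funext fun z => by rw [hcon z, map_zero])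
      refine ⟨(fun i => z (0, i), fun i => z (1, i)), Set.mem_univ _, ?_⟩
      have h5 := hFUN.2.2.2.2.1 N d D ℂ ℂ (RingHom.id ℂ) Q (comb (RingHom.id ℂ) A y)
        (fun i => z (0, i)) (fun i => z (1, i))
      rw [← h5]
      have hz' : at2 (RingHom.id ℂ) (fun i => z (0, i)) (fun i => z (1, i)) = eval z := by
        unfold at2
        refine MvPolynomial.ringHom_ext (fun a => by simp) ?_
        rintro ⟨a, b⟩
        fin_cases a <;> simp
      rw [hz']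
      exact hz
    obtain ⟨pq, _, h⟩ := CHN_main hNUL hFUN Q A d D Set.univ hall κ x hx
    exact ⟨pq.1, pq.2, h⟩
  · intro e v hde hv hsm
    subst hde
    have hall : ∀ y : Fin (r + 1) → ℂ, y ≠ 0 →
        ∃ pq ∈ {pq : (Fin N → ℂ) × (Fin N → ℂ) | pq.1 = v},
        resAt (RingHom.id ℂ) Q (comb (RingHom.id ℂ) A y) pq.1 pq.2 e D ≠ 0 := by
      intro y hy
      obtain ⟨b, hb, _⟩ := hPTD N e D Q (comb (RingHom.id ℂ) A y) 1 v hD.irr hD.hom
        (CHN_hom hD.homA y) (fun hdvd => hy (hD.nd y hdvd)) hv hsm one_ne_zero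
      exact ⟨(v, b), rfl, hb⟩
    obtain ⟨pq, hpq, h⟩ := CHN_main hNUL hFUN Q A e D {pq | pq.1 = v} hall κ x hx
    have h1 : pq.1 = v := hpq
    rw [h1] at h
    exact ⟨pq.2, h⟩

end Pool.ThmP
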