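import Pool.Agent.Work.MP_f82ddf_P.Interface4

set_option autoImplicit false

/-! # Block CUR: entire curves -/

namespace Pool.ThmP

open MvPolynomial Finset Pool.Agent.Work.MP_f82ddf_nt Pool.Agent.Work.MP_f82ddf_nt.DQ Pool.ThmM
  Pool.ThmM0 Pool.Agent.Work.MP_f82ddf_M5

namespace X_CUR

theorem aeval_scale {σ A : Type} [Fintype σ] [Field A] [Algebra ℂ A] {d : ℕ}
    (f : MvPolynomial σ ℂ) (hf : f.IsHomogeneous d) (a : A) (y : σ → A) :
    aeval (fun i => a * y i) f = a ^ d * aeval y f := by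
  rw [aeval_def, aeval_def, eval₂_eq', eval₂_eq', Finset.mul_sum]
  refine Finset.sum_congr rfl fun t ht => ?_
  have h1 : ∑ i, t i = d := by
    by_contra hne
    refine (mem_support_iff.1 ht) (hf.coeff_eq_zero ?_)
    rwa [Finsupp.degree_eq_sum]
  rw [← h1, ← Finset.prod_pow_eq_pow_sum]
  simp only [mul_pow, Finset.prod_mul_distrib]
  ring

end X_CUR

theorem p_CUR (hGGX : Stmt_GGX) (hMPT : Stmt_MPT) (hMREL : Stmt_MREL) : Stmt_CUR := by
  intro M e c
  obtain ⟨N₀, h⟩ := hGGX M e c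
  refine ⟨N₀, fun k N hk K Ω _ _ _ _ m S hS g F hF hmeet hdiv hN τ f hf hfX => ?_⟩
  obtain ⟨φ, hφ, i, h1, h2, h3, _⟩ :=
    exists_mer_of_curve hS (τ.comp (algebraMap K Ω)) f hf hfX
  set x : Fin (m + 1) → Mer := fun j => Mer.mk (φ j) (hφ j) with hxdef
  have hx : OnK (tm τ) S x := fun F hF => h2 F hF
  have hx0 : x ≠ 0 := by
    intro h0
    have h4 : x i = 1 := h1
    rw [h0] at h4
    exact zero_ne_one h4
  have hM := hMPT K Ω Mer m (M + 1) S g (tm τ) x hx
  obtain ⟨s₀, hs₀, c₀, hc₀⟩ := hM.1 hx0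
  have hrel := h k N hk K Ω m S hS g F hF hmeet hdiv hN τ x hx hx0 s₀ hs₀ ⟨c₀, hc₀⟩
  unfold NoRel at hrel
  push Not at hrel
  obtain ⟨d, P, hP0, hPd, hP⟩ := hrel
  refine ⟨d, P, hP0, hPd, fun z s hs => ?_⟩
  obtain ⟨e', he'⟩ := g.homogeneous s hs
  have hsc : ∀ b, eval₂ (tm τ) x (s b)
      = eval₂ (tm τ) x (s c₀) / eval₂ (tm τ) x (s₀ c₀) * eval₂ (tm τ) x (s₀ b) := by
    intro b
    have h4 := hM.2 s hs s₀ hs₀ b c₀
    rw [div_mul_eq_mul_div, eq_div_iff hc₀]
    exact h4
  have hzero : aeval (fun b => eval₂ (tm τ) x (s b)) P = 0 := by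
    have h5 : (fun b => eval₂ (tm τ) x (s b)) = fun b =>
        eval₂ (tm τ) x (s c₀) / eval₂ (tm τ) x (s₀ c₀) * eval₂ (tm τ) x (s₀ b) := funext hsc
    rw [h5, X_CUR.aeval_scale P hPd, hP, mul_zero]
  set Q : MvPolynomial (Fin (m + 1)) ℂ := aeval (fun b => MvPolynomial.map τ (s b)) P with hQdef
  have hQh : Q.IsHomogeneous (e' * d) :=
    hPd.aeval _ fun b => (he' b).map τ
  have hQx : aeval x Q = 0 := by
    have h6 : aeval x Q = aeval (fun b => aeval x (MvPolynomial.map τ (s b))) P := by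
      rw [hQdef, ← AlgHom.comp_apply, comp_aeval]
    have h7 : (fun b => aeval x (MvPolynomial.map τ (s b))) = fun b => eval₂ (tm τ) x (s b) := by
      funext b
      rw [aeval_def, eval₂_map]
      rfl
    rw [h6, h7, hzero]
  have h8 := hMREL m f φ hφ hf h3 (m + 1) (e' * d) id Q hQh hQx z
  have h9 : eval (f z).rep Q = eval (fun b => eval₂ τ (f z).rep (s b)) P := by
    have h10 : eval (f z).rep Q
        = eval (fun b => eval (f z).rep (MvPolynomial.map τ (s b))) P := by
      have h11 : ∀ G : MvPolynomial (Fin (M + 2)) ℂ,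
          eval (f z).rep (aeval (fun b => MvPolynomial.map τ (s b)) G)
            = eval (fun b => eval (f z).rep (MvPolynomial.map τ (s b))) G := by
        intro G
        induction G using MvPolynomial.induction_on with
        | C a => simp
        | add p q hp hq => rw [map_add, map_add, map_add, hp, hq]
        | mul_X p j hp => rw [map_mul, map_mul, map_mul, hp, aeval_X, eval_X]
      exact h11 P
    rw [h10]
    congr 1
    apply congrArg
    funext b
    rw [eval_map]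
  rw [← h9]
  exact h8

end Pool.ThmP
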