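import Pool.Agent.Work.MP_f82ddf_P.Interface3

namespace Pool.ThmP

theorem p_EXV : Stmt_EXV := by
  intro F M _ _ ι V
  obtain ⟨A, h, hloc⟩ := IsLocalRing.exists_factor_valuationRing (R := V) (K := M) (ι.comp V.subtype)
  refine ⟨A, fun a => ⟨fun ha => ?_, fun ha => h ⟨a, ha⟩⟩⟩
  by_contra hna
  have ha0 : a ≠ 0 := by
    rintro rfl
    exact hna V.zero_mem
  have hinv : a⁻¹ ∈ V := (V.mem_or_inv_mem a).resolve_left hna
  have hu : IsUnit ((RingHom.codRestrict (ι.comp V.subtype) A.toSubring h) (⟨a⁻¹, hinv⟩ : V)) := by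
    refine IsUnit.of_mul_eq_one (⟨ι a, ha⟩ : A.toSubring) ?_
    apply Subtype.ext
    change ι a⁻¹ * ι a = 1
    rw [← map_mul, inv_mul_cancel₀ ha0, map_one]
  have hu' : IsUnit (⟨a⁻¹, hinv⟩ : V) := hloc.map_nonunit _ hu
  obtain ⟨b, hb⟩ := hu'.exists_right_inv
  have hb' : a⁻¹ * (b : F) = 1 := congrArg Subtype.val hb
  have hba : (b : F) = a := by
    field_simp at hb'
    exact hb'
  exact hna (hba ▸ b.2)

end Pool.ThmP
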