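import Pool.Agent.Work.MP_f82ddf_P.Interface3

/-!
# Theorem G: the dimension bounds
-/

set_option autoImplicit false

namespace Pool.ThmP

open MvPolynomial Finset Pool.Agent.Work.MP_f82ddf_nt Pool.Agent.Work.MP_f82ddf_nt.DQ Pool.ThmM
  Pool.ThmM0

theorem p_FDM (h1 : Stmt_GGL) (h2 : Stmt_VER) (h3 : Stmt_ONP) : Stmt_FDM := by
  intro M e c he
  obtain ⟨N₁, hN1⟩ := h1 M e c he
  obtain ⟨N₂, hN2⟩ := h3 ((M + 1 + e).choose e - 1) c
  refine ⟨max N₁ N₂, fun k N hk K _ m S hS g F hfin hhom hc hdiv hbig => ?_⟩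
  have hcard : {j | ¬ ∃ G, F j = G ^ k}.ncard ≤ N + 1 := by
    have h4 := Set.ncard_le_ncard (Set.subset_univ {j | ¬ ∃ G, F j = G ^ k}) Set.finite_univ
    rwa [Set.ncard_univ, Nat.card_eq_fintype_card, Fintype.card_fin] at h4
  have hbig1 : N₁ < {j | ¬ ∃ G, F j = G ^ k}.ncard := lt_of_le_of_lt (le_max_left _ _) hbig
  have hNN : N₂ ≤ N := by
    have h5 : N₂ < {j | ¬ ∃ G, F j = G ^ k}.ncard := lt_of_le_of_lt (le_max_right _ _) hbig
    omega
  obtain ⟨ε, g', -, -, -, hfin', hF⟩ := h2 K (AlgebraicClosure K) m (M + 1) e S g he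
  have hlt : (M + 1 + e).choose e - 1 < (((M + 1 + e).choose e - 1) / k + 1) * k := by
    have h5 := Nat.lt_mul_div_succ ((M + 1 + e).choose e - 1) (show 0 < k by omega)
    rw [mul_comm]
    exact h5
  have hext : ∀ (σ : K →+* ℂ) (x : Fin (m + 1) → Mer), OnMer σ S x →
      ∃ τ : AlgebraicClosure K →+* ℂ, OnK (tm τ) S x := by
    intro σ x hx
    let τ : AlgebraicClosure K →+* ℂ :=
      letI : Algebra K ℂ := σ.toAlgebra
      (IsAlgClosed.lift (R := K) (M := ℂ) (S := AlgebraicClosure K)).toRingHom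
    have hτ : τ.comp (algebraMap K (AlgebraicClosure K)) = σ := by
      let : Algebra K ℂ := σ.toAlgebra
      exact AlgHom.comp_algebraMap
        (IsAlgClosed.lift (R := K) (M := ℂ) (S := AlgebraicClosure K))
    refine ⟨τ, ?_⟩
    intro F hF
    have h6 : (tm τ).comp (algebraMap K (AlgebraicClosure K)) =
        (algebraMap ℂ Mer).comp σ := by
      rw [tm, RingHom.comp_assoc, hτ]
    rw [h6]
    exact hx F hF
  refine ⟨fun σ x hx s => ?_, fun σ x hx s => ?_⟩
  · obtain ⟨τ, hx'⟩ := hext σ x hx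
    exact hN1 k N hk K (AlgebraicClosure K) m S hS g F hfin hhom hc hdiv hbig1 τ x hx' s
  · obtain ⟨τ, hx'⟩ := hext σ x hx
    refine hN2 k N _ hk hNN hlt K (AlgebraicClosure K) m S hS g'
      (fun j c => coeff (ε c) (F j)) (hfin' hfin) ?_
      (fun j => (hF (F j) (hhom j)).2 k (hdiv j)) τ x hx' s
    intro v hv hvX
    have h7 : {j | g'.Meets (fun c => coeff (ε c) (F j)) v} = {j | g.MeetsF (F j) v} := by
      ext j
      exact (hF (F j) (hhom j)).1 v
    rw [h7]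
    exact hc v hv hvX

end Pool.ThmP
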