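import Pool.Agent.Work.MP_f82ddf_P.Interface4

set_option autoImplicit false

namespace Pool.ThmP

open MvPolynomial Finset Pool.Agent.Work.MP_f82ddf_nt Pool.Agent.Work.MP_f82ddf_nt.DQ Pool.ThmM
  Pool.ThmM0 Pool.Agent.Work.MP_f82ddf_M5

private theorem dimMer_mono {K : Type} [Field K] {m : ℕ} (S : Set (MvPolynomial (Fin (m + 1)) K))
    {a b : ℕ} (hab : a ≤ b) (h : DimMer S a) : DimMer S b := by
  intro σ x hx s
  have hle : a + 2 ≤ b + 2 := by omega
  obtain ⟨e, P, hP, hPh, hPe⟩ := h σ x hx (fun i => s (Fin.castLE hle i))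
  refine ⟨e, rename (Fin.castLE hle) P, ?_, hPh.rename_isHomogeneous, ?_⟩
  · intro h0
    apply hP
    have hinj := rename_injective (R := ℂ) (Fin.castLE hle) (Fin.castLE_injective hle)
    exact hinj (by simpa using h0)
  · rw [aeval_rename]
    exact hPe

theorem p_FDX (hPIG : Stmt_PIG) (hDMF : Stmt_DMF) : Stmt_FDX := by
  classical
  intro M e c
  have hD : ∀ t : ℕ, 1 ≤ t → _ := fun t ht => hDMF M t c ht
  choose f hf using hD
  refine ⟨∑ t ∈ Finset.Icc 1 e, (if h : 1 ≤ t then f t h else 0), ?_⟩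
  intro k N hk K _ m S hS g F hfin hF hc hdiv hN
  obtain ⟨t, N', γ, ht1, hte, hγ, hQ, hlt⟩ := hPIG N e (fun t => if h : 1 ≤ t then f t h else 0)
    (fun j => ¬ ∃ G, F j = G ^ k) (fun t j => (F j).IsHomogeneous t)
    (fun j => by
      obtain ⟨d, hd1, hde, hdh⟩ := hF j
      exact ⟨d, hd1, hde, hdh⟩) hN
  have hlt' : f t ht1 < {i | ¬ ∃ G, F (γ i) = G ^ k}.ncard := by
    simpa [dif_pos ht1] using hlt
  have hmain := hf t ht1 k N' hk K m S hS g (fun i => F (γ i)) hfin hQ
    (fun v hv hX => by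
      refine le_trans ?_ (hc v hv hX)
      refine Set.ncard_le_ncard_of_injOn γ ?_ ?_ (Set.toFinite _)
      · intro i hi
        exact hi
      · intro i _ j _ hij
        exact hγ hij) (fun i => hdiv (γ i)) hlt'
  refine ⟨hmain.1, dimMer_mono S ?_ hmain.2⟩
  apply Nat.div_le_div_right
  apply Nat.sub_le_sub_right
  have h1 : (M + 1 + t).choose t = (M + 1 + t).choose (M + 1) := by
    have := Nat.choose_symm_add (a := M + 1) (b := t)
    omega
  rw [h1]
  exact Nat.choose_le_choose _ (by omega)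

end Pool.ThmP
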