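import Pool.Agent.Work.MP_f82ddf_P.Interface3

set_option autoImplicit false

/-! # THEOREM G, block GAS (helper50): main assembly for points with values in `Mer` -/

namespace Pool.ThmP

open MvPolynomial Finset Pool.Agent.Work.MP_f82ddf_nt Pool.Agent.Work.MP_f82ddf_nt.DQ Pool.ThmM
  Pool.ThmM0

theorem p_GAS (hHPT : Stmt_HPT) (hVAL : Stmt_VAL) (hSPT : Stmt_SPT) (hBAS : Stmt_BAS)
    (hREP : Stmt_REP) (hKTH : Stmt_KTH) (hCDG : Stmt_CDG) (hEXV : Stmt_EXV)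
    (hEXPO : Pool.ThmM0.Stmt_EXPO) (hCST : Pool.ThmM0.Stmt_CST) : Stmt_GAS := by
  classical
  intro n c
  choose N₁ hN₁ using hCDG
  obtain ⟨B, hB⟩ : ∃ B : ℕ, B = (Finset.range (n + 1)).sup (fun ρ => N₁ ρ (c + 1)) + 1 := ⟨_, rfl⟩
  refine ⟨c + c * B, ?_⟩
  intro k N hk K Ω _ _ _ _ m S hS g l hl hdiv τ x hx hx0 s hs hs0
  obtain ⟨c₀, hc₀⟩ := hs0
  obtain ⟨y, hy⟩ : ∃ y : Fin (n + 1) → Mer, ∀ c, y c = eval₂ (tm τ) x (s c) := ⟨_, fun _ => rfl⟩
  have hyf : (fun c => eval₂ (tm τ) x (s c)) = y := by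
    funext c
    rw [hy]
  rw [hyf]
  have hy0 : y ≠ 0 := by
    intro h
    apply hc₀
    rw [← hy, h]
    rfl
  obtain ⟨ρ, ι₀, b, hρ, hlin, hyb, -⟩ := hBAS n y hy0
  obtain ⟨u, hu⟩ : ∃ u : Fin (N + 1) → Fin (ρ + 1) → ℂ,
      ∀ j i, u j i = ∑ c, τ (l j c) * b c i := ⟨_, fun _ _ => rfl⟩
  obtain ⟨z, hz⟩ : ∃ z : Fin (N + 1) → Mer,
      ∀ j, z j = ∑ c, tm τ (l j c) * eval₂ (tm τ) x (s c) := ⟨_, fun _ => rfl⟩
  have hzu : ∀ j, z j = ∑ i, algebraMap ℂ Mer (u j i) * y (ι₀ i) := by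
    intro j
    rw [hz]
    calc ∑ c, tm τ (l j c) * eval₂ (tm τ) x (s c)
        = ∑ c, ∑ i, algebraMap ℂ Mer (τ (l j c) * b c i) * y (ι₀ i) := by
          refine Finset.sum_congr rfl fun c _ => ?_
          rw [← hy, hyb c, Finset.mul_sum]
          refine Finset.sum_congr rfl fun i _ => ?_
          rw [map_mul, mul_assoc]
          rfl
      _ = ∑ i, ∑ c, algebraMap ℂ Mer (τ (l j c) * b c i) * y (ι₀ i) := Finset.sum_comm
      _ = ∑ i, algebraMap ℂ Mer (u j i) * y (ι₀ i) := by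
          refine Finset.sum_congr rfl fun i _ => ?_
          rw [hu, map_sum, Finset.sum_mul]
  have hlin' := Fintype.linearIndependent_iff.1 hlin
  have hz0 : ∀ j, z j = 0 → u j = 0 := by
    intro j hj
    rw [hzu] at hj
    funext i
    exact hlin' (u j) (by simpa only [Algebra.smul_def] using hj) i
  have hu0 : ∀ j, u j = 0 → z j = 0 := by
    intro j hj
    rw [hzu, hj]
    simp
  have hJ : ∀ J : Finset (Fin (N + 1)), c < J.card →
      ∀ v, v ≠ 0 → OnX S v → ∃ j ∈ J, ¬ g.Meets (l j) v := by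
    intro J hJ v hv hvX
    by_contra hne
    push Not at hne
    have h1 : ((J : Set (Fin (N + 1)))).ncard ≤ {j | g.Meets (l j) v}.ncard :=
      Set.ncard_le_ncard (fun j hj => hne j hj) (Set.toFinite _)
    rw [Set.ncard_coe_finset] at h1
    have h2 := hl v hv hvX
    omega
  -- the linear forms at a point with values in `L`
  have hθ : ∀ (L : Type) [Field L] [Algebra ℂ L] (ι : L →ₐ[ℂ] Mer) (c₁ : Fin (n + 1))
      (η : Fin (n + 1) → L), (∀ c, ι (η c) = y c / y c₁) → ∀ j,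
      ι (∑ c, algebraMap ℂ L (τ (l j c)) * η c) = z j / y c₁ := by
    intro L _ _ ι c₁ η hη j
    rw [map_sum, hz, Finset.sum_div]
    refine Finset.sum_congr rfl fun c _ => ?_
    rw [map_mul, AlgHom.commutes, hη, ← hy, mul_div_assoc]
    rfl
  -- the bad indices
  obtain ⟨Bad, hBad⟩ : ∃ Bad : Finset (Fin (N + 1)),
      Bad = Finset.univ.filter fun j => ¬ DivAt k y (fun c => τ (l j c)) := ⟨_, rfl⟩
  refine ⟨Bad, ?_, fun j hj => ?_⟩
  swap
  · by_contra hne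
    exact hj (by rw [hBad]; exact Finset.mem_filter.2 ⟨Finset.mem_univ _, hne⟩)
  by_contra hbig
  push Not at hbig
  have hbadw : ∀ j ∈ Bad, ¬ DivAt k y (fun c => τ (l j c)) := by
    intro j hj
    rw [hBad] at hj
    exact (Finset.mem_filter.1 hj).2
  obtain ⟨q, hqinj, hqBad⟩ : ∃ q : Fin Bad.card → Fin (N + 1), Function.Injective q ∧
      ∀ i, q i ∈ Bad := by
    refine ⟨fun i => (Bad.equivFin.symm i : Fin (N + 1)), ?_, fun i => (Bad.equivFin.symm i).2⟩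
    intro i i' h
    exact Bad.equivFin.symm.injective (Subtype.ext h)
  -- (a)
  have ha : (Finset.univ.filter fun i => u (q i) = 0).card ≤ c := by
    by_contra hne
    push Not at hne
    rw [← Finset.card_image_of_injective _ hqinj] at hne
    obtain ⟨j, hj, hj'⟩ := hHPT K Ω Mer m n N S g l _ (hJ _ hne) (tm τ) x hx hx0 s hs ⟨c₀, hc₀⟩
    obtain ⟨i, hi, rfl⟩ := Finset.mem_image.1 hj
    exact hj' ((hz (q i)).symm.trans (hu0 (q i) (Finset.mem_filter.1 hi).2))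
  -- (b)
  have hb : ∀ i, u (q i) ≠ 0 → {i' | ∃ a : ℂ, u (q i') = a • u (q i)}.ncard ≤ c := by
    intro i hi
    by_contra hne
    push Not at hne
    have hjz : z (q i) ≠ 0 := fun h => hi (hz0 _ h)
    have hfin : {i' | ∃ a : ℂ, u (q i') = a • u (q i)}.Finite := Set.toFinite _
    have hcard : c < (hfin.toFinset.image q).card := by
      rw [Finset.card_image_of_injective _ hqinj, ← Set.ncard_eq_toFinset_card _ hfin]
      exact hne
    have hmem : q i ∈ hfin.toFinset.image q :=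
      Finset.mem_image_of_mem q (hfin.mem_toFinset.2 ⟨1, (one_smul ℂ _).symm⟩)
    have hval := hVAL K Ω m n N S g l (hfin.toFinset.image q) hS (hJ _ hcard) τ x hx hx0 s hs
      (q i) hmem (by rw [← hz]; exact hjz)
    have hbot : Algebra.adjoin ℂ {q' : Mer | ∃ j ∈ hfin.toFinset.image q,
          q' = (∑ c, tm τ (l j c) * eval₂ (tm τ) x (s c)) /
            ∑ c, tm τ (l (q i) c) * eval₂ (tm τ) x (s c)} =
        Algebra.adjoin ℂ (Set.range fun j : Fin 1 => (fun _ : Fin 1 => (1 : Mer)) j /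
          (fun _ : Fin 1 => (1 : Mer)) 0) := by
      have h1 : Algebra.adjoin ℂ (Set.range fun j : Fin 1 => (fun _ : Fin 1 => (1 : Mer)) j /
          (fun _ : Fin 1 => (1 : Mer)) 0) = ⊥ := by
        rw [eq_bot_iff, Algebra.adjoin_le_iff]
        rintro _ ⟨j, rfl⟩
        simp only [div_one]
        exact one_mem _
      rw [h1, eq_bot_iff, Algebra.adjoin_le_iff]
      rintro _ ⟨j, hj, rfl⟩
      obtain ⟨i', hi', rfl⟩ := Finset.mem_image.1 hj
      obtain ⟨a, ha'⟩ := hfin.mem_toFinset.1 hi'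
      have h2 : z (q i') = algebraMap ℂ Mer a * z (q i) := by
        rw [hzu, hzu, ha', Finset.mul_sum]
        refine Finset.sum_congr rfl fun i _ => ?_
        rw [Pi.smul_apply, smul_eq_mul, map_mul, mul_assoc]
      rw [← hz, ← hz, h2, mul_div_assoc, div_self hjz, mul_one]
      exact Algebra.mem_bot.2 ⟨a, rfl⟩
    have hconst : ∀ c, ∃ a : ℂ, y c / z (q i) = algebraMap ℂ Mer a := by
      intro c
      apply hCST 0 (fun _ => 1) 0 one_ne_zero (fun _ => ⟨1, by rw [map_one, one_mul]⟩)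
      have h1 := hval c
      rw [hbot] at h1
      rw [hy, hz]
      exact h1
    have hbi := hbadw _ (hqBad i)
    apply hbi
    intro L _ _ ι V hV c₁ η hc₁ hηV hη _
    have h1 := hθ L ι c₁ η hη (q i)
    obtain ⟨a, ha'⟩ := hconst c₁
    have ha0 : a ≠ 0 := by
      rintro rfl
      rw [map_zero, div_eq_zero_iff] at ha'
      rcases ha' with h | h
      · exact hc₁ h
      · exact hjz h
    have h2 : z (q i) / y c₁ = algebraMap ℂ Mer a⁻¹ := by
      rw [map_inv₀, ← ha', inv_div]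
    have h3 : ∑ c, algebraMap ℂ L (τ (l (q i) c)) * η c = algebraMap ℂ L a⁻¹ := by
      apply ι.toRingHom.injective
      change ι _ = ι _
      rw [h1, h2, AlgHom.commutes]
    rw [h3]
    refine UPow.unit V k _ (hV _) ?_
    rw [← map_inv₀]
    exact hV _
  have hBN : N₁ ρ (c + 1) ≤ B := by
    rw [hB]
    have h1 : N₁ ρ (c + 1) ≤ (Finset.range (n + 1)).sup (fun ρ => N₁ ρ (c + 1)) :=
      Finset.le_sup (f := fun ρ => N₁ ρ (c + 1)) (Finset.mem_range.2 (by omega))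
    omega
  obtain ⟨S₁, hS1, hS2, hS3⟩ := hREP ρ c Bad.card B (fun i => u (q i)) ha hb (by omega)
  obtain ⟨v₀, hv₀⟩ : S₁.Nonempty := Finset.card_pos.1 (by omega)
  obtain ⟨hv₀0, i₀, hi₀⟩ := hS3 v₀ hv₀
  obtain ⟨j₀, hj₀⟩ : ∃ j₀, u j₀ = v₀ := ⟨q i₀, hi₀⟩
  have hzj₀ : z j₀ ≠ 0 := fun h => hv₀0 (by rw [← hj₀]; exact hz0 j₀ h)
  have hkth : ∀ j, ∃ w : Mer, z j / z j₀ = w ^ k := by
    intro j
    obtain ⟨w, hw⟩ := hKTH K Ω m n k S g (by omega) hS τ x hx s hs (l j) (l j₀) (hdiv j) (hdiv j₀)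
      (by rw [← hz]; exact hzj₀)
    exact ⟨w, by rw [hz, hz]; exact hw⟩
  obtain ⟨φ, hφ⟩ := hEXPO
  have hinj : Function.Injective φ := φ.toRingHom.injective
  obtain ⟨x'', hx''⟩ : ∃ x'' : Fin (ρ + 1) → Mer, ∀ i, x'' i = φ (y (ι₀ i) / z j₀) :=
    ⟨_, fun _ => rfl⟩
  have hsum : ∀ v : Fin (ρ + 1) → ℂ, ∑ i, algebraMap ℂ Mer (v i) * x'' i =
      φ ((∑ i, algebraMap ℂ Mer (v i) * y (ι₀ i)) / z j₀) := by
    intro v
    rw [Finset.sum_div, map_sum]
    refine Finset.sum_congr rfl fun i _ => ?_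
    rw [mul_div_assoc, map_mul, AlgHom.commutes, hx'']
  have hsumu : ∀ j, ∑ i, algebraMap ℂ Mer (u j i) * x'' i = φ (z j / z j₀) := by
    intro j
    rw [hsum, ← hzu]
  have hlin'' : LinearIndependent ℂ x'' := by
    rw [Fintype.linearIndependent_iff]
    intro v hv
    simp only [Algebra.smul_def] at hv
    rw [hsum, map_eq_zero_iff φ hinj, div_eq_zero_iff] at hv
    rcases hv with hv | hv
    · exact hlin' v (by simpa only [Algebra.smul_def] using hv)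
    · exact absurd hv hzj₀
  obtain ⟨T, hTS, hTc, hT⟩ := hN₁ ρ (c + 1) S₁ hS1 (hBN.trans hS2) k x'' hk hlin''
    (fun i => by rw [hx'']; exact hφ _) (by
      intro v hv
      obtain ⟨-, i, rfl⟩ := hS3 v hv
      obtain ⟨w, hw⟩ := hkth (q i)
      exact ⟨φ w, by rw [hsumu, hw, map_pow]⟩)
  have hjj : ∃ jj : (Fin (ρ + 1) → ℂ) → Fin (N + 1), ∀ v ∈ S₁, u (jj v) = v ∧ jj v ∈ Bad := by
    refine ⟨fun v => if h : ∃ i, u (q i) = v then q h.choose else 0, fun v hv => ?_⟩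
    have h := (hS3 v hv).2
    simp only [h, dif_pos]
    exact ⟨h.choose_spec, hqBad _⟩
  obtain ⟨jj, hjj⟩ := hjj
  have hTcard : (T.image jj).card = T.card := by
    apply Finset.card_image_of_injOn
    intro v hv v' hv' h
    rw [← (hjj v (hTS hv)).1, ← (hjj v' (hTS hv')).1, h]
  obtain ⟨u₁, hu₁⟩ : T.Nonempty := Finset.card_pos.1 (by omega)
  -- the witness
  apply hbadw _ (hjj u₁ (hTS hu₁)).2
  intro L _ _ ι V hV c₁ η hc₁ hηV hη _
  have hθL := hθ L ι c₁ η hη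
  have hθV : ∀ j, ∑ c, algebraMap ℂ L (τ (l j c)) * η c ∈ V := by
    intro j
    exact sum_mem fun c _ => V.mul_mem _ _ (hV _) (hηV c)
  obtain ⟨V', hV'⟩ := hEXV L Mer (ι : L →+* Mer) V
  have hyc₁ : eval₂ (tm τ) x (s c₁) ≠ 0 := by rw [← hy]; exact hc₁
  obtain ⟨j, hjT, hjn⟩ := hSPT K Ω Mer m n N S g l (T.image jj) hS (hJ _ (by omega)) (tm τ) V'
    (by
      intro a
      have h1 : tm τ a = (ι : L →+* Mer) (algebraMap ℂ L (τ a)) := by
        change algebraMap ℂ Mer (τ a) = ι _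
        rw [AlgHom.commutes]
      rw [h1, hV']
      exact hV _) x hx hx0 s hs c₁ hyc₁ (by
      intro c
      rw [← hy, ← hy, ← hη]
      exact (hV' _).2 (hηV c))
  obtain ⟨u₀, hu₀, rfl⟩ := Finset.mem_image.1 hjT
  rw [← hz, ← hy, ← hθL] at hjn
  have hu₀z : z (jj u₀) ≠ 0 := by
    intro h
    exact (hS3 u₀ (hTS hu₀)).1 (by rw [← (hjj u₀ (hTS hu₀)).1]; exact hz0 _ h)
  obtain ⟨θ, hθdef⟩ : ∃ θ : Fin (N + 1) → L, ∀ j,
      θ j = ∑ c, algebraMap ℂ L (τ (l j c)) * η c := ⟨_, fun _ => rfl⟩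
  simp only [← hθdef] at hθL hθV hjn ⊢
  have hθinv : (θ (jj u₀))⁻¹ ∈ V := by
    rw [← hV', map_inv₀, ← ValuationSubring.valuation_le_one_iff, map_inv₀]
    rw [ValuationSubring.mem_nonunits_iff, not_lt] at hjn
    exact inv_le_one_of_one_le₀ hjn
  have hθ0 : θ (jj u₀) ≠ 0 := by
    intro h
    have h1 := hθL (jj u₀)
    rw [h, map_zero] at h1
    rcases div_eq_zero_iff.1 h1.symm with h2 | h2
    · exact hu₀z h2
    · exact hc₁ h2
  have hfin := hT L (φ.comp ι) V hV u₀ hu₀ (fun v => θ (jj v) * (θ (jj u₀))⁻¹) (by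
    intro v hv
    refine ⟨V.mul_mem _ _ (hθV _) hθinv, ?_⟩
    have h3 : ∀ v ∈ T, ∑ i, algebraMap ℂ Mer (v i) * x'' i = φ (z (jj v) / z j₀) := by
      intro v hv
      rw [← hsumu (jj v), (hjj v (hTS hv)).1]
    rw [h3 v hv, h3 u₀ hu₀, ← map_div₀, div_div_div_cancel_right₀ hzj₀]
    change φ (ι _) = _
    rw [map_mul, map_inv₀, hθL, hθL, ← div_eq_mul_inv, div_div_div_cancel_right₀ hc₁]) u₁ hu₁
  have h5 := hfin.mul (θ (jj u₀)) (hθV _) hθinv
  rwa [mul_assoc, inv_mul_cancel₀ hθ0, mul_one] at h5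

end Pool.ThmP
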