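import Pool.Agent.Work.MP_f82ddf_P.Interface4

set_option autoImplicit false

/-! # Block GGL (MP_f82ddf_nt, THEOREM G) -/

namespace Pool.ThmP

open MvPolynomial Finset Pool.Agent.Work.MP_f82ddf_nt Pool.Agent.Work.MP_f82ddf_nt.DQ Pool.ThmM
  Pool.ThmM0 Pool.Agent.Work.MP_f82ddf_M5

/-- the exponents of a form of degree `e` -/
theorem GGL_exp {R : Type} [CommSemiring R] {b e : ℕ} {F : MvPolynomial (Fin b) R}
    (hF : F.IsHomogeneous e) {d : Fin b →₀ ℕ} (hd : coeff d F ≠ 0) : ∑ i, d i = e := by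
  have h := hF hd
  rw [Finsupp.weight_apply] at h
  rw [← h, Finsupp.sum_fintype]
  · simp
  · simp

/-- the value of a form as a sum over the exponents of degree `e` -/
theorem GGL_val {b e t : ℕ} {Ω : Type} [Field Ω] (τ : Ω →+* ℂ) {L : Type} [Field L] [Algebra ℂ L]
    (ε : Fin t → Fin b →₀ ℕ) (hε : Function.Injective ε)
    (hεs : ∀ μ : Fin b →₀ ℕ, ∑ i, μ i = e ↔ ∃ c, ε c = μ) (F : MvPolynomial (Fin b) Ω)
    (hF : F.IsHomogeneous e) (η : Fin b → L) :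
    aeval η (map τ F) = ∑ c, algebraMap ℂ L (τ (coeff (ε c) F)) * ∏ i, η i ^ ε c i := by
  classical
  have h1 : aeval η (map τ F) = ∑ d ∈ F.support, algebraMap ℂ L (τ (coeff d F)) * ∏ i, η i ^ d i := by
    rw [aeval_def, eval₂_map, eval₂_eq']
    rfl
  have h2 : ∑ c, algebraMap ℂ L (τ (coeff (ε c) F)) * ∏ i, η i ^ ε c i =
      ∑ d ∈ univ.image ε, algebraMap ℂ L (τ (coeff d F)) * ∏ i, η i ^ d i := by
    rw [sum_image (fun a _ b _ h => hε h)]
  rw [h1, h2]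
  apply sum_subset
  · intro d hd
    obtain ⟨c, hc⟩ := (hεs d).1 (GGL_exp hF (mem_support_iff.1 hd))
    exact mem_image.2 ⟨c, mem_univ _, hc⟩
  · intro d _ hd
    rw [notMem_support_iff.1 hd]
    simp

theorem p_GGN (hVER : Stmt_VER) (hGAS : Stmt_GAS) (hPK1 : Stmt_PK1) (hPK2 : Stmt_PK2)
    (hKPD : Stmt_KPD) : Stmt_GGN := by
  classical
  intro M e c he
  obtain ⟨N₀, hN₀⟩ := hGAS ((M + 1 + e).choose e - 1) c
  refine ⟨N₀, ?_⟩
  intro k N hk K Ω _ _ _ _ m S hS g F hF hc hdiv hcard τ x hx hx0 s hs hsne hNR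
  obtain ⟨ε, g', hε, hεs, hgt, -, hver⟩ := hVER K Ω m (M + 1) e S g he
  set y : Fin (M + 2) → Mer := fun c => eval₂ (tm τ) x (s c) with hy
  have hyne : ∀ i, y i ≠ 0 := by
    intro i h
    have h1 := hNR 1 (X i) (X_ne_zero i) (isHomogeneous_X ℂ i)
    rw [aeval_X] at h1
    exact h1 h
  have hs' : (fun c => ∏ i, s i ^ ε c i) ∈ g'.tuples := by
    rw [hgt]
    exact ⟨s, hs, rfl⟩
  have hy' : ∀ c, eval₂ (tm τ) x (∏ i, s i ^ ε c i) = ∏ i, y i ^ ε c i := by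
    intro c
    rw [eval₂_prod]
    exact prod_congr rfl fun i _ => by rw [eval₂_pow]
  have hy'ne : ∀ c, ∏ i, y i ^ ε c i ≠ 0 := fun c =>
    prod_ne_zero_iff.2 fun i _ => pow_ne_zero _ (hyne i)
  obtain ⟨J, hJ, hJd⟩ := hN₀ k N hk K Ω m S hS g' (fun j c => coeff (ε c) (F j))
    (by
      intro v hv hvS
      have h1 : {j | g'.Meets (fun c => coeff (ε c) (F j)) v} = {j | g.MeetsF (F j) v} := by
        ext j
        exact (hver (F j) (hF j)).1 v
      rw [h1]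
      exact hc v hv hvS)
    (fun j => (hver (F j) (hF j)).2 k (hdiv j)) τ x hx hx0 _ hs'
    ⟨0, by rw [hy' 0]; exact hy'ne 0⟩
  obtain ⟨j, hj, hjJ⟩ : ∃ j, (¬ ∃ G, F j = G ^ k) ∧ j ∉ J := by
    by_contra hno
    push Not at hno
    have h1 : {j | ¬ ∃ G, F j = G ^ k} ⊆ (↑J : Set (Fin (N + 1))) := by
      intro j hj
      by_contra h2
      exact h2 (hno j (by simpa using hj))
    have h2 := Set.ncard_le_ncard h1 J.finite_toSet
    rw [Set.ncard_coe_finset] at h2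
    omega
  have hDA := hJd j hjJ
  have hDF : DivAtF k y (map τ (F j)) := by
    intro L _ _ ι V hV c₁ η hc₁ hη hιη hne
    obtain ⟨c₁', hc₁'⟩ := (hεs (Finsupp.single c₁ e)).1 (by simp [Finsupp.single_apply])
    have hval := GGL_val τ ε hε hεs (F j) (hF j) η
    have hyc : eval₂ (tm τ) x (∏ i, s i ^ ε c₁' i) = y c₁ ^ e := by
      rw [hy' c₁', hc₁', Finset.prod_eq_single c₁]
      · rw [Finsupp.single_eq_same]
      · intro i _ hi
        rw [Finsupp.single_eq_of_ne hi, pow_zero]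
      · intro h
        exact absurd (mem_univ _) h
    have h1 := hDA L ι V hV c₁' (fun c => ∏ i, η i ^ ε c i)
      (by
        show eval₂ (tm τ) x (∏ i, s i ^ ε c₁' i) ≠ 0
        rw [hyc]
        exact pow_ne_zero _ (hyne c₁))
      (fun c => V.toSubring.prod_mem fun i _ => V.toSubring.pow_mem (hη i) _)
      (by
        intro c
        show ι (∏ i, η i ^ ε c i) = eval₂ (tm τ) x (∏ i, s i ^ ε c i) /
          eval₂ (tm τ) x (∏ i, s i ^ ε c₁' i)
        rw [hyc, hy' c, map_prod]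
        have h2 : ∑ i, ε c i = e := (hεs (ε c)).2 ⟨c, rfl⟩
        rw [← h2, ← prod_pow_eq_pow_sum, ← prod_div_distrib]
        exact prod_congr rfl fun i _ => by rw [map_pow, hιη i, div_pow])
      (by
        show ∑ c, algebraMap ℂ L (τ (coeff (ε c) (F j))) * ∏ i, η i ^ ε c i ≠ 0
        rw [← hval]
        exact hne)
    rw [hval]
    exact h1
  have h3 := hPK1 (M + 1) k (by omega) (by omega) y hNR (map τ (F j)) hDF
  obtain ⟨G₁, hG₁⟩ := hPK2 (M + 1) e k (by omega) (by omega) (map τ (F j)) ((hF j).map τ) h3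
  exact hj (hKPD Ω τ (M + 2) k (F j) G₁ hG₁)

theorem p_GGL (hVER : Stmt_VER) (hGAS : Stmt_GAS) (hPK1 : Stmt_PK1) (hPK2 : Stmt_PK2)
    (hKPD : Stmt_KPD) (hMPT : Stmt_MPT) (hNHR : Stmt_NHR) : Stmt_GGL := by
  intro M e c he
  obtain ⟨N₀, hN₀⟩ := p_GGN hVER hGAS hPK1 hPK2 hKPD M e c he
  refine ⟨N₀, ?_⟩
  intro k N hk K Ω _ _ _ _ m S hS g F hfin hF hc hdiv hcard τ x hx r
  by_contra hno
  have hNR : NoRel (fun i => x (r i)) := by
    intro e' P hP hPh h0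
    exact hno ⟨e', P, hP, hPh, h0⟩
  have hx0 : x ≠ 0 := by
    intro h
    have h1 := hNR 1 (X 0) (X_ne_zero 0) (isHomogeneous_X ℂ 0)
    rw [aeval_X, h] at h1
    exact h1 rfl
  obtain ⟨s, hs, hsc⟩ := (hMPT K Ω Mer m (M + 1) S g (tm τ) x hx).1 hx0
  exact hN₀ k N hk K Ω m S hS g F hF hc hdiv hcard τ x hx hx0 s hs hsc
    (hNHR K Ω m M S g hS hfin τ x hx s hs hsc r hNR)

end Pool.ThmP
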