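import Pool.Agent.Work.MP_f82ddf_P.Interface4

set_option autoImplicit false

namespace Pool.ThmP

open MvPolynomial Finset Pool.Agent.Work.MP_f82ddf_nt Pool.Agent.Work.MP_f82ddf_nt.DQ Pool.ThmM
  Pool.ThmM0 Pool.Agent.Work.MP_f82ddf_M5

/-- (GGX) Forms of different degrees. -/
theorem p_GGX (hGGN : Stmt_GGN) (hPIG : Stmt_PIG) : Stmt_GGX := by
  intro M e c
  choose N0 hN0 using fun t : {t : ℕ // 1 ≤ t} => hGGN M t.1 c t.2
  refine ⟨∑ t ∈ Finset.Icc 1 e, (if h : 1 ≤ t then N0 ⟨t, h⟩ else 0), ?_⟩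
  intro k N hk K Ω _ _ _ _ m S hS g F hF hc hd hlt τ x hx hx0 s hs hsx
  obtain ⟨t, N', γ, ht1, hte, hγ, hQ, hP⟩ := hPIG N e
    (fun t => if h : 1 ≤ t then N0 ⟨t, h⟩ else 0) (fun j => ¬ ∃ G, F j = G ^ k)
    (fun t j => (F j).IsHomogeneous t) hF hlt
  simp only [dif_pos ht1] at hP
  refine hN0 ⟨t, ht1⟩ k N' hk K Ω m S hS g (fun i => F (γ i)) hQ ?_ (fun j => hd _) hP τ x hx hx0
    s hs hsx
  intro v hv hvX
  refine le_trans ?_ (hc v hv hvX)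
  exact Set.ncard_le_ncard_of_injOn γ (fun i hi => hi) hγ.injOn (Set.toFinite _)

end Pool.ThmP
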