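import Pool.Agent.Work.MP_f82ddf_P.Interface3
import Pool.Agent.Work.MP_f82ddf_M5.T_RED

set_option autoImplicit false

/-! # THEOREM G, block GVA: the Chow form at a valuation ring -/

namespace Pool.ThmP

open MvPolynomial Finset Pool.Agent.Work.MP_f82ddf_nt Pool.Agent.Work.MP_f82ddf_nt.DQ Pool.ThmM
  Pool.ThmM0 Pool.Agent.Work.MP_f82ddf_M5

theorem GVA_res_map (hFUN : Pool.Agent.Work.MP_f82ddf_M5.Stmt_FUN) {N n : ℕ} {R R' : Type}
    [CommRing R] [CommRing R'] (φ : ℂ →+* R) (ψ : R →+* R') (d D : ℕ)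
    (Q : MvPolynomial (Fin N) ℂ) (A : Fin (n + 1) → MvPolynomial (Fin N) ℂ)
    (x : Fin (n + 1) → R) (p q : Fin N → ℂ) :
    ψ (resAt (RingHom.id R) (map φ Q) (comb φ A x) (fun i => φ (p i)) (fun i => φ (q i)) d D)
      = resAt (RingHom.id R') (map (ψ.comp φ) Q) (comb (ψ.comp φ) A (fun j => ψ (x j)))
          (fun i => (ψ.comp φ) (p i)) (fun i => (ψ.comp φ) (q i)) d D := by
  rw [hFUN.2.2.1, RingHom.comp_id, ← RED.map_comb φ ψ, ← MvPolynomial.map_map, hFUN.2.2.2.1,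
    RingHom.id_comp]
  rfl

theorem GVA_unit {F : Type} [Field F] (V : ValuationSubring F) (a : V)
    (h : IsLocalRing.residue V a ≠ 0) : (a : F) ≠ 0 ∧ (a : F) ∈ V ∧ (a : F)⁻¹ ∈ V := by
  have hu : IsUnit a := by
    by_contra hcon
    exact h ((IsLocalRing.residue_eq_zero_iff _).2 ((IsLocalRing.mem_maximalIdeal _).2 hcon))
  obtain ⟨w, hw⟩ := hu.exists_right_inv
  have hw' : (a : F) * (w : F) = 1 := by
    have := congrArg (fun z : V => (z : F)) hw
    simpa using this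
  have ha : (a : F) ≠ 0 := left_ne_zero_of_mul_eq_one hw'
  refine ⟨ha, a.2, ?_⟩
  rw [inv_eq_of_mul_eq_one_right hw']
  exact w.2

theorem GVA_eval_eq (hFUN : Pool.Agent.Work.MP_f82ddf_M5.Stmt_FUN) {N n : ℕ} {F : Type} [Field F]
    [Algebra ℂ F] (d D : ℕ) (Q : MvPolynomial (Fin N) ℂ)
    (A : Fin (n + 1) → MvPolynomial (Fin N) ℂ) (x : Fin (n + 1) → F) (p q : Fin N → ℂ) :
    eval (fun s : Fin 2 × Fin N => algebraMap ℂ F (if s.1 = 0 then p s.2 else q s.2))
      (chow d D (map (algebraMap ℂ F) Q) (comb (algebraMap ℂ F) A x))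
      = resAt (RingHom.id F) (map (algebraMap ℂ F) Q) (comb (algebraMap ℂ F) A x)
          (fun i => algebraMap ℂ F (p i)) (fun i => algebraMap ℂ F (q i)) d D := by
  rw [← hFUN.2.2.2.2.1]
  unfold at2
  have h : (fun s : Fin 2 × Fin N => algebraMap ℂ F (if s.1 = 0 then p s.2 else q s.2))
      = fun s => if s.1 = 0 then algebraMap ℂ F (p s.2) else algebraMap ℂ F (q s.2) := by
    funext s
    exact apply_ite (algebraMap ℂ F) (s.1 = 0) (p s.2) (q s.2)
  rw [h]
  rfl

theorem p_GVA (h1 : Stmt_LNR) (h2 : Stmt_CHN) (hFUN : Pool.Agent.Work.MP_f82ddf_M5.Stmt_FUN)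
    (hIDE : Pool.Agent.Work.MP_f82ddf_M5.Stmt_IDE) : Stmt_GVA := by
  classical
  intro N r e D k Q A hk hD F M _ _ _ _ ι V hV x i₁ x' hx1 hx'V hx' c Fix Psi hchow v a u hvQ
    hsm ha hA hne
  have hιinj : Function.Injective ι := ι.toRingHom.injective
  -- the ring homomorphisms
  let φV : ℂ →+* V := (algebraMap ℂ F).codRestrict V.toSubring hV
  have hφV : V.subtype.comp φV = algebraMap ℂ F := by ext z; rfl
  let algκ : Algebra ℂ (IsLocalRing.ResidueField V) := ((IsLocalRing.residue V).comp φV).toAlgebra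
  have hφκ : (IsLocalRing.residue V).comp φV = algebraMap ℂ (IsLocalRing.ResidueField V) := rfl
  let xV : Fin (r + 1) → V := fun j => ⟨x' j, hx'V j⟩
  let xb : Fin (r + 1) → IsLocalRing.ResidueField V := fun j => IsLocalRing.residue V (xV j)
  have hx1' : x' i₁ = 1 := by
    apply hιinj
    rw [hx' i₁, div_self hx1, map_one]
  have hxb1 : xb i₁ = 1 := by
    have : xV i₁ = 1 := Subtype.ext hx1'
    change IsLocalRing.residue V (xV i₁) = 1
    rw [this, map_one]
  have hxb0 : xb ≠ 0 := by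
    intro h
    rw [h] at hxb1
    exact zero_ne_one hxb1
  obtain ⟨⟨p, q, hpq⟩, hpt⟩ := h2 N r (e + 1) D Q A hD (IsLocalRing.ResidueField V) xb hxb0
  obtain ⟨q', hq'⟩ := hpt e v rfl hvQ hsm
  -- the two resultants
  have key : ∀ (p q : Fin N → ℂ) (d : ℕ),
      resAt (RingHom.id (IsLocalRing.ResidueField V))
        (map (algebraMap ℂ (IsLocalRing.ResidueField V)) Q)
        (comb (algebraMap ℂ (IsLocalRing.ResidueField V)) A xb)
        (fun i => algebraMap ℂ (IsLocalRing.ResidueField V) (p i))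
        (fun i => algebraMap ℂ (IsLocalRing.ResidueField V) (q i)) d D ≠ 0 →
      resAt (RingHom.id F) (map (algebraMap ℂ F) Q) (comb (algebraMap ℂ F) A x')
          (fun i => algebraMap ℂ F (p i)) (fun i => algebraMap ℂ F (q i)) d D ≠ 0 ∧
      resAt (RingHom.id F) (map (algebraMap ℂ F) Q) (comb (algebraMap ℂ F) A x')
          (fun i => algebraMap ℂ F (p i)) (fun i => algebraMap ℂ F (q i)) d D ∈ V ∧
      (resAt (RingHom.id F) (map (algebraMap ℂ F) Q) (comb (algebraMap ℂ F) A x')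
          (fun i => algebraMap ℂ F (p i)) (fun i => algebraMap ℂ F (q i)) d D)⁻¹ ∈ V := by
    intro p q d hres
    have e1 := GVA_res_map hFUN φV (IsLocalRing.residue V) d D Q A xV p q
    rw [hφκ] at e1
    have e2 := GVA_res_map hFUN φV V.subtype d D Q A xV p q
    rw [hφV] at e2
    have e3 := GVA_unit V (resAt (RingHom.id V) (map φV Q) (comb φV A xV) (fun i => φV (p i))
      (fun i => φV (q i)) d D) (by rw [e1]; exact hres)
    change V.subtype _ ≠ 0 ∧ V.subtype _ ∈ V ∧ (V.subtype _)⁻¹ ∈ V at e3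
    rw [e2] at e3
    exact e3
  obtain ⟨hα0, hαV, hαV'⟩ := key p q (e + 1) hpq
  obtain ⟨hβ0, hβV, hβV'⟩ := key v q' e hq'
  -- the Chow form
  have hmapι : map (ι : F →+* M) (chow (e + 1) D (map (algebraMap ℂ F) Q)
      (comb (algebraMap ℂ F) A x'))
      = chow (e + 1) D (map (algebraMap ℂ M) Q)
        (comb (algebraMap ℂ M) A (fun j => x j / x i₁)) := by
    have h3 := RED.map_chow hFUN (algebraMap ℂ F) (ι : F →+* M) (e + 1) D Q A x'
    rw [ι.comp_algebraMap] at h3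
    rw [h3]
    congr 2
    funext j
    exact hx' j
  have hcomb : comb (algebraMap ℂ M) A x
      = C (x i₁) * comb (algebraMap ℂ M) A (fun j => x j / x i₁) := by
    unfold comb
    rw [Finset.mul_sum]
    refine Finset.sum_congr rfl fun j _ => ?_
    rw [← mul_assoc, ← C_mul, mul_div_cancel₀ _ hx1]
  have hid : map (ι : F →+* M) (chow (e + 1) D (map (algebraMap ℂ F) Q)
      (comb (algebraMap ℂ F) A x'))
      = C ((x i₁ ^ (e + 1))⁻¹ * c) * map (algebraMap ℂ M) Fix * Psi ^ k := by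
    rw [hmapι]
    rw [hcomb, RED.chow_smul] at hchow
    have hxd : x i₁ ^ (e + 1) ≠ 0 := pow_ne_zero _ hx1
    calc chow (e + 1) D (map (algebraMap ℂ M) Q) (comb (algebraMap ℂ M) A (fun j => x j / x i₁))
        = C (x i₁ ^ (e + 1))⁻¹ * (C (x i₁) ^ (e + 1) * chow (e + 1) D (map (algebraMap ℂ M) Q)
          (comb (algebraMap ℂ M) A (fun j => x j / x i₁))) := by
          rw [← mul_assoc, ← C_pow, ← C_mul, inv_mul_cancel₀ hxd, C_1, one_mul]
      _ = C ((x i₁ ^ (e + 1))⁻¹ * c) * map (algebraMap ℂ M) Fix * Psi ^ k := by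
          rw [hchow, C_mul]
          ring
  -- the value at `v`
  have hGv : eval₂ (RingHom.id F) (fun i => algebraMap ℂ F (v i)) (comb (algebraMap ℂ F) A x')
      = algebraMap ℂ F a * ∑ i, algebraMap ℂ F (u i) * x' i := by
    unfold comb
    rw [eval₂_sum, Finset.mul_sum]
    refine Finset.sum_congr rfl fun i _ => ?_
    rw [eval₂_mul, eval₂_C, eval₂_map, RingHom.id_comp]
    have h3 : eval₂ (algebraMap ℂ F) (fun i => algebraMap ℂ F (v i)) (A i)
        = algebraMap ℂ F (eval v (A i)) := by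
      have := (eval₂_comp_left (algebraMap ℂ F) (RingHom.id ℂ) v (A i)).symm
      rw [RingHom.comp_id] at this
      exact this
    rw [h3, hA i, map_mul]
    simp only [RingHom.id_apply]
    ring
  have hQv : eval₂ (RingHom.id F) (fun i => algebraMap ℂ F (v i)) (map (algebraMap ℂ F) Q) = 0 := by
    rw [eval₂_map, RingHom.id_comp]
    have := (eval₂_comp_left (algebraMap ℂ F) (RingHom.id ℂ) v Q).symm
    rw [RingHom.comp_id] at this
    refine this.trans ?_
    change algebraMap ℂ F (eval v Q) = 0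
    rw [hvQ, map_zero]
  have hide := hIDE N e D F F (RingHom.id F) (map (algebraMap ℂ F) Q)
    (comb (algebraMap ℂ F) A x') (fun i => algebraMap ℂ F (v i)) (fun i => algebraMap ℂ F (q' i))
    (hD.hom.map _) (by
      unfold comb
      refine IsHomogeneous.sum _ _ _ fun i _ => ?_
      have := (isHomogeneous_C (Fin N) (x' i)).mul ((hD.homA i).map (algebraMap ℂ F))
      simpa using this) hQv
  rw [hGv] at hide
  have hm1 : ((-1 : F) ^ D) ≠ 0 := pow_ne_zero _ (neg_ne_zero.2 one_ne_zero)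
  have haF : algebraMap ℂ F a ≠ 0 := by
    rw [Ne, FaithfulSMul.algebraMap_eq_zero_iff]
    exact ha
  have hv0 : resAt (RingHom.id F) (map (algebraMap ℂ F) Q) (comb (algebraMap ℂ F) A x')
      (fun i => algebraMap ℂ F (v i)) (fun i => algebraMap ℂ F (q' i)) (e + 1) D ≠ 0 := by
    rw [hide]
    exact mul_ne_zero (mul_ne_zero hm1 (mul_ne_zero haF hne)) hβ0
  obtain ⟨a', ρ, ha', hρ, hLNR⟩ := h1 (Fin 2 × Fin N) F M ι k hk _ _ Fix Psi hid
    (fun s => if s.1 = 0 then v s.2 else q' s.2) (fun s => if s.1 = 0 then p s.2 else q s.2)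
    (by rw [GVA_eval_eq hFUN]; exact hv0) (by rw [GVA_eval_eq hFUN]; exact hα0)
  rw [GVA_eval_eq hFUN, GVA_eval_eq hFUN, hide] at hLNR
  have ha'F : algebraMap ℂ F a' ≠ 0 := by
    rw [Ne, FaithfulSMul.algebraMap_eq_zero_iff]
    exact ha'
  generalize resAt (RingHom.id F) (map (algebraMap ℂ F) Q) (comb (algebraMap ℂ F) A x')
    (fun i => algebraMap ℂ F (p i)) (fun i => algebraMap ℂ F (q i)) (e + 1) D = α at *
  generalize resAt (RingHom.id F) (map (algebraMap ℂ F) Q) (comb (algebraMap ℂ F) A x')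
    (fun i => algebraMap ℂ F (v i)) (fun i => algebraMap ℂ F (q' i)) e D = β at *
  generalize (∑ i, algebraMap ℂ F (u i) * x' i) = ζ at *
  have hρk : ρ ^ k ≠ 0 := pow_ne_zero _ hρ
  have hm2 : ((-1 : F) ^ D) ∈ V := V.pow_mem (V.neg_mem _ V.one_mem) D
  have hm3 : ((-1 : F) ^ D)⁻¹ = (-1) ^ D := by
    rw [← inv_pow, inv_neg, inv_one]
  have haV : (algebraMap ℂ F a)⁻¹ ∈ V := by
    rw [← map_inv₀]
    exact hV _
  have ha'V : (algebraMap ℂ F a')⁻¹ ∈ V := by
    rw [← map_inv₀]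
    exact hV _
  refine ⟨ρ, hρ, ?_, ?_⟩
  · have e1 : ζ / ρ ^ k = algebraMap ℂ F a' * α * ((-1) ^ D * (algebraMap ℂ F a)⁻¹ * β⁻¹) := by
      rw [div_eq_iff hρk]
      have : ζ = ((-1 : F) ^ D)⁻¹ * (algebraMap ℂ F a)⁻¹ * β⁻¹ *
          ((-1) ^ D * (algebraMap ℂ F a * ζ) * β) := by
        field_simp
      rw [this, hLNR, hm3]
      ring
    rw [e1]
    exact V.mul_mem _ _ (V.mul_mem _ _ (hV _) hαV)
      (V.mul_mem _ _ (V.mul_mem _ _ hm2 haV) hβV')
  · have e1 : ρ ^ k / ζ = (algebraMap ℂ F a')⁻¹ * α⁻¹ * ((-1) ^ D * algebraMap ℂ F a * β) := by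
      rw [div_eq_iff hne]
      have : ρ ^ k = (algebraMap ℂ F a')⁻¹ * α⁻¹ * (algebraMap ℂ F a' * α * ρ ^ k) := by
        field_simp
      rw [this, ← hLNR]
      ring
    rw [e1]
    exact V.mul_mem _ _ (V.mul_mem _ _ ha'V hαV')
      (V.mul_mem _ _ (V.mul_mem _ _ hm2 (hV _)) hβV)

end Pool.ThmP
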