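import Pool.Agent.Work.MP_f82ddf_P.Interface3

set_option autoImplicit false

/-! # Block KPD: descent of a `k`-th root to the algebraically closed field -/

namespace Pool.ThmP

open MvPolynomial Finset Pool.Agent.Work.MP_f82ddf_nt Pool.Agent.Work.MP_f82ddf_nt.DQ Pool.ThmM
  Pool.ThmM0 Pool.Agent.Work.MP_f82ddf_M5

theorem p_KPD (hEXT : Stmt_EXT) : Stmt_KPD := by
  classical
  intro Ω _ _ τ b k G G₁ hG
  letI : Algebra Ω ℂ := τ.toAlgebra
  set s : Finset ℂ := G₁.support.image (fun m => coeff m G₁) with hs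
  let B : Subalgebra Ω ℂ := Algebra.adjoin Ω (s : Set ℂ)
  have hft : Algebra.FiniteType Ω B :=
    (Subalgebra.fg_iff_finiteType _).1 (Subalgebra.fg_adjoin_finset s)
  have hmem : ∀ m, coeff m G₁ ∈ B := by
    intro m
    by_cases hm : m ∈ G₁.support
    · exact Algebra.subset_adjoin (by rw [hs]; exact_mod_cast Finset.mem_image_of_mem _ hm)
    · rw [MvPolynomial.notMem_support_iff] at hm
      rw [hm]; exact B.zero_mem
  obtain ⟨G', hG'⟩ : ∃ G' : MvPolynomial (Fin b) B, map (algebraMap B ℂ) G' = G₁ := by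
    have : G₁ ∈ Set.range (MvPolynomial.map (σ := Fin b) (algebraMap B ℂ)) := by
      rw [MvPolynomial.mem_range_map_iff_coeffs_subset]
      intro c hc
      rw [Finset.mem_coe, MvPolynomial.mem_coeffs_iff] at hc
      obtain ⟨m, -, rfl⟩ := hc
      exact ⟨⟨_, hmem m⟩, rfl⟩
    exact this
  have hinj : Function.Injective (map (σ := Fin b) (algebraMap B ℂ)) :=
    MvPolynomial.map_injective _ Subtype.val_injective
  have h1 : map (algebraMap Ω B) G = G' ^ k := by
    apply hinj
    rw [map_pow, hG', ← hG, MvPolynomial.map_map]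
    rfl
  obtain ⟨h, hh, HE⟩ := hEXT Ω B hft ⊥
  obtain ⟨Θ, -⟩ := HE (Algebra.botEquiv Ω B : (⊥ : Subalgebra Ω B) →ₐ[Ω] Ω) (by
    intro h0
    apply hh
    have := (Algebra.botEquiv Ω B).injective (a₁ := h) (a₂ := 0)
    apply this
    rw [map_zero]
    exact h0)
  refine ⟨map (Θ : B →+* Ω) G', ?_⟩
  rw [← map_pow, ← h1, MvPolynomial.map_map]
  have : (Θ : B →+* Ω).comp (algebraMap Ω B) = RingHom.id Ω := by
    ext a
    exact Θ.commutes a
  rw [this, MvPolynomial.map_id]

end Pool.ThmP
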