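import Pool.Agent.Work.MP_f82ddf_P.Interface3

set_option autoImplicit false

/-! # Block LNR: values of the Chow form at two numerical points -/

namespace Pool.ThmP

open MvPolynomial Finset Pool.Agent.Work.MP_f82ddf_nt Pool.Agent.Work.MP_f82ddf_nt.DQ Pool.ThmM
  Pool.ThmM0 Pool.Agent.Work.MP_f82ddf_M5

/-- The line through `q` (parameter `0`) and `p` (parameter `1`). -/
private noncomputable def LNR_ln {ν : Type} (p q : ν → ℂ) (i : ν) : Polynomial ℂ :=
  Polynomial.C (q i) + Polynomial.C (p i - q i) * Polynomial.X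

private lemma LNR_map {ν R S : Type} [CommRing R] [CommRing S] [Algebra ℂ R] [Algebra ℂ S]
    (f : R →+* S) (hf : f.comp (algebraMap ℂ R) = algebraMap ℂ S) (p q : ν → ℂ)
    (P : MvPolynomial ν R) :
    (MvPolynomial.eval₂ Polynomial.C (fun i => (LNR_ln p q i).map (algebraMap ℂ R)) P).map f =
      MvPolynomial.eval₂ Polynomial.C (fun i => (LNR_ln p q i).map (algebraMap ℂ S))
        (MvPolynomial.map f P) := by
  rw [MvPolynomial.eval₂_map]
  have h := MvPolynomial.eval₂_comp_left (Polynomial.mapRingHom f)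
    (Polynomial.C : R →+* Polynomial R) (fun i => (LNR_ln p q i).map (algebraMap ℂ R)) P
  rw [Polynomial.coe_mapRingHom] at h
  rw [h]
  congr 1
  · ext x
    simp
  · funext i
    simp only [Function.comp_apply]
    rw [Polynomial.map_map, hf]

private lemma LNR_eval {ν R : Type} [CommRing R] [Algebra ℂ R] (p q : ν → ℂ)
    (P : MvPolynomial ν R) (s : R) (x : ν → ℂ)
    (hx : ∀ i, ((LNR_ln p q i).map (algebraMap ℂ R)).eval s = algebraMap ℂ R (x i)) :
    (MvPolynomial.eval₂ Polynomial.C (fun i => (LNR_ln p q i).map (algebraMap ℂ R)) P).eval s =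
      MvPolynomial.eval (fun i => algebraMap ℂ R (x i)) P := by
  have h := MvPolynomial.eval₂_comp_left (Polynomial.evalRingHom s)
    (Polynomial.C : R →+* Polynomial R) (fun i => (LNR_ln p q i).map (algebraMap ℂ R)) P
  rw [Polynomial.coe_evalRingHom] at h
  rw [h]
  have h1 : (Polynomial.evalRingHom s).comp (Polynomial.C : R →+* Polynomial R) =
      RingHom.id R := by
    ext x
    simp
  have h2 : (⇑(Polynomial.evalRingHom s) ∘ fun i => (LNR_ln p q i).map (algebraMap ℂ R)) =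
      fun i => algebraMap ℂ R (x i) := by
    funext i
    simp only [Function.comp_apply, Polynomial.coe_evalRingHom]
    exact hx i
  rw [Polynomial.coe_evalRingHom] at h2
  rw [h1, h2]
  rfl

private lemma LNR_zero {ν R : Type} [CommRing R] [Algebra ℂ R] (p q : ν → ℂ) (i : ν) :
    ((LNR_ln p q i).map (algebraMap ℂ R)).eval 0 = algebraMap ℂ R (q i) := by
  simp [LNR_ln]

private lemma LNR_one {ν R : Type} [CommRing R] [Algebra ℂ R] (p q : ν → ℂ) (i : ν) :
    ((LNR_ln p q i).map (algebraMap ℂ R)).eval 1 = algebraMap ℂ R (p i) := by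
  simp [LNR_ln]

theorem p_LNR (hRTF : Stmt_RTF) : Stmt_LNR := by
  intro ν F M _ _ _ _ ι k hk Φ c Fix Psi hid p q hp hq
  have : CharZero F := charZero_of_injective_algebraMap (algebraMap ℂ F).injective
  obtain ⟨A, hA⟩ : ∃ A : Polynomial F, A = MvPolynomial.eval₂ Polynomial.C
    (fun i => (LNR_ln p q i).map (algebraMap ℂ F)) Φ := ⟨_, rfl⟩
  obtain ⟨B, hB⟩ : ∃ B : Polynomial M, B = MvPolynomial.eval₂ Polynomial.C
    (fun i => (LNR_ln p q i).map (algebraMap ℂ M)) Psi := ⟨_, rfl⟩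
  obtain ⟨G, hG⟩ : ∃ G : Polynomial ℂ, G = MvPolynomial.eval₂ Polynomial.C
    (fun i => (LNR_ln p q i).map (algebraMap ℂ ℂ)) Fix := ⟨_, rfl⟩
  have hιc : (ι : F →+* M).comp (algebraMap ℂ F) = algebraMap ℂ M := ι.comp_algebraMap
  have hmain : A.map (ι : F →+* M) = Polynomial.C c * G.map (algebraMap ℂ M) * B ^ k := by
    rw [hA, LNR_map (ι : F →+* M) hιc p q Φ, hid, hG,
      LNR_map (algebraMap ℂ M) (by ext; simp) p q Fix, hB]
    rw [MvPolynomial.eval₂_mul, MvPolynomial.eval₂_mul, MvPolynomial.eval₂_pow,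
      MvPolynomial.eval₂_C]
  have hA0 : A.eval 0 = MvPolynomial.eval (fun i => algebraMap ℂ F (q i)) Φ := by
    rw [hA]; exact LNR_eval p q Φ 0 q (LNR_zero p q)
  have hA1 : A.eval 1 = MvPolynomial.eval (fun i => algebraMap ℂ F (p i)) Φ := by
    rw [hA]; exact LNR_eval p q Φ 1 p (LNR_one p q)
  rw [← hA1] at hp ⊢
  rw [← hA0] at hq ⊢
  have hιinj : Function.Injective (ι : F →+* M) := (ι : F →+* M).injective
  have he : ∀ s : ℂ, (ι : F →+* M) (A.eval (algebraMap ℂ F s)) =
      c * algebraMap ℂ M (G.eval s) * (B.eval (algebraMap ℂ M s)) ^ k := by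
    intro s
    have h := congrArg (Polynomial.eval (algebraMap ℂ M s)) hmain
    rw [Polynomial.eval_mul, Polynomial.eval_mul, Polynomial.eval_C, Polynomial.eval_pow] at h
    have h1 : Polynomial.eval (algebraMap ℂ M s) (A.map (ι : F →+* M)) =
        (ι : F →+* M) (A.eval (algebraMap ℂ F s)) := by
      have h2 : algebraMap ℂ M s = (ι : F →+* M) (algebraMap ℂ F s) := by
        rw [← hιc]; rfl
      rw [h2, Polynomial.eval_map, Polynomial.eval₂_hom]
    have h3 : Polynomial.eval (algebraMap ℂ M s) (G.map (algebraMap ℂ M)) =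
        algebraMap ℂ M (G.eval s) := by
      rw [Polynomial.eval_map, Polynomial.eval₂_hom]
    rw [h1, h3] at h
    exact h
  have e0 := he 0
  have e1 := he 1
  rw [map_zero, map_zero] at e0
  rw [map_one, map_one] at e1
  have hn0 : c * algebraMap ℂ M (G.eval 0) * (B.eval 0) ^ k ≠ 0 := by
    rw [← e0]
    exact fun h => hq (hιinj (by rw [h, map_zero]))
  have hn1 : c * algebraMap ℂ M (G.eval 1) * (B.eval 1) ^ k ≠ 0 := by
    rw [← e1]
    exact fun h => hp (hιinj (by rw [h, map_zero]))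
  have hk0 : k ≠ 0 := by omega
  have hB0 : B.eval 0 ≠ 0 := by
    intro h
    rw [h, zero_pow hk0, mul_zero] at hn0
    exact hn0 rfl
  have hB1 : B.eval 1 ≠ 0 := by
    intro h
    rw [h, zero_pow hk0, mul_zero] at hn1
    exact hn1 rfl
  have hG0 : G.eval 0 ≠ 0 := by
    intro h
    rw [h, map_zero, mul_zero, zero_mul] at hn0
    exact hn0 rfl
  have hG1 : G.eval 1 ≠ 0 := by
    intro h
    rw [h, map_zero, mul_zero, zero_mul] at hn1
    exact hn1 rfl
  have hFG0 : algebraMap ℂ F (G.eval 0) ≠ 0 := by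
    intro h
    exact hG0 ((algebraMap ℂ F).injective (by rw [h, map_zero]))
  have hMG0 : algebraMap ℂ M (G.eval 0) ≠ 0 := by
    intro h
    exact hG0 ((algebraMap ℂ M).injective (by rw [h, map_zero]))
  obtain ⟨γ, hγ⟩ : ∃ γ : F, γ = A.eval 0 / algebraMap ℂ F (G.eval 0) := ⟨_, rfl⟩
  have hγA : γ * algebraMap ℂ F (G.eval 0) = A.eval 0 := by
    rw [hγ, div_mul_cancel₀ _ hFG0]
  have hγ0 : γ ≠ 0 := by
    intro h
    rw [h, zero_mul] at hγA
    exact hq hγA.symm
  have hιG : ∀ z : ℂ, (ι : F →+* M) (algebraMap ℂ F z) = algebraMap ℂ M z := by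
    intro z
    rw [← hιc]; rfl
  have hιγ : (ι : F →+* M) γ = c * (B.eval 0) ^ k := by
    have h := congrArg (ι : F →+* M) hγA
    rw [map_mul, hιG, e0] at h
    have h' : (ι : F →+* M) γ * algebraMap ℂ M (G.eval 0) =
        c * (B.eval 0) ^ k * algebraMap ℂ M (G.eval 0) := by
      rw [h]; ring
    exact mul_right_cancel₀ hMG0 h'
  obtain ⟨ψ, hψ⟩ : ∃ ψ : Polynomial M, ψ = Polynomial.C (B.eval 0)⁻¹ * B := ⟨_, rfl⟩
  have hψ0 : ψ.coeff 0 = 1 := by
    rw [Polynomial.coeff_zero_eq_eval_zero, hψ, Polynomial.eval_mul, Polynomial.eval_C,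
      inv_mul_cancel₀ hB0]
  obtain ⟨H, hH⟩ : ∃ H : Polynomial F, H = Polynomial.C γ * G.map (algebraMap ℂ F) := ⟨_, rfl⟩
  have hHmap : H.map (ι : F →+* M) = Polynomial.C ((ι : F →+* M) γ) * G.map (algebraMap ℂ M) := by
    rw [hH, Polynomial.map_mul, Polynomial.map_C, Polynomial.map_map, hιc]
  have hAH : A.map (ι : F →+* M) = H.map (ι : F →+* M) * ψ ^ k := by
    have hCk : (Polynomial.C (B.eval 0) : Polynomial M) ^ k * Polynomial.C ((B.eval 0)⁻¹) ^ k = 1 := by
      rw [← mul_pow, ← Polynomial.C_mul, mul_inv_cancel₀ hB0, Polynomial.C_1, one_pow]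
    rw [hmain, hHmap, hιγ, hψ, mul_pow, Polynomial.C_mul, Polynomial.C_pow]
    linear_combination (-(Polynomial.C c * G.map (algebraMap ℂ M) * B ^ k)) * hCk
  have hG' : G ≠ 0 := by
    rintro rfl
    exact hG0 (by simp)
  have hH0 : H ≠ 0 := by
    rw [hH]
    refine mul_ne_zero (Polynomial.C_ne_zero.2 hγ0) ?_
    exact (Polynomial.map_ne_zero_iff (algebraMap ℂ F).injective).2 hG'
  have hHdvd : H ∣ A := by
    rw [← Polynomial.map_dvd_map' (ι : F →+* M), hAH]
    exact dvd_mul_right _ _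
  obtain ⟨h, hh⟩ := hHdvd
  have hψk : ψ ^ k = h.map (ι : F →+* M) := by
    have hH0' : H.map (ι : F →+* M) ≠ 0 :=
      (Polynomial.map_ne_zero_iff hιinj).2 hH0
    refine mul_left_cancel₀ hH0' ?_
    rw [← hAH, hh, Polynomial.map_mul]
  obtain ⟨ρ, hρ⟩ := hRTF F M (ι : F →+* M) k hk ψ h hψ0 hψk
  have hψ1 : ψ.eval 1 = (ι : F →+* M) (ρ.eval 1) := by
    have h2 : (1 : M) = (ι : F →+* M) 1 := (map_one _).symm
    rw [hρ, h2, Polynomial.eval_map, Polynomial.eval₂_hom]
  have hψ1' : ψ.eval 1 ≠ 0 := by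
    rw [hψ, Polynomial.eval_mul, Polynomial.eval_C]
    exact mul_ne_zero (inv_ne_zero hB0) hB1
  refine ⟨G.eval 1 / G.eval 0, ρ.eval 1, div_ne_zero hG1 hG0, ?_, ?_⟩
  · intro h0
    rw [hψ1, h0, map_zero] at hψ1'
    exact hψ1' rfl
  · apply hιinj
    have hA1' := congrArg (Polynomial.eval 1) hAH
    rw [Polynomial.eval_mul, Polynomial.eval_pow, hψ1, hHmap, Polynomial.eval_mul,
      Polynomial.eval_C] at hA1'
    have h1 : Polynomial.eval (1 : M) (A.map (ι : F →+* M)) = (ι : F →+* M) (A.eval 1) := by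
      have h2 : (1 : M) = (ι : F →+* M) 1 := (map_one _).symm
      rw [h2, Polynomial.eval_map, Polynomial.eval₂_hom]
    have h3 : Polynomial.eval (1 : M) (G.map (algebraMap ℂ M)) = algebraMap ℂ M (G.eval 1) := by
      have h2 : (1 : M) = algebraMap ℂ M 1 := (map_one _).symm
      rw [h2, Polynomial.eval_map, Polynomial.eval₂_hom]
    rw [h1, h3] at hA1'
    rw [hA1', map_mul, map_mul, map_pow, hιG, ← hγA, map_mul, hιG, map_div₀]
    field_simp

end Pool.ThmP
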