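import Pool.Agent.Work.MP_f82ddf_P.Interface3
import Pool.Agent.Work.MP_f82ddf_M0.B_DHO

set_option autoImplicit false

/-! # Block NHR: no relations between the coordinates of `g(x)` -/

namespace Pool.ThmP

open MvPolynomial Finset Pool.Agent.Work.MP_f82ddf_nt Pool.Agent.Work.MP_f82ddf_nt.DQ Pool.ThmM
  Pool.ThmM0

theorem p_NHR (hFIB : Stmt_FIB) (hTRX : Stmt_TRX) (hHOMR : Pool.ThmM0.Stmt_HOMR) : Stmt_NHR := by
  intro K Ω _ _ _ _ m M S g hS hfin τ x hx s hs hc r hr
  obtain ⟨c₀, hc₀⟩ := hc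
  have hr0 : x (r 0) ≠ 0 := by
    have h := hr 1 (X 0) (X_ne_zero _) (isHomogeneous_X _ _)
    rwa [aeval_X] at h
  have hind := hHOMR M (fun i => x (r i)) hr0 hr
  set y : Fin (M + 2) → Mer := fun c => eval₂ (tm τ) x (s c) with hy
  set A : Set Mer := Set.range fun c => y c / y c₀ with hA
  have h1 : ∀ j : Fin (M + 1), IsAlgebraic (Algebra.adjoin ℂ A) (x (r j.succ) / x (r 0)) := by
    intro j
    exact hFIB K Ω m (M + 1) S g hS hfin τ x hx s hs c₀ hc₀ (r j.succ) (r 0) hr0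
  have h3 : ∀ a ∈ A, IsAlgebraic (Algebra.adjoin ℂ A) a := by
    intro a ha
    exact isAlgebraic_algebraMap (⟨a, Algebra.subset_adjoin ha⟩ : Algebra.adjoin ℂ A)
  obtain ⟨t, ht1, ht2⟩ := hTRX (M + 1) _ A A hind h1 h3
  have hγ : ∀ j, ∃ c, y c / y c₀ = t j := fun j => ht1 j
  choose γ hγ using hγ
  have hγc : ∀ j, γ j ≠ c₀ := by
    intro j hj
    have h4 : t j = 1 := by
      rw [← hγ j, hj, div_self hc₀]
    have h5 : Transcendental ℂ (t j) := ht2.transcendental j
    apply h5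
    rw [h4]
    exact isAlgebraic_one
  have hγi : Function.Injective γ := by
    intro i j hij
    apply ht2.injective
    rw [← hγ i, ← hγ j, hij]
  set δ : Fin (M + 2) → Fin (M + 2) := Fin.cons c₀ γ with hδ
  have hδi : Function.Injective δ := by
    rw [hδ, Fin.cons_injective_iff]
    refine ⟨?_, hγi⟩
    rintro ⟨j, hj⟩
    exact hγc j hj
  have hδb : Function.Bijective δ := Finite.injective_iff_bijective.mp hδi
  obtain ⟨σ, hσ⟩ : ∃ σ : Fin (M + 2) ≃ Fin (M + 2), ∀ i, σ i = δ i :=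
    ⟨Equiv.ofBijective δ hδb, fun _ => rfl⟩
  intro e P hP0 hPe hP
  refine stmt_DHO M e (fun i => y (σ i)) (rename σ.symm P) ?_ ?_ ?_ ?_ ?_
  · show y (σ 0) ≠ 0
    rw [hσ, hδ, Fin.cons_zero]
    exact hc₀
  · intro h
    apply hP0
    exact (rename_injective _ σ.symm.injective) (by rw [h, map_zero])
  · exact hPe.rename_isHomogeneous
  · rw [aeval_rename]
    have h6 : (fun i => y (σ i)) ∘ σ.symm = y := by
      funext i
      show y (σ (σ.symm i)) = y i
      rw [Equiv.apply_symm_apply]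
    rw [h6]
    exact hP
  · have h7 : (fun j : Fin (M + 1) => y (σ j.succ) / y (σ 0)) = t := by
      funext j
      rw [hσ, hσ, hδ, Fin.cons_zero, Fin.cons_succ, hγ j]
    rw [h7]
    exact ht2

end Pool.ThmP
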