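import Pool.Agent.Work.MP_f82ddf_P.Interface4

set_option autoImplicit false

namespace Pool.ThmP


private lemma PIG_main (N e : ℕ) (f : ℕ → ℕ) (P : Fin (N + 1) → Prop)
    (Q : ℕ → Fin (N + 1) → Prop)
    (hQ : ∀ j, ∃ t, 1 ≤ t ∧ t ≤ e ∧ Q t j) (hsum : ∑ t ∈ Finset.Icc 1 e, f t < {j | P j}.ncard) :
    ∃ (t N' : ℕ) (γ : Fin (N' + 1) → Fin (N + 1)), 1 ≤ t ∧ t ≤ e ∧ Function.Injective γ ∧
      (∀ i, Q t (γ i)) ∧ f t < {i | P (γ i)}.ncard := by
  classical
  have key : ∃ t, 1 ≤ t ∧ t ≤ e ∧ f t < (Finset.univ.filter (fun j => P j ∧ Q t j)).card := by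
    by_contra hcon
    push Not at hcon
    have h1 : {j | P j}.ncard = (Finset.univ.filter (fun j => P j)).card := by
      rw [← Set.ncard_coe_finset]
      congr 1
      ext j; simp
    have h2 : (Finset.univ.filter (fun j => P j)) ⊆
        (Finset.Icc 1 e).biUnion (fun t => Finset.univ.filter (fun j => P j ∧ Q t j)) := by
      intro j hj
      obtain ⟨t, h1t, hte, hq⟩ := hQ j
      rw [Finset.mem_biUnion]
      refine ⟨t, Finset.mem_Icc.2 ⟨h1t, hte⟩, ?_⟩
      simp only [Finset.mem_filter, Finset.mem_univ, true_and] at hj ⊢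
      exact ⟨hj, hq⟩
    have h3 := Finset.card_le_card h2
    have h4 : ((Finset.Icc 1 e).biUnion
        (fun t => Finset.univ.filter (fun j => P j ∧ Q t j))).card ≤ ∑ t ∈ Finset.Icc 1 e, f t :=
      Finset.card_biUnion_le.trans (Finset.sum_le_sum (fun t ht => by
        rw [Finset.mem_Icc] at ht
        exact hcon t ht.1 ht.2))
    omega
  obtain ⟨t, h1t, hte, hft⟩ := key
  set s : Finset (Fin (N + 1)) := Finset.univ.filter (fun j => Q t j) with hs
  have hsub : (Finset.univ.filter (fun j => P j ∧ Q t j)) ⊆ s := by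
    intro j hj
    simp only [Finset.mem_filter, Finset.mem_univ, true_and] at hj
    simp only [hs, Finset.mem_filter, Finset.mem_univ, true_and]
    exact hj.2
  have hcard : 0 < s.card := by
    have := Finset.card_le_card hsub
    omega
  obtain ⟨N', hN'⟩ : ∃ N', s.card = N' + 1 := ⟨s.card - 1, by omega⟩
  refine ⟨t, N', s.orderEmbOfFin hN', h1t, hte, (s.orderEmbOfFin hN').injective, ?_, ?_⟩
  · intro i
    exact (Finset.mem_filter.1 (s.orderEmbOfFin_mem hN' i)).2
  · have himg : (s.orderEmbOfFin hN') '' {i | P ((s.orderEmbOfFin hN') i)} =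
        ((Finset.univ.filter (fun j => P j ∧ Q t j) : Finset (Fin (N + 1))) : Set (Fin (N + 1))) := by
      ext j
      simp only [Set.mem_image, Set.mem_ofPred_eq, Finset.coe_filter, Finset.mem_univ, true_and]
      constructor
      · rintro ⟨i, hi, rfl⟩
        exact ⟨hi, (Finset.mem_filter.1 (s.orderEmbOfFin_mem hN' i)).2⟩
      · rintro ⟨hP, hq⟩
        have hj : j ∈ Set.range (s.orderEmbOfFin hN') := by
          rw [Finset.range_orderEmbOfFin]
          simp [hs, hq]
        obtain ⟨i, rfl⟩ := hj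
        exact ⟨i, hP, rfl⟩
    have h5 : {i | P ((s.orderEmbOfFin hN') i)}.ncard =
        (Finset.univ.filter (fun j => P j ∧ Q t j)).card := by
      rw [← Set.ncard_coe_finset, ← himg,
        Set.ncard_image_of_injective _ (s.orderEmbOfFin hN').injective]
    omega

theorem p_PIG : Stmt_PIG := fun N e f P Q hQ hsum => PIG_main N e f P Q hQ hsum

end Pool.ThmP
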