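import Pool.Agent.Work.MP_f82ddf_P.Interface3

set_option autoImplicit false

/-! # Block PK2: from the charts to the form -/

namespace Pool.ThmP

open MvPolynomial Finset Pool.Agent.Work.MP_f82ddf_nt Pool.Agent.Work.MP_f82ddf_nt.DQ Pool.ThmM
  Pool.ThmM0 Pool.Agent.Work.MP_f82ddf_M5

namespace X_PK2

theorem eval_scale {σ : Type} [Fintype σ] {e : ℕ} (f : MvPolynomial σ ℂ) (hf : f.IsHomogeneous e)
    (a : ℂ) (p : σ → ℂ) : eval (fun i => a * p i) f = a ^ e * eval p f := by
  rw [eval_eq', eval_eq', Finset.mul_sum]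
  refine Finset.sum_congr rfl fun d hd => ?_
  have h1 : ∑ i, d i = e := by
    by_contra hne
    refine (mem_support_iff.1 hd) (hf.coeff_eq_zero ?_)
    rwa [Finsupp.degree_eq_sum]
  rw [← h1, ← Finset.prod_pow_eq_pow_sum]
  simp only [mul_pow, Finset.prod_mul_distrib]
  ring

/-- The homogenization of `h` with respect to the variable `i`. -/
noncomputable def hgz {b : ℕ} (i : Fin (b + 1)) (h : MvPolynomial (Fin b) ℂ) :
    MvPolynomial (Fin (b + 1)) ℂ :=
  ∑ l ∈ range (h.totalDegree + 1),
    X i ^ (h.totalDegree - l) * rename i.succAbove (homogeneousComponent l h)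

theorem eval_hgz {b : ℕ} (i : Fin (b + 1)) (h : MvPolynomial (Fin b) ℂ) (y : Fin (b + 1) → ℂ)
    (hy : y i ≠ 0) :
    eval y (hgz i h) = y i ^ h.totalDegree * eval (fun j => y (i.succAbove j) / y i) h := by
  have h0 : ∀ l ∈ range (h.totalDegree + 1),
      eval y (X i ^ (h.totalDegree - l) * rename i.succAbove (homogeneousComponent l h))
        = y i ^ h.totalDegree *
          eval (fun j => y (i.succAbove j) / y i) (homogeneousComponent l h) := by
    intro l hl
    have hl' : l ≤ h.totalDegree := by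
      have := Finset.mem_range.1 hl
      omega
    rw [map_mul, map_pow, eval_X, eval_rename]
    have h1 : (y ∘ i.succAbove) = fun j => y i * (y (i.succAbove j) / y i) := by
      funext j
      simp only [Function.comp_apply]
      field_simp
    rw [h1, eval_scale _ (homogeneousComponent_isHomogeneous l h), ← mul_assoc, ← pow_add,
      Nat.sub_add_cancel hl']
  rw [hgz, map_sum, Finset.sum_congr rfl h0, ← Finset.mul_sum, ← map_sum,
    sum_homogeneousComponent]

theorem eval_dehom {b e : ℕ} (i : Fin (b + 1)) (G : MvPolynomial (Fin (b + 1)) ℂ)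
    (hG : G.IsHomogeneous e) (y : Fin (b + 1) → ℂ) (hy : y i ≠ 0) :
    eval y G = y i ^ e * eval (fun j => y (i.succAbove j) / y i) (dehom i G) := by
  have h1 : y = fun c => y i * (y c / y i) := by
    funext c
    field_simp
  have h2 : eval (fun j => y (i.succAbove j) / y i) (dehom i G)
      = eval (fun c => y c / y i) G := by
    have h3 : ∀ F : MvPolynomial (Fin (b + 1)) ℂ,
        eval (fun j => y (i.succAbove j) / y i) (dehom i F) = eval (fun c => y c / y i) F := by
      intro F
      induction F using MvPolynomial.induction_on with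
      | C a => simp [dehom]
      | add p q hp hq => rw [map_add, map_add, map_add, hp, hq]
      | mul_X p c hp =>
        rw [map_mul, map_mul, map_mul, hp]
        congr 1
        rw [dehom, aeval_X, eval_X]
        rcases Fin.eq_self_or_eq_succAbove i c with rfl | ⟨j, rfl⟩
        · rw [Fin.insertNth_apply_same, map_one, div_self hy]
        · rw [Fin.insertNth_apply_succAbove, eval_X]
    exact h3 G
  rw [h2]
  conv_lhs => rw [h1]
  exact eval_scale G hG (y i) (fun c => y c / y i)

theorem claim {b e k : ℕ} (i : Fin (b + 1)) (G : MvPolynomial (Fin (b + 1)) ℂ)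
    (hG : G.IsHomogeneous e) (h : MvPolynomial (Fin b) ℂ) (hh : dehom i G = h ^ k) :
    G * X i ^ (k * h.totalDegree) = X i ^ e * hgz i h ^ k := by
  have h1 : X i * (G * X i ^ (k * h.totalDegree)) = X i * (X i ^ e * hgz i h ^ k) := by
    apply MvPolynomial.funext
    intro y
    by_cases hy : y i = 0
    · rw [map_mul, map_mul (eval y) (X i) (X i ^ e * hgz i h ^ k), eval_X, hy, zero_mul, zero_mul]
    · have e1 := eval_dehom i G hG y hy
      have e2 := eval_hgz i h y hy
      rw [hh, map_pow] at e1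
      simp only [map_mul, map_pow, eval_X]
      rw [e1, e2]
      ring
  exact mul_left_cancel₀ (X_ne_zero i) h1

theorem pow_eq {A : Type} [CommRing A] [IsDomain A] {P u v : A} (hP : P ≠ 0) (hu : ¬ P ∣ u)
    (hv : ¬ P ∣ v) : ∀ {m n : ℕ}, P ^ m * u = P ^ n * v → m = n := by
  have key : ∀ {u v : A}, ¬ P ∣ u → ∀ {m n : ℕ}, P ^ m * u = P ^ n * v → n ≤ m := by
    intro u v hu m n h
    by_contra hlt
    push Not at hlt
    obtain ⟨d, rfl⟩ := Nat.exists_eq_add_of_lt hlt
    have h1 : P ^ m * u = P ^ m * (P ^ (d + 1) * v) := by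
      rw [h]
      ring
    have h2 := mul_left_cancel₀ (pow_ne_zero m hP) h1
    apply hu
    rw [h2, pow_succ']
    exact ⟨P ^ d * v, by ring⟩
  intro m n h
  exact le_antisymm (key hv h.symm) (key hu h)

end X_PK2

open X_PK2 in
theorem p_PK2 (hUFK : Stmt_UFK) : Stmt_PK2 := by
  intro b e k hb hk G hG hd
  by_cases hG0 : G = 0
  · exact ⟨0, by rw [hG0, zero_pow (by omega)]⟩
  refine hUFK (b + 1) k hk G hG0 fun P hP hPG => ?_
  have hPp : Prime P := hP.prime
  obtain ⟨i, hi⟩ : ∃ i : Fin (b + 1), ¬ P ∣ X i := by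
    by_contra hcon
    push Not at hcon
    have h0 : Associated P (X (0 : Fin (b + 1)) : MvPolynomial (Fin (b + 1)) ℂ) :=
      hP.associated_of_dvd (MvPolynomial.X_prime).irreducible (hcon 0)
    have h1 : (X (0 : Fin (b + 1)) : MvPolynomial (Fin (b + 1)) ℂ) ∣ X (Fin.last b) :=
      h0.symm.dvd.trans (hcon _)
    rw [MvPolynomial.X_dvd_X] at h1
    have h2 := congrArg Fin.val h1
    simp at h2
    omega
  obtain ⟨h, hh⟩ := hd i
  have hcl := claim i G hG h hh
  have hH0 : hgz i h ≠ 0 := by
    intro h0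
    rw [h0, zero_pow (by omega), mul_zero] at hcl
    rcases mul_eq_zero.1 hcl with h1 | h1
    · exact hG0 h1
    · exact pow_ne_zero _ (X_ne_zero i) h1
  obtain ⟨μ, a, ha, hGa⟩ := WfDvdMonoid.max_power_factor hG0 hP
  obtain ⟨ν, a', ha', hHa⟩ := WfDvdMonoid.max_power_factor hH0 hP
  have hμ : μ = k * ν := by
    refine X_PK2.pow_eq (u := a * X i ^ (k * h.totalDegree)) (v := X i ^ e * a' ^ k) hP.ne_zero
      ?_ ?_ ?_
    · intro hdv
      rcases hPp.dvd_or_dvd hdv with h1 | h1
      · exact ha h1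
      · exact hi (hPp.dvd_of_dvd_pow h1)
    · intro hdv
      rcases hPp.dvd_or_dvd hdv with h1 | h1
      · exact hi (hPp.dvd_of_dvd_pow h1)
      · exact ha' (hPp.dvd_of_dvd_pow h1)
    · have h1 : P ^ μ * (a * X i ^ (k * h.totalDegree)) = G * X i ^ (k * h.totalDegree) := by
        rw [← mul_assoc, ← hGa]
      rw [h1, hcl, hHa, mul_pow, ← pow_mul, mul_comm ν k]
      ring
  exact ⟨ν, a, by rw [← hμ]; exact hGa, ha⟩

end Pool.ThmP
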