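import Pool.Agent.Work.MP_f82ddf_P.Interface3

/-!
# MP_f82ddf_nt, theorem G, block RTF
-/

namespace Pool.ThmP

open Polynomial in
theorem RTF_coeff (F M : Type) [Field F] [Field M] [CharZero F] (ι : F →+* M) (k : ℕ) (hk : 1 ≤ k)
    (ψ : Polynomial M) (h : Polynomial F) (h0 : ψ.coeff 0 = 1) (hψ : ψ ^ k = h.map ι) (j : ℕ) :
    ∃ a : F, ι a = ψ.coeff j := by
  induction j using Nat.strong_induction_on with
  | _ j ih =>
    rcases Nat.eq_zero_or_pos j with rfl | hj
    · exact ⟨1, by rw [map_one, h0]⟩
    · choose! a ha using ih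
      let T0 : Polynomial F := ∑ i ∈ Finset.range j, Polynomial.monomial i (a i)
      have hT0 : ∀ i, T0.coeff i = if i < j then a i else 0 := by
        intro i
        simp only [T0, Polynomial.finsetSum_coeff, Polynomial.coeff_monomial]
        by_cases hi : i < j
        · rw [if_pos hi, Finset.sum_eq_single i]
          · rw [if_pos rfl]
          · intro b _ hb
            rw [if_neg hb]
          · intro h1
            exact absurd (Finset.mem_range.2 hi) h1
        · rw [if_neg hi]
          refine Finset.sum_eq_zero fun b hb => if_neg ?_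
          rintro rfl
          exact hi (Finset.mem_range.1 hb)
      have hT : ∀ i, (T0.map ι).coeff i = if i < j then ψ.coeff i else 0 := by
        intro i
        rw [Polynomial.coeff_map, hT0]
        by_cases hi : i < j
        · rw [if_pos hi, if_pos hi, ha i hi]
        · rw [if_neg hi, if_neg hi, map_zero]
      have hdvd : (X : Polynomial M) ^ j ∣ ψ - T0.map ι := by
        rw [Polynomial.X_pow_dvd_iff]
        intro d hd
        rw [Polynomial.coeff_sub, hT, if_pos hd, sub_self]
      obtain ⟨R, hR⟩ := hdvd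
      have hRj : R.coeff 0 = ψ.coeff j := by
        have h1 := congrArg (fun p => Polynomial.coeff p j) hR
        simp only [Polynomial.coeff_sub] at h1
        rw [hT, if_neg (lt_irrefl j), sub_zero] at h1
        have h2 := Polynomial.coeff_X_pow_mul R j 0
        rw [zero_add] at h2
        rw [h1, h2]
      have hS := (Commute.all ψ (T0.map ι)).geom_sum₂_mul k
      have e1 : ψ.eval 0 = 1 := by rw [← Polynomial.coeff_zero_eq_eval_zero, h0]
      have e2 : (T0.map ι).eval 0 = 1 := by
        rw [← Polynomial.coeff_zero_eq_eval_zero, hT, if_pos hj, h0]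
      have hcoeff : (ψ ^ k - (T0.map ι) ^ k).coeff j = (k : M) * ψ.coeff j := by
        rw [← hS, hR]
        have h3 : (∑ i ∈ Finset.range k, ψ ^ i * (T0.map ι) ^ (k - 1 - i)) * (X ^ j * R)
            = X ^ j * ((∑ i ∈ Finset.range k, ψ ^ i * (T0.map ι) ^ (k - 1 - i)) * R) := by ring
        rw [h3]
        have h4 := Polynomial.coeff_X_pow_mul
          ((∑ i ∈ Finset.range k, ψ ^ i * (T0.map ι) ^ (k - 1 - i)) * R) j 0
        rw [zero_add] at h4
        rw [h4, Polynomial.mul_coeff_zero, hRj, Polynomial.coeff_zero_eq_eval_zero,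
          Polynomial.eval_finsetSum]
        simp only [Polynomial.eval_mul, Polynomial.eval_pow, e1, e2, one_pow, mul_one,
          Finset.sum_const, Finset.card_range, nsmul_eq_mul]
      have hk0 : (k : M) ≠ 0 := by
        have h5 : (k : F) ≠ 0 := Nat.cast_ne_zero.2 (by omega)
        intro h6
        apply h5
        apply ι.injective
        rw [map_natCast, h6, map_zero]
      refine ⟨(h.coeff j - (T0 ^ k).coeff j) / (k : F), ?_⟩
      rw [map_div₀, map_sub, map_natCast, ← Polynomial.coeff_map, ← hψ, ← Polynomial.coeff_map,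
        Polynomial.map_pow, ← Polynomial.coeff_sub, hcoeff]
      field_simp

theorem p_RTF : Stmt_RTF := by
  intro F M _ _ _ ι k hk ψ h h0 hψ
  have h1 : ψ ∈ Polynomial.lifts ι := by
    rw [Polynomial.lifts_iff_coeff_lifts]
    intro n
    obtain ⟨a, ha⟩ := RTF_coeff F M ι k hk ψ h h0 hψ n
    exact ⟨a, ha⟩
  rw [Polynomial.mem_lifts] at h1
  obtain ⟨ρ, hρ⟩ := h1
  exact ⟨ρ, hρ.symm⟩

end Pool.ThmP
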