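import Pool.Agent.Work.MP_f82ddf_P.Interface3

set_option autoImplicit false

/-! # Block UFK: a polynomial all of whose multiplicities are divisible by `k` is a `k`-th power -/

namespace Pool.ThmP

open MvPolynomial Finset

open Associates in
theorem p_UFK : Stmt_UFK := by
  classical
  intro b k hk G hG h
  have hG0 : Associates.mk G ≠ 0 := Associates.mk_ne_zero.2 hG
  obtain ⟨g, hg⟩ := Associates.is_pow_of_dvd_count hG0 (k := k) (by
    intro p hp
    obtain ⟨P, rfl⟩ := Associates.mk_surjective p
    have hP : Irreducible P := Associates.irreducible_mk.1 hp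
    by_cases hd : P ∣ G
    · obtain ⟨q, a, ha, hn⟩ := h P hP hd
      have h1 : Associates.count (Associates.mk P) (Associates.mk G).factors = k * q := by
        apply le_antisymm
        · by_contra hlt
          have h2 := (Associates.prime_pow_dvd_iff_le hG0 hp).2 (Nat.succ_le_of_lt (not_le.1 hlt))
          rw [← Associates.mk_pow, Associates.mk_le_mk_iff_dvd, pow_succ, ha] at h2
          exact hn ((mul_dvd_mul_iff_left (pow_ne_zero _ hP.ne_zero)).1 h2)
        · rw [← Associates.prime_pow_dvd_iff_le hG0 hp, ← Associates.mk_pow,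
            Associates.mk_le_mk_iff_dvd]
          exact ⟨a, ha⟩
      rw [h1]
      exact dvd_mul_right _ _
    · have h1 : Associates.count (Associates.mk P) (Associates.mk G).factors = 0 := by
        by_contra h2
        have h3 := Associates.le_of_count_ne_zero hG0 hp h2
        rw [Associates.mk_le_mk_iff_dvd] at h3
        exact hd h3
      rw [h1]
      exact dvd_zero _)
  obtain ⟨G', rfl⟩ := Associates.mk_surjective g
  rw [← Associates.mk_pow, Associates.mk_eq_mk_iff_associated] at hg
  obtain ⟨u, hu⟩ := hg.symm
  obtain ⟨c, hc, hc'⟩ := (MvPolynomial.isUnit_iff_eq_C_of_isReduced (P := (u : MvPolynomial (Fin b) ℂ))).1 u.isUnit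
  obtain ⟨z, hz⟩ := IsAlgClosed.exists_pow_nat_eq c (show 0 < k by omega)
  refine ⟨G' * C z, ?_⟩
  rw [mul_pow, ← C_pow, hz, ← hu, hc']

end Pool.ThmP
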