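import Pool.Agent.Work.MP_f82ddf_P.Interface

set_option autoImplicit false

/-! # THEOREM P (MP_f82ddf_nt), second file: instances and sharpness

The varieties with a finite morphism, given by forms, to a smooth complete intersection of diagonal
forms of degree `k` are instances of THEOREM P with `c = n`; the bound `n / k` is attained. -/

namespace Pool.ThmP

open MvPolynomial Finset Pool.Agent.Work.MP_f82ddf_nt Pool.Agent.Work.MP_f82ddf_nt.DQ Pool.ThmM
  Pool.ThmM0

/-- FFB (150 lines), uses NUL.  Forms `s c` of the same degree `e ≥ 1` without common zero on `X`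
define a morphism with finite fibres.  PROOF.  `g.tuples = {s}`; `compatible` is `mul_comm`,
`defined` is the hypothesis.  FINITE FIBRES.  Let `w ≠ 0`, `w d ≠ 0`, and let `I₀` be the ideal of
`Ω[X]` generated by (the images of) `S` and the forms `w d * s c - w c * s d`.  At a common zero `v` of
`I₀` and `s d` all the `s c` vanish, so `v = 0`; by the Nullstellensatz there is `t ≥ e` with
`X i ^ t ∈ I₀ + (s d)` for all `i`, and, all the generators being homogeneous, the homogeneous
component of degree `t` gives forms `b i` of degree `t - e` with `X i ^ t - b i * s d ∈ I₀`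
(`Ideal` homogeneous: `Ideal.span` of homogeneous elements, `Submodule.span_induction`, or see
M0/B_FMN.lean, where this is done).  Let `I = I₀ + (s d - 1)`: `X i ^ t - b i ∈ I`.  So every
monomial is congruent modulo `I` to a linear combination of the finitely many monomials with all
exponents `< t` (induction on the degree: a monomial with an exponent `≥ t` is congruent to a
polynomial of smaller degree).  So `Ω[X] / I` is finite dimensional over `Ω` and the class of `X i`
is a root of a nonzero polynomial `f i` in one variable: `f i (X i) ∈ I`.  Let `P` be a point of the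
fibre of `w`, `v₀ = P.rep`: `s d (v₀) ≠ 0` (otherwise all the `s c (v₀) = 0`, `v₀ = 0`); choose
`λ` with `λ ^ e = (s d (v₀))⁻¹` (`IsAlgClosed.exists_pow_nat_eq`), `v = λ v₀` is a zero of `I`, so
`v i` is a root of `f i`, and `P = [v]`.  So the fibre is contained in the image of a finite set (the
vectors whose coordinates are roots of the `f i`). -/
def Stmt_FFB : Prop :=
  ∀ (K Ω : Type) [Field K] [Field Ω] [Algebra K Ω] [IsAlgClosed Ω] (m n e : ℕ)
    (S : Set (MvPolynomial (Fin (m + 1)) K)) (s : Fin (n + 1) → MvPolynomial (Fin (m + 1)) Ω),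
    (∀ F ∈ S, ∃ d, F.IsHomogeneous d) → 1 ≤ e → (∀ c, (s c).IsHomogeneous e) →
    (∀ v : Fin (m + 1) → Ω, OnX S v → (∀ c, eval v (s c) = 0) → v = 0) →
    ∃ g : Mor K Ω m n S, g.tuples = {s} ∧ g.Finite

/-- DIA (150 lines), uses FFB ThmM0.MIN.  PROOF.  Let `ι c` (`c ≤ n`) be the first `n + 1` indices and
`κ i` (`i < r`) the last `r` ones.  The square matrix of the columns `κ` of `a` is invertible
(MIN), so for every `c` there is exactly one solution `(l j c)_j` of the equations
`∑ j, a i j * l j c = 0` with `l (ι d) c = 1` for `d = c` and `0` for `d ≠ c`; this is `l`, and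
`IsParam a l` (independence: the rows `ι d` form the unit matrix).  Over any field extension a solution
`u` of the equations is `u j = ∑ c, l j c * u (ι c)` (the difference is a solution whose first
`n + 1` coordinates are 0).  Let `S, h` be given, `Ω = AlgebraicClosure K`,
`s c = map (algebraMap K Ω) (h (ι c)) ^ k`, of degree `e * k`.  For a point `v` of `X` the vector
`u j = (h j)(v) ^ k` is a solution, so `(h j)(v) ^ k = ∑ c, l j c * s c (v)`; if all the
`s c (v) = 0`, then all the `(h j)(v) = 0` and `v = 0`.  FFB gives `g` with `g.tuples = {s}`.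
`g.Meets (l j) v` means `(h j)(v) = 0`.  For `v ≠ 0` the solution `u` is not `0`; if `n + 1` of
its coordinates are `0`, at most `r` coordinates are not `0`, and the corresponding columns of
`a` are independent by MIN (see the proof of M0/B_GPZ.lean, with `Ω` for `ℂ`): `u = 0`, a contradiction.
So at most `n` of the hyperplanes are met.  Divisible: `a = 1`, `b` = the image of `h j`. -/
def Stmt_DIA : Prop :=
  ∀ (n r k : ℕ), 2 ≤ k → ∀ (K : Type) [Field K] [CharZero K]
    (a : Matrix (Fin r) (Fin (n + r + 1)) K), SmoothDiag k a →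
    ∃ l : Fin (n + r + 1) → Fin (n + 1) → K, IsParam a l ∧
      ∀ (m e : ℕ) (S : Set (MvPolynomial (Fin (m + 1)) K))
        (h : Fin (n + r + 1) → MvPolynomial (Fin (m + 1)) K), (∀ F ∈ S, ∃ d, F.IsHomogeneous d) →
        FiniteTo k a S e h →
        ∃ g : Mor K (AlgebraicClosure K) m n S, g.Finite ∧
          (∀ v, v ≠ 0 → OnX S v →
            {j | g.Meets (fun c => algebraMap K (AlgebraicClosure K) (l j c)) v}.ncard ≤ n) ∧
          ∀ j, g.Divisible k (fun c => algebraMap K (AlgebraicClosure K) (l j c))

/-- The bound `n / k` is attained in THEOREM P (i), with `c = n` and any number of hyperplanes: for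
all `n`, `r` and `k ≥ 2` there are `X` over `ℚ` in projective space of dimension `n + r`, `g` and
`n + r + 1` hyperplanes with all the properties, such that `X` contains a linear subspace of
dimension `n / k`. -/
def Stmt_SHPP : Prop :=
  ∀ (n r k : ℕ), 2 ≤ k → ∃ (S : Set (MvPolynomial (Fin (n + r + 1)) ℚ))
    (g : Mor ℚ (AlgebraicClosure ℚ) (n + r) n S)
    (l : Fin (n + r + 1) → Fin (n + 1) → AlgebraicClosure ℚ)
    (L : Fin (n / k + 1) → Fin (n + r + 1) → ℚ),
    (∀ F ∈ S, ∃ d, F.IsHomogeneous d) ∧ g.Finite ∧
    (∀ v, v ≠ 0 → OnX S v → {j | g.Meets (l j) v}.ncard ≤ n) ∧ (∀ j, g.Divisible k (l j)) ∧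
    LinearIndependent ℚ L ∧
      ∀ (σ : ℚ →+* ℂ) (p : PSpace ℂ (n + r)),
        (∃ c : Fin (n / k + 1) → ℂ, ∀ j, p.rep j = ∑ i, c i * σ (L i j)) →
          p ∈ complexPoints S σ

/-- SHP (40 lines), uses DIA and `Pool.ThmM0.stmt_SHARP` (M0/B_SHARP.lean, a theorem without
hypotheses: import it).  PROOF.  `a`, `L` from SHARP, `S = diag k a`; `FiniteTo k a (diag k a) 1 X`
(`h j = X j`: the equations are those of `diag`, and all coordinates zero means `v = 0`); DIA. -/
def Stmt_SHP : Prop := Stmt_SHPP

end Pool.ThmP
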