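import Pool.Agent.Work.MP_f82ddf_P.Interface3
import Pool.Agent.Work.MP_f82ddf_P.Interface2

set_option autoImplicit false

/-! # Sharpness, in terms of linear forms -/

namespace Pool.ThmP

open MvPolynomial Finset Pool.Agent.Work.MP_f82ddf_nt

/-- Sharpness for linear forms. -/
def Stmt_SHF : Prop :=
  ∀ (n r k : ℕ), 2 ≤ k → ∃ (S : Set (MvPolynomial (Fin (n + r + 1)) ℚ))
    (g : Mor ℚ (AlgebraicClosure ℚ) (n + r) n S)
    (F : Fin (n + r + 1) → MvPolynomial (Fin (n + 1)) (AlgebraicClosure ℚ))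
    (L : Fin (n / k + 1) → Fin (n + r + 1) → ℚ),
    (∀ F ∈ S, ∃ d, F.IsHomogeneous d) ∧ g.Finite ∧ (∀ j, (F j).IsHomogeneous 1) ∧
    r < {j | F j ≠ 0}.ncard ∧
    (∀ v, v ≠ 0 → OnX S v → {j | g.MeetsF (F j) v}.ncard ≤ n) ∧ (∀ j, g.DivisibleF k (F j)) ∧
    LinearIndependent ℚ L ∧
      ∀ (σ : ℚ →+* ℂ) (p : PSpace ℂ (n + r)),
        (∃ c : Fin (n / k + 1) → ℂ, ∀ j, p.rep j = ∑ i, c i * σ (L i j)) →
          p ∈ complexPoints S σ

theorem SHF_of (h : Stmt_SHPP) : Stmt_SHF := by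
  classical
  intro n r k hk
  obtain ⟨S, g, l, L, h1, h2, h3, h4, h5, h6⟩ := h n r k hk
  have hev : ∀ (j : Fin (n + r + 1)) (y : Fin (n + 1) → AlgebraicClosure ℚ),
      eval y (∑ c, C (l j c) * X c : MvPolynomial (Fin (n + 1)) (AlgebraicClosure ℚ)) =
        ∑ c, l j c * y c := by
    intro j y
    rw [map_sum]
    refine Finset.sum_congr rfl fun c _ => ?_
    rw [map_mul, eval_C, eval_X]
  refine ⟨S, g, fun j => ∑ c, C (l j c) * X c, L, h1, h2, ?_, ?_, ?_, ?_, h5, h6⟩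
  · intro j
    refine IsHomogeneous.sum _ _ _ fun c _ => ?_
    simpa using (isHomogeneous_C (Fin (n + 1)) (l j c)).mul (isHomogeneous_X _ c)
  · -- a point of `X`
    have hL0 : L 0 ≠ 0 := h5.ne_zero 0
    obtain ⟨v, hv⟩ : ∃ v : Fin (n + r + 1) → AlgebraicClosure ℚ,
        ∀ j, v j = algebraMap ℚ (AlgebraicClosure ℚ) (L 0 j) := ⟨_, fun _ => rfl⟩
    have hv0 : v ≠ 0 := by
      intro h0
      apply hL0
      funext j
      have h7 := congrFun h0 j
      rw [hv] at h7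
      exact (map_eq_zero_iff _ (algebraMap ℚ (AlgebraicClosure ℚ)).injective).1 h7
    have hvX : OnX S v := by
      intro G hG
      have hw0 : (fun j => algebraMap ℚ ℂ (L 0 j)) ≠ 0 := by
        intro h0
        apply hL0
        funext j
        have h7 := congrFun h0 j
        exact (map_eq_zero_iff _ (algebraMap ℚ ℂ).injective).1 h7
      obtain ⟨a, ha⟩ := Projectivization.exists_smul_eq_mk_rep ℂ
        (fun j => algebraMap ℚ ℂ (L 0 j)) hw0
      have h7 := h6 (algebraMap ℚ ℂ) (Projectivization.mk ℂ _ hw0)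
        ⟨fun i => if i = 0 then (a : ℂ) else 0, fun j => by
          rw [← ha]
          simp [Units.smul_def]⟩ G hG
      rw [← ha] at h7
      obtain ⟨d, hd⟩ := h1 G hG
      have h8 : eval₂ (algebraMap ℚ ℂ) (a • fun j => algebraMap ℚ ℂ (L 0 j)) G =
          (a : ℂ) ^ d * eval₂ (algebraMap ℚ ℂ) (fun j => algebraMap ℚ ℂ (L 0 j)) G :=
        eval₂_smul_hom hd (algebraMap ℚ ℂ) (fun j => algebraMap ℚ ℂ (L 0 j)) (a : ℂ)
      rw [h8] at h7
      have h9 : eval₂ (algebraMap ℚ ℂ) (fun j => algebraMap ℚ ℂ (L 0 j)) G = 0 :=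
        (mul_eq_zero.1 h7).resolve_left (pow_ne_zero _ a.ne_zero)
      have h10 : algebraMap ℚ ℂ (eval (L 0) G) = 0 := by
        rw [← h9]
        exact (eval₂_comp (algebraMap ℚ ℂ) (L 0) G).symm ▸ rfl
      have h11 : eval (L 0) G = 0 :=
        (map_eq_zero_iff _ (algebraMap ℚ ℂ).injective).1 h10
      have h17 : v = fun j => algebraMap ℚ (AlgebraicClosure ℚ) (L 0 j) := funext hv
      have h18 : aeval v G = algebraMap ℚ (AlgebraicClosure ℚ) (eval (L 0) G) := by
        rw [aeval_def, h17]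
        exact (eval₂_comp (algebraMap ℚ (AlgebraicClosure ℚ)) (L 0) G).symm ▸ rfl
      rw [h18, h11, map_zero]
    have h12 := h3 v hv0 hvX
    have h13 : {j | (∑ c, C (l j c) * X c : MvPolynomial (Fin (n + 1)) (AlgebraicClosure ℚ)) = 0} ⊆
        {j | g.Meets (l j) v} := by
      intro j hj s _
      rw [← hev, show (∑ c, C (l j c) * X c :
        MvPolynomial (Fin (n + 1)) (AlgebraicClosure ℚ)) = 0 from hj, map_zero]
    have h14 := Set.ncard_le_ncard h13 (Set.toFinite _)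
    have h15 := Set.ncard_add_ncard_compl
      {j | (∑ c, C (l j c) * X c : MvPolynomial (Fin (n + 1)) (AlgebraicClosure ℚ)) = 0}
    rw [Nat.card_eq_fintype_card, Fintype.card_fin] at h15
    have h16 : {j | (∑ c, C (l j c) * X c : MvPolynomial (Fin (n + 1)) (AlgebraicClosure ℚ)) = 0}ᶜ =
        {j | (∑ c, C (l j c) * X c : MvPolynomial (Fin (n + 1)) (AlgebraicClosure ℚ)) ≠ 0} := rfl
    rw [h16] at h15
    show r < {j | (∑ c, C (l j c) * X c : MvPolynomial (Fin (n + 1)) (AlgebraicClosure ℚ)) ≠ 0}.ncard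
    omega
  · intro v hv hvX
    refine le_trans (Set.ncard_le_ncard (fun j hj => ?_) (Set.toFinite _)) (h3 v hv hvX)
    intro s hs
    rw [← hev]
    exact hj s hs
  · intro j v hv hvX
    obtain ⟨s, hs, hsc, d, e, a, b, ha, hb, hav, hab⟩ := h4 j v hv hvX
    refine ⟨s, hs, hsc, d, e, a, b, ha, hb, hav, fun u hu => ?_⟩
    rw [hev]
    exact hab u hu

end Pool.ThmP
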