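import Pool.Agent.Work.MP_f82ddf_P.All
import Pool.Agent.Work.MP_f82ddf_P.SharpF
import Pool.Agent.Work.MP_f82ddf_P.B_RTF
import Pool.Agent.Work.MP_f82ddf_P.B_LNR
import Pool.Agent.Work.MP_f82ddf_P.B_CHN
import Pool.Agent.Work.MP_f82ddf_P.B_GVA
import Pool.Agent.Work.MP_f82ddf_P.B_CDG
import Pool.Agent.Work.MP_f82ddf_P.B_EXV
import Pool.Agent.Work.MP_f82ddf_P.B_GAS
import Pool.Agent.Work.MP_f82ddf_P.B_UFK
import Pool.Agent.Work.MP_f82ddf_P.B_PK1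
import Pool.Agent.Work.MP_f82ddf_P.B_PK2
import Pool.Agent.Work.MP_f82ddf_P.B_KPD
import Pool.Agent.Work.MP_f82ddf_P.B_VER
import Pool.Agent.Work.MP_f82ddf_P.B_NHR
import Pool.Agent.Work.MP_f82ddf_P.B_GGL
import Pool.Agent.Work.MP_f82ddf_P.B_FDM
import Pool.Agent.Work.MP_f82ddf_P.B_PIG
import Pool.Agent.Work.MP_f82ddf_P.B_GGX
import Pool.Agent.Work.MP_f82ddf_P.B_FDX
import Pool.Agent.Work.MP_f82ddf_P.B_CUR

/-!
# THEOREM G: assembly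
-/

set_option autoImplicit false

namespace Pool.ThmP

theorem all_LNR : Stmt_LNR := p_LNR p_RTF
theorem all_CHN : Stmt_CHN := p_CHN all_NUL Pool.Agent.Work.MP_f82ddf_M5.all_LINE
  Pool.Agent.Work.MP_f82ddf_M5.all_PTD Pool.Agent.Work.MP_f82ddf_M5.stmt_FUN
theorem all_GVA : Stmt_GVA := p_GVA all_LNR all_CHN Pool.Agent.Work.MP_f82ddf_M5.stmt_FUN
  Pool.Agent.Work.MP_f82ddf_M5.all_IDE
theorem all_CDG : Stmt_CDG := p_CDG all_CRB Pool.ThmM0.all_T3 all_GVA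
/-- THEOREM G, general form. -/
theorem all_GAS : Stmt_GAS := p_GAS all_HPT all_VAL all_SPT p_BAS p_REP all_KTH all_CDG p_EXV
  Pool.ThmM0.stmt_EXPO Pool.ThmM0.stmt_CST
theorem all_PK1 : Stmt_PK1 := p_PK1 p_UFK Pool.ThmM0.stmt_HOMR
theorem all_PK2 : Stmt_PK2 := p_PK2 p_UFK
theorem all_KPD : Stmt_KPD := p_KPD p_EXT
theorem all_NHR : Stmt_NHR := p_NHR all_FIB p_TRX Pool.ThmM0.stmt_HOMR
theorem all_GGN : Stmt_GGN := p_GGN p_VER all_GAS all_PK1 all_PK2 all_KPD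
theorem all_GGL : Stmt_GGL := p_GGL p_VER all_GAS all_PK1 all_PK2 all_KPD all_MPT all_NHR
theorem all_DMF : Stmt_DMF := p_FDM all_GGL p_VER all_ONP
theorem all_GGX : Stmt_GGX := p_GGX all_GGN p_PIG
/-- THEOREM G, dimension bounds. -/
theorem all_DMX2 : Stmt_DMX2 := p_FDX p_PIG all_DMF
/-- THEOREM G for morphisms which need not be finite. -/
theorem all_CUR : Stmt_CUR := p_CUR all_GGX all_MPT Pool.ThmM0.stmt_MREL
theorem all_SHF : Stmt_SHF := SHF_of all_SHP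

end Pool.ThmP
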