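import Pool.Agent.Work.MP_f82ddf_P.Interface5

set_option autoImplicit false

/-! # Block CDC: common factors descend to the algebraically closed field -/

namespace Pool.ThmP

open MvPolynomial Finset Pool.Agent.Work.MP_f82ddf_nt Pool.Agent.Work.MP_f82ddf_nt.DQ Pool.ThmM
  Pool.ThmM0 Pool.Agent.Work.MP_f82ddf_M5

theorem CDC_monomial {F : Type} [Field F] {b : ℕ} (P : MvPolynomial (Fin b) F)
    (hP : Irreducible P) : ∃ μ : Fin b →₀ ℕ, μ ≠ 0 ∧ coeff μ P ≠ 0 := by
  by_contra hcon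
  push Not at hcon
  apply hP.not_isUnit
  have h1 : P = C (coeff 0 P) := by
    ext m
    rw [coeff_C]
    by_cases hm : 0 = m
    · rw [if_pos hm, hm]
    · rw [if_neg hm]
      exact hcon m (Ne.symm hm)
  have h2 : coeff 0 P ≠ 0 := by
    intro h
    rw [h, C_0] at h1
    exact hP.ne_zero h1
  rw [h1]
  exact (isUnit_iff_ne_zero.2 h2).map C

theorem p_CDC (hEXT : Stmt_EXT) : Stmt_CDC := by
  classical
  intro Ω _ _ τ b c N F hF P hP
  letI : Algebra Ω ℂ := τ.toAlgebra
  have hH : ∀ j, ∃ H : MvPolynomial (Fin b) ℂ, P ∣ map τ (F j) → map τ (F j) = P * H := by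
    intro j
    by_cases h : P ∣ map τ (F j)
    · obtain ⟨H, hH⟩ := h
      exact ⟨H, fun _ => hH⟩
    · exact ⟨0, fun h' => absurd h' h⟩
  choose H hH using hH
  obtain ⟨μ, hμ, ha⟩ := CDC_monomial P hP
  set s : Finset ℂ := insert (coeff μ P)⁻¹ (P.support.image (fun m => coeff m P) ∪
    Finset.univ.biUnion (fun j : Fin (N + 1) => (H j).support.image (fun m => coeff m (H j))))
    with hs
  let B : Subalgebra Ω ℂ := Algebra.adjoin Ω (s : Set ℂ)
  have hft : Algebra.FiniteType Ω B :=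
    (Subalgebra.fg_iff_finiteType _).1 (Subalgebra.fg_adjoin_finset s)
  have hinv : (coeff μ P)⁻¹ ∈ B := Algebra.subset_adjoin (by rw [hs]; simp)
  have hlift : ∀ G₁ : MvPolynomial (Fin b) ℂ, (∀ m ∈ G₁.support, coeff m G₁ ∈ s) →
      ∃ G' : MvPolynomial (Fin b) B, map (algebraMap B ℂ) G' = G₁ := by
    intro G₁ hG₁
    have hmem : ∀ m, coeff m G₁ ∈ B := by
      intro m
      by_cases hm : m ∈ G₁.support
      · exact Algebra.subset_adjoin (by exact_mod_cast hG₁ m hm)
      · rw [MvPolynomial.notMem_support_iff] at hm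
        rw [hm]; exact B.zero_mem
    have : G₁ ∈ Set.range (MvPolynomial.map (σ := Fin b) (algebraMap B ℂ)) := by
      rw [MvPolynomial.mem_range_map_iff_coeffs_subset]
      intro c hc
      rw [Finset.mem_coe, MvPolynomial.mem_coeffs_iff] at hc
      obtain ⟨m, -, rfl⟩ := hc
      exact ⟨⟨_, hmem m⟩, rfl⟩
    exact this
  obtain ⟨P', hP'⟩ := hlift P (by
    intro m hm
    rw [hs]
    exact Finset.mem_insert_of_mem (Finset.mem_union_left _ (Finset.mem_image_of_mem _ hm)))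
  have hH' : ∀ j, ∃ G' : MvPolynomial (Fin b) B, map (algebraMap B ℂ) G' = H j := by
    intro j
    refine hlift (H j) ?_
    intro m hm
    rw [hs]
    exact Finset.mem_insert_of_mem (Finset.mem_union_right _
      (Finset.mem_biUnion.2 ⟨j, Finset.mem_univ _, Finset.mem_image_of_mem _ hm⟩))
  choose H' hH' using hH'
  have hinj : Function.Injective (map (σ := Fin b) (algebraMap B ℂ)) :=
    MvPolynomial.map_injective _ Subtype.val_injective
  have h1 : ∀ j, P ∣ map τ (F j) → map (algebraMap Ω B) (F j) = P' * H' j := by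
    intro j hj
    apply hinj
    rw [map_mul, hP', hH', ← hH j hj, MvPolynomial.map_map]
    rfl
  obtain ⟨h, hh, HE⟩ := hEXT Ω B hft ⊥
  obtain ⟨Θ, -⟩ := HE (Algebra.botEquiv Ω B : (⊥ : Subalgebra Ω B) →ₐ[Ω] Ω) (by
    intro h0
    apply hh
    have := (Algebra.botEquiv Ω B).injective (a₁ := h) (a₂ := 0)
    apply this
    rw [map_zero]
    exact h0)
  have hΘ : (Θ : B →+* Ω).comp (algebraMap Ω B) = RingHom.id Ω := by
    ext a
    exact Θ.commutes a
  set P₁ : MvPolynomial (Fin b) Ω := map (Θ : B →+* Ω) P' with hP₁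
  have hdvd : ∀ j, P ∣ map τ (F j) → P₁ ∣ F j := by
    intro j hj
    refine ⟨map (Θ : B →+* Ω) (H' j), ?_⟩
    rw [hP₁, ← map_mul, ← h1 j hj, MvPolynomial.map_map, hΘ, MvPolynomial.map_id]
  have hcoef : coeff μ P₁ ≠ 0 := by
    rw [hP₁, coeff_map]
    intro h0
    have h2 : (coeff μ P') * (⟨(coeff μ P)⁻¹, hinv⟩ : B) = 1 := by
      apply Subtype.val_injective
      have h3 : ((coeff μ P' : B) : ℂ) = coeff μ P := by
        rw [← hP', coeff_map]
        rfl
      show ((coeff μ P' : B) : ℂ) * (coeff μ P)⁻¹ = 1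
      rw [h3, mul_inv_cancel₀ ha]
    have h4 := congrArg (Θ : B →+* Ω) h2
    rw [map_mul, h0, zero_mul, map_one] at h4
    exact zero_ne_one h4
  have hP₁0 : P₁ ≠ 0 := by
    intro h0
    rw [h0, coeff_zero] at hcoef
    exact hcoef rfl
  have hP₁u : ¬ IsUnit P₁ := by
    intro hu
    obtain ⟨r, -, hr⟩ := MvPolynomial.isUnit_iff_eq_C_of_isReduced.1 hu
    rw [hr, coeff_C, if_neg (Ne.symm hμ)] at hcoef
    exact hcoef rfl
  obtain ⟨P₂, hP₂, hP₂d⟩ := WfDvdMonoid.exists_irreducible_factor hP₁u hP₁0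
  refine le_trans (Set.ncard_le_ncard ?_ (Set.toFinite _)) (hF P₂ hP₂)
  intro j hj
  exact hP₂d.trans (hdvd j hj)

end Pool.ThmP
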