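import Pool.Agent.Work.MP_f82ddf_P.Interface5

set_option autoImplicit false

/-! # Block DM3 (MP_f82ddf_nt, THEOREM G, hypersurfaces in arbitrary position): `g` finite -/

namespace Pool.ThmP

open MvPolynomial Finset Pool.Agent.Work.MP_f82ddf_nt Pool.Agent.Work.MP_f82ddf_nt.DQ Pool.ThmM
  Pool.ThmM0

theorem p_DM3 (hGMX : Stmt_GMX) (hMPT : Stmt_MPT) (hNHR : Stmt_NHR) : Stmt_DM3 := by
  intro M e c
  obtain ⟨N₀, hN₀⟩ := hGMX (M + 1) e c
  refine ⟨N₀, ?_⟩
  intro k N hk K _ m S hS g F hfin hF hc hdiv hcard σ x hx r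
  obtain ⟨τ, hx'⟩ : ∃ τ : AlgebraicClosure K →+* ℂ, OnK (tm τ) S x := by
    let τ : AlgebraicClosure K →+* ℂ :=
      letI : Algebra K ℂ := σ.toAlgebra
      (IsAlgClosed.lift (R := K) (M := ℂ) (S := AlgebraicClosure K)).toRingHom
    have hτ : τ.comp (algebraMap K (AlgebraicClosure K)) = σ := by
      let : Algebra K ℂ := σ.toAlgebra
      exact AlgHom.comp_algebraMap
        (IsAlgClosed.lift (R := K) (M := ℂ) (S := AlgebraicClosure K))
    refine ⟨τ, ?_⟩
    intro F hF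
    have h6 : (tm τ).comp (algebraMap K (AlgebraicClosure K)) =
        (algebraMap ℂ Mer).comp σ := by
      rw [tm, RingHom.comp_assoc, hτ]
    rw [h6]
    exact hx F hF
  by_contra hno
  have hNR : NoRel (fun i => x (r i)) := by
    intro e' P hP hPh h0
    exact hno ⟨e', P, hP, hPh, h0⟩
  have hx0 : x ≠ 0 := by
    intro h
    have h1 := hNR 1 (X 0) (X_ne_zero 0) (isHomogeneous_X ℂ 0)
    rw [aeval_X, h] at h1
    exact h1 rfl
  obtain ⟨s, hs, hsc⟩ := (hMPT K (AlgebraicClosure K) Mer m (M + 1) S g (tm τ) x hx').1 hx0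
  exact hN₀ k N hk K (AlgebraicClosure K) m S hS g F hF hc hdiv hcard τ x hx' hx0 s hs hsc
    (hNHR K (AlgebraicClosure K) m M S g hS hfin τ x hx' s hs hsc r hNR)

end Pool.ThmP
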