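import Pool.Agent.Work.MP_f82ddf_P.Interface5

set_option autoImplicit false

/-! # Block EXI of THEOREM G (MP_f82ddf_nt): algebraically independent exponentials -/

namespace Pool.ThmP

open MvPolynomial Finset Pool.Agent.Work.MP_f82ddf_nt Pool.Agent.Work.MP_f82ddf_nt.DQ Pool.ThmM
  Pool.ThmM0
open Topology Filter

/-- the character `z ↦ exp (a z)` -/
noncomputable def EXI_ch (a : ℂ) : Multiplicative ℂ →* ℂ where
  toFun z := Complex.exp (a * z.toAdd)
  map_one' := by simp
  map_mul' x y := by
    rw [toAdd_mul, mul_add, Complex.exp_add]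

theorem EXI_ch_inj : Function.Injective EXI_ch := by
  intro a b h
  have h1 : (fun z : ℂ => Complex.exp (a * z)) = fun z => Complex.exp (b * z) := by
    funext z
    exact DFunLike.congr_fun h (Multiplicative.ofAdd z)
  have h2 : ∀ a : ℂ, HasDerivAt (fun z : ℂ => Complex.exp (a * z)) a 0 := by
    intro a
    have h3 : HasDerivAt (fun z : ℂ => a * z) (a * 1) 0 := (hasDerivAt_id (0 : ℂ)).const_mul a
    have h4 := h3.cexp
    rw [mul_zero, Complex.exp_zero, one_mul, mul_one] at h4
    exact h4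
  have h5 := h2 a
  rw [h1] at h5
  exact h5.unique (h2 b)

theorem EXI_succ (hWGT : Pool.Agent.Work.MP_f82ddf_M5.Stmt_WGT) (n : ℕ) :
    ∃ w : Fin (n + 1) → Mer, AlgebraicIndependent ℂ w := by
  classical
  obtain ⟨c, hc⟩ := hWGT (n + 1)
  let f : Fin (n + 1) → ℂ → ℂ := fun i z => Complex.exp ((c i : ℂ) * z)
  have hf : ∀ j z, MeromorphicAt (f j) z := fun j z => by
    have h1 : AnalyticAt ℂ (fun z : ℂ => Complex.exp ((c j : ℂ) * z)) z :=
      (analyticAt_const.mul analyticAt_id).cexp
    exact h1.meromorphicAt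
  refine ⟨fun j => Mer.mk (f j) (hf j), ?_⟩
  rw [algebraicIndependent_iff]
  intro p hp
  have h0 : eval₂ ((algebraMap ℂ Mer).comp (RingHom.id ℂ)) (fun j => Mer.mk (f j) (hf j)) p = 0 := by
    rw [RingHom.comp_id]
    exact hp
  have h1 := (mer_eval₂_eq_zero (RingHom.id ℂ) f hf p).1 h0
  have h2 : ∀ z, eval₂ (RingHom.id ℂ) (fun j => f j z) p =
      ∑ m ∈ p.support, coeff m p * EXI_ch (((∑ i, (m i : ℝ) * c i : ℝ) : ℂ))
        (Multiplicative.ofAdd z) := by
    intro z
    rw [eval₂_eq']
    refine Finset.sum_congr rfl fun m _ => ?_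
    rw [RingHom.id_apply]
    congr 1
    change ∏ i, Complex.exp ((c i : ℂ) * z) ^ m i =
      Complex.exp (((∑ i, (m i : ℝ) * c i : ℝ) : ℂ) * z)
    have h3 : ∀ i, Complex.exp ((c i : ℂ) * z) ^ m i =
        Complex.exp ((m i : ℂ) * ((c i : ℂ) * z)) := fun i => (Complex.exp_nat_mul _ _).symm
    rw [Finset.prod_congr rfl fun i _ => h3 i, ← Complex.exp_sum]
    congr 1
    rw [Complex.ofReal_sum, Finset.sum_mul]
    refine Finset.sum_congr rfl fun i _ => ?_
    push_cast
    ring
  have hcont : Continuous fun z => eval₂ (RingHom.id ℂ) (fun j => f j z) p := by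
    have h3 : (fun z => eval₂ (RingHom.id ℂ) (fun j => f j z) p) =
        fun z => ∑ m ∈ p.support, coeff m p *
          Complex.exp (((∑ i, (m i : ℝ) * c i : ℝ) : ℂ) * z) := by
      funext z
      exact h2 z
    rw [h3]
    refine continuous_finsetSum _ fun m _ => ?_
    exact continuous_const.mul (Complex.continuous_exp.comp (continuous_const.mul continuous_id))
  have h4 : ∀ z, eval₂ (RingHom.id ℂ) (fun j => f j z) p = 0 := by
    intro z
    have h5 : Tendsto (fun z => eval₂ (RingHom.id ℂ) (fun j => f j z) p) (𝓝[≠] z)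
        (𝓝 (eval₂ (RingHom.id ℂ) (fun j => f j z) p)) := hcont.continuousAt.tendsto.mono_left
          nhdsWithin_le_nhds
    have h6 : Tendsto (fun z => eval₂ (RingHom.id ℂ) (fun j => f j z) p) (𝓝[≠] z) (𝓝 0) :=
      tendsto_const_nhds.congr' (by
        filter_upwards [h1 z] with w hw
        exact hw.symm)
    exact tendsto_nhds_unique h5 h6
  have hχ : Function.Injective fun m : Fin (n + 1) →₀ ℕ =>
      EXI_ch (((∑ i, (m i : ℝ) * c i : ℝ) : ℂ)) := by
    intro m m' h
    exact hc (Complex.ofReal_injective (EXI_ch_inj h))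
  have hli := (linearIndependent_monoidHom (Multiplicative ℂ) ℂ).comp _ hχ
  have h7 := linearIndependent_iff'.1 hli p.support (fun m => coeff m p) (by
    funext z
    rw [Finset.sum_apply]
    have h8 := h4 z.toAdd
    rw [h2] at h8
    exact h8)
  ext m
  rw [coeff_zero]
  by_cases hm : m ∈ p.support
  · exact h7 m hm
  · exact notMem_support_iff.1 hm

theorem p_EXI (hWGT : Pool.Agent.Work.MP_f82ddf_M5.Stmt_WGT) : Stmt_EXI := by
  intro n
  cases n with
  | zero => exact ⟨fun i => i.elim0, algebraicIndependent_empty_type⟩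
  | succ n => exact EXI_succ hWGT n

end Pool.ThmP
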