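import Pool.Agent.Work.MP_f82ddf_P.Interface3

set_option autoImplicit false

/-! # Block PK1: the dehomogenised form is a `k`-th power -/

namespace Pool.ThmP

open MvPolynomial Finset Pool.Agent.Work.MP_f82ddf_nt Pool.Agent.Work.MP_f82ddf_nt.DQ Pool.ThmM
  Pool.ThmM0

/-- A valuation ring of the fraction field over the local ring of a prime element. -/
theorem pk1_val {R : Type} [CommRing R] [IsDomain R] (L : Type) [Field L] [Algebra R L]
    [IsFractionRing R L] (P : R) (hP : Prime P) :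
    ∃ V : ValuationSubring L, (∀ r : R, algebraMap R L r ∈ V) ∧
      (∀ r : R, ¬ P ∣ r → (algebraMap R L r)⁻¹ ∈ V) ∧ (algebraMap R L P)⁻¹ ∉ V := by
  have hsp : (Ideal.span {P}).IsPrime := (Ideal.span_singleton_prime hP.ne_zero).2 hP
  have hu : ∀ s : (Ideal.span {P}).primeCompl, IsUnit (algebraMap R L s) := by
    intro s
    rw [isUnit_iff_ne_zero, Ne, IsFractionRing.to_map_eq_zero_iff]
    rintro h
    exact s.2 (by rw [h]; exact Ideal.zero_mem _)
  let f : Localization.AtPrime (Ideal.span {P}) →+* L := IsLocalization.lift hu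
  have hf : ∀ r : R, f (algebraMap R _ r) = algebraMap R L r := fun r =>
    IsLocalization.lift_eq hu r
  obtain ⟨A, h, hloc⟩ := IsLocalRing.exists_factor_valuationRing
    (R := Localization.AtPrime (Ideal.span {P})) (K := L) f
  refine ⟨A, fun r => ?_, fun r hr => ?_, fun hPA => ?_⟩
  · rw [← hf r]
    exact h _
  · have hr' : r ∈ (Ideal.span {P}).primeCompl := by
      intro hr'
      exact hr (Ideal.mem_span_singleton.1 hr')
    have h1 : IsUnit (algebraMap R (Localization.AtPrime (Ideal.span {P})) r) :=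
      IsLocalization.map_units _ (⟨r, hr'⟩ : (Ideal.span {P}).primeCompl)
    obtain ⟨b, hb⟩ := h1.exists_right_inv
    have h2 : algebraMap R L r * f b = 1 := by
      rw [← hf r, ← map_mul, hb, map_one]
    have h3 : (algebraMap R L r)⁻¹ = f b := inv_eq_of_mul_eq_one_right h2
    rw [h3]
    exact h _
  · have hP0 : algebraMap R L P ≠ 0 := by
      rw [Ne, IsFractionRing.to_map_eq_zero_iff]
      exact hP.ne_zero
    have hu' : IsUnit ((RingHom.codRestrict f A.toSubring h)
        (algebraMap R (Localization.AtPrime (Ideal.span {P})) P)) := by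
      refine IsUnit.of_mul_eq_one (⟨(algebraMap R L P)⁻¹, hPA⟩ : A.toSubring) ?_
      apply Subtype.ext
      change f (algebraMap R _ P) * (algebraMap R L P)⁻¹ = 1
      rw [hf, mul_inv_cancel₀ hP0]
    have hu2 : IsUnit (algebraMap R (Localization.AtPrime (Ideal.span {P})) P) :=
      hloc.map_nonunit _ hu'
    have h4 := (IsLocalization.AtPrime.isUnit_to_map_iff
      (Localization.AtPrime (Ideal.span {P})) (Ideal.span {P}) P).1 hu2
    exact h4 (Ideal.mem_span_singleton_self P)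

/-- A power of a nonunit with a nonzero exponent is not a unit. -/
theorem pk1_pow {L : Type} [Field L] (V : ValuationSubring L) (p : L) (hp : p ∈ V)
    (hp' : p⁻¹ ∉ V) (m n : ℕ) (h : p ^ m / p ^ n ∈ V) : n ≤ m := by
  by_contra hlt
  push Not at hlt
  have hp0 : p ≠ 0 := by
    rintro rfl
    exact hp' (by simp)
  obtain ⟨d, rfl⟩ := Nat.exists_eq_add_of_lt hlt
  apply hp'
  have h1 : p⁻¹ = p ^ d * (p ^ m / p ^ (m + d + 1)) := by
    field_simp
    ring
  rw [h1]
  exact V.mul_mem _ _ (pow_mem hp d) h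

theorem pk1_id1 {L : Type} [Field L] (p a n d : L) (hp : p ≠ 0) (ha : a ≠ 0) (hn : n ≠ 0)
    (hd : d ≠ 0) (μ k α β : ℕ) : p ^ (μ + k * β) / p ^ (k * α) =
      p ^ μ * a / ((p ^ α * n) / (p ^ β * d)) ^ k * (a⁻¹ * n ^ k * (d⁻¹) ^ k) := by
  rw [mul_comm k β, mul_comm k α, pow_add, pow_mul, pow_mul, div_pow, mul_pow, mul_pow, inv_pow]
  generalize (p ^ β) ^ k = B
  have hA : (p ^ α) ^ k ≠ 0 := pow_ne_zero _ (pow_ne_zero _ hp)
  have hN : n ^ k ≠ 0 := pow_ne_zero _ hn
  have hD : d ^ k ≠ 0 := pow_ne_zero _ hd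
  generalize (p ^ α) ^ k = A at *
  generalize n ^ k = N at *
  generalize d ^ k = D at *
  field_simp

theorem pk1_id2 {L : Type} [Field L] (p a n d : L) (hp : p ≠ 0) (ha : a ≠ 0) (hn : n ≠ 0)
    (hd : d ≠ 0) (μ k α β : ℕ) : p ^ (k * α) / p ^ (μ + k * β) =
      ((p ^ α * n) / (p ^ β * d)) ^ k / (p ^ μ * a) * (a * (n⁻¹) ^ k * d ^ k) := by
  rw [mul_comm k β, mul_comm k α, pow_add, pow_mul, pow_mul, div_pow, mul_pow, mul_pow, inv_pow]
  have hB : (p ^ β) ^ k ≠ 0 := pow_ne_zero _ (pow_ne_zero _ hp)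
  have hN : n ^ k ≠ 0 := pow_ne_zero _ hn
  have hD : d ^ k ≠ 0 := pow_ne_zero _ hd
  generalize (p ^ β) ^ k = B at *
  generalize (p ^ α) ^ k = A at *
  generalize n ^ k = N at *
  generalize d ^ k = D at *
  field_simp

/-- The multiplicity of `P` in a power up to a unit of a valuation ring over `(P)`. -/
theorem pk1_dvd {R : Type} [CommRing R] [IsDomain R] [UniqueFactorizationMonoid R] (L : Type)
    [Field L] [Algebra R L] [IsFractionRing R L] (P : R) (hP : Prime P) (V : ValuationSubring L)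
    (h1 : ∀ r : R, algebraMap R L r ∈ V) (h2 : ∀ r : R, ¬ P ∣ r → (algebraMap R L r)⁻¹ ∈ V)
    (h3 : (algebraMap R L P)⁻¹ ∉ V) (μ k : ℕ) (a : R) (ha : ¬ P ∣ a)
    (hU : UPow V k (algebraMap R L (P ^ μ * a))) : k ∣ μ := by
  obtain ⟨t, ht, hA, hB⟩ := hU
  obtain ⟨n, d, hd, rfl⟩ := IsFractionRing.div_surjective (A := R) t
  have hd0 : d ≠ 0 := nonZeroDivisors.ne_zero hd
  have hn0 : n ≠ 0 := by
    rintro rfl
    exact ht (by simp)
  have hfin : ∀ r : R, r ≠ 0 → ∃ (α : ℕ) (r' : R), ¬ P ∣ r' ∧ r = P ^ α * r' := by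
    intro r hr
    have := FiniteMultiplicity.of_prime_left hP hr
    obtain ⟨r', hr', hr''⟩ := this.exists_eq_pow_mul_and_not_dvd
    exact ⟨_, r', hr'', hr'⟩
  obtain ⟨α, n', hn', rfl⟩ := hfin n hn0
  obtain ⟨β, d', hd', rfl⟩ := hfin d hd0
  have ne : ∀ r : R, ¬ P ∣ r → algebraMap R L r ≠ 0 := by
    intro r hr h0
    rw [IsFractionRing.to_map_eq_zero_iff] at h0
    exact hr (h0 ▸ dvd_zero P)
  have hp0 : algebraMap R L P ≠ 0 := by
    rw [Ne, IsFractionRing.to_map_eq_zero_iff]
    exact hP.ne_zero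
  have ha0 := ne a ha
  have hn0' := ne n' hn'
  have hd0' := ne d' hd'
  set p := algebraMap R L P with hp
  have hle1 : k * α ≤ μ + k * β := by
    apply pk1_pow V p (h1 P) h3
    have e : p ^ (μ + k * β) / p ^ (k * α) =
        algebraMap R L (P ^ μ * a) / (algebraMap R L (P ^ α * n') / algebraMap R L (P ^ β * d')) ^ k
          * ((algebraMap R L a)⁻¹ * (algebraMap R L n') ^ k * ((algebraMap R L d')⁻¹) ^ k) := by
      simp only [map_mul, map_pow, ← hp]
      exact pk1_id1 _ _ _ _ hp0 ha0 hn0' hd0' μ k α β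
    rw [e]
    exact V.mul_mem _ _ hA (V.mul_mem _ _ (V.mul_mem _ _ (h2 a ha) (pow_mem (h1 n') k))
      (pow_mem (h2 d' hd') k))
  have hle2 : μ + k * β ≤ k * α := by
    apply pk1_pow V p (h1 P) h3
    have e : p ^ (k * α) / p ^ (μ + k * β) =
        (algebraMap R L (P ^ α * n') / algebraMap R L (P ^ β * d')) ^ k / algebraMap R L (P ^ μ * a)
          * ((algebraMap R L a) * ((algebraMap R L n')⁻¹) ^ k * ((algebraMap R L d')) ^ k) := by
      simp only [map_mul, map_pow, ← hp]
      exact pk1_id2 _ _ _ _ hp0 ha0 hn0' hd0' μ k α β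
    rw [e]
    exact V.mul_mem _ _ hB (V.mul_mem _ _ (V.mul_mem _ _ (h1 a) (pow_mem (h2 n' hn') k))
      (pow_mem (h1 d') k))
  have heq : μ + k * β = k * α := le_antisymm hle2 hle1
  have h5 : k ∣ μ + k * β := heq ▸ dvd_mul_right k α
  exact (Nat.dvd_add_left (dvd_mul_right k β)).1 h5

/-- The homomorphism from the rational function field given by algebraically independent
elements. -/
theorem pk1_map {n : ℕ} {M : Type} [Field M] [Algebra ℂ M] (t : Fin n → M)
    (ht : AlgebraicIndependent ℂ t) :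
    ∃ ι : FractionRing (MvPolynomial (Fin n) ℂ) →ₐ[ℂ] M,
      ∀ r, ι (algebraMap (MvPolynomial (Fin n) ℂ) _ r) = aeval t r := by
  have hinj : Function.Injective (aeval t : MvPolynomial (Fin n) ℂ →ₐ[ℂ] M) := ht
  refine ⟨IsFractionRing.liftAlgHom (g := aeval t) hinj, fun r => ?_⟩
  exact IsFractionRing.lift_algebraMap (g := (aeval t : MvPolynomial (Fin n) ℂ →ₐ[ℂ] M).toRingHom)
    hinj r

theorem p_PK1 (hUFK : Stmt_UFK) (hHOMR : Pool.ThmM0.Stmt_HOMR) : Stmt_PK1 := by
  intro b k hb hk y hy G hG i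
  obtain ⟨b', rfl⟩ : ∃ b', b = b' + 1 := ⟨b - 1, by omega⟩
  have hyi : y i ≠ 0 := by
    have h := hy 1 (X i) (X_ne_zero _) (isHomogeneous_X _ _)
    rwa [aeval_X] at h
  -- algebraic independence
  let σ : Fin (b' + 2) → Fin (b' + 1 + 1) := Fin.cons (α := fun _ => Fin (b' + 1 + 1)) i i.succAbove
  have hσ : Function.Injective σ := by
    rw [Fin.cons_injective_iff]
    refine ⟨?_, Fin.succAbove_right_injective⟩
    rintro ⟨j, hj⟩
    exact Fin.succAbove_ne i j hj
  have hind : AlgebraicIndependent ℂ (fun j : Fin (b' + 1) => y (i.succAbove j) / y i) := by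
    have h := hHOMR b' (y ∘ σ) (by simpa [σ] using hyi) (by
      intro e P hP he
      have h1 := hy e (rename σ P) (by
        intro h0
        apply hP
        exact rename_injective σ hσ (by rw [h0, map_zero])) he.rename_isHomogeneous
      rwa [aeval_rename] at h1)
    simpa [σ] using h
  by_cases h0 : dehom i G = 0
  · exact ⟨0, by rw [h0, zero_pow (by omega)]⟩
  apply hUFK (b' + 1) k hk _ h0
  intro P hP hPG
  have hPr : Prime P := hP.prime
  obtain ⟨a, ha, ha'⟩ := (FiniteMultiplicity.of_prime_left hPr h0).exists_eq_pow_mul_and_not_dvd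
  set μ := multiplicity P (dehom i G) with hμ
  -- the map
  let L := FractionRing (MvPolynomial (Fin (b' + 1)) ℂ)
  obtain ⟨ι, hι⟩ := pk1_map _ hind
  obtain ⟨V, hV1, hV2, hV3⟩ := pk1_val L P hPr
  have hcon : ∀ z : ℂ, algebraMap ℂ L z ∈ V := by
    intro z
    rw [IsScalarTower.algebraMap_apply ℂ (MvPolynomial (Fin (b' + 1)) ℂ) L]
    exact hV1 _
  let η : Fin (b' + 1 + 1) → L := i.insertNth (α := fun _ => L) 1
    (fun j => algebraMap (MvPolynomial (Fin (b' + 1)) ℂ) L (X j))
  have hη : aeval η G = algebraMap (MvPolynomial (Fin (b' + 1)) ℂ) L (dehom i G) := by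
    have h1 : (IsScalarTower.toAlgHom ℂ (MvPolynomial (Fin (b' + 1)) ℂ) L).comp (dehom i) =
        aeval η := by
      apply MvPolynomial.algHom_ext
      intro c
      rw [AlgHom.comp_apply, dehom, aeval_X, aeval_X]
      rcases Fin.eq_self_or_eq_succAbove i c with rfl | ⟨j, rfl⟩
      · simp [η]
      · simp [η]
    rw [← h1]
    rfl
  have hdiv := hG L ι V hcon i η hyi (by
      intro c
      rcases Fin.eq_self_or_eq_succAbove i c with rfl | ⟨j, rfl⟩
      · simp [η]
      · simpa [η] using hV1 (X j)) (by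
      intro c
      rcases Fin.eq_self_or_eq_succAbove i c with rfl | ⟨j, rfl⟩
      · simp only [η, Fin.insertNth_apply_same, map_one]
        rw [div_self hyi]
      · simp only [η, Fin.insertNth_apply_succAbove]
        rw [hι, aeval_X]) (by
      rw [hη, Ne, IsFractionRing.to_map_eq_zero_iff]
      exact h0)
  rw [hη, ha] at hdiv
  obtain ⟨q, hq⟩ := pk1_dvd L P hPr V hV1 hV2 hV3 μ k a ha' hdiv
  exact ⟨q, a, by rw [← hq]; exact ha, ha'⟩

end Pool.ThmP
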