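import Pool.Agent.Work.MP_f82ddf_P.Interface5

set_option autoImplicit false

/-! # Block TRS: rescaling -/

namespace Pool.ThmP

open MvPolynomial Finset Pool.Agent.Work.MP_f82ddf_nt Pool.Agent.Work.MP_f82ddf_nt.DQ Pool.ThmM
  Pool.ThmM0

private theorem TRS_scale {σ A : Type} [Fintype σ] [Field A] [Algebra ℂ A] {d : ℕ}
    (f : MvPolynomial σ ℂ) (hf : f.IsHomogeneous d) (a : A) (y : σ → A) :
    aeval (fun i => a * y i) f = a ^ d * aeval y f := by
  rw [aeval_def, aeval_def, eval₂_eq', eval₂_eq', Finset.mul_sum]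
  refine Finset.sum_congr rfl fun t ht => ?_
  have h1 : ∑ i, t i = d := by
    by_contra hne
    refine (mem_support_iff.1 ht) (hf.coeff_eq_zero ?_)
    rwa [Finsupp.degree_eq_sum]
  rw [← h1, ← Finset.prod_pow_eq_pow_sum]
  simp only [mul_pow, Finset.prod_mul_distrib]
  ring

theorem p_TRS (hEXI : Stmt_EXI) (hTRX : Stmt_TRX) : Stmt_TRS := by
  intro n y hy
  have hy0 : y 0 ≠ 0 := by
    have h := hy 1 (X 0) (X_ne_zero _) (isHomogeneous_X _ _)
    rwa [aeval_X] at h
  obtain ⟨r, hr⟩ : ∃ r : Fin (n + 1) → Mer, ∀ c, r c = y c / y 0 := ⟨_, fun _ => rfl⟩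
  obtain ⟨A, hA⟩ : ∃ A : Set Mer, A = Set.range r := ⟨_, rfl⟩
  obtain ⟨w, hw⟩ : ∃ w : Mer, ¬ IsAlgebraic (Algebra.adjoin ℂ A) w := by
    by_contra hcon
    push Not at hcon
    obtain ⟨p, hp⟩ := hEXI (n + 2)
    have h3 : ∀ a ∈ A, IsAlgebraic (Algebra.adjoin ℂ A) a := by
      intro a ha
      exact isAlgebraic_algebraMap (⟨a, Algebra.subset_adjoin ha⟩ : Algebra.adjoin ℂ A)
    obtain ⟨t, ht1, ht2⟩ := hTRX (n + 2) p A A hp (fun j => hcon (p j)) h3
    have hγ : ∀ j, ∃ c, r c = t j := fun j => by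
      have h4 := ht1 j
      rw [hA] at h4
      exact h4
    choose γ hγ using hγ
    have hγi : Function.Injective γ := by
      intro i j hij
      apply ht2.injective
      rw [← hγ i, ← hγ j, hij]
    have h4 := Fintype.card_le_of_injective γ hγi
    simp only [Fintype.card_fin] at h4
    omega
  refine ⟨w / y 0, ?_⟩
  have hθ : (fun c => w / y 0 * y c) = fun c => w * r c := by
    funext c
    rw [hr, div_mul_eq_mul_div, mul_div_assoc]
  rw [hθ, algebraicIndependent_iff]
  intro p hp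
  have hmem : ∀ q : MvPolynomial (Fin (n + 1)) ℂ, aeval r q ∈ Algebra.adjoin ℂ A := by
    intro q
    rw [hA, Algebra.adjoin_range_eq_range_aeval]
    exact ⟨q, rfl⟩
  obtain ⟨Q, hQ⟩ : ∃ Q : Polynomial (Algebra.adjoin ℂ A),
      Q = ∑ d ∈ range (p.totalDegree + 1), Polynomial.monomial d
        (⟨aeval r (homogeneousComponent d p), hmem _⟩ : Algebra.adjoin ℂ A) := ⟨_, rfl⟩
  have hQw : Polynomial.aeval w Q = 0 := by
    rw [hQ, map_sum, ← hp]
    conv_rhs => rw [← sum_homogeneousComponent p]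
    rw [map_sum]
    refine sum_congr rfl fun d _ => ?_
    rw [TRS_scale _ (homogeneousComponent_isHomogeneous d p), Polynomial.aeval_monomial, mul_comm]
    rfl
  have hQ0 : Q = 0 := by
    by_contra hne
    exact hw ⟨Q, hne, hQw⟩
  have hcomp : ∀ d ∈ range (p.totalDegree + 1), homogeneousComponent d p = 0 := by
    intro d hd
    by_contra hne
    apply hy d _ hne (homogeneousComponent_isHomogeneous d p)
    have h5 : y = fun c => y 0 * r c := by
      funext c
      rw [hr, mul_div_cancel₀ _ hy0]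
    have h6 : Q.coeff d = 0 := by rw [hQ0, Polynomial.coeff_zero]
    rw [hQ, Polynomial.finsetSum_coeff, Finset.sum_eq_single_of_mem d hd] at h6
    · rw [Polynomial.coeff_monomial, if_pos rfl] at h6
      have h7 : aeval r (homogeneousComponent d p) = 0 := congrArg Subtype.val h6
      rw [h5, TRS_scale _ (homogeneousComponent_isHomogeneous d p), h7, mul_zero]
    · intro b _ hb
      rw [Polynomial.coeff_monomial, if_neg hb]
  rw [← sum_homogeneousComponent p]
  exact sum_eq_zero hcomp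

end Pool.ThmP
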