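import Pool.Agent.Work.MP_f82ddf_P.All2
import Pool.Agent.Work.MP_f82ddf_P.B_EXI
import Pool.Agent.Work.MP_f82ddf_P.B_TRS
import Pool.Agent.Work.MP_f82ddf_P.B_CDC
import Pool.Agent.Work.MP_f82ddf_P.B_GGM
import Pool.Agent.Work.MP_f82ddf_P.B_GMX
import Pool.Agent.Work.MP_f82ddf_P.B_CU2
import Pool.Agent.Work.MP_f82ddf_P.B_DM3

/-!
# THEOREM G for hypersurfaces in arbitrary position: assembly
-/

set_option autoImplicit false

namespace Pool.ThmP

theorem all_EXI : Stmt_EXI := p_EXI Pool.Agent.Work.MP_f82ddf_M5.stmt_WGT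
theorem all_TRS : Stmt_TRS := p_TRS all_EXI p_TRX
theorem all_CDC : Stmt_CDC := p_CDC p_EXT
theorem all_GGM : Stmt_GGM := p_GGM p_VER p_REP all_KTH all_CDG p_UFK all_KPD all_TRS all_CDC
  Pool.ThmM0.stmt_EXPO
theorem all_GMX : Stmt_GMX := p_GMX all_GGM p_PIG
/-- Entire curves, hypersurfaces in arbitrary position. -/
theorem all_CU2 : Stmt_CU2 := p_CU2 all_GMX all_MPT Pool.ThmM0.stmt_MREL
/-- Finite morphisms, hypersurfaces in arbitrary position. -/
theorem all_DM3 : Stmt_DM3 := p_DM3 all_GMX all_MPT all_NHR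

end Pool.ThmP
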