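import Pool.Agent.Work.MP_f82ddf_P.Interface6
import Pool.Agent.Work.MP_f82ddf_P.VGF

set_option autoImplicit false

/-! # Block CVG: entire curves in projective space and generic hypersurfaces -/

namespace Pool.ThmP

open MvPolynomial Finset Pool.Agent.Work.MP_f82ddf_nt Pool.Agent.Work.MP_f82ddf_nt.DQ Pool.ThmM
  Pool.ThmM0
open Pool.MPV (Ful)
open Pool.MPH (FuF Tng)

/-- the identity of projective space -/
def CVG_id (n : ℕ) : Mor ℂ ℂ n n (∅ : Set (MvPolynomial (Fin (n + 1)) ℂ)) where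
  tuples := {fun c => X c}
  homogeneous := by
    rintro s rfl
    exact ⟨1, fun c => isHomogeneous_X _ _⟩
  compatible := by
    rintro s rfl t rfl v - c d
    simp only [eval_X]
    ring
  defined := by
    intro v hv _
    refine ⟨_, rfl, ?_⟩
    by_contra hno
    push Not at hno
    apply hv
    funext c
    have h := hno c
    rw [eval_X] at h
    exact h

theorem p_CVG (hVER : Stmt_VER) (hGOC : Stmt_GOC) (hOTN : Pool.MPH.Stmt_OTN)
    (_hMREL : Pool.ThmM0.Stmt_MREL) : Stmt_CVG := by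
  intro n e he
  obtain ⟨D, hD⟩ := hGOC n e he
  refine ⟨D, fun N F hF hno f hf htng z₁ z₂ => ?_⟩
  obtain ⟨ε, g', hε, hεs, -, -, -⟩ := hVER ℂ ℂ n n e ∅ (CVG_id n) he
  obtain ⟨φ, hφ, i₀, hi₀, -, hrep, hcon⟩ := exists_mer_of_curve (K := ℂ) (n := n) (S := ∅)
    (fun F hF => absurd hF (Set.notMem_empty _)) (RingHom.id ℂ) f hf
    (fun z F hF => absurd hF (Set.notMem_empty _))
  by_contra hne
  obtain ⟨j, hj⟩ := hcon ⟨z₁, z₂, hne⟩
  obtain ⟨a, ha⟩ := hD N ε hε hεs F hF (noHyp_ver ε hε hεs F hno)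
    (fun l => Mer.mk (φ l) (hφ l))
    (fun j => hOTN n e (F j) f hf (hF j) (htng j) φ hφ i₀ hi₀ hrep) i₀ j
    (by rw [hi₀]; exact one_ne_zero)
  rw [hi₀, mul_one] at ha
  exact hj a ha

end Pool.ThmP
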