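import Pool.Agent.Work.MP_f82ddf_P.Interface6

set_option autoImplicit false

/-! # Block CVP: entire curves in projective space, multiplicities divisible by `k` -/

namespace Pool.ThmP

open MvPolynomial Finset Pool.Agent.Work.MP_f82ddf_nt Pool.Agent.Work.MP_f82ddf_nt.DQ Pool.ThmM
  Pool.ThmM0
open Pool.MPV (Ful)
open Pool.MPH (FuF Tng)

theorem p_CVP (hGC2 : Stmt_GC2) (hOTK : Stmt_OTK) (hROO : Stmt_ROO)
    (hMREL : Pool.ThmM0.Stmt_MREL) (hVAL : Pool.ThmM.Stmt_VAL) : Stmt_CVP := by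
  intro n e c
  obtain ⟨N₀, hN⟩ := hGC2 n e c
  refine ⟨N₀, fun k N hk F hFd hFc hFN f hf hdiv => ?_⟩
  obtain ⟨φ, hφ, i₀, hi₀, -, hrep, -⟩ := exists_mer_of_curve (K := ℂ) (n := n) (S := ∅)
    (fun F hF => absurd hF (Set.notMem_empty _)) (RingHom.id ℂ) f hf
    (fun z F hF => absurd hF (Set.notMem_empty _))
  have hrel := hN k N hk F hFd hFc hFN (fun l => Mer.mk (φ l) (hφ l)) ?_
  · have hrel' : ∃ (t : ℕ) (P : MvPolynomial (Fin (n + 1)) ℂ), P.IsHomogeneous t ∧ P ≠ 0 ∧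
        aeval (fun l => Mer.mk (φ l) (hφ l)) P = 0 := by
      by_contra hno
      apply hrel
      push Not at hno
      intro t P hPt hP0
      exact hno t P hP0 hPt
    obtain ⟨t, P, hPt, hP0, hP⟩ := hrel'
    exact ⟨t, P, hP0, hPt, fun z => hMREL n f φ hφ hf hrep (n + 1) t id P hPt hP z⟩
  · intro d j j' hj hj' hz'
    by_cases hz : aeval (fun l => Mer.mk (φ l) (hφ l)) (F j) = 0
    · exact ⟨0, by rw [hz, zero_div, zero_pow (by omega)]⟩
    refine hROO k _ (by omega) (div_ne_zero hz hz') fun z₀ => ?_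
    obtain ⟨q, hq⟩ := hOTK n d k (F j) f hf (by omega) hj (hdiv j) φ hφ i₀ hi₀ hrep hz z₀
    obtain ⟨q', hq'⟩ := hOTK n d k (F j') f hf (by omega) hj' (hdiv j') φ hφ i₀ hi₀ hrep hz' z₀
    have h1 := (hVAL z₀).1 (aeval (fun l => Mer.mk (φ l) (hφ l)) (F j) /
      aeval (fun l => Mer.mk (φ l) (hφ l)) (F j')) (aeval (fun l => Mer.mk (φ l) (hφ l)) (F j'))
    rw [div_mul_cancel₀ _ hz', hq, hq'] at h1
    have h2 := (hVAL z₀).2.2.2.2.1 _ (div_ne_zero hz hz')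
    rw [h2] at h1 ⊢
    refine ⟨q - q', ?_⟩
    norm_cast at h1 ⊢
    linarith

end Pool.ThmP
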