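import Pool.Agent.Work.MP_f82ddf_P.Interface6

/-! # THEOREM G, block EXB (helper90): exchange of transcendence bases -/

set_option autoImplicit false

namespace Pool.ThmP

open MvPolynomial Finset Pool.Agent.Work.MP_f82ddf_nt Pool.Agent.Work.MP_f82ddf_nt.DQ Pool.ThmM
  Pool.ThmM0

private lemma EXB_mono {F E L : Type} [Field F] [Field E] [Field L] [Algebra F E] [Algebra E L]
    [Algebra F L] [IsScalarTower F E L] {X : Set L} {a : L}
    (h : IsAlgebraic (Algebra.adjoin F X) a) : IsAlgebraic (Algebra.adjoin E X) a := by
  have hle : Algebra.adjoin F X ≤ (Algebra.adjoin E X).restrictScalars F :=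
    Algebra.adjoin_le (fun x hx => Algebra.subset_adjoin (R := E) hx)
  let i : Algebra.adjoin F X →ₐ[F] (Algebra.adjoin E X).restrictScalars F :=
    Subalgebra.inclusion hle
  have hi : Function.Injective i := Subalgebra.inclusion_injective hle
  obtain ⟨p, hp0, hp⟩ := h
  have h2 : IsAlgebraic ((Algebra.adjoin E X).restrictScalars F) a := by
    refine ⟨p.map i.toRingHom, (Polynomial.map_ne_zero_iff hi).2 hp0, ?_⟩
    rw [Polynomial.aeval_def, Polynomial.eval₂_map]
    rw [Polynomial.aeval_def] at hp
    have e : (algebraMap ((Algebra.adjoin E X).restrictScalars F) L).comp i.toRingHom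
        = algebraMap (Algebra.adjoin F X) L := RingHom.ext fun _ => rfl
    rw [e]
    exact hp
  exact h2

private theorem EXB_main (F E L : Type) [Field F] [Field E] [Field L] [Algebra F E] [Algebra E L]
    [Algebra F L] [IsScalarTower F E L] (q n : ℕ) (p : Fin q → L) (t : Fin n → L)
    (hp : AlgebraicIndependent E p) (ht : AlgebraicIndependent F t)
    (h : ∀ i, IsAlgebraic (Algebra.adjoin F (Set.range p)) (t i)) : AlgebraicIndependent E t := by
  classical
  have hFE : FaithfulSMul F E := inferInstance
  let M := AlgebraicIndependent.matroid F L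
  let M' := AlgebraicIndependent.matroid E L
  have hti : M.Indep (Set.range t) := by
    rw [AlgebraicIndependent.matroid_indep_iff]
    exact ht.to_subtype_range
  have hpi : M'.Indep (Set.range p) := by
    rw [AlgebraicIndependent.matroid_indep_iff]
    exact hp.to_subtype_range
  obtain ⟨B, hB, htB⟩ := hti.subset_isBasis_of_subset
    (show Set.range t ⊆ Set.range t ∪ Set.range p from Set.subset_union_left)
    (Set.subset_univ _)
  have htp : Set.range t ⊆ M.closure (Set.range p) := by
    rintro _ ⟨i, rfl⟩
    rw [AlgebraicIndependent.matroid_closure_eq]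
    exact h i
  have hpB : Set.range p ⊆ M.closure B := by
    rw [hB.closure_eq_closure]
    exact Set.subset_union_right.trans (M.subset_closure _ (Set.subset_univ _))
  have hcl : ∀ X : Set L, M.closure X ⊆ M'.closure X := by
    intro X a ha
    rw [AlgebraicIndependent.matroid_closure_eq] at ha ⊢
    exact EXB_mono ha
  have hcard : (Set.range p).encard = q := by
    have hinj : Function.Injective p := hp.injective
    rw [← Set.image_univ, hinj.encard_image]
    simp
  have hBq : B.encard ≤ q := by
    rw [hB.encard_eq_eRk]
    calc M.eRk (Set.range t ∪ Set.range p) ≤ M.eRk (M.closure (Set.range p)) :=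
          M.eRk_mono (Set.union_subset htp (M.subset_closure _ (Set.subset_univ _)))
      _ = M.eRk (Set.range p) := M.eRk_closure_eq _
      _ ≤ (Set.range p).encard := M.eRk_le_encard _
      _ = q := hcard
  have hqB : (q : ℕ∞) ≤ M'.eRk B := by
    rw [← hcard, ← M'.eRk_closure_eq B]
    exact hpi.encard_le_eRk_of_subset (hpB.trans (hcl B))
  have hBfin : B.Finite := Set.finite_of_encard_le_coe hBq
  have hBi : M'.Indep B := by
    rw [Matroid.indep_iff_eRk_eq_encard_of_finite hBfin]
    exact le_antisymm (M'.eRk_le_encard _) (hBq.trans hqB)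
  have hi : AlgebraicIndependent E (fun b : B => (b : L)) := hBi
  have htinj : Function.Injective t := ht.injective
  have := hi.comp (fun i => (⟨t i, htB ⟨i, rfl⟩⟩ : B)) (by
    intro i j hij
    exact htinj (congrArg Subtype.val hij))
  exact this

theorem p_EXB : Stmt_EXB := by
  intro F E L _ _ _ _ _ _ _ q n p t hp ht h
  exact EXB_main F E L q n p t hp ht h

end Pool.ThmP
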