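import Pool.Agent.Work.MP_f82ddf_P.Interface6
import Pool.Agent.Work.MP_f82ddf_P.B_GGM

set_option autoImplicit false

/-! # Block GGC (MP_f82ddf_nt): THEOREM G for entire curves with multiplicities divisible by `k` -/

namespace Pool.ThmP

open MvPolynomial Finset Pool.Agent.Work.MP_f82ddf_nt Pool.Agent.Work.MP_f82ddf_nt.DQ Pool.ThmM
  Pool.ThmM0

/-- the identity morphism of the projective space -/
noncomputable def GGC_id (n : ℕ) : Mor ℂ ℂ n n (∅ : Set (MvPolynomial (Fin (n + 1)) ℂ)) where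
  tuples := {X}
  homogeneous := by
    intro s hs
    rw [Set.mem_singleton_iff] at hs
    subst hs
    exact ⟨1, fun c => isHomogeneous_X _ _⟩
  compatible := by
    intro s hs t ht v _ c d
    rw [Set.mem_singleton_iff] at hs ht
    subst hs
    subst ht
    rw [eval_X, eval_X, mul_comm]
  defined := by
    intro v hv _
    refine ⟨X, Set.mem_singleton _, ?_⟩
    obtain ⟨c, hc⟩ := Function.ne_iff.1 hv
    exact ⟨c, by rw [eval_X]; exact hc⟩

theorem p_GGC (hVER : Stmt_VER) (hREP : Stmt_REP) (hCDG : Stmt_CDG) (hUFK : Stmt_UFK)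
    (hTRS : Stmt_TRS) (hEXPO : Pool.ThmM0.Stmt_EXPO) : Stmt_GGC := by
  classical
  intro n e c he
  choose N₁ hN₁ using hCDG
  refine ⟨c + c * (N₁ ((n + e).choose e - 1) (c + 1) + 1), ?_⟩
  intro k N hk F hF hP hcard y hquot hNR
  obtain ⟨ε, -, hε, hεs, -, -, -⟩ := hVER ℂ ℂ n n e ∅ (GGC_id n) he
  have hlin : LinearIndependent ℂ (fun c => ∏ i, y i ^ ε c i) := GGM_lin ε hε hεs y hNR
  have hlin' := Fintype.linearIndependent_iff.1 hlin
  have hval : ∀ (η : Fin (n + 1) → Mer) (j : Fin (N + 1)), aeval η (F j) =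
      ∑ c, algebraMap ℂ Mer (coeff (ε c) (F j)) * ∏ i, η i ^ ε c i := by
    intro η j
    have h1 := GGL_val (RingHom.id ℂ) ε hε hεs (F j) (hF j) η
    rw [map_id] at h1
    exact h1
  obtain ⟨u, hu⟩ : ∃ u : Fin (N + 1) → Fin ((n + e).choose e - 1 + 1) → ℂ,
      ∀ j c, u j c = coeff (ε c) (F j) := ⟨_, fun _ _ => rfl⟩
  obtain ⟨z, hz⟩ : ∃ z : Fin (N + 1) → Mer, ∀ j, z j = aeval y (F j) := ⟨_, fun _ => rfl⟩
  have hzu : ∀ j, z j = ∑ c, algebraMap ℂ Mer (u j c) * ∏ i, y i ^ ε c i := by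
    intro j
    rw [hz, hval]
    refine sum_congr rfl fun c _ => ?_
    rw [hu]
  obtain ⟨Bad, hBad⟩ : ∃ Bad : Finset (Fin (N + 1)),
      ∀ j, j ∈ Bad ↔ ¬ ∃ G, F j = G ^ k := ⟨univ.filter fun j => ¬ ∃ G, F j = G ^ k, fun j => by simp⟩
  have hBcard : {j | ¬ ∃ G, F j = G ^ k}.ncard = Bad.card := by
    rw [← Set.ncard_coe_finset]
    congr 1
    ext j
    simp [hBad]
  rw [hBcard] at hcard
  have hG0 : ∀ j ∈ Bad, F j ≠ 0 := by
    intro j hj h1
    exact (hBad j).1 hj ⟨0, by rw [h1, zero_pow (by omega)]⟩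
  have hu0 : ∀ j ∈ Bad, u j ≠ 0 := by
    intro j hj h0
    apply hG0 j hj
    have h1 := GGM_prop ε hεs (F j) (F j) (hF j) (hF j) 0 (fun c => by
      rw [← hu, h0]; simp)
    rw [h1]; simp
  have hz0 : ∀ j ∈ Bad, z j ≠ 0 := by
    intro j hj
    rw [hz]
    exact hNR e (F j) (hG0 j hj) (hF j)
  -- enumeration of `Bad`
  obtain ⟨β, hβ, hβB⟩ : ∃ β : Fin Bad.card → Fin (N + 1), Function.Injective β ∧ ∀ i, β i ∈ Bad :=
    ⟨Bad.orderEmbOfFin rfl, (Bad.orderEmbOfFin rfl).injective, Bad.orderEmbOfFin_mem rfl⟩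
  obtain ⟨S₁, hS1, hS2, hS3⟩ := hREP ((n + e).choose e - 1) c Bad.card
    (N₁ ((n + e).choose e - 1) (c + 1) + 1) (fun i => u (β i))
    (by
      have h1 : (univ.filter fun j => u (β j) = 0) = ∅ := by
        apply filter_eq_empty_iff.2
        intro j _
        exact hu0 _ (hβB j)
      rw [h1]
      simp)
    (by
      intro j _
      obtain ⟨P, hPi, hPd⟩ := WfDvdMonoid.exists_irreducible_factor
        (GGM_unit he (F (β j)) (hF _) (hG0 _ (hβB j))) (hG0 _ (hβB j))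
      refine le_trans ?_ (hP P hPi)
      refine Set.ncard_le_ncard_of_injOn β ?_ (fun a _ b _ h => hβ h) (Set.toFinite _)
      rintro l ⟨a, ha⟩
      have h1 := GGM_prop ε hεs (F (β j)) (F (β l)) (hF _) (hF _) a (fun c => by
        rw [← hu, ← hu]
        have h2 := congrFun ha c
        simpa using h2)
      show P ∣ F (β l)
      rw [h1]
      exact hPd.mul_left _)
    hcard
  obtain ⟨v₀, hv₀⟩ : S₁.Nonempty := Finset.card_pos.1 (by omega)
  have hjj : ∃ jj : (Fin ((n + e).choose e - 1 + 1) → ℂ) → Fin (N + 1),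
      ∀ v ∈ S₁, jj v ∈ Bad ∧ u (jj v) = v := by
    refine ⟨fun v => if h : ∃ j, u (β j) = v then β h.choose else 0, fun v hv => ?_⟩
    have h := (hS3 v hv).2
    simp only [h, dif_pos]
    exact ⟨hβB _, h.choose_spec⟩
  obtain ⟨jj, hjj⟩ := hjj
  set j₀ := jj v₀ with hj₀
  have hzj₀ : z j₀ ≠ 0 := hz0 _ (hjj v₀ hv₀).1
  have hkth : ∀ j, ∃ w : Mer, z j / z j₀ = w ^ k := by
    intro j
    rw [hz, hz]
    refine hquot j j₀ ?_
    rw [← hz]
    exact hzj₀
  obtain ⟨φ, hφ⟩ := hEXPO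
  have hinj : Function.Injective φ := φ.toRingHom.injective
  obtain ⟨x'', hx''⟩ : ∃ x'' : Fin ((n + e).choose e - 1 + 1) → Mer,
      ∀ i, x'' i = φ ((∏ t, y t ^ ε i t) / z j₀) := ⟨_, fun _ => rfl⟩
  have hsum : ∀ v : Fin ((n + e).choose e - 1 + 1) → ℂ, ∑ i, algebraMap ℂ Mer (v i) * x'' i =
      φ ((∑ i, algebraMap ℂ Mer (v i) * ∏ t, y t ^ ε i t) / z j₀) := by
    intro v
    rw [Finset.sum_div, map_sum]
    refine Finset.sum_congr rfl fun i _ => ?_
    rw [mul_div_assoc, map_mul, AlgHom.commutes, hx'']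
  have hsumu : ∀ j, ∑ i, algebraMap ℂ Mer (u j i) * x'' i = φ (z j / z j₀) := by
    intro j
    rw [hsum, ← hzu]
  have hlin'' : LinearIndependent ℂ x'' := by
    rw [Fintype.linearIndependent_iff]
    intro v hv
    simp only [Algebra.smul_def] at hv
    rw [hsum, map_eq_zero_iff φ hinj, div_eq_zero_iff] at hv
    rcases hv with hv | hv
    · exact hlin' v (by simpa only [Algebra.smul_def] using hv)
    · exact absurd hv hzj₀
  obtain ⟨T, hTS, hTc, hT⟩ := hN₁ ((n + e).choose e - 1) (c + 1) S₁ hS1 (by omega) k x'' hk hlin''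
    (fun i => by rw [hx'']; exact hφ _) (by
      intro v hv
      obtain ⟨w, hw⟩ := hkth (jj v)
      refine ⟨φ w, ?_⟩
      have h1 := hsumu (jj v)
      rw [(hjj v hv).2] at h1
      rw [h1, hw, map_pow])
  have hjinj : Set.InjOn jj (T : Set (Fin ((n + e).choose e - 1 + 1) → ℂ)) := by
    intro v hv v' hv' h
    rw [← (hjj v (hTS hv)).2, ← (hjj v' (hTS hv')).2, h]
  obtain ⟨u₁, hu₁⟩ : T.Nonempty := Finset.card_pos.1 (by omega)
  obtain ⟨θ, hθ⟩ := hTRS n y hNR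
  have hθ0 : θ ≠ 0 := by
    intro h0
    have h1 := hθ.transcendental 0
    apply h1
    simp only [h0, zero_mul]
    exact isAlgebraic_zero
  obtain ⟨ι, hι⟩ := pk1_map _ hθ
  have hιG : ∀ j, ι (algebraMap (MvPolynomial (Fin (n + 1)) ℂ) _ (F j)) = θ ^ e * z j := by
    intro j
    rw [hι, hval (fun c => θ * y c), hzu, mul_sum]
    refine sum_congr rfl fun c _ => ?_
    have h2 : ∑ i, ε c i = e := (hεs (ε c)).2 ⟨c, rfl⟩
    have h3 : ∏ i, (θ * y i) ^ ε c i = θ ^ e * ∏ i, y i ^ ε c i := by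
      rw [← h2, ← prod_pow_eq_pow_sum, ← prod_mul_distrib]
      exact prod_congr rfl fun i _ => mul_pow _ _ _
    rw [h3, hu]
    ring
  -- the claim
  have hclaim : ∃ G₁, F (jj u₁) = G₁ ^ k := by
    have hj₁B := (hjj u₁ (hTS hu₁)).1
    apply hUFK (n + 1) k (by omega) _ (hG0 _ hj₁B)
    intro P hPi hPG
    have hPr : Prime P := hPi.prime
    obtain ⟨a, ha, ha'⟩ :=
      (FiniteMultiplicity.of_prime_left hPr (hG0 _ hj₁B)).exists_eq_pow_mul_and_not_dvd
    obtain ⟨V, hV1, hV2, hV3⟩ := pk1_val (FractionRing (MvPolynomial (Fin (n + 1)) ℂ)) P hPr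
    have hcon : ∀ w : ℂ, algebraMap ℂ (FractionRing (MvPolynomial (Fin (n + 1)) ℂ)) w ∈ V := by
      intro w
      rw [IsScalarTower.algebraMap_apply ℂ (MvPolynomial (Fin (n + 1)) ℂ)
        (FractionRing (MvPolynomial (Fin (n + 1)) ℂ))]
      exact hV1 _
    obtain ⟨u₀, hu₀, hPu₀⟩ : ∃ u₀ ∈ T, ¬ P ∣ F (jj u₀) := by
      by_contra hno
      push Not at hno
      have h1 : (T.image jj).card = T.card := Finset.card_image_of_injOn hjinj
      have h2 : ((T.image jj : Finset (Fin (N + 1))) : Set (Fin (N + 1))) ⊆ {j | P ∣ F j} := by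
        intro j hj
        obtain ⟨v, hv, rfl⟩ := Finset.mem_image.1 (Finset.mem_coe.1 hj)
        exact hno v hv
      have h3 := Set.ncard_le_ncard h2 (Set.toFinite _)
      rw [Set.ncard_coe_finset, h1] at h3
      have h4 := hP P hPi
      omega
    have hGu₀ : algebraMap (MvPolynomial (Fin (n + 1)) ℂ)
        (FractionRing (MvPolynomial (Fin (n + 1)) ℂ)) (F (jj u₀)) ≠ 0 := by
      rw [Ne, IsFractionRing.to_map_eq_zero_iff]
      exact hG0 _ (hjj u₀ (hTS hu₀)).1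
    have hzu₀ : z (jj u₀) ≠ 0 := hz0 _ (hjj u₀ (hTS hu₀)).1
    have hU := hT (FractionRing (MvPolynomial (Fin (n + 1)) ℂ)) (φ.comp ι) V hcon u₀ hu₀
      (fun v => algebraMap (MvPolynomial (Fin (n + 1)) ℂ)
        (FractionRing (MvPolynomial (Fin (n + 1)) ℂ)) (F (jj v)) *
        (algebraMap (MvPolynomial (Fin (n + 1)) ℂ)
        (FractionRing (MvPolynomial (Fin (n + 1)) ℂ)) (F (jj u₀)))⁻¹)
      (by
        intro v hv
        refine ⟨V.mul_mem _ _ (hV1 _) (hV2 _ hPu₀), ?_⟩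
        have h1 := hsumu (jj v)
        rw [(hjj v (hTS hv)).2] at h1
        have h2 := hsumu (jj u₀)
        rw [(hjj u₀ (hTS hu₀)).2] at h2
        rw [h1, h2, AlgHom.comp_apply, map_mul, map_inv₀, hιG, hιG, ← map_div₀]
        congr 1
        field_simp)
      u₁ hu₁
    have hU2 := hU.mul _ (hV1 (F (jj u₀))) (hV2 _ hPu₀)
    rw [inv_mul_cancel_right₀ hGu₀, ha] at hU2
    obtain ⟨q, hq⟩ := pk1_dvd (FractionRing (MvPolynomial (Fin (n + 1)) ℂ)) P hPr V hV1 hV2 hV3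
      _ k a ha' hU2
    exact ⟨q, a, by rw [← hq]; exact ha, ha'⟩
  exact (hBad _).1 (hjj u₁ (hTS hu₁)).1 hclaim

end Pool.ThmP
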