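import Pool.Agent.Work.MP_f82ddf_P.Interface6
import Pool.Agent.Work.MP_f82ddf_P.B_GGL

set_option autoImplicit false

/-! # THEOREM V for generic hypersurfaces, block GOC -/

namespace Pool.ThmP

open MvPolynomial Finset Pool.Agent.Work.MP_f82ddf_nt Pool.Agent.Work.MP_f82ddf_nt.DQ Pool.ThmM
  Pool.ThmM0
open Pool.MPV (Ful)
open Pool.MPH (FuF Tng)

theorem p_GOC (hGNO : Stmt_GNO) (hBPF : Pool.MPH.Stmt_BPF) : Stmt_GOC := by
  classical
  intro n e he
  obtain ⟨D, hD⟩ := hGNO ((n + e).choose e - 1)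
  refine ⟨D, ?_⟩
  intro N ε hε hεs F hF hNH y hy i j hyi
  have hdeg : ∀ c, ∑ i, ε c i = e := fun c => (hεs (ε c)).2 ⟨c, rfl⟩
  have hy0 : y ≠ 0 := fun h => hyi (by rw [h]; rfl)
  have hvh : ∀ c, (monomial (ε c) (1 : ℂ)).IsHomogeneous e := by
    intro c
    apply isHomogeneous_monomial
    rw [Finsupp.degree_eq_sum]
    exact hdeg c
  have hvn : ∀ w : Fin (n + 1) → ℂ, w ≠ 0 → ∃ c, eval w (monomial (ε c) (1 : ℂ)) ≠ 0 := by
    intro w hw
    obtain ⟨i₀, hi₀⟩ := Function.ne_iff.1 hw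
    obtain ⟨c, hc⟩ := (hεs (Finsupp.single i₀ e)).1 (by simp [Finsupp.single_apply])
    refine ⟨c, ?_⟩
    rw [hc, eval_monomial, one_mul, Finsupp.prod_single_index (by simp)]
    exact pow_ne_zero _ hi₀
  obtain ⟨-, hdv⟩ := hBPF ℂ n ((n + e).choose e - 1) e (fun c => monomial (ε c) (1 : ℂ)) hvh hvn
    (RingHom.id ℂ) y hy0
  have hw : ∀ c, eval₂ (tm (RingHom.id ℂ)) y (monomial (ε c) (1 : ℂ)) = ∏ i, y i ^ ε c i := by
    intro c
    rw [eval₂_monomial, map_one, one_mul, Finsupp.prod_fintype _ _ (by simp)]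
  have hw' : (fun c => eval₂ (tm (RingHom.id ℂ)) y (monomial (ε c) (1 : ℂ))) =
      fun c => ∏ i, y i ^ ε c i := funext hw
  rw [hw'] at hdv
  have hval : ∀ j, aeval y (F j) =
      ∑ c, algebraMap ℂ Mer (coeff (ε c) (F j)) * ∏ i, y i ^ ε c i := by
    intro j
    have h := GGL_val (RingHom.id ℂ) ε hε hεs (F j) (hF j) y
    rw [map_id] at h
    exact h
  obtain ⟨c₁, hc₁⟩ := (hεs (Finsupp.single i e)).1 (by simp [Finsupp.single_apply])
  obtain ⟨c₂, hc₂⟩ := (hεs (Finsupp.single i (e - 1) + Finsupp.single j 1)).1 (by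
    simp only [Finsupp.add_apply, Finsupp.single_apply, Finset.sum_add_distrib, Finset.sum_ite_eq,
      Finset.mem_univ, if_true]
    omega)
  have hw1 : ∏ l, y l ^ ε c₁ l = y i ^ e := by
    rw [hc₁, Finset.prod_eq_single i]
    · rw [Finsupp.single_eq_same]
    · intro l _ hl
      rw [Finsupp.single_eq_of_ne hl, pow_zero]
    · intro h
      exact absurd (mem_univ _) h
  have hw2 : ∏ l, y l ^ ε c₂ l = y i ^ (e - 1) * y j := by
    rw [hc₂]
    simp only [Finsupp.add_apply, pow_add, Finset.prod_mul_distrib]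
    congr 1
    · rw [Finset.prod_eq_single i]
      · rw [Finsupp.single_eq_same]
      · intro l _ hl
        rw [Finsupp.single_eq_of_ne hl, pow_zero]
      · intro h
        exact absurd (mem_univ _) h
    · rw [Finset.prod_eq_single j]
      · rw [Finsupp.single_eq_same, pow_one]
      · intro l _ hl
        rw [Finsupp.single_eq_of_ne hl, pow_zero]
      · intro h
        exact absurd (mem_univ _) h
  obtain ⟨a, ha⟩ := hD N (fun j c => coeff (ε c) (F j)) hNH (fun c => ∏ i, y i ^ ε c i)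
    (by
      intro j z
      have h := hy j z
      rw [hval j, ← hdv z] at h
      exact h) c₁ c₂ (by
        rw [hw1]
        exact pow_ne_zero _ hyi)
  refine ⟨a, ?_⟩
  rw [hw1, hw2] at ha
  have h3 : y i ^ (e - 1) * y j = y i ^ (e - 1) * (algebraMap ℂ Mer a * y i) := by
    rw [ha]
    conv_lhs => rw [show e = e - 1 + 1 from by omega, pow_succ]
    ring
  exact mul_left_cancel₀ (pow_ne_zero _ hyi) h3

end Pool.ThmP
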