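import Pool.Agent.Work.MP_f82ddf_P.Interface6
import Pool.Agent.Work.MP_f82ddf_P.VGF

set_option autoImplicit false

/-! # Block GXC: entire curves and morphisms, generic hypersurfaces -/

namespace Pool.ThmP

open MvPolynomial Finset Pool.Agent.Work.MP_f82ddf_nt Pool.Agent.Work.MP_f82ddf_nt.DQ Pool.ThmM
  Pool.ThmM0
open Pool.MPV (Ful)
open Pool.MPH (FuF Tng)

theorem p_GXC (hVER : Stmt_VER) (hGOC : Stmt_GOC) (hOFF : Pool.MPH.Stmt_OFF) (hMPT : Stmt_MPT)
    (hNHC : Pool.ThmM0.Stmt_NHC) (hMREL : Pool.ThmM0.Stmt_MREL) : Stmt_GXC := by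
  classical
  intro n e he
  obtain ⟨D, hD⟩ := hGOC n e he
  refine ⟨D, ?_⟩
  intro N K Ω _ _ _ _ m S hS g F hF hno hfull τ f hf hfX
  obtain ⟨φ, hφ, i₀, hi₀, hFx, hrep, -⟩ :=
    exists_mer_of_curve hS (τ.comp (algebraMap K Ω)) f hf hfX
  obtain ⟨x, hxdef⟩ : ∃ x : Fin (m + 1) → Mer, x = fun j => Mer.mk (φ j) (hφ j) := ⟨_, rfl⟩
  have hx' : OnK (tm τ) S x := by
    intro F hF
    have h6 : (tm τ).comp (algebraMap K Ω) =
        (algebraMap ℂ Mer).comp (τ.comp (algebraMap K Ω)) := by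
      rw [tm, RingHom.comp_assoc]
    rw [h6, hxdef]
    exact hFx F hF
  have hx0 : x ≠ 0 := by
    intro h
    have h1 : x i₀ = 1 := by
      rw [hxdef]
      exact hi₀
    rw [h] at h1
    exact zero_ne_one h1
  have hM := hMPT K Ω Mer m n S g (tm τ) x hx'
  obtain ⟨s₀, hs₀, c₀, hc₀⟩ := hM.1 hx0
  obtain ⟨ε, g', hε, hεs, -, -, -⟩ := hVER K Ω m n e S g he
  have hnoC : NoHypersurface D (fun j c => coeff (ε c) (map τ (F j))) := by
    have h1 := hNHC Ω ℂ τ (N + 1) _ D _ (noHyp_ver ε hε hεs F hno)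
    simpa only [coeff_map] using h1
  have hconst := hD N ε hε hεs (fun j => map τ (F j)) (fun j => (hF j).map τ) hnoC
    (fun c => eval₂ (tm τ) x (s₀ c))
    (fun j => hOFF K Ω m n 2 S g hS τ x hx' s₀ hs₀ ⟨c₀, hc₀⟩ e (F j) (hF j)
      (hfull j)) c₀
  choose a ha using fun c => hconst c hc₀
  have ha0 : a c₀ ≠ 0 := by
    intro h
    apply hc₀
    rw [ha c₀, h, map_zero, zero_mul]
  refine ⟨a, fun h => ha0 (congrFun h c₀), ?_⟩
  intro z s hs c c'
  obtain ⟨es, hes⟩ := g.homogeneous s hs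
  have hsc : ∀ b, eval₂ (tm τ) x (s b)
      = eval₂ (tm τ) x (s c₀) / eval₂ (tm τ) x (s₀ c₀) * eval₂ (tm τ) x (s₀ b) := by
    intro b
    have h4 := hM.2 s hs s₀ hs₀ b c₀
    rw [div_mul_eq_mul_div, eq_div_iff hc₀]
    exact h4
  have hmap : ∀ b, eval₂ (algebraMap ℂ Mer) x (map τ (s b)) = eval₂ (tm τ) x (s b) := by
    intro b
    rw [eval₂_map]
    rfl
  have hvan : aeval x (map τ (s c) * C (a c') - map τ (s c') * C (a c)) = 0 := by
    rw [aeval_def, eval₂_sub, eval₂_mul, eval₂_mul, eval₂_C, eval₂_C, hmap, hmap, hsc c, hsc c']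
    rw [ha c, ha c']
    ring
  rw [hxdef] at hvan
  have hhom : (map τ (s c) * C (a c') - map τ (s c') * C (a c)).IsHomogeneous es := by
    have h1 := ((hes c).map τ).mul (isHomogeneous_C (Fin (m + 1)) (a c'))
    have h2 := ((hes c').map τ).mul (isHomogeneous_C (Fin (m + 1)) (a c))
    exact h1.sub h2
  have h5 := hMREL m f φ hφ hf hrep (m + 1) es id _ hhom hvan z
  rw [map_sub, map_mul, map_mul, eval_C, eval_C, eval_map, eval_map, sub_eq_zero] at h5
  exact h5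

end Pool.ThmP
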