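import Pool.Agent.Work.MP_f82ddf_P.Interface7

set_option autoImplicit false

/-! # Block GXD: generic hypersurfaces, morphisms with fibres of small dimension -/

namespace Pool.ThmP

open MvPolynomial Finset Pool.Agent.Work.MP_f82ddf_nt Pool.Agent.Work.MP_f82ddf_nt.DQ Pool.ThmM
  Pool.ThmM0

/-- forms at a multiple of a point -/
theorem GXD_smul {R κ σ : Type} [CommSemiring R] [CommSemiring κ] (φ : R →+* κ)
    {F : MvPolynomial σ R} {e : ℕ} (hF : F.IsHomogeneous e) (c : κ) (x : σ → κ) :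
    eval₂ φ (fun i => c * x i) F = c ^ e * eval₂ φ x F := by
  rw [eval₂_eq, eval₂_eq, Finset.mul_sum]
  refine Finset.sum_congr rfl fun m hm => ?_
  have hd : ∑ i ∈ m.support, m i = e := by
    have h := hF (mem_support_iff.1 hm)
    rw [← h, Finsupp.weight_apply, Finsupp.sum]
    simp
  have h1 : ∏ i ∈ m.support, (c * x i) ^ m i = c ^ e * ∏ i ∈ m.support, x i ^ m i := by
    simp only [mul_pow]
    rw [Finset.prod_mul_distrib, Finset.prod_pow_eq_pow_sum, hd]
  rw [h1]
  ring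

theorem p_GXD (hVER : Stmt_VER) (hGOC : Stmt_GOC) (hOFF : Pool.MPH.Stmt_OFF) (hMPT : Stmt_MPT)
    (hNUL : Stmt_NUL) (hNHC : Pool.ThmM0.Stmt_NHC) : Stmt_GXD := by
  classical
  intro n e he
  obtain ⟨D, hD⟩ := hGOC n e he
  refine ⟨D, ?_⟩
  intro N K _ m S hS g F hF hno hfull d hfib σ x hx r
  let τ : AlgebraicClosure K →+* ℂ :=
    letI : Algebra K ℂ := σ.toAlgebra
    (IsAlgClosed.lift (R := K) (M := ℂ) (S := AlgebraicClosure K)).toRingHom
  have hτ : τ.comp (algebraMap K (AlgebraicClosure K)) = σ := by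
    let : Algebra K ℂ := σ.toAlgebra
    exact AlgHom.comp_algebraMap
      (IsAlgClosed.lift (R := K) (M := ℂ) (S := AlgebraicClosure K))
  have hx' : OnK (tm τ) S x := by
    intro F hF
    have h6 : (tm τ).comp (algebraMap K (AlgebraicClosure K)) =
        (algebraMap ℂ Mer).comp σ := by
      rw [tm, RingHom.comp_assoc, hτ]
    rw [h6]
    exact hx F hF
  by_cases hx0 : x = 0
  · refine ⟨1, X 0, X_ne_zero _, isHomogeneous_X _ _, ?_⟩
    rw [aeval_X, hx0]
    rfl
  have hM := hMPT K (AlgebraicClosure K) Mer m n S g (tm τ) x hx'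
  obtain ⟨s₀, hs₀, c₀, hc₀⟩ := hM.1 hx0
  obtain ⟨ε, g', hε, hεs, -, -, -⟩ := hVER K (AlgebraicClosure K) m n e S g he
  have hnoC : NoHypersurface D (fun j c => coeff (ε c) (map τ (F j))) := by
    have h1 := hNHC (AlgebraicClosure K) ℂ τ (N + 1) _ D _ (noHyp_ver ε hε hεs F hno)
    simpa only [coeff_map] using h1
  have hconst := hD N ε hε hεs (fun j => map τ (F j)) (fun j => (hF j).map τ) hnoC
    (fun c => eval₂ (tm τ) x (s₀ c))
    (fun j => hOFF K (AlgebraicClosure K) m n 2 S g hS τ x hx' s₀ hs₀ ⟨c₀, hc₀⟩ e (F j) (hF j)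
      (hfull j)) c₀
  choose a ha using fun c => hconst c hc₀
  have ha0 : a c₀ ≠ 0 := by
    intro h
    apply hc₀
    rw [ha c₀, h, map_zero, zero_mul]
  have hane : a ≠ 0 := fun h => ha0 (congrFun h c₀)
  obtain ⟨t, R, hR0, hRt, hR⟩ := hfib τ a hane r
  refine ⟨t + 1, R * X 0, mul_ne_zero hR0 (X_ne_zero _), hRt.mul (isHomogeneous_X _ _), ?_⟩
  letI iA : Algebra K ℂ := σ.toAlgebra
  have hnul := hNUL K ℂ Mer m S
    {H | ∃ s ∈ g.tuples, ∃ c c', H = map τ (s c) * C (a c') - map τ (s c') * C (a c)}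
    (rename r (R * X 0)) ?_ (algebraMap ℂ Mer) x ?_ ?_
  · rw [eval₂_rename] at hnul
    rw [aeval_def]
    exact hnul
  · intro v hvX hvE
    rw [eval_rename, map_mul, eval_X]
    by_cases hv : v = 0
    · simp [hv]
    have hvX' : ∀ F ∈ S, eval₂ σ v F = 0 := fun F hF => hvX F hF
    have hp := mk_mem_complexPoints hS σ v hv hvX'
    obtain ⟨lam, hlam⟩ := Projectivization.exists_smul_eq_mk_rep ℂ v hv
    have hrep : (Projectivization.mk ℂ v hv).rep = fun i => (lam : ℂ) * v i := by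
      rw [← hlam]
      rfl
    have h2 := hR (Projectivization.mk ℂ v hv) (by rw [hτ]; exact hp) (by
      intro s hs c c'
      obtain ⟨es, hes⟩ := g.homogeneous s hs
      have h3 := hvE _ ⟨s, hs, c, c', rfl⟩
      rw [map_sub, map_mul, map_mul, eval_C, eval_C, eval_map, eval_map, sub_eq_zero] at h3
      rw [hrep, GXD_smul τ (hes c), GXD_smul τ (hes c'), mul_assoc, h3, ← mul_assoc])
    rw [hrep] at h2
    have h4 : eval (fun i => (lam : ℂ) * v (r i)) R = (lam : ℂ) ^ t * eval (fun i => v (r i)) R :=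
      GXD_smul (RingHom.id ℂ) hRt (lam : ℂ) (fun i => v (r i))
    have h5 : (lam : ℂ) ^ t ≠ 0 := pow_ne_zero _ lam.ne_zero
    have h6 : eval (v ∘ r) R = 0 := by
      have h7 : (lam : ℂ) ^ t * eval (fun i => v (r i)) R = 0 := by
        rw [← h4]
        exact h2
      exact (mul_eq_zero.1 h7).resolve_left h5
    rw [h6, zero_mul]
  · exact hx
  · rintro H ⟨s, hs, c, c', rfl⟩
    have hsc : ∀ b, eval₂ (tm τ) x (s b)
        = eval₂ (tm τ) x (s c₀) / eval₂ (tm τ) x (s₀ c₀) * eval₂ (tm τ) x (s₀ b) := by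
      intro b
      have h4 := hM.2 s hs s₀ hs₀ b c₀
      rw [div_mul_eq_mul_div, eq_div_iff hc₀]
      exact h4
    have hmap : ∀ b, eval₂ (algebraMap ℂ Mer) x (map τ (s b)) = eval₂ (tm τ) x (s b) := by
      intro b
      rw [eval₂_map]
      rfl
    rw [eval₂_sub, eval₂_mul, eval₂_mul, eval₂_C, eval₂_C, hmap, hmap, hsc c, hsc c']
    rw [ha c, ha c']
    ring

end Pool.ThmP
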