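import Pool.Agent.Work.MP_f82ddf_P.Interface6

set_option autoImplicit false

/-! # Block THN (helper52): a complex relation between the coordinates of `g(x)` gives one over `Ω` -/

namespace Pool.ThmP

open MvPolynomial Finset Pool.Agent.Work.MP_f82ddf_nt Pool.Agent.Work.MP_f82ddf_nt.DQ Pool.ThmM
  Pool.ThmM0
open Pool.MPV (Ful)
open Pool.MPH (FuF Tng)

section X_THN

variable {k : Type} [Field k]

/-- the homogenisation with the variable `X 0` -/
noncomputable def X_THN_h {m : ℕ} (e : ℕ) (G : MvPolynomial (Fin m) k) :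
    MvPolynomial (Fin (m + 1)) k :=
  ∑ μ ∈ G.support, monomial (Finsupp.cons (e - μ.degree) μ) (coeff μ G)

theorem X_THN_coeff {m : ℕ} (e : ℕ) (G : MvPolynomial (Fin m) k) (μ : Fin m →₀ ℕ) :
    coeff (Finsupp.cons (e - μ.degree) μ) (X_THN_h e G) = coeff μ G := by
  unfold X_THN_h
  rw [coeff_sum]
  have hinj : ∀ (a b : ℕ) (μ ν : Fin m →₀ ℕ), Finsupp.cons a μ = Finsupp.cons b ν → μ = ν := by
    intro a b μ ν h
    have h1 := congrArg Finsupp.tail h
    simpa using h1
  by_cases hμ : μ ∈ G.support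
  · rw [Finset.sum_eq_single μ]
    · rw [coeff_monomial, if_pos rfl]
    · intro ν _ hν
      rw [coeff_monomial, if_neg]
      intro h
      exact hν (hinj _ _ _ _ h)
    · intro h
      exact absurd hμ h
  · rw [notMem_support_iff] at hμ
    rw [hμ]
    refine Finset.sum_eq_zero fun ν hν => ?_
    rw [coeff_monomial, if_neg]
    intro h
    have h1 := hinj _ _ _ _ h
    rw [h1] at hν
    rw [mem_support_iff] at hν
    exact hν hμ

/-- HOMR over any field -/
theorem X_THN_homr {L : Type} [Field L] [Algebra k L] (m : ℕ) (q : Fin (m + 1) → L)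
    (hq0 : q 0 ≠ 0) (hrel : ∀ (e : ℕ) (P : MvPolynomial (Fin (m + 1)) k), P ≠ 0 →
      P.IsHomogeneous e → aeval q P ≠ 0) :
    AlgebraicIndependent k (fun j : Fin m => q j.succ / q 0) := by
  rw [algebraicIndependent_iff]
  intro G hG
  by_contra hne
  set e := G.totalDegree with he
  have hP : X_THN_h e G ≠ 0 := by
    intro h
    apply hne
    ext μ
    rw [← X_THN_coeff e G μ, h]
    simp
  have hdeg : ∀ μ ∈ G.support, μ.degree ≤ e := by
    intro μ hμ
    have := le_totalDegree hμ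
    rw [Finsupp.degree_eq_sum]
    rwa [Finsupp.sum_fintype _ _ (fun _ => rfl)] at this
  have hhom : (X_THN_h e G).IsHomogeneous e := by
    unfold X_THN_h
    refine IsHomogeneous.sum _ _ _ fun μ hμ => ?_
    apply isHomogeneous_monomial
    have h1 : (Finsupp.cons (e - μ.degree) μ).degree = (e - μ.degree) + μ.degree := by
      rw [Finsupp.degree_eq_sum, Finsupp.degree_eq_sum, Fin.sum_univ_succ]
      simp
    rw [h1]
    have := hdeg μ hμ
    omega
  apply hrel e (X_THN_h e G) hP hhom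
  unfold X_THN_h
  rw [map_sum]
  have key : ∀ μ ∈ G.support, aeval q (monomial (Finsupp.cons (e - μ.degree) μ) (coeff μ G))
      = q 0 ^ e * (algebraMap k L (coeff μ G) * ∏ i, (q i.succ / q 0) ^ μ i) := by
    intro μ hμ
    rw [aeval_monomial, Finsupp.prod_fintype _ _ (fun i => pow_zero _), Fin.prod_univ_succ]
    simp only [Finsupp.cons_zero, Finsupp.cons_succ, div_pow]
    rw [Finset.prod_div_distrib, Finset.prod_pow_eq_pow_sum]
    have h1 : ∑ i, μ i = μ.degree := (Finsupp.degree_eq_sum μ).symm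
    rw [h1]
    have h2 : q 0 ^ e = q 0 ^ (e - μ.degree) * q 0 ^ μ.degree := by
      rw [← pow_add]
      congr 1
      have := hdeg μ hμ
      omega
    rw [h2]
    have h3 : q 0 ^ μ.degree ≠ 0 := pow_ne_zero _ hq0
    field_simp
  rw [Finset.sum_congr rfl key, ← Finset.mul_sum]
  have hG' : ∑ μ ∈ G.support, algebraMap k L (coeff μ G) * ∏ i, (q i.succ / q 0) ^ μ i = 0 := by
    rw [← hG, aeval_def, eval₂_eq']
  rw [hG', mul_zero]

/-- DHO for any number of variables -/
theorem X_THN_dho (m e : ℕ) (q : Fin (m + 1) → Mer) (P : MvPolynomial (Fin (m + 1)) ℂ)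
    (hq0 : q 0 ≠ 0) (hP0 : P ≠ 0) (hPe : P.IsHomogeneous e) (hP : aeval q P = 0)
    (hind : AlgebraicIndependent ℂ (fun j : Fin m => q j.succ / q 0)) : False := by
  classical
  obtain ⟨s, hs⟩ : ∃ s : Fin (m + 1) → MvPolynomial (Fin m) ℂ, s = Fin.cons 1 (fun j => X j) :=
    ⟨_, rfl⟩
  obtain ⟨G, hG⟩ : ∃ G : MvPolynomial (Fin m) ℂ, G = aeval s P := ⟨_, rfl⟩
  have hcomp : ∀ (B : Type) [Field B] [Algebra ℂ B] (v : Fin (m + 1) → B), v 0 ≠ 0 →
      aeval v P = v 0 ^ e * aeval (fun j : Fin m => v j.succ / v 0) G := by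
    intro B _ _ v hv
    have h1 : aeval (fun j : Fin m => v j.succ / v 0) G =
        aeval (fun t : Fin (m + 1) => v t / v 0) P := by
      rw [hG, MvPolynomial.comp_aeval_apply]
      congr 2
      funext t
      rw [hs]
      refine Fin.cases ?_ (fun j => ?_) t
      · rw [Fin.cons_zero, map_one, div_self hv]
      · rw [Fin.cons_succ, aeval_X]
    have h2 : v = (v 0) • (fun t : Fin (m + 1) => v t / v 0) := by
      funext t
      show v t = v 0 * (v t / v 0)
      rw [mul_div_cancel₀ _ hv]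
    rw [h1]
    conv_lhs => rw [h2, aeval_def, eval₂_smul_hom hPe]
    rfl
  have h3 : aeval (fun j : Fin m => q j.succ / q 0) G = 0 := by
    have h4 := hcomp Mer q hq0
    rw [hP] at h4
    exact (mul_eq_zero.1 h4.symm).resolve_left (pow_ne_zero _ hq0)
  have hG0 : G = 0 := hind.eq_zero_of_aeval_eq_zero G h3
  have h6 : P * X 0 = 0 := by
    refine MvPolynomial.funext fun v => ?_
    rw [map_mul, eval_X, map_zero]
    by_cases hv : v 0 = 0
    · rw [hv, mul_zero]
    have h7 := hcomp ℂ v hv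
    rw [hG0, map_zero, mul_zero] at h7
    have h8 : eval v P = 0 := h7
    rw [h8, zero_mul]
  rcases mul_eq_zero.1 h6 with h7 | h7
  · exact hP0 h7
  · exact X_ne_zero _ h7

end X_THN

theorem p_THN (hEXB : Stmt_EXB) (hTHR : Stmt_THR) (hNUL : Stmt_NUL) (hMPT : Stmt_MPT)
    (hHOMR : Pool.ThmM0.Stmt_HOMR) : Stmt_THN := by
  classical
  intro K Ω _ _ _ _ m n d S hS g hg τ x hx s hs hc hrel
  obtain ⟨c₀, hc₀⟩ := hc
  obtain ⟨y, hy⟩ : ∃ y : Fin (n + 1) → Mer, y = fun c => eval₂ (tm τ) x (s c) := ⟨_, rfl⟩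
  have hyc : ∀ c, y c = eval₂ (tm τ) x (s c) := fun c => by rw [hy]
  rw [← hyc] at hc₀
  rw [← hy] at hrel
  by_contra hR
  unfold RelP at hR
  push Not at hR
  obtain ⟨r, hr⟩ := hR
  have hr' : ∀ (e : ℕ) (P : MvPolynomial (Fin (d + 2)) ℂ), P ≠ 0 → P.IsHomogeneous e →
      aeval (fun i => x (r i)) P ≠ 0 := fun e P h1 h2 => hr e P h1 h2
  have hr0 : x (r 0) ≠ 0 := by
    have h := hr' 1 (X 0) (X_ne_zero _) (isHomogeneous_X _ _)
    rwa [aeval_X] at h
  have hind := hHOMR d (fun i => x (r i)) hr0 hr'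
  let iΩC : Algebra Ω ℂ := τ.toAlgebra
  let iΩM : Algebra Ω Mer := (tm τ).toAlgebra
  have iST : IsScalarTower Ω ℂ Mer := IsScalarTower.of_algebraMap_eq fun _ => rfl
  have hindΩ : AlgebraicIndependent Ω (fun i : Fin (d + 1) => x (r i.succ) / x (r 0)) :=
    hind.restrictScalars τ.injective
  have halg := hTHR K Ω m d S hS hg.1 τ x hx r hr0 hindΩ
  obtain ⟨p, hp⟩ : ∃ p : Fin (d + 1) → Mer, p = fun i => x (r i.succ) / x (r 0) := ⟨_, rfl⟩
  have halg' : ∀ j, IsAlgebraic (Algebra.adjoin Ω (Set.range p)) (x j / x (r 0)) := by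
    intro j
    rw [hp]
    exact halg j
  rw [← hp] at hindΩ
  have hindC : AlgebraicIndependent ℂ p := by rw [hp]; exact hind
  -- the coordinates of the image
  obtain ⟨es, hes⟩ := g.homogeneous s hs
  obtain ⟨E, hE⟩ : ∃ E : Fin (n + 1) → Mer, E = fun c => eval₂ (tm τ) (fun j => x j / x (r 0)) (s c) :=
    ⟨_, rfl⟩
  have hyE : ∀ c, y c = x (r 0) ^ es * E c := by
    intro c
    have h2 : x = (x (r 0)) • (fun t : Fin (m + 1) => x t / x (r 0)) := by
      funext t
      show x t = x (r 0) * (x t / x (r 0))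
      rw [mul_div_cancel₀ _ hr0]
    rw [hyc, hE]
    conv_lhs => rw [h2, eval₂_smul_hom (hes c)]
  have hEa : ∀ c, IsAlgebraic (Algebra.adjoin Ω (Set.range p)) (E c) := by
    intro c
    have h1 : E c ∈ Subalgebra.algebraicClosure (Algebra.adjoin Ω (Set.range p)) Mer := by
      rw [hE]
      refine eval₂_mem ?_ ?_
      · intro i _
        have h2 := isAlgebraic_algebraMap (R := Algebra.adjoin Ω (Set.range p)) (A := Mer)
          (algebraMap Ω (Algebra.adjoin Ω (Set.range p)) (coeff i (s c)))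
        exact h2
      · intro i
        exact halg' i
    exact h1
  -- a relation over Ω
  obtain ⟨σ, hσ⟩ : ∃ σ : Fin (n + 1) ≃ Fin (n + 1), σ 0 = c₀ :=
    ⟨Equiv.swap 0 c₀, Equiv.swap_apply_left _ _⟩
  have hq0 : y (σ 0) ≠ 0 := by rw [hσ]; exact hc₀
  have hclaim : ∃ (t : ℕ) (P : MvPolynomial (Fin (n + 1)) Ω), P ≠ 0 ∧ P.IsHomogeneous t ∧
      eval₂ (tm τ) y P = 0 := by
    by_contra hno
    push Not at hno
    have hΩ : AlgebraicIndependent Ω (fun j : Fin n => y (σ j.succ) / y (σ 0)) := by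
      refine X_THN_homr n (fun i => y (σ i)) hq0 ?_
      intro e P hP0 hPe hP
      refine hno e (rename σ P) ?_ hPe.rename_isHomogeneous ?_
      · intro h
        exact hP0 (rename_injective _ σ.injective (by rw [h, map_zero]))
      · rw [eval₂_rename]
        exact hP
    have hC := hEXB Ω ℂ Mer (d + 1) n p (fun j : Fin n => y (σ j.succ) / y (σ 0)) hindC hΩ (by
      intro j
      have h1 : y (σ j.succ) / y (σ 0) = E (σ j.succ) * (E (σ 0))⁻¹ := by
        rw [hyE, hyE, mul_div_mul_left _ _ (pow_ne_zero _ hr0), div_eq_mul_inv]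
      rw [h1]
      exact (hEa _).mul (hEa _).inv)
    unfold NoRel at hrel
    push Not at hrel
    obtain ⟨e, P, hP0, hPe, hP⟩ := hrel
    refine X_THN_dho n e (fun i => y (σ i)) (rename σ.symm P) hq0 ?_ hPe.rename_isHomogeneous ?_ hC
    · intro h
      exact hP0 (rename_injective _ σ.symm.injective (by rw [h, map_zero]))
    · rw [aeval_rename]
      have h6 : (fun i => y (σ i)) ∘ σ.symm = y := by
        funext i
        show y (σ (σ.symm i)) = y i
        rw [Equiv.apply_symm_apply]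
      rw [h6]
      exact hP
  obtain ⟨t, P, hP0, hPt, hP⟩ := hclaim
  obtain ⟨e, R, hR0, hRe, hR⟩ := hg.2 t P hP0 hPt r
  have hnul := hNUL K Ω Mer m S {H | ∃ s' ∈ g.tuples, H = bind₁ s' P} (rename r R) (by
    intro v hv hH
    rw [eval_rename]
    refine hR v hv ?_
    intro s' hs'
    have h1 := hH _ ⟨s', hs', rfl⟩
    rw [← h1]
    simp only [eval, eval₂Hom_bind₁]) (tm τ) x hx (by
    rintro H ⟨s', hs', rfl⟩
    have h1 : eval₂ (tm τ) x (bind₁ s' P) = eval₂ (tm τ) (fun c => eval₂ (tm τ) x (s' c)) P := by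
      have h2 := eval₂Hom_bind₁ (tm τ) x s' P
      exact h2
    have h3 : (fun c => eval₂ (tm τ) x (s' c)) =
        (eval₂ (tm τ) x (s' c₀) / y c₀) • y := by
      funext c
      have h4 := (hMPT K Ω Mer m n S g (tm τ) x hx).2 s hs s' hs' c₀ c
      rw [← hyc, ← hyc] at h4
      rw [Pi.smul_apply, smul_eq_mul, div_mul_eq_mul_div, eq_div_iff hc₀]
      linear_combination h4
    rw [h1, h3, eval₂_smul_hom hPt, hP, mul_zero])
  rw [eval₂_rename] at hnul
  refine hr' e (map τ R) ?_ (hRe.map τ) ?_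
  · intro h
    exact hR0 (map_injective _ τ.injective (by rw [h, map_zero]))
  · rw [aeval_def, eval₂_map]
    exact hnul

end Pool.ThmP
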