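import Pool.Agent.Work.MP_f82ddf_P.Interface6

set_option autoImplicit false

/-! # Block THR: if every `d + 3` coordinates of the points of `X` satisfy a relation, the coordinates
are algebraic over `d + 1` independent quotients -/

namespace Pool.ThmP

open MvPolynomial Finset Pool.Agent.Work.MP_f82ddf_nt Pool.Agent.Work.MP_f82ddf_nt.DQ Pool.ThmM
  Pool.ThmM0
open Pool.MPV (Ful)
open Pool.MPH (FuF Tng)

/-- a homogeneous relation contradicts the independence of the quotients, over any infinite field -/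
theorem THR_dho {k L : Type} [Field k] [Infinite k] [Field L] [Algebra k L] (m e : ℕ)
    (q : Fin (m + 1) → L) (P : MvPolynomial (Fin (m + 1)) k)
    (hq0 : q 0 ≠ 0) (hP0 : P ≠ 0) (hPe : P.IsHomogeneous e) (hP : aeval q P = 0)
    (hind : AlgebraicIndependent k (fun j : Fin m => q j.succ / q 0)) : False := by
  classical
  obtain ⟨s, hs⟩ : ∃ s : Fin (m + 1) → MvPolynomial (Fin m) k, s = Fin.cons 1 (fun j => X j) :=
    ⟨_, rfl⟩
  obtain ⟨G, hG⟩ : ∃ G : MvPolynomial (Fin m) k, G = aeval s P := ⟨_, rfl⟩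
  have hcomp : ∀ (B : Type) [Field B] [Algebra k B] (v : Fin (m + 1) → B), v 0 ≠ 0 →
      aeval v P = v 0 ^ e * aeval (fun j : Fin m => v j.succ / v 0) G := by
    intro B _ _ v hv
    have h1 : aeval (fun j : Fin m => v j.succ / v 0) G =
        aeval (fun t : Fin (m + 1) => v t / v 0) P := by
      rw [hG, MvPolynomial.comp_aeval_apply]
      congr 2
      funext t
      rw [hs]
      refine Fin.cases ?_ (fun j => ?_) t
      · rw [Fin.cons_zero, map_one, div_self hv]
      · rw [Fin.cons_succ, aeval_X]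
    have h2 : v = (v 0) • (fun t : Fin (m + 1) => v t / v 0) := by
      funext t
      show v t = v 0 * (v t / v 0)
      rw [mul_div_cancel₀ _ hv]
    rw [h1]
    conv_lhs => rw [h2, aeval_def, eval₂_smul_hom hPe]
    rfl
  have h3 : aeval (fun j : Fin m => q j.succ / q 0) G = 0 := by
    have h4 := hcomp L q hq0
    rw [hP] at h4
    exact (mul_eq_zero.1 h4.symm).resolve_left (pow_ne_zero _ hq0)
  have hG0 : G = 0 := hind.eq_zero_of_aeval_eq_zero G h3
  have h6 : P * X 0 = 0 := by
    refine MvPolynomial.funext fun v => ?_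
    rw [map_mul, eval_X, map_zero]
    by_cases hv : v 0 = 0
    · rw [hv, mul_zero]
    have h7 := hcomp k v hv
    rw [hG0, map_zero, mul_zero] at h7
    have h8 : eval v P = 0 := h7
    rw [h8, zero_mul]
  rcases mul_eq_zero.1 h6 with h7 | h7
  · exact hP0 h7
  · exact X_ne_zero _ h7

theorem p_THR (hNUL : Stmt_NUL) : Stmt_THR := by
  intro K Ω _ _ _ _ m d S hS hrel τ x hx r hr0
  let iA : Algebra Ω Mer := (tm τ).toAlgebra
  intro hind j
  have : Infinite Ω := IsAlgClosed.instInfinite
  obtain ⟨r', hr'⟩ : ∃ r' : Fin (d + 3) → Fin (m + 1), r' = Fin.snoc r j := ⟨_, rfl⟩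
  have hr'c : ∀ i : Fin (d + 2), r' i.castSucc = r i := by
    intro i
    rw [hr', Fin.snoc_castSucc]
  have hr'l : r' (Fin.last (d + 2)) = j := by
    rw [hr', Fin.snoc_last]
  have hr'0 : r' 0 = r 0 := hr'c 0
  obtain ⟨e, R, hR0, hRe, hR⟩ := hrel r'
  have hnul := hNUL K Ω Mer m S ∅ (rename r' R) (by
    intro v hv _
    rw [eval_rename]
    exact hR v hv) (tm τ) x hx (fun H hH => absurd hH (Set.notMem_empty _))
  rw [eval₂_rename] at hnul
  by_contra halg
  have h1 := (hind.option_iff_transcendental (x j / x (r 0))).2 halg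
  have h2 := (algebraicIndependent_equiv (finSuccEquivLast (n := d + 1))).2 h1
  have hfun : (fun i : Fin (d + 2) => x (r' i.succ) / x (r' 0)) =
      (fun o : Option (Fin (d + 1)) => o.elim (x j / x (r 0)) fun i => x (r i.succ) / x (r 0)) ∘
        finSuccEquivLast := by
    funext i
    refine Fin.lastCases ?_ (fun i => ?_) i
    · have h3 : (Fin.last (d + 1)).succ = Fin.last (d + 2) := rfl
      rw [h3, hr'l, hr'0, Function.comp_apply, finSuccEquivLast_last]
      rfl
    · have h3 : (i.castSucc).succ = (i.succ).castSucc := rfl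
      rw [h3, hr'c, hr'0, Function.comp_apply, finSuccEquivLast_castSucc]
      rfl
  rw [← hfun] at h2
  exact THR_dho (d + 2) e (fun i => x (r' i)) R (by rw [hr'0]; exact hr0) hR0 hRe hnul h2

end Pool.ThmP
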