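import Pool.Agent.Work.MP_f82ddf_P.All3
import Pool.Agent.Work.MP_f82ddf_H.All
import Pool.Agent.Work.MP_f82ddf_P.B_GNO
import Pool.Agent.Work.MP_f82ddf_P.B_GXD
import Pool.Agent.Work.MP_f82ddf_P.B_GGC
import Pool.Agent.Work.MP_f82ddf_P.B_GC2
import Pool.Agent.Work.MP_f82ddf_P.B_OTK
import Pool.Agent.Work.MP_f82ddf_P.B_CVP
import Pool.Agent.Work.MP_f82ddf_P.B_EXB
import Pool.Agent.Work.MP_f82ddf_P.B_THR
import Pool.Agent.Work.MP_f82ddf_P.B_THN
import Pool.Agent.Work.MP_f82ddf_P.B_DM4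
import Pool.Agent.Work.MP_f82ddf_P.B_GOC
import Pool.Agent.Work.MP_f82ddf_P.B_CVG
import Pool.Agent.Work.MP_f82ddf_P.B_GXC

/-!
# Entire curves in projective space, morphisms which are not finite: assembly
-/

set_option autoImplicit false

namespace Pool.ThmP

theorem all_GGC : Stmt_GGC := p_GGC p_VER p_REP all_CDG p_UFK all_TRS Pool.ThmM0.stmt_EXPO
theorem all_GC2 : Stmt_GC2 := p_GC2 all_GGC p_PIG
theorem all_OTK : Stmt_OTK := p_OTK Pool.ThmM.all_REP Pool.ThmM.all_ALG Pool.ThmM.all_POL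
    Pool.ThmM.all_ORD Pool.ThmM.all_VAL
/-- Entire curves in projective space with multiplicities divisible by `k`. -/
theorem all_CVP : Stmt_CVP := p_CVP all_GC2 all_OTK all_ROO Pool.ThmM0.stmt_MREL
    Pool.ThmM.all_VAL
theorem all_THR : Stmt_THR := p_THR all_NUL
theorem all_THN : Stmt_THN := p_THN p_EXB all_THR all_NUL all_MPT Pool.ThmM0.stmt_HOMR
/-- Morphisms with small preimages of hypersurfaces. -/
theorem all_DM4 : Stmt_DM4 := p_DM4 all_GMX all_MPT all_THN
theorem all_GNO : Stmt_GNO := p_GNO p_BAS Pool.MPV.all_LGF Pool.ThmM0.stmt_PUL Pool.MPV.all_EXF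
    Pool.ThmM.all_ORD Pool.ThmM.all_VAL
theorem all_GOC : Stmt_GOC := p_GOC all_GNO Pool.MPH.all_BPF
/-- Entire curves which are tangent to generic hypersurfaces. -/
theorem all_CVG : Stmt_CVG := p_CVG p_VER all_GOC Pool.MPH.all_OTN Pool.ThmM0.stmt_MREL
/-- Morphisms ramified over generic hypersurfaces, the entire curves lie in fibres. -/
theorem all_GXC : Stmt_GXC := p_GXC p_VER all_GOC Pool.MPH.all_OFF all_MPT Pool.ThmM0.stmt_NHC
    Pool.ThmM0.stmt_MREL
/-- Morphisms ramified over generic hypersurfaces, fibres of small dimension. -/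
theorem all_GXD : Stmt_GXD := p_GXD p_VER all_GOC Pool.MPH.all_OFF all_MPT all_NUL
    Pool.ThmM0.stmt_NHC

end Pool.ThmP
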