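import Pool.Agent.Work.MP_f82ddf_P.Interface6

set_option autoImplicit false

/-! # Block DM4 (MP_f82ddf_nt, THEOREM G): morphisms with small preimages of hypersurfaces -/

namespace Pool.ThmP

open MvPolynomial Finset Pool.Agent.Work.MP_f82ddf_nt Pool.Agent.Work.MP_f82ddf_nt.DQ Pool.ThmM
  Pool.ThmM0

theorem p_DM4 (hGMX : Stmt_GMX) (hMPT : Stmt_MPT) (hTHN : Stmt_THN) : Stmt_DM4 := by
  intro n e c
  obtain ⟨N₀, hN₀⟩ := hGMX n e c
  refine ⟨N₀, ?_⟩
  intro k N hk K _ m d S hS g F hthin hF hc hdiv hcard σ x hx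
  obtain ⟨τ, hx'⟩ : ∃ τ : AlgebraicClosure K →+* ℂ, OnK (tm τ) S x := by
    let τ : AlgebraicClosure K →+* ℂ :=
      letI : Algebra K ℂ := σ.toAlgebra
      (IsAlgClosed.lift (R := K) (M := ℂ) (S := AlgebraicClosure K)).toRingHom
    have hτ : τ.comp (algebraMap K (AlgebraicClosure K)) = σ := by
      let : Algebra K ℂ := σ.toAlgebra
      exact AlgHom.comp_algebraMap
        (IsAlgClosed.lift (R := K) (M := ℂ) (S := AlgebraicClosure K))
    refine ⟨τ, ?_⟩
    intro F hF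
    have h6 : (tm τ).comp (algebraMap K (AlgebraicClosure K)) =
        (algebraMap ℂ Mer).comp σ := by
      rw [tm, RingHom.comp_assoc, hτ]
    rw [h6]
    exact hx F hF
  by_cases hx0 : x = 0
  · intro r
    refine ⟨1, X 0, X_ne_zero 0, isHomogeneous_X ℂ 0, ?_⟩
    rw [aeval_X, hx0]
    rfl
  · obtain ⟨s, hs, hsc⟩ := (hMPT K (AlgebraicClosure K) Mer m n S g (tm τ) x hx').1 hx0
    exact hTHN K (AlgebraicClosure K) m n d S hS g hthin τ x hx' s hs hsc
      (hN₀ k N hk K (AlgebraicClosure K) m S hS g F hF hc hdiv hcard τ x hx' hx0 s hs hsc)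

end Pool.ThmP
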