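import Pool.Agent.Work.MP_f82ddf_P.Interface

/-!
# Theorem P, block F12
-/

set_option autoImplicit false

namespace Pool.ThmP

open MvPolynomial Finset Pool.Agent.Work.MP_f82ddf_nt Pool.Agent.Work.MP_f82ddf_nt.DQ Pool.ThmM
  Pool.ThmM0

/-- F12 -/
theorem p_F12 (h1 : Stmt_ONP) (h2 : Pool.ThmM0.Stmt_IMG) (h3 : Pool.ThmM0.Stmt_PAI)
    (h4 : Pool.MCL.stmt_P6C) : Stmt_F12 := by
  intro n c
  obtain ⟨N₀, hN⟩ := h1 n c
  refine ⟨N₀, fun k N hk hNN K _ _ m S hS g l hfin hc hdiv => ?_⟩
  have hlt : n < (n / k + 1) * k := by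
    have h5 := Nat.lt_mul_div_succ n (show 0 < k by omega)
    rw [mul_comm]
    exact h5
  have hdim : DimMer S (n / k) := by
    intro σ x hx s
    let τ : AlgebraicClosure K →+* ℂ :=
      letI : Algebra K ℂ := σ.toAlgebra
      (IsAlgClosed.lift (R := K) (M := ℂ) (S := AlgebraicClosure K)).toRingHom
    have hτ : τ.comp (algebraMap K (AlgebraicClosure K)) = σ := by
      let : Algebra K ℂ := σ.toAlgebra
      exact AlgHom.comp_algebraMap
        (IsAlgClosed.lift (R := K) (M := ℂ) (S := AlgebraicClosure K))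
    have hx' : OnK (tm τ) S x := by
      intro F hF
      have h6 : (tm τ).comp (algebraMap K (AlgebraicClosure K)) =
          (algebraMap ℂ Mer).comp σ := by
        rw [tm, RingHom.comp_assoc, hτ]
      rw [h6]
      exact hx F hF
    exact hN k N (n / k) hk hNN hlt K (AlgebraicClosure K) m S hS g l hfin hc hdiv τ x hx' s
  refine ⟨fun σ f hf hfS => h2 K m (n / k) S hS hdim σ f hf hfS, fun hn => ?_⟩
  have hnk : n / k ≤ 1 := by
    have h6 : n / k < 2 := (Nat.div_lt_iff_lt_mul (by omega)).2 hn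
    omega
  refine h4 K m S hS ?_
  intro σ x i hi hF
  exact h3 K m (n / k) S hnk hdim σ x i hi hF

end Pool.ThmP
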