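import Pool.Agent.Work.MP_f82ddf_P.VGF

set_option autoImplicit false

/-! # Block FPF (MP_f82ddf_nt): THEOREM P (iii) for forms of degree `e` -/

namespace Pool.ThmP

open MvPolynomial Finset Pool.Agent.Work.MP_f82ddf_nt Pool.Agent.Work.MP_f82ddf_nt.DQ Pool.ThmM
  Pool.ThmM0

theorem p_FPF (hVER : Stmt_VER) (hP3 : Stmt_P3) : Stmt_FPF := by
  intro b e he
  obtain ⟨D, hD⟩ := hP3 ((b + e).choose e - 1)
  refine ⟨D, fun k N hk K _ _ m S hS g F hg hF hno hdiv σ => ?_⟩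
  obtain ⟨ε, g', hε, hεs, -, hfin, hFF⟩ := hVER K (AlgebraicClosure K) m b e S g he
  exact hD k N hk K m S hS g' (fun j c => coeff (ε c) (F j)) (hfin hg)
    (noHyp_ver ε hε hεs F hno) (fun j => (hFF (F j) (hF j)).2 k (hdiv j)) σ

end Pool.ThmP
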