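import Pool.Agent.Work.MP_f82ddf_P.Interface
import Pool.Agent.Work.MP_f82ddf_M1.Interface

set_option autoImplicit false

/-! # Block KTH: quotients are `k`-th powers -/

namespace Pool.ThmP

open MvPolynomial Finset Pool.Agent.Work.MP_f82ddf_nt Pool.Agent.Work.MP_f82ddf_nt.DQ Pool.ThmM
  Pool.ThmM0

theorem p_KTH (hORD : Stmt_ORD) (hROO : Stmt_ROO) (hVAL : Pool.ThmM.Stmt_VAL) : Stmt_KTH := by
  intro K Ω _ _ _ _ m n k S g hk hS τ x hx s hs l l' hl hl' hz'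
  by_cases hz : ∑ c, tm τ (l c) * eval₂ (tm τ) x (s c) = 0
  · exact ⟨0, by rw [hz, zero_div, zero_pow (by omega)]⟩
  have hex : ∃ c, eval₂ (tm τ) x (s c) ≠ 0 := by
    by_contra hno
    push Not at hno
    exact hz' (Finset.sum_eq_zero fun c _ => by rw [hno c, mul_zero])
  refine hROO k _ hk (div_ne_zero hz hz') fun z₀ => ?_
  obtain ⟨μ, hμ⟩ := hORD K Ω m n k S g hk hS τ x hx s hs hex z₀
  obtain ⟨q, hq⟩ := hμ l hl hz
  obtain ⟨q', hq'⟩ := hμ l' hl' hz'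
  have h1 := (hVAL z₀).1 ((∑ c, tm τ (l c) * eval₂ (tm τ) x (s c)) /
    (∑ c, tm τ (l' c) * eval₂ (tm τ) x (s c))) (∑ c, tm τ (l' c) * eval₂ (tm τ) x (s c))
  rw [div_mul_cancel₀ _ hz', hq, hq'] at h1
  have h2 := (hVAL z₀).2.2.2.2.1 _ (div_ne_zero hz hz')
  rw [h2] at h1 ⊢
  refine ⟨q - q', ?_⟩
  norm_cast at h1 ⊢
  linarith

end Pool.ThmP
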