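import Pool.Agent.Work.MP_f82ddf_P.Interface

set_option autoImplicit false

/-! # THEOREM P (MP_f82ddf_nt), block NUL -/

namespace Pool.ThmP

open MvPolynomial Finset Pool.Agent.Work.MP_f82ddf_nt Pool.Agent.Work.MP_f82ddf_nt.DQ Pool.ThmM
  Pool.ThmM0

theorem p_NUL : Stmt_NUL := by
  intro K Ω κ _ _ _ _ _ m S E G hG τ x hx hE
  by_contra hne
  have h1 : G ∈ vanishingIdeal Ω (zeroLocus Ω
      (Ideal.span ((MvPolynomial.map (algebraMap K Ω)) '' S ∪ E))) := by
    intro v hv
    have hae : ∀ H : MvPolynomial (Fin (m + 1)) Ω, aeval v H = eval v H := fun H => by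
      rw [← coe_aeval_eq_eval]
      rfl
    rw [hae]
    refine hG v (fun F hF => ?_) (fun H hH => ?_)
    · have h2 := hv (MvPolynomial.map (algebraMap K Ω) F)
        (Ideal.subset_span (Or.inl ⟨F, hF, rfl⟩))
      rw [hae, eval_map] at h2
      rw [aeval_def]
      exact h2
    · have h2 := hv H (Ideal.subset_span (Or.inr hH))
      rw [hae] at h2
      exact h2
  rw [vanishingIdeal_zeroLocus_eq_radical] at h1
  obtain ⟨t, ht⟩ := h1
  have h2 : Ideal.span ((MvPolynomial.map (algebraMap K Ω)) '' S ∪ E) ≤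
      RingHom.ker (eval₂Hom τ x) := by
    rw [Ideal.span_le]
    rintro p (⟨F, hF, rfl⟩ | hp)
    · show eval₂ τ x (MvPolynomial.map (algebraMap K Ω) F) = 0
      rw [eval₂_map]
      exact hx F hF
    · exact hE p hp
  have h3 : eval₂Hom τ x (G ^ t) = 0 := h2 ht
  rw [map_pow] at h3
  exact pow_ne_zero t hne h3

end Pool.ThmP
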