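import Pool.Agent.Work.MP_f82ddf_P.All4
import Pool.Agent.Work.MP_f82ddf_W.B_TRM
import Pool.Agent.Work.MP_f82ddf_Y.B_YEX
import Pool.Agent.Work.MP_f82ddf_Y.B_DDR
import Pool.Agent.Work.MP_f82ddf_Y.B_DCO

/-!
# THEOREM P (MP_f82ddf_nt): every variety of dimension at most `n / k` has a finite morphism to the
projective space of dimension `n` which is ramified over many hyperplanes
-/

set_option autoImplicit false

namespace Pool.ThmP

open MvPolynomial

/-- Every projective variety `X` of dimension at most `n / k` (any `n / k + 2` homogeneous coordinates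
satisfy a homogeneous relation on `X`) has a finite morphism `g` to the projective space of
dimension `n`, and there are any number of hyperplanes, at most `n / k` of them through any point of
`g(X)`, whose pull backs under `g` are locally defined by `k`-th powers. -/
def Stmt_EVX : Prop :=
  ∀ (n r k : ℕ), 2 ≤ k → ∀ (K : Type) [Field K] [CharZero K] (m : ℕ)
    (S : Set (MvPolynomial (Fin (m + 1)) K)), (∀ F ∈ S, ∃ d, F.IsHomogeneous d) →
    (∀ s : Fin (n / k + 2) → Fin (m + 1), ∃ (e : ℕ)
      (R : MvPolynomial (Fin (n / k + 2)) (AlgebraicClosure K)), R ≠ 0 ∧ R.IsHomogeneous e ∧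
        ∀ v : Fin (m + 1) → AlgebraicClosure K, OnX S v → eval (fun i => v (s i)) R = 0) →
    ∃ (g : Mor K (AlgebraicClosure K) m n S)
      (F : Fin (r + 1) → MvPolynomial (Fin (n + 1)) (AlgebraicClosure K)),
      g.Finite ∧ (∀ j, (F j).IsHomogeneous 1) ∧ (∀ j, ¬ ∃ G, F j = G ^ k) ∧
      (∀ v, v ≠ 0 → OnX S v → {j | g.MeetsF (F j) v}.ncard ≤ n / k) ∧
      ∀ j, g.DivisibleF k (F j)

/-- Linear forms without common zero on `X` (Noether normalization). -/
theorem EVX_norm {K Ω : Type} [Field K] [Field Ω] [IsAlgClosed Ω] [Algebra K Ω] (m w : ℕ)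
    (S : Set (MvPolynomial (Fin (m + 1)) K)) (hS : ∀ F ∈ S, ∃ d, F.IsHomogeneous d)
    (hd : ∀ s : Fin (w + 2) → Fin (m + 1), ∃ (e : ℕ) (R : MvPolynomial (Fin (w + 2)) Ω),
      R ≠ 0 ∧ R.IsHomogeneous e ∧
        ∀ v : Fin (m + 1) → Ω, OnX S v → eval (fun i => v (s i)) R = 0) :
    ∃ y : Fin (w + 1) → Fin (m + 1) → Ω, ∀ z : Fin (m + 1) → Ω, OnX S z →
      (∀ i, ∑ j, y i j * z j = 0) → z = 0 := by
  classical
  have hcone : ∀ (z : Fin (m + 1) → Ω) (s : Ω), OnX S z → OnX S (fun i => s * z i) := by
    intro z s hz F hF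
    obtain ⟨d, hd⟩ := hS F hF
    have h1 : aeval (fun i => s * z i) F = s ^ d * aeval z F := by
      have h2 : ∀ v : Fin (m + 1) → Ω, aeval v F = eval v (map (algebraMap K Ω) F) := by
        intro v
        rw [eval_map]
        rfl
      rw [h2, h2]
      exact Pool.MPY.YEX_smul (hd.map _) s z
    rw [h1, hz F hF, mul_zero]
  let I : Ideal (MvPolynomial (Fin (m + 1)) Ω) :=
    { carrier := {f | ∀ v : Fin (m + 1) → Ω, OnX S v → eval v f = 0}
      add_mem' := by
        intro a b ha hb v hv
        rw [map_add, ha v hv, hb v hv, add_zero]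
      zero_mem' := by
        intro v _
        rw [map_zero]
      smul_mem' := by
        intro c a ha v hv
        rw [smul_eq_mul, map_mul, ha v hv, mul_zero] }
  have hI : ∀ f, f ∈ I ↔ ∀ v : Fin (m + 1) → Ω, OnX S v → eval v f = 0 := fun f => Iff.rfl
  have hIc : Pool.MPY.YEX_Cone I := by
    intro z hz s f hf
    have h1 : ∀ (v : Fin (m + 1) → Ω),
        eval v (aeval (fun i => (C s * X i : MvPolynomial (Fin (m + 1)) Ω)) f) =
          eval (fun i => s * v i) f := by
      intro v
      have h2 : (eval v).comp (aeval (fun i => (C s * X i : MvPolynomial (Fin (m + 1)) Ω)) :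
          MvPolynomial (Fin (m + 1)) Ω →ₐ[Ω] _).toRingHom = eval (fun i => s * v i) := by
        apply MvPolynomial.ringHom_ext
        · intro a
          simp
        · intro i
          simp
      exact DFunLike.congr_fun h2 f
    rw [← h1]
    apply hz
    rw [hI]
    intro v hv
    rw [h1]
    exact hf _ (hcone v s hv)
  obtain ⟨y, hy⟩ := Pool.MPY.YEX_claim Pool.MPY.p_DDR (w + 1) I hIc (fun q hq hIq => by
    apply Pool.MPY.p_DCO Pool.MPW.p_TRM Ω m (w + 1) q hq
    intro s hs
    obtain ⟨e, R, hR0, hRe, hR⟩ := hd s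
    apply hR0
    apply hs
    apply hIq
    rw [hI]
    intro v hv
    have h1 : eval v (aeval (fun i => (X (s i) : MvPolynomial (Fin (m + 1)) Ω)) R) =
        eval (fun i => v (s i)) R := by
      have h2 : (eval v).comp (aeval (fun i => (X (s i) : MvPolynomial (Fin (m + 1)) Ω)) :
          MvPolynomial (Fin (w + 2)) Ω →ₐ[Ω] _).toRingHom = eval (fun i => v (s i)) := by
        apply MvPolynomial.ringHom_ext
        · intro a
          simp
        · intro i
          simp
      exact DFunLike.congr_fun h2 R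
    rw [h1]
    exact hR v hv)
  exact ⟨y, fun z hz h => hy z (fun f hf => hf z hz) h⟩

/-- The coefficients of the `k`-th power of a polynomial whose coefficients are forms of degree `1`. -/
theorem EVX_hom {σ Ω : Type} [Field Ω] (k : ℕ) (P : Polynomial (MvPolynomial σ Ω))
    (hP : ∀ c, (P.coeff c).IsHomogeneous 1) : ∀ c, ((P ^ k).coeff c).IsHomogeneous k := by
  induction k with
  | zero =>
    intro c
    rw [pow_zero, Polynomial.coeff_one]
    split_ifs
    · exact isHomogeneous_one _ _
    · exact isHomogeneous_zero _ _ _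
  | succ k ih =>
    intro c
    rw [pow_succ, Polynomial.coeff_mul]
    exact IsHomogeneous.sum _ _ _ fun x _ => (ih x.1).mul (hP x.2)

/-- A linear form which is not zero is not a `k`-th power, `k ≥ 2`. -/
theorem EVX_np {σ Ω : Type} [Field Ω] {k : ℕ} (hk : 2 ≤ k) {F : MvPolynomial σ Ω}
    (hF : F.IsHomogeneous 1) (h0 : F ≠ 0) : ¬ ∃ G, F = G ^ k := by
  rintro ⟨G, rfl⟩
  have hG : G ≠ 0 := by
    rintro rfl
    exact h0 (zero_pow (by omega))
  have h1 : ∀ j : ℕ, (G ^ j).totalDegree = j * G.totalDegree := by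
    intro j
    induction j with
    | zero => simp
    | succ j ih =>
      rw [pow_succ, totalDegree_mul_of_isDomain (pow_ne_zero j hG) hG, ih]
      ring
  have h2 := hF.totalDegree h0
  rw [h1] at h2
  have h3 : k = 1 := Nat.eq_one_of_mul_eq_one_right h2
  omega

theorem all_EVX : Stmt_EVX := by
  classical
  intro n r k hk K _ _ m S hS hd
  obtain ⟨w, hw⟩ : ∃ w, w = n / k := ⟨_, rfl⟩
  rw [← hw] at hd ⊢
  have hwk : k * w ≤ n := by
    rw [hw]
    exact Nat.mul_div_le n k
  obtain ⟨y, hy⟩ := EVX_norm m w S hS hd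
  have hlfe : ∀ (a v : Fin (m + 1) → AlgebraicClosure K),
      eval v (∑ j, C (a j) * X j : MvPolynomial (Fin (m + 1)) (AlgebraicClosure K)) =
        ∑ j, a j * v j := by
    intro a v
    rw [map_sum]
    exact Finset.sum_congr rfl fun j _ => by rw [map_mul, eval_C, eval_X]
  -- the polynomial with the linear forms as coefficients
  obtain ⟨h, hh⟩ : ∃ h : Fin (w + 1) → MvPolynomial (Fin (m + 1)) (AlgebraicClosure K),
      h = fun i => ∑ j, C (y i j) * X j := ⟨_, rfl⟩
  have hhom : ∀ i, (h i).IsHomogeneous 1 := by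
    intro i
    rw [hh]
    refine IsHomogeneous.sum _ _ _ fun j _ => ?_
    simpa using (isHomogeneous_C (Fin (m + 1)) (y i j)).mul (isHomogeneous_X _ j)
  obtain ⟨P, hP⟩ : ∃ P : Polynomial (MvPolynomial (Fin (m + 1)) (AlgebraicClosure K)),
      P = ∑ i : Fin (w + 1), Polynomial.monomial (i : ℕ) (h i) := ⟨_, rfl⟩
  have hPc : ∀ c, (P.coeff c).IsHomogeneous 1 := by
    intro c
    rw [hP, Polynomial.finsetSum_coeff]
    refine IsHomogeneous.sum _ _ _ fun i _ => ?_
    rw [Polynomial.coeff_monomial]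
    split_ifs
    · exact hhom i
    · exact isHomogeneous_zero _ _ _
  have hPdeg : P.natDegree ≤ w := by
    rw [hP]
    refine Polynomial.natDegree_sum_le_of_forall_le _ _ fun i _ => ?_
    refine (Polynomial.natDegree_monomial_le _).trans ?_
    have := i.isLt
    omega
  have hPkdeg : (P ^ k).natDegree ≤ n :=
    (Polynomial.natDegree_pow_le_of_le k hPdeg).trans hwk
  obtain ⟨s, hs⟩ : ∃ s : Fin (n + 1) → MvPolynomial (Fin (m + 1)) (AlgebraicClosure K),
      s = fun c : Fin (n + 1) => (P ^ k).coeff (c : ℕ) := ⟨_, rfl⟩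
  -- values at a point
  have hPv : ∀ v : Fin (m + 1) → AlgebraicClosure K,
      ((P ^ k).map (eval v)) = (∑ i : Fin (w + 1), Polynomial.monomial (i : ℕ) (eval v (h i))) ^ k := by
    intro v
    rw [Polynomial.map_pow, hP, Polynomial.map_sum]
    congr 1
    exact Finset.sum_congr rfl fun i _ => by rw [Polynomial.map_monomial]
  have hpc : ∀ (v : Fin (m + 1) → AlgebraicClosure K) (i : Fin (w + 1)),
      (∑ i : Fin (w + 1), Polynomial.monomial (i : ℕ) (eval v (h i))).coeff i = eval v (h i) := by
    intro v i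
    rw [Polynomial.finsetSum_coeff, Finset.sum_eq_single i]
    · rw [Polynomial.coeff_monomial, if_pos rfl]
    · intro b _ hb
      rw [Polynomial.coeff_monomial, if_neg]
      intro hbi
      exact hb (Fin.ext hbi)
    · intro hi
      exact absurd (Finset.mem_univ _) hi
  have hpv0 : ∀ v : Fin (m + 1) → AlgebraicClosure K, v ≠ 0 → OnX S v →
      (∑ i : Fin (w + 1), Polynomial.monomial (i : ℕ) (eval v (h i))) ≠ 0 := by
    intro v hv0 hv hzero
    apply hv0
    apply hy v hv
    intro i
    have h1 := hpc v i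
    rw [hzero, Polynomial.coeff_zero] at h1
    rw [hh] at h1
    rw [← hlfe]
    exact h1.symm
  have hsne : ∀ v : Fin (m + 1) → AlgebraicClosure K, OnX S v → (∀ c, eval v (s c) = 0) →
      v = 0 := by
    intro v hv hc
    by_contra hv0
    apply pow_ne_zero k (hpv0 v hv0 hv)
    rw [← hPv]
    ext c
    rw [Polynomial.coeff_map, Polynomial.coeff_zero]
    by_cases hcn : c < n + 1
    · have := hc ⟨c, hcn⟩
      rw [hs] at this
      exact this
    · rw [Polynomial.coeff_eq_zero_of_natDegree_lt (by omega), map_zero]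
  have hshom : ∀ c, (s c).IsHomogeneous k := by
    intro c
    rw [hs]
    exact EVX_hom k P hPc c
  obtain ⟨g, hg, hgf⟩ := all_FFB K (AlgebraicClosure K) m n k S s hS (by omega) hshom hsne
  -- the hyperplanes
  have hFe : ∀ (a : AlgebraicClosure K) (x : Fin (n + 1) → AlgebraicClosure K),
      eval x (∑ c : Fin (n + 1), C (a ^ (c : ℕ)) * X c :
        MvPolynomial (Fin (n + 1)) (AlgebraicClosure K)) = ∑ c : Fin (n + 1), a ^ (c : ℕ) * x c := by
    intro a x
    rw [map_sum]
    exact Finset.sum_congr rfl fun j _ => by rw [map_mul, eval_C, eval_X]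
  have hFv : ∀ (a : AlgebraicClosure K) (v : Fin (m + 1) → AlgebraicClosure K),
      ∑ c : Fin (n + 1), a ^ (c : ℕ) * eval v (s c) =
        (∑ i : Fin (w + 1), a ^ (i : ℕ) * eval v (h i)) ^ k := by
    intro a v
    have h1 : Polynomial.eval a ((P ^ k).map (eval v)) =
        ∑ c : Fin (n + 1), a ^ (c : ℕ) * eval v (s c) := by
      rw [Polynomial.eval_eq_sum_range' (n := n + 1)
        (lt_of_le_of_lt (Polynomial.natDegree_map_le) (by omega)), Finset.sum_range]
      refine Finset.sum_congr rfl fun c _ => ?_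
      rw [Polynomial.coeff_map, hs, mul_comm]
    rw [← h1, hPv, Polynomial.eval_pow, Polynomial.eval_finsetSum]
    congr 1
    exact Finset.sum_congr rfl fun i _ => by rw [Polynomial.eval_monomial, mul_comm]
  have hF1 : ∀ j : Fin (r + 1), (∑ c : Fin (n + 1),
      C (((j : ℕ) : AlgebraicClosure K) ^ (c : ℕ)) * X c :
        MvPolynomial (Fin (n + 1)) (AlgebraicClosure K)).IsHomogeneous 1 := by
    intro j
    refine IsHomogeneous.sum _ _ _ fun c _ => ?_
    simpa using (isHomogeneous_C (Fin (n + 1)) (((j : ℕ) : AlgebraicClosure K) ^ (c : ℕ))).mul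
      (isHomogeneous_X _ c)
  refine ⟨g, fun j => ∑ c : Fin (n + 1), C (((j : ℕ) : AlgebraicClosure K) ^ (c : ℕ)) * X c, hgf,
    hF1, fun j => EVX_np hk (hF1 j) fun h0 => ?_, fun v hv0 hv => ?_, fun j v hv0 hv => ?_⟩
  · have h1 := hFe ((j : ℕ) : AlgebraicClosure K) (Pi.single 0 1)
    rw [show (∑ c : Fin (n + 1), C (((j : ℕ) : AlgebraicClosure K) ^ (c : ℕ)) * X c :
      MvPolynomial (Fin (n + 1)) (AlgebraicClosure K)) = 0 from h0, map_zero,
      Finset.sum_eq_single 0] at h1
    · simp at h1
    · intro b _ hb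
      rw [Pi.single_eq_of_ne hb, mul_zero]
    · intro h2
      exact absurd (Finset.mem_univ _) h2
  · -- at most `w` of the hyperplanes pass through a point
    obtain ⟨p, hp⟩ : ∃ p : Polynomial (AlgebraicClosure K),
        p = ∑ i : Fin (w + 1), Polynomial.monomial (i : ℕ) (eval v (h i)) := ⟨_, rfl⟩
    have hp0 : p ≠ 0 := hp ▸ hpv0 v hv0 hv
    have hpdeg : p.natDegree ≤ w := by
      rw [hp]
      refine Polynomial.natDegree_sum_le_of_forall_le _ _ fun i _ => ?_
      refine (Polynomial.natDegree_monomial_le _).trans ?_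
      have := i.isLt
      omega
    have hsub : (fun j : Fin (r + 1) => ((j : ℕ) : AlgebraicClosure K)) ''
        {j | g.MeetsF (∑ c : Fin (n + 1), C (((j : ℕ) : AlgebraicClosure K) ^ (c : ℕ)) * X c) v} ⊆
          (p.roots.toFinset : Set (AlgebraicClosure K)) := by
      rintro _ ⟨j, hj, rfl⟩
      have h1 := hj s (by rw [hg]; rfl)
      rw [hFe, hFv] at h1
      have h2 := eq_zero_of_pow_eq_zero h1
      rw [Finset.mem_coe, Multiset.mem_toFinset, Polynomial.mem_roots hp0, Polynomial.IsRoot.def, hp,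
        Polynomial.eval_finsetSum, ← h2]
      exact Finset.sum_congr rfl fun i _ => by rw [Polynomial.eval_monomial, mul_comm]
    have hinj : Function.Injective (fun j : Fin (r + 1) => ((j : ℕ) : AlgebraicClosure K)) := by
      intro a b hab
      exact Fin.ext (Nat.cast_injective hab)
    calc _ = ((fun j : Fin (r + 1) => ((j : ℕ) : AlgebraicClosure K)) ''
        {j | g.MeetsF (∑ c : Fin (n + 1),
          C (((j : ℕ) : AlgebraicClosure K) ^ (c : ℕ)) * X c) v}).ncard :=
          (Set.ncard_image_of_injective _ hinj).symm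
      _ ≤ (p.roots.toFinset : Set (AlgebraicClosure K)).ncard :=
          Set.ncard_le_ncard hsub (Finset.finite_toSet _)
      _ = p.roots.toFinset.card := Set.ncard_coe_finset _
      _ ≤ Multiset.card p.roots := Multiset.toFinset_card_le _
      _ ≤ p.natDegree := Polynomial.card_roots' p
      _ ≤ w := hpdeg
  · -- `k`-th powers
    refine ⟨s, by rw [hg]; rfl, ?_, 0, 1, 1,
      ∑ i : Fin (w + 1), C (((j : ℕ) : AlgebraicClosure K) ^ (i : ℕ)) * h i, isHomogeneous_one _ _,
      ?_, by rw [map_one]; exact one_ne_zero, fun u hu => ?_⟩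
    · by_contra hcon
      push Not at hcon
      exact hv0 (hsne v hv hcon)
    · refine IsHomogeneous.sum _ _ _ fun i _ => ?_
      simpa using (isHomogeneous_C (Fin (m + 1)) (((j : ℕ) : AlgebraicClosure K) ^ (i : ℕ))).mul
        (hhom i)
    · rw [map_one, one_mul, hFe, hFv, map_sum]
      congr 1
      exact Finset.sum_congr rfl fun i _ => by rw [map_mul, eval_C]

end Pool.ThmP
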