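import Pool.Agent.Work.MP_f82ddf_M0.Interface4
import Pool.Agent.Work.MP_f82ddf_M.Core
import Pool.Agent.Work.MP_f82ddf_M1.Defs

set_option autoImplicit false

/-! # THEOREM P (MP_f82ddf_nt): varieties with a finite morphism to projective space, ramified over
many hyperplanes

`X` is a projective variety over `K`, `g : X → P^n` a finite morphism over the algebraic closure `Ω`
of `K`, `H_0, .., H_N` hyperplanes over `Ω` such that `g^* H_j` is divisible by `k` as a Cartier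
divisor on `X` for every `j`.

(i), (ii) If at most `c` of the `H_j` pass through any point of `g(X)` and `N ≥ N₀(n, c)`, then the
entire curves in `X_σ` have Zariski closures of dimension at most `n / k`, and for `n < 2 k` the
hyperbolicity of `X_σ` is decided by the rational and elliptic curves in `X`.
(iii) If the `H_j`, as points of the dual space, are not on a hypersurface of degree at most `D(n)`,
then `X_σ` is hyperbolic.

The field `Ω` is any algebraically closed field with a homomorphism from `K` in most of the blocks;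
points of `X` with values in a field `κ` are taken with respect to a homomorphism `τ : Ω →+* κ`. -/

namespace Pool.ThmP

open MvPolynomial Finset Pool.Agent.Work.MP_f82ddf_nt Pool.Agent.Work.MP_f82ddf_nt.DQ Pool.ThmM
  Pool.ThmM0

/-! ## Definitions -/

/-- `v` is a point with coordinates in `Ω` of the affine cone over the projective variety `X` which
is given by `S`. -/
def OnX {K Ω : Type} [Field K] [Field Ω] [Algebra K Ω] {m : ℕ}
    (S : Set (MvPolynomial (Fin (m + 1)) K)) (v : Fin (m + 1) → Ω) : Prop :=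
  ∀ F ∈ S, aeval v F = 0

/-- A morphism, defined over `Ω`, from the projective variety `X` which is given by `S` to the
projective space of dimension `n`: a set of tuples of forms, the forms of a tuple having the same
degree, such that any two tuples are proportional at every point of `X` and at every point of `X`
one of the tuples is not zero. -/
structure Mor (K Ω : Type) [Field K] [Field Ω] [Algebra K Ω] (m n : ℕ)
    (S : Set (MvPolynomial (Fin (m + 1)) K)) where
  tuples : Set (Fin (n + 1) → MvPolynomial (Fin (m + 1)) Ω)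
  homogeneous : ∀ s ∈ tuples, ∃ e, ∀ c, (s c).IsHomogeneous e
  compatible : ∀ s ∈ tuples, ∀ t ∈ tuples, ∀ v : Fin (m + 1) → Ω, OnX S v →
    ∀ c d, eval v (s c) * eval v (t d) = eval v (s d) * eval v (t c)
  defined : ∀ v : Fin (m + 1) → Ω, v ≠ 0 → OnX S v → ∃ s ∈ tuples, ∃ c, eval v (s c) ≠ 0

section

variable {K Ω : Type} [Field K] [Field Ω] [Algebra K Ω] {m n : ℕ}
  {S : Set (MvPolynomial (Fin (m + 1)) K)}

/-- The morphism `g` has finite fibres (so it is a finite morphism, `X` being projective): for every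
point `w` of the projective space there are only finitely many points of `X` mapped to `w`. -/
def Mor.Finite (g : Mor K Ω m n S) : Prop :=
  ∀ w : Fin (n + 1) → Ω, w ≠ 0 →
    {P : PSpace Ω m | OnX S P.rep ∧ ∀ s ∈ g.tuples, ∀ c d,
      eval P.rep (s c) * w d = eval P.rep (s d) * w c}.Finite

/-- `g` maps the point `v` of `X` into the hyperplane `∑ c, l c * y c = 0`. -/
def Mor.Meets (g : Mor K Ω m n S) (l : Fin (n + 1) → Ω) (v : Fin (m + 1) → Ω) : Prop :=
  ∀ s ∈ g.tuples, ∑ c, l c * eval v (s c) = 0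

/-- The pull back under `g` of the hyperplane `∑ c, l c * y c = 0` is `k` times a Cartier divisor
on `X`: near every point `v` of `X` it is defined by a `k`-th power.  For some tuple `s` of `g`, not
zero at `v`, and forms `a`, `b`, with `a` not zero at `v`, the equation
`a * ∑ c, l c * s c = b ^ k` holds on `X`. -/
def Mor.Divisible (g : Mor K Ω m n S) (k : ℕ) (l : Fin (n + 1) → Ω) : Prop :=
  ∀ v : Fin (m + 1) → Ω, v ≠ 0 → OnX S v →
    ∃ s ∈ g.tuples, (∃ c, eval v (s c) ≠ 0) ∧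
      ∃ (d e : ℕ) (a b : MvPolynomial (Fin (m + 1)) Ω), a.IsHomogeneous d ∧ b.IsHomogeneous e ∧
        eval v a ≠ 0 ∧
        ∀ u, OnX S u → eval u a * ∑ c, l c * eval u (s c) = eval u b ^ k

end

/-- THEOREM P, parts (i) and (ii). -/
def Stmt_P12 : Prop :=
  ∀ n c : ℕ, ∃ N₀ : ℕ, ∀ (k N : ℕ), 2 ≤ k → N₀ ≤ N →
    ∀ (K : Type) [Field K] [NumberField K] (m : ℕ) (S : Set (MvPolynomial (Fin (m + 1)) K)),
      (∀ F ∈ S, ∃ d, F.IsHomogeneous d) →
      ∀ (g : Mor K (AlgebraicClosure K) m n S) (l : Fin (N + 1) → Fin (n + 1) → AlgebraicClosure K),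
        g.Finite →
        (∀ v, v ≠ 0 → OnX S v → {j | g.Meets (l j) v}.ncard ≤ c) →
        (∀ j, g.Divisible k (l j)) →
        (∀ (σ : K →+* ℂ) (f : ℂ → PSpace ℂ m), HolomorphicOn f Set.univ →
          (∀ z, f z ∈ complexPoints S σ) → ImageDimLE f (n / k)) ∧
        (n < 2 * k →
          (∀ σ : K →+* ℂ, KobayashiHyperbolic (complexPoints S σ) ↔
            ¬ Pool.MCL.CubicImage S (AlgebraicClosure K) (algebraMap K (AlgebraicClosure K))) ∧
          (Pool.MCL.CubicImage S (AlgebraicClosure K) (algebraMap K (AlgebraicClosure K)) →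
            ∃ (L : Type) (_ : Field L) (_ : Algebra K L) (_ : FiniteDimensional K L),
              (points S L).Infinite))

/-- THEOREM P, part (iii). -/
def Stmt_P3 : Prop :=
  ∀ n : ℕ, ∃ D : ℕ, ∀ (k N : ℕ), 2 ≤ k →
    ∀ (K : Type) [Field K] [CharZero K] (m : ℕ) (S : Set (MvPolynomial (Fin (m + 1)) K)),
      (∀ F ∈ S, ∃ d, F.IsHomogeneous d) →
      ∀ (g : Mor K (AlgebraicClosure K) m n S) (l : Fin (N + 1) → Fin (n + 1) → AlgebraicClosure K),
        g.Finite → NoHypersurface D l → (∀ j, g.Divisible k (l j)) →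
        ∀ σ : K →+* ℂ, KobayashiHyperbolic (complexPoints S σ)

/-! ## Points with values in other fields -/

/-- `x` is a point with values in `κ` of the affine cone over `X`, with respect to `τ`. -/
def OnK {K Ω κ : Type} [Field K] [Field Ω] [Algebra K Ω] [Field κ] {m : ℕ} (τ : Ω →+* κ)
    (S : Set (MvPolynomial (Fin (m + 1)) K)) (x : Fin (m + 1) → κ) : Prop :=
  ∀ F ∈ S, eval₂ (τ.comp (algebraMap K Ω)) x F = 0

/-- NUL (40 lines).  Nullstellensatz.  PROOF.  Let `I` be the ideal of `Ω[X]` generated by the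
images of the elements of `S` (`MvPolynomial.map (algebraMap K Ω)`) and by `E`.  `G` vanishes on
the zeros of `I`, so `G ∈ I.radical` (`MvPolynomial.vanishingIdeal_zeroLocus_eq_radical` or its
present form; see `exists_over_closure` in MP_f82ddf_nt/Closure.lean, or M0/B_NUS.lean); some power
`G ^ t` is in `I`.  The kernel of `eval₂Hom τ x` contains `I`, so `(eval₂ τ x G) ^ t = 0`. -/
def Stmt_NUL : Prop :=
  ∀ (K Ω κ : Type) [Field K] [Field Ω] [Algebra K Ω] [IsAlgClosed Ω] [Field κ] (m : ℕ)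
    (S : Set (MvPolynomial (Fin (m + 1)) K)) (E : Set (MvPolynomial (Fin (m + 1)) Ω))
    (G : MvPolynomial (Fin (m + 1)) Ω),
    (∀ v : Fin (m + 1) → Ω, OnX S v → (∀ H ∈ E, eval v H = 0) → eval v G = 0) →
    ∀ (τ : Ω →+* κ) (x : Fin (m + 1) → κ), OnK τ S x → (∀ H ∈ E, eval₂ τ x H = 0) →
      eval₂ τ x G = 0

/-- MPT (40 lines), uses NUL.  The morphism at a point with values in `κ`.  PROOF.  (1) Otherwise
`E = {s c | s ∈ g.tuples}` vanishes at `x`; by `g.defined` the only point over `Ω` at which `S` and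
`E` vanish is `0`, so NUL with `G = X i` gives `x i = 0` for all `i`.  (2) NUL with `E = ∅` and
`G = s c * t d - s d * t c`. -/
def Stmt_MPT : Prop :=
  ∀ (K Ω κ : Type) [Field K] [Field Ω] [Algebra K Ω] [IsAlgClosed Ω] [Field κ] (m n : ℕ)
    (S : Set (MvPolynomial (Fin (m + 1)) K)) (g : Mor K Ω m n S) (τ : Ω →+* κ)
    (x : Fin (m + 1) → κ), OnK τ S x →
    (x ≠ 0 → ∃ s ∈ g.tuples, ∃ c, eval₂ τ x (s c) ≠ 0) ∧
    ∀ s ∈ g.tuples, ∀ t ∈ g.tuples, ∀ c d,
      eval₂ τ x (s c) * eval₂ τ x (t d) = eval₂ τ x (s d) * eval₂ τ x (t c)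

/-- HPT (50 lines), uses NUL MPT.  Hyperplanes without common point on `g(X)`.  PROOF.  Let
`E = {∑ c, C (l j c) * s' c | j ∈ J, s' ∈ g.tuples}`.  By the hypothesis `S` and `E` have only the
common zero `0` over `Ω`; so by NUL with `G = X i` (`x ≠ 0`) one element of `E` does not vanish at
`x`: `∑ c, τ (l j c) * s'_c(x) ≠ 0` for some `j ∈ J` and `s' ∈ g.tuples`.  Let `s_d(x) ≠ 0`; by
MPT (2) `s'_c(x) * s_d(x) = s'_d(x) * s_c(x)` for all `c`, so
`s_d(x) * ∑ c, τ (l j c) * s'_c(x) = s'_d(x) * ∑ c, τ (l j c) * s_c(x)`, and the last sum is not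
`0`. -/
def Stmt_HPT : Prop :=
  ∀ (K Ω κ : Type) [Field K] [Field Ω] [Algebra K Ω] [IsAlgClosed Ω] [Field κ] (m n N : ℕ)
    (S : Set (MvPolynomial (Fin (m + 1)) K)) (g : Mor K Ω m n S)
    (l : Fin (N + 1) → Fin (n + 1) → Ω) (J : Finset (Fin (N + 1))),
    (∀ v, v ≠ 0 → OnX S v → ∃ j ∈ J, ¬ g.Meets (l j) v) →
    ∀ (τ : Ω →+* κ) (x : Fin (m + 1) → κ), OnK τ S x → x ≠ 0 → ∀ s ∈ g.tuples,
      (∃ c, eval₂ τ x (s c) ≠ 0) → ∃ j ∈ J, ∑ c, τ (l j c) * eval₂ τ x (s c) ≠ 0

/-- SPT (90 lines), uses MPT HPT.  Specialisation in a valuation ring `V` of `κ` which contains the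
image of `Ω`: if the coordinates `s_c(x)` of `g(x)`, divided by `s_d(x)`, are in `V`, then one of the
linear forms `l j`, `j ∈ J`, is a unit at this point.  PROOF.  Choose `i₁` with `x i₁ ≠ 0` and
`x i / x i₁ ∈ V` for all `i` (an element of maximal valuation: `Finset.exists_max_image` for
`V.valuation`), `x' = x / x i₁`.  The elements of `S` are homogeneous, so `OnK τ S x'`.  Let `p` be
the reduction of `x'` modulo the maximal ideal, with values in the residue field of `V` (residue map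
`IsLocalRing.residue V` after `τ` with codomain restricted to `V`); `p i₁ = 1`, and `OnK _ S p`
because evaluation commutes with ring homomorphisms (`MvPolynomial.eval₂_comp_left`).  MPT: a tuple
`s'` with `s'_(c₁)(p) ≠ 0`.  HPT at `p`: `j ∈ J` with `∑ c, l_(j c) s'_c(p) ≠ 0`.  So
`s'_(c₁)(x')` and `∑ c, τ (l j c) * s'_c(x')` are units of `V` (an element of `V` whose residue is
not `0` is a unit), and all the `s'_c(x')` are in `V`.  The vectors `s(x)` (a nonzero multiple of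
`s(x')`: forms of the same degree) and `s'(x')` are proportional by MPT (2) at `x'`, both not zero:
`s_c(x) / s_d(x) = s'_c(x') / s'_d(x')`, with `s'_d(x') ≠ 0`.  By hypothesis
`s'_(c₁)(x') / s'_d(x') ∈ V`, and `s'_(c₁)(x')` is a unit, so `1 / s'_d(x') ∈ V`; hence
`(∑ c, τ (l j c) * s_c(x)) / s_d(x) = (∑ c, τ (l j c) * s'_c(x')) / s'_d(x')` is a unit times the
inverse of an element of `V`; it is not a nonunit (if it was in `V.nonunits`, then so would be its
product with `s'_d(x') ∈ V`, which is a unit). -/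
def Stmt_SPT : Prop :=
  ∀ (K Ω κ : Type) [Field K] [Field Ω] [Algebra K Ω] [IsAlgClosed Ω] [Field κ] (m n N : ℕ)
    (S : Set (MvPolynomial (Fin (m + 1)) K)) (g : Mor K Ω m n S)
    (l : Fin (N + 1) → Fin (n + 1) → Ω) (J : Finset (Fin (N + 1))),
    (∀ F ∈ S, ∃ d, F.IsHomogeneous d) →
    (∀ v, v ≠ 0 → OnX S v → ∃ j ∈ J, ¬ g.Meets (l j) v) →
    ∀ (τ : Ω →+* κ) (V : ValuationSubring κ), (∀ a, τ a ∈ V) →
    ∀ (x : Fin (m + 1) → κ), OnK τ S x → x ≠ 0 → ∀ s ∈ g.tuples, ∀ d, eval₂ τ x (s d) ≠ 0 →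
      (∀ c, eval₂ τ x (s c) / eval₂ τ x (s d) ∈ V) →
      ∃ j ∈ J, (∑ c, τ (l j c) * eval₂ τ x (s c)) / eval₂ τ x (s d) ∉ V.nonunits

/-- the homomorphism from `Ω` to `Mer` -/
noncomputable def tm {Ω : Type} [Field Ω] (τ : Ω →+* ℂ) : Ω →+* Mer := (algebraMap ℂ Mer).comp τ

/-- VAL (90 lines), uses SPT.  The coordinates `y_c = s_c(x)` of `g(x)` are algebraic over the ring
generated by the quotients of the `z_j = l_j(y)`, `j ∈ J`.  PROOF.  Let `z_j = ∑ c, l_(j c) y_c`
(via `tm τ`), `A = Algebra.adjoin ℂ {z_j / z_(j₀) | j ∈ J}`, and suppose that `t = y_c / z_(j₀)` is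
transcendental over `A`; in particular `t ≠ 0`.  Let `R₁ = A[t⁻¹]` (a subring of `Mer`) and `I` the
ideal of `R₁` generated by `t⁻¹`.  `I ≠ ⊤`: otherwise `1 = t⁻¹ p(t⁻¹)` with a polynomial `p` over
`A`; multiply by a power of `t`: `t` is a root of a monic polynomial over `A`, against the
hypothesis.  By `Ideal.image_subset_nonunits_valuationSubring` there is a valuation subring `V` of
`Mer` which contains `R₁` with `t⁻¹ ∈ V.nonunits`.  Choose `d` with `y_d ≠ 0` and `y_i / y_d ∈ V`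
for all `i` (maximal valuation; `y ≠ 0` because `z_(j₀) ≠ 0`).  SPT (`τ` replaced by `tm τ`; `V`
contains the constants) gives `j ∈ J` with `z_j / y_d ∉ V.nonunits`.  But
`z_j / y_d = (z_j / z_(j₀)) * t⁻¹ * (y_c / y_d)`, and the nonunits are an ideal of `V`. -/
def Stmt_VAL : Prop :=
  ∀ (K Ω : Type) [Field K] [Field Ω] [Algebra K Ω] [IsAlgClosed Ω] (m n N : ℕ)
    (S : Set (MvPolynomial (Fin (m + 1)) K)) (g : Mor K Ω m n S)
    (l : Fin (N + 1) → Fin (n + 1) → Ω) (J : Finset (Fin (N + 1))),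
    (∀ F ∈ S, ∃ d, F.IsHomogeneous d) →
    (∀ v, v ≠ 0 → OnX S v → ∃ j ∈ J, ¬ g.Meets (l j) v) →
    ∀ (τ : Ω →+* ℂ) (x : Fin (m + 1) → Mer), OnK (tm τ) S x → x ≠ 0 → ∀ s ∈ g.tuples,
    ∀ j₀ ∈ J, ∑ c, tm τ (l j₀ c) * eval₂ (tm τ) x (s c) ≠ 0 → ∀ c,
      IsAlgebraic (Algebra.adjoin ℂ {q : Mer | ∃ j ∈ J,
          q = (∑ c, tm τ (l j c) * eval₂ (tm τ) x (s c)) /
            ∑ c, tm τ (l j₀ c) * eval₂ (tm τ) x (s c)})
        (eval₂ (tm τ) x (s c) / ∑ c, tm τ (l j₀ c) * eval₂ (tm τ) x (s c))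

/-! ## Finite fibres -/

/-- EXT (150 lines).  Extension of homomorphisms to an algebraically closed field (Atiyah and
Macdonald, Proposition 5.23).  PROOF.  Show more generally, by induction on the number of
generators: for a domain `B` generated over the subring `A` by finitely many elements and
`v ∈ B`, `v ≠ 0`, there is `u ∈ A`, `u ≠ 0`, such that every homomorphism `θ : A → Ω` with
`θ(u) ≠ 0` extends to `Θ : B → Ω` with `Θ(v) ≠ 0` (start with the last generator).  One generator,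
`B = A[b]`.  CASE 1: `b` is transcendental over `A`; `v = a_0 b^q + .. + a_q`, `a_0 ≠ 0`, `u = a_0`:
choose `ξ ∈ Ω` with `θ(a_0) ξ^q + .. ≠ 0` (`Ω` is infinite) and `b ↦ ξ`.  CASE 2: `b` is algebraic
over `A`; then so is `v⁻¹` (in the fraction field of `B`); let `a_0, a_0'` be the leading
coefficients of equations for `b` and `v⁻¹` over `A` and `u = a_0 a_0'`.  `θ` extends to
`A[1/u] → Ω` (localization), and `B' = A[1/u][b, v⁻¹]` is integral over `A[1/u]`: there is a prime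
(maximal) ideal of `B'` above the kernel `𝔭` of `θ` (lying over,
`Ideal.exists_ideal_over_prime_of_isIntegral`), its residue ring is an integral extension of
`A[1/u] / 𝔭 ⊆ Ω`, so it embeds in the algebraically closed `Ω` over `A[1/u]` (pass to fraction
fields, `IsAlgClosed.lift`).  `Θ(v) ≠ 0` because `v` is a unit of `B'`.  (Alternative: search
Mathlib for the extension of a homomorphism to a valuation ring, `LocalSubring`,
`exists_factor_valuationRing`.) -/
def Stmt_EXT : Prop :=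
  ∀ (Ω B : Type) [Field Ω] [IsAlgClosed Ω] [CommRing B] [IsDomain B] [Algebra Ω B],
    Algebra.FiniteType Ω B → ∀ A : Subalgebra Ω B, ∃ h : A, h ≠ 0 ∧
      ∀ θ : A →ₐ[Ω] Ω, θ h ≠ 0 → ∃ Θ : B →ₐ[Ω] Ω, ∀ a : A, Θ (a : B) = θ a

/-- FIB (180 lines), uses MPT EXT.  The coordinates of `x` are algebraic over the quotients of the
coordinates `y_c = s_c(x)` of `g(x)` if `g` has finite fibres.  PROOF.  `Mer` is an `Ω`-algebra via
`tm τ`.  Let `x' = x / x i₀`, `t = x i / x i₀ = x' i`, `A₀ = Algebra.adjoin Ω {y_c / y_(c₀)}`.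
If `t` is algebraic over `A₀`, it is algebraic over the larger ring in the claim.  Suppose that `t`
is transcendental over `A₀`.  Let `B = Algebra.adjoin Ω ({x' l} ∪ {(s_(c₀)(x'))⁻¹})`, a domain of
finite type over `Ω` (`s_(c₀)(x') ≠ 0` because `s_(c₀)(x) = (x i₀)^e s_(c₀)(x')`).  It contains
`t` and `y_c / y_(c₀) = s_c(x') / s_(c₀)(x')`, so also `A = A₀[t]`.  EXT for `A ⊆ B`: `h ≠ 0`,
`h = ∑ h_q t^q` with `h_q ∈ A₀`, some `h_q ≠ 0`.  EXT for `⊥ ⊆ A₀[1 / h_q]` gives a homomorphism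
`θ₀ : A₀ → Ω` of `Ω`-algebras with `θ₀(h_q) ≠ 0`.  `A` is a polynomial ring over `A₀` (`t` is
transcendental), so for every `t₀ ∈ Ω` there is `θ : A → Ω` with `θ = θ₀` on `A₀`, `θ(t) = t₀`, and
`θ(h) = ∑ θ₀(h_q) t₀^q ≠ 0` for all but finitely many `t₀`; let `Θ : B → Ω` be an extension and
`p = Θ(x')`.  Then `OnX S p` (`Θ` is a homomorphism of `Ω`-algebras, `OnK (tm τ) S x'` by
homogeneity), `p i₀ = 1`, `p i = t₀`.  Put `w_c = θ₀(y_c / y_(c₀))`, `w_(c₀) = 1`, independent of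
`t₀`.  For every tuple `s'` the identity `s'_c(x) y_d = s'_d(x) y_c` (MPT (2)), divided by
`y_(c₀)` and by a power of `x i₀`, is `s'_c(x') (y_d / y_(c₀)) = s'_d(x') (y_c / y_(c₀))` in `B`;
apply `Θ`: `s'_c(p) w_d = s'_d(p) w_c`.  So the point `[p]` is in the fibre of `w`
(`Projectivization.mk`; its `rep` is a nonzero multiple of `p`, all the conditions are
homogeneous), and different `t₀` give different points (`p i / p i₀ = t₀`): infinitely many, against
`g.Finite`. -/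
def Stmt_FIB : Prop :=
  ∀ (K Ω : Type) [Field K] [Field Ω] [Algebra K Ω] [IsAlgClosed Ω] (m n : ℕ)
    (S : Set (MvPolynomial (Fin (m + 1)) K)) (g : Mor K Ω m n S),
    (∀ F ∈ S, ∃ d, F.IsHomogeneous d) → g.Finite →
    ∀ (τ : Ω →+* ℂ) (x : Fin (m + 1) → Mer), OnK (tm τ) S x → ∀ s ∈ g.tuples,
    ∀ c₀, eval₂ (tm τ) x (s c₀) ≠ 0 → ∀ i i₀, x i₀ ≠ 0 →
      IsAlgebraic (Algebra.adjoin ℂ (Set.range fun c =>
        eval₂ (tm τ) x (s c) / eval₂ (tm τ) x (s c₀))) (x i / x i₀)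

/-! ## Divisibility of the orders -/

/-- ORD (120 lines), uses NUL MPT M1.VAL Chow.OZE.  The orders at `z₀` of the functions
`z_l = ∑ c, l_c y_c`, `y_c = s_c(x)`, are congruent modulo `k` for all the hyperplanes `l` with
divisible pull back.  PROOF.  `μ` = the minimum of the orders `om (y_c) z₀` (an integer because some
`y_c ≠ 0`).  Choose `i₁` with `x i₁ ≠ 0` of minimal order at `z₀` and `x' = x / x i₁`: the `x' i`
are in the local ring `O` at `z₀` (OZE, `LocAt`), with value homomorphism `θ : O → ℂ`; let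
`p = θ(x')`, `p i₁ = 1`; `OnK (tm τ) S x'` (homogeneity) and so `OnK τ S p` (with `κ = ℂ`).  Let `E`
be the set of all `a * s' c₁` where `s' ∈ g.tuples`, `c₁` is an index and `a, b` are forms with
`a * ∑ c, l_c s'_c = b ^ k` at all the points of `X` over `Ω`.  By the hypothesis `g.Divisible k l`
the common zeros of `S` and `E` over `Ω` are `0`; `p ≠ 0`, so by NUL (with `κ = ℂ` and `G = X i₁`)
there are such `s', a, b, c₁` with `a(p) ≠ 0`, `s'_(c₁)(p) ≠ 0`.  So `a(x')` and `s'_(c₁)(x')` are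
elements of `O` of order `0` (`LocAt.zero`).  NUL with `κ = Mer`, `E = ∅` and
`G = a * ∑ c, C (l c) * s' c - b ^ k` gives `a(x') * ∑ c, l_c s'_c(x') = b(x') ^ k` in `Mer`, so the
order of `w = ∑ c, l_c s'_c(x')` is `k * om (b(x')) z₀` (M1.VAL; it is finite if `z_l ≠ 0`).
Proportionality (MPT (2) at `x'`, and `s_c(x) = (x i₁)^e s_c(x')`): `s_c(x) = ν s'_c(x')` with
`ν = s_(c₁)(x) / s'_(c₁)(x')`, so `z_l = ν w`; the `s'_c(x')` are in `O` and `s'_(c₁)(x')` has order
`0`, so `μ = min_c om (s_c(x)) z₀ = om ν z₀`.  Hence `om z_l z₀ = μ + k * om (b(x')) z₀`. -/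
def Stmt_ORD : Prop :=
  ∀ (K Ω : Type) [Field K] [Field Ω] [Algebra K Ω] [IsAlgClosed Ω] (m n k : ℕ)
    (S : Set (MvPolynomial (Fin (m + 1)) K)) (g : Mor K Ω m n S), 1 ≤ k →
    (∀ F ∈ S, ∃ d, F.IsHomogeneous d) →
    ∀ (τ : Ω →+* ℂ) (x : Fin (m + 1) → Mer), OnK (tm τ) S x → ∀ s ∈ g.tuples,
    (∃ c, eval₂ (tm τ) x (s c) ≠ 0) → ∀ z₀ : ℂ, ∃ μ : ℤ, ∀ l : Fin (n + 1) → Ω,
      g.Divisible k l → ∑ c, tm τ (l c) * eval₂ (tm τ) x (s c) ≠ 0 →
      ∃ q : ℤ, om (∑ c, tm τ (l c) * eval₂ (tm τ) x (s c)) z₀ = ((μ + k * q : ℤ) : WithTop ℤ)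

/-- ROL (120 lines).  A local root on a disc: for `f ∈ Mer`, `f ≠ 0`, with all orders divisible by
`k` and `R : ℕ` there is `w : ℂ → ℂ`, meromorphic at every point of the disc of radius `R`, with
`w ^ k = rep f` off a discrete set.  PROOF.  `rep f` is in normal form; its zeros and poles in the
closed disc `|z| ≤ R + 1` are finitely many points `a` (local finiteness of the divisor `dv1 f`,
compactness), of orders `k q_a` (`M1.VAL`: `om f a = dv1 f a`).  Put `P = ∏_a (z - a) ^ (q_a)`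
(integer powers) and `h = rep f * P ^ (- k)`: `h` is meromorphic with order `0` at all points of the
disc `|z| < R + 1`, so its normal form `h₁` (`toMeromorphicNFOn h univ`) is analytic without zeros
there.  A function which is analytic without zeros on a disc is `exp` of an analytic function
there (`h₁' / h₁` has a primitive on the disc: `DifferentiableOn.isExactOn_ball` or the present
Mathlib name; the quotient `h₁ / exp(primitive)` has derivative 0).  So `h₁ = η ^ k` with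
`η = exp (primitive / k)` times a constant; `w = P * η`. -/
def Stmt_ROL : Prop :=
  ∀ (k : ℕ) (f : Mer), 1 ≤ k → f ≠ 0 →
    (∀ z₀, ∃ q : ℤ, om f z₀ = ((k * q : ℤ) : WithTop ℤ)) → ∀ R : ℕ,
    ∃ w : ℂ → ℂ, (∀ z ∈ Metric.ball (0 : ℂ) R, MeromorphicAt w z) ∧
      ∀ z₀ ∈ Metric.ball (0 : ℂ) R, ∀ᶠ z in nhdsWithin z₀ {z₀}ᶜ, w z ^ k = rep f z

/-- ROO (150 lines), uses ROL.  A meromorphic function on the plane all of whose orders are divisible
by `k` is a `k`-th power.  PROOF.  Let `w_R` be the functions of ROL for `R = 1, 2, ..`.  On the disc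
of radius `R` the function `w_(R+1) / w_R` is meromorphic, its `k`-th power is `1` off a discrete
set; near every point it is a constant off a discrete set (it takes only the finitely many values of
the `k`-th roots of unity and is continuous off a discrete set), and the disc is connected
(`IsPreconnected`; the set of points near which it is equal to a given `ζ` is open and closed), so it
is a constant `ζ_R` off a discrete set.  Put `ε_1 = 1`, `ε_(R+1) = ε_R / ζ_R` and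
`w(z) = ε_R w_R(z)` with `R = ⌊|z|⌋ + 1`.  For `R' ≥ R` the functions `ε_(R') w_(R')` and
`ε_R w_R` agree off a discrete set on the disc of radius `R`; so near every `z₀`, off a discrete
set, `w` agrees with `ε_R w_R` for every `R > |z₀|` (the two or three values of `⌊|z|⌋ + 1` near
`z₀`), is meromorphic at `z₀`, and `w ^ k = rep f`.  The class of `w` in `Mer` is the root. -/
def Stmt_ROO : Prop :=
  ∀ (k : ℕ) (f : Mer), 1 ≤ k → f ≠ 0 →
    (∀ z₀, ∃ q : ℤ, om f z₀ = ((k * q : ℤ) : WithTop ℤ)) → ∃ w : Mer, f = w ^ k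

/-- KTH (40 lines), uses ORD ROO M1.VAL.  PROOF.  `z_l / z_(l')` has orders
`(μ + k q) - (μ + k q') = k (q - q')` (M1.VAL (1): the order of a quotient is the difference). -/
def Stmt_KTH : Prop :=
  ∀ (K Ω : Type) [Field K] [Field Ω] [Algebra K Ω] [IsAlgClosed Ω] (m n k : ℕ)
    (S : Set (MvPolynomial (Fin (m + 1)) K)) (g : Mor K Ω m n S), 1 ≤ k →
    (∀ F ∈ S, ∃ d, F.IsHomogeneous d) →
    ∀ (τ : Ω →+* ℂ) (x : Fin (m + 1) → Mer), OnK (tm τ) S x → ∀ s ∈ g.tuples,
    ∀ l l' : Fin (n + 1) → Ω, g.Divisible k l → g.Divisible k l' →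
      ∑ c, tm τ (l' c) * eval₂ (tm τ) x (s c) ≠ 0 →
      ∃ w : Mer, (∑ c, tm τ (l c) * eval₂ (tm τ) x (s c)) /
        (∑ c, tm τ (l' c) * eval₂ (tm τ) x (s c)) = w ^ k

/-! ## CORE for spanning sets of nodes, and the descent to the span -/

/-- CRB (50 lines), uses Chow.CORE ThmM.TRA (`Pool.ThmM.Chow.Stmt_CORE`, `Pool.ThmM.Stmt_TRA`).
PROOF.  A copy of M0/B_COREH.lean; the condition on the orthogonal complement is now a hypothesis. -/
def Stmt_CRB : Prop :=
  ∀ r w d : ℕ, ∃ β : ℕ, ∀ (Q : MvPolynomial (Fin (w + 2)) ℂ)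
      (A : Fin (r + 1) → MvPolynomial (Fin (w + 2)) ℂ) (T : Finset (Fin (r + 1) → ℂ))
      (lift : (Fin (r + 1) → ℂ) → (Fin (w + 2) → ℂ)),
    HypData r w d Q A T lift → β ≤ T.card →
    (∀ (e : ℕ) (f : MvPolynomial (Fin (w + 2)) ℂ), e ≤ β → f.IsHomogeneous e →
        (∀ u ∈ T, eval (lift u) f = 0) → Q ∣ f) →
    (∀ u ∈ T, ∀ v ∈ T, u ≠ v → NonProp u v) →
    (∀ v : Fin (r + 1) → ℂ, (∀ u ∈ T, ∑ i, v i * u i = 0) → v = 0) →
    ∀ (k : ℕ) (x : Fin (r + 1) → Mer), 2 ≤ k → LinearIndependent ℂ x → (∀ i, Per (x i)) →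
      (∀ u ∈ T, ∃ y : Mer, ∑ i, algebraMap ℂ Mer (u i) * x i = y ^ k) →
      ∃ (c : Mer) (Fix : MvPolynomial (Fin 2 × Fin (w + 2)) ℂ)
        (Psi : MvPolynomial (Fin 2 × Fin (w + 2)) Mer),
        Pool.Agent.Work.MP_f82ddf_M5.chow d d (map (algebraMap ℂ Mer) Q)
            (Pool.Agent.Work.MP_f82ddf_M5.comb (algebraMap ℂ Mer) A x) =
          C c * map (algebraMap ℂ Mer) Fix * Psi ^ k

/-- CDP (200 lines), uses CRB ThmM.T3 M5.P5 ThmM0.TRD (`Pool.ThmM.Stmt_T3`,
`Pool.Agent.Work.MP_f82ddf_M5.Stmt_P5`, `Pool.ThmM0.Stmt_TRD`).  PROOF by strong induction on `r`.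
Let `B` be the maximum of the numbers `N₁(r', b)` for `r' < r`, and apply T3 to
`β(w, d) = max (max b B) (max 2 (number of CRB for r w d))`.  Let `S` be given, `T ⊆ S` from T3.
CASE 1: no `v ≠ 0` is orthogonal to all of `T`.  As in M0/B_CDM.lean: CRB and P5 (with `M = Mer`)
show that `q * k ≤ r` whenever `q` quotients `x (ι j) / x i₀` are algebraically independent
(`Data.nd`: if `Q ∣ ∑ y_i A_i`, evaluate at `lift u`: `y` is orthogonal to all `u ∈ T`).  Let the `m`
quotients of the claim, `p_j = ⟨τ_j, x⟩ / ⟨u₀, x⟩`, be independent; they are in the field generated by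
the `t_i = x i / x 0` (`x 0 ≠ 0`), so by TRD (with exponent 1) `m` of the `t_i` are independent,
and `m * k ≤ r`.  CASE 2: the span `W` of `T` in `ℂ^(r+1)` is not everything (if it was, `v ≠ 0`
could not be orthogonal to all of it).  `T` has two non proportional elements, so
`dim W = r' + 1` with `r' < r`.  Let `v_0, .., v_(r')` be a basis of `W` (`Module.finBasisOfFinrankEq`)
and `c(u) ∈ ℂ^(r'+1)` the coordinates of `u ∈ W`.  `x'_i = ⟨v_i, x⟩` are linearly independent over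
`ℂ` (a relation is `⟨∑ a_i v_i, x⟩ = 0`, so `∑ a_i v_i = 0`), periodic (`Per` is stable under linear
combinations), and `⟨c(u), x'⟩ = ⟨u, x⟩` for `u ∈ W`, a `k`-th power for `u ∈ T`.  The set
`T' = c(T)` has the cardinality of `T` and pairwise non proportional elements.  The induction
hypothesis for `r'` gives `T'' ⊆ T'`; take the elements of `T` with `c(u) ∈ T''`; `m * k ≤ r' ≤ r`. -/
def Stmt_CDP : Prop :=
  ∀ r b : ℕ, ∃ N₁ : ℕ, ∀ S : Finset (Fin (r + 1) → ℂ),
    (∀ u ∈ S, ∀ v ∈ S, u ≠ v → NonProp u v) → N₁ ≤ S.card →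
    ∀ (k : ℕ) (x : Fin (r + 1) → Mer), 2 ≤ k → LinearIndependent ℂ x → (∀ i, Per (x i)) →
      (∀ u ∈ S, ∃ y : Mer, ∑ i, algebraMap ℂ Mer (u i) * x i = y ^ k) →
      ∃ T ⊆ S, b ≤ T.card ∧
        ∀ (m : ℕ) (u₀ : Fin (r + 1) → ℂ) (τ : Fin m → Fin (r + 1) → ℂ), u₀ ∈ T →
          (∀ j, τ j ∈ T) →
          AlgebraicIndependent ℂ (fun j => (∑ i, algebraMap ℂ Mer (τ j i) * x i) /
            ∑ i, algebraMap ℂ Mer (u₀ i) * x i) → m * k ≤ r

/-- LGP (150 lines), uses CRB ThmM0.CH1 ThmM0.CPW.  Nodes not on a hypersurface of low degree.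
PROOF.  A copy of M0/B_LGN.lean (read its docstring in M0/Interface3.lean) with CRB instead of
COREH; the condition that no `v ≠ 0` is orthogonal to all of `S` follows from the hypothesis for the
form `∑ v_i X_i` of degree `1 ≤ β`. -/
def Stmt_LGP : Prop :=
  ∀ r : ℕ, 1 ≤ r → ∃ β : ℕ, ∀ S : Finset (Fin (r + 1) → ℂ),
    (∀ u ∈ S, ∀ v ∈ S, u ≠ v → NonProp u v) →
    (∀ (e : ℕ) (G : Pr r), e ≤ β → G.IsHomogeneous e → G ≠ 0 → ∃ u ∈ S, eval u G ≠ 0) →
    ∀ (k : ℕ) (x : Fin (r + 1) → Mer), 2 ≤ k → LinearIndependent ℂ x → (∀ i, Per (x i)) →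
      (∀ u ∈ S, ∃ y : Mer, ∑ i, algebraMap ℂ Mer (u i) * x i = y ^ k) → False

/-! ## Assembly for points with values in `Mer` -/

/-- BAS (60 lines).  PROOF.  The span of the finitely many `y_c` has dimension `ρ + 1 ≥ 1`; choose a
basis among them (as in M0/B_SPN.lean) and write the `y_c` in this basis; `b (ι i) = e_i`, so the
columns of `b` are independent, and `ρ + 1 ≤ n + 1`. -/
def Stmt_BAS : Prop :=
  ∀ (n : ℕ) (y : Fin (n + 1) → Mer), y ≠ 0 →
    ∃ (ρ : ℕ) (ι : Fin (ρ + 1) → Fin (n + 1)) (b : Matrix (Fin (n + 1)) (Fin (ρ + 1)) ℂ),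
      ρ ≤ n ∧ LinearIndependent ℂ (fun i => y (ι i)) ∧
      (∀ c, y c = ∑ i, algebraMap ℂ Mer (b c i) * y (ι i)) ∧
      LinearIndependent ℂ (fun (i : Fin (ρ + 1)) c => b c i)

/-- REP (80 lines).  Many pairwise non proportional vectors.  PROOF.  Choose a set `S` of pairwise
non proportional nonzero vectors `u_j` of maximal cardinality; every nonzero `u_l` is a multiple of an
element of `S`; for `v = u_j ∈ S` at most `c` of the `u_l` are multiples of `v`, and at most `c` of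
the `u_l` are `0`: `M ≤ c + c * S.card`, so `N₁ ≤ S.card`.  (`NonProp u v` for nonzero non proportional
vectors: see M0/B_SEL.lean.) -/
def Stmt_REP : Prop :=
  ∀ (ρ c M N₁ : ℕ) (u : Fin M → Fin (ρ + 1) → ℂ),
    (Finset.univ.filter fun j => u j = 0).card ≤ c →
    (∀ j, u j ≠ 0 → {l | ∃ a : ℂ, u l = a • u j}.ncard ≤ c) →
    c + c * N₁ < M →
    ∃ S : Finset (Fin (ρ + 1) → ℂ), (∀ v ∈ S, ∀ v' ∈ S, v ≠ v' → NonProp v v') ∧ N₁ ≤ S.card ∧
      (∀ v ∈ S, v ≠ 0 ∧ ∃ j, u j = v)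

/-- TRX (80 lines).  Transitivity of algebraic dependence.  PROOF.  As `TRD_main` in
M0/B_TRD.lean, with `AlgebraicIndependent.matroid ℂ Mer`: `A ⊆ closure B`, so
`closure A ⊆ closure B`, the `p_j` are in `closure B`, so a basis of `B` has at least `m` elements. -/
def Stmt_TRX : Prop :=
  ∀ (m : ℕ) (p : Fin m → Mer) (A B : Set Mer), AlgebraicIndependent ℂ p →
    (∀ j, IsAlgebraic (Algebra.adjoin ℂ A) (p j)) →
    (∀ a ∈ A, IsAlgebraic (Algebra.adjoin ℂ B) a) →
    ∃ t : Fin m → Mer, (∀ j, t j ∈ B) ∧ AlgebraicIndependent ℂ t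

/-- Any `M + 2` coordinates of every point of `X_τ` over `Mer` satisfy a nontrivial homogeneous
relation. -/
def RelP {m : ℕ} (M : ℕ) (x : Fin (m + 1) → Mer) : Prop :=
  ∀ s : Fin (M + 2) → Fin (m + 1), ∃ (e : ℕ) (P : MvPolynomial (Fin (M + 2)) ℂ), P ≠ 0 ∧
    P.IsHomogeneous e ∧ aeval (fun i => x (s i)) P = 0

/-- ALJ (80 lines), uses VAL FIB TRX ThmM0.HOMR (`Pool.ThmM0.Stmt_HOMR`).  If `M + 2` coordinates of
`x` satisfy no homogeneous relation, then `M + 1` of the quotients `z_j / z_(j₀)`, `j ∈ J`, are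
algebraically independent.  PROOF.  `x (r 0) ≠ 0` (the relation `X_0` of degree 1); HOMR: the
`p_i = x (r (i+1)) / x (r 0)`, `i ≤ M`, are algebraically independent.  They are algebraic over
`Algebra.adjoin ℂ {y_c / y_(c₀)}` (FIB, `c₀` with `y_(c₀) ≠ 0`: it exists because `z_(j₀) ≠ 0`), and
`y_c / y_(c₀) = (y_c / z_(j₀)) / (y_(c₀) / z_(j₀))` is algebraic over
`Algebra.adjoin ℂ {z_j / z_(j₀) | j ∈ J}` (VAL; inverses and products of algebraic elements are
algebraic, `IsAlgebraic.inv`, `IsAlgebraic.mul`).  TRX. -/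
def Stmt_ALJ : Prop :=
  ∀ (K Ω : Type) [Field K] [Field Ω] [Algebra K Ω] [IsAlgClosed Ω] (m n N M : ℕ)
    (S : Set (MvPolynomial (Fin (m + 1)) K)) (g : Mor K Ω m n S)
    (l : Fin (N + 1) → Fin (n + 1) → Ω) (J : Finset (Fin (N + 1))),
    (∀ F ∈ S, ∃ d, F.IsHomogeneous d) → g.Finite →
    (∀ v, v ≠ 0 → OnX S v → ∃ j ∈ J, ¬ g.Meets (l j) v) →
    ∀ (τ : Ω →+* ℂ) (x : Fin (m + 1) → Mer), OnK (tm τ) S x → ∀ s ∈ g.tuples,
    ∀ j₀ ∈ J, ∑ c, tm τ (l j₀ c) * eval₂ (tm τ) x (s c) ≠ 0 →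
    ∀ r : Fin (M + 2) → Fin (m + 1),
      (∀ (e : ℕ) (P : MvPolynomial (Fin (M + 2)) ℂ), P ≠ 0 → P.IsHomogeneous e →
        aeval (fun i => x (r i)) P ≠ 0) →
      ∃ t : Fin (M + 1) → Mer, AlgebraicIndependent ℂ t ∧
        ∀ i, ∃ j ∈ J, t i = (∑ c, tm τ (l j c) * eval₂ (tm τ) x (s c)) /
          ∑ c, tm τ (l j₀ c) * eval₂ (tm τ) x (s c)

/-- ONP (200 lines), uses MPT HPT KTH CDP BAS REP ALJ ThmM0.EXPO.  PROOF.  Let `N₁` be the maximum
over `ρ ≤ n` of the numbers of CDP for `(ρ, c + 1)`, increased by 1, and `N₀ = c + c * N₁ + 1`.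
Suppose that the coordinates `x ∘ r`, `r : Fin (M + 2) → Fin (m + 1)`, satisfy no relation,
`n < (M + 1) k`; so `x ≠ 0`.  MPT: `s` with `y = s(x) ≠ 0`, `y_c = s_c(x)`.  BAS for `y`:
`ρ, ι, b`, `x'_i = y (ι i)`.  `z_j = ∑ c, l_(j c) y_c = ∑ i, u_(j i) x'_i` with
`u_(j i) = ∑ c, τ(l_(j c)) b_(c i)`; `z_j = 0` iff `u_j = 0`.
(a) At most `c` of the `u_j` are `0`: otherwise let `J` be `c + 1` such `j`; every point `v ≠ 0` of
`X` over `Ω` has at most `c` hyperplanes with `Meets`, so the hypothesis of HPT holds and some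
`z_j ≠ 0`, `j ∈ J`.
(b) For `u_j ≠ 0` the set of the `j'` with `u_(j') ∈ ℂ u_j` has at most `c` elements: otherwise
choose `c + 1` elements of it, `j` among them: `J`.  By ALJ (`j₀ = j`) there are algebraically
independent elements `t_i = z_(j') / z_j`, `j' ∈ J`; but these are constants: contradiction
(`t_0` is algebraic; `M + 1 ≥ 1`).
REP (`M = N + 1`) gives `S₁`, pairwise non proportional nonzero `u_j`, `N₁ ≤ S₁.card`; it is not
empty; fix `j₀` with `u_(j₀) ∈ S₁`, so `z_(j₀) ≠ 0`.  KTH: `z_j / z_(j₀) = w_j ^ k` for all `j`.  Take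
`φ` from EXPO and `x''_i = φ (x'_i / z_(j₀))`: linearly independent over `ℂ`, `Per`, and
`∑ i, u_i x''_i = φ (w_j) ^ k` for `u = u_j ∈ S₁`.  CDP for `(ρ, c + 1)`: `T ⊆ S₁`,
`c + 1 ≤ T.card`.  For every `u ∈ T` choose `j(u)` with `u_(j(u)) = u`; `J` = the set of these
`j(u)`, with `T.card` elements.  `j₁ ∈ J`.  ALJ with `J`, `j₁`: `M + 1` algebraically independent
`t_i = z_(j) / z_(j₁)`, `j ∈ J`; `φ` (injective) preserves the independence
(`AlgebraicIndependent.map'`), and `φ(t_i) = ⟨u_j, x''⟩ / ⟨u_(j₁), x''⟩`.  CDP: `(M + 1) k ≤ ρ ≤ n`: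
contradiction. -/
def Stmt_ONP : Prop :=
  ∀ n c : ℕ, ∃ N₀ : ℕ, ∀ (k N M : ℕ), 2 ≤ k → N₀ ≤ N → n < (M + 1) * k →
    ∀ (K Ω : Type) [Field K] [Field Ω] [Algebra K Ω] [IsAlgClosed Ω] (m : ℕ)
      (S : Set (MvPolynomial (Fin (m + 1)) K)), (∀ F ∈ S, ∃ d, F.IsHomogeneous d) →
      ∀ (g : Mor K Ω m n S) (l : Fin (N + 1) → Fin (n + 1) → Ω), g.Finite →
        (∀ v, v ≠ 0 → OnX S v → {j | g.Meets (l j) v}.ncard ≤ c) →
        (∀ j, g.Divisible k (l j)) →
        ∀ (τ : Ω →+* ℂ) (x : Fin (m + 1) → Mer), OnK (tm τ) S x → RelP M x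

/-- GNP (180 lines), uses MPT KTH FIB BAS LGP ThmM0.NHC ThmM0.PUL ThmM0.CST ThmM0.EXPO.  PROOF.
`D` = the maximum over `1 ≤ ρ ≤ n` of the numbers `β` of LGP, at least 1.  MPT: `s` with
`y = s(x) ≠ 0`; BAS: `ρ, ι, b`; `u_j` as in ONP, `z_j = ∑ c, l_(j c) y_c = ∑ i, u_(j i) x'_i`.
NHC (`σ := τ`) and PUL: no nonzero form of degree `≤ D` vanishes at all the `u_j` (the
columns of `b` are independent).  CASE `ρ ≥ 1`: let `S₁` be a maximal set of pairwise `NonProp`
vectors among the nonzero `u_j`; a form of degree `1 ≤ e ≤ D` vanishing on `S₁` vanishes at all the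
`u_j`, and a nonzero constant does not vanish on `S₁`, which is not empty (if all `u_j = 0` then the
form `X_0` vanishes at all the `u_j`).  Fix `j₀` with `u_(j₀) ∈ S₁`; `x''_i = φ (x'_i / z_(j₀))` as in
ONP; KTH; LGP: contradiction.  CASE `ρ = 0`: `y_c = b_(c 0) y_(ι 0)`, so all the quotients
`y_c / y_(c₀)` are constants, `c₀ = ι 0`; FIB: `x i / x i₀` is algebraic over
`Algebra.adjoin ℂ (range (y_c / y_(c₀)))`; CST: it is a constant. -/
def Stmt_GNP : Prop :=
  ∀ n : ℕ, ∃ D : ℕ, ∀ (k N : ℕ), 2 ≤ k →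
    ∀ (K Ω : Type) [Field K] [Field Ω] [Algebra K Ω] [IsAlgClosed Ω] (m : ℕ)
      (S : Set (MvPolynomial (Fin (m + 1)) K)), (∀ F ∈ S, ∃ d, F.IsHomogeneous d) →
      ∀ (g : Mor K Ω m n S) (l : Fin (N + 1) → Fin (n + 1) → Ω), g.Finite →
        NoHypersurface D l → (∀ j, g.Divisible k (l j)) →
        ∀ (τ : Ω →+* ℂ) (x : Fin (m + 1) → Mer), OnK (tm τ) S x →
          ∀ i₀ i, x i₀ ≠ 0 → ∃ a : ℂ, x i = algebraMap ℂ Mer a * x i₀

/-! ## The final statements -/

/-- F12 (50 lines), uses ONP ThmM0.IMG ThmM0.PAI P6C (`Pool.MCL.stmt_P6C`).  PROOF of `Stmt_P12`.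
`DimMer S (n / k)` (M0/Interface4.lean): for `σ : K →+* ℂ` let `τ : Ω →+* ℂ`,
`Ω = AlgebraicClosure K`, be an extension (`IsAlgClosed.lift`), so
`(algebraMap ℂ Mer).comp σ = (tm τ).comp (algebraMap K Ω)` and `OnMer σ S x` is `OnK (tm τ) S x`;
ONP with `M = n / k`, `n < (n / k + 1) * k`.  IMG gives (i); PAI (`n < 2 k` gives `n / k ≤ 1`) is
the hypothesis of P6C, which gives (ii) (see the proof of `Stmt_FIA`). -/
def Stmt_F12 : Prop := Stmt_P12

/-- FP3 (40 lines), uses GNP.  PROOF of `Stmt_P3`.  If `X_σ` is not hyperbolic there is a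
nonconstant entire curve (`exists_entire_curve`, Brody/Brody.lean), and `exists_mer_of_curve` gives
`x` over `Mer` with `x i₀ = 1` and `x l` not a constant; extend `σ` to `τ` as in F12; GNP says that
`x l = a * x i₀` is a constant: contradiction (compare M0/B_GEX.lean). -/
def Stmt_FP3 : Prop := Stmt_P3

end Pool.ThmP
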