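import Pool.Agent.Work.MP_f82ddf_P.Interface

set_option autoImplicit false

/-! # THEOREM G (MP_f82ddf_nt): coverings of projective space ramified over many hypersurfaces

`g : X → P^n` is a morphism over `Ω`, `H_0, .., H_N` hyperplanes, at most `c` of them through a point
of `g(X)`, `g^* H_j` divisible by `k ≥ 2` for all `j`.  Let `f` be an entire curve in `X` (a point `x`
of `X` with values in `Mer`) and `W` the Zariski closure of the image of `g ∘ f`; its function field is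
generated by the quotients of the coordinates `y_c = s_c(x)` of `g(x)`.

GAS: for all `j` outside a set of at most `N₀(n, c)` indices the restriction of `H_j` to `W` is
divisible by `k` at every valuation ring of the function field of `W`.

By the Veronese map this applies to forms `F_j` of degree `e` in place of the linear forms.  If
`W = P^b` then `F_j` has to be a `k`-th power.  So, if more than `N₀(b, e, c)` of the `F_j` are not
`k`-th powers, the entire curves in `X` are not Zariski dense in the sense that their closures have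
dimension at most `b - 1` (GGL); for `b = 2` Lang's criterion holds for all such `X`. -/

namespace Pool.ThmP

open MvPolynomial Finset Pool.Agent.Work.MP_f82ddf_nt Pool.Agent.Work.MP_f82ddf_nt.DQ Pool.ThmM
  Pool.ThmM0 Pool.Agent.Work.MP_f82ddf_M5

/-! ## Powers up to units -/

/-- The element `a` is a `k`-th power up to a unit of the valuation ring `V` (for `a ≠ 0`). -/
def UPow {L : Type} [Field L] (V : ValuationSubring L) (k : ℕ) (a : L) : Prop :=
  ∃ t : L, t ≠ 0 ∧ a / t ^ k ∈ V ∧ t ^ k / a ∈ V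

theorem UPow.mul {L : Type} [Field L] {V : ValuationSubring L} {k : ℕ} {a : L} (h : UPow V k a)
    (c : L) (hc : c ∈ V) (hc' : c⁻¹ ∈ V) : UPow V k (a * c) := by
  obtain ⟨t, ht, h1, h2⟩ := h
  refine ⟨t, ht, ?_, ?_⟩
  · have : a * c / t ^ k = a / t ^ k * c := by ring
    rw [this]
    exact V.mul_mem _ _ h1 hc
  · have : t ^ k / (a * c) = t ^ k / a * c⁻¹ := by
      rw [div_mul_eq_div_div, div_eq_mul_inv (t ^ k / a)]
    rw [this]
    exact V.mul_mem _ _ h2 hc'

theorem UPow.unit {L : Type} [Field L] (V : ValuationSubring L) (k : ℕ) (c : L) (hc : c ∈ V)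
    (hc' : c⁻¹ ∈ V) : UPow V k c :=
  ⟨1, one_ne_zero, by simpa using hc, by simpa using hc'⟩

/-! ## The Chow form at points of the function field -/

/-- RTF (60 lines).  A polynomial `ψ` with `ψ(0) = 1` whose `k`-th power has coefficients in the
subfield `F` has coefficients in `F`.  PROOF.  Strong induction on `j`: the coefficient `a_j` of
`ψ` is in the range of `ι`.  `j = 0`: it is `1`.  For `j ≥ 1` let `T = ∑_(i < j) a_i s ^ i`, the image
of a polynomial over `F`, and `ψ = T + s ^ j * R`, `R(0) = a_j`.  In `ψ ^ k = T ^ k + k T ^ (k-1) s ^ j R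
+ s ^ (2 j) (..)` the coefficient of `s ^ j` is `coeff_j (T ^ k) + k a_j`, `T(0) = 1` (or: `ψ ^ k - T ^ k`
is the product of `ψ - T = s ^ j R` and `∑_(i < k) ψ ^ i T ^ (k-1-i)`, which has the value `k` at `0`:
`Commute.geom_sum₂_mul`).  The left side and `T ^ k` have coefficients in the range of `ι` and
`k ≠ 0` in `F`. -/
def Stmt_RTF : Prop :=
  ∀ (F M : Type) [Field F] [Field M] [CharZero F] (ι : F →+* M) (k : ℕ), 1 ≤ k →
    ∀ (ψ : Polynomial M) (h : Polynomial F), ψ.coeff 0 = 1 → ψ ^ k = h.map ι →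
      ∃ ρ : Polynomial F, ψ = ρ.map ι

/-- LNR (90 lines), uses RTF.  Values of the Chow form at two numerical points.  PROOF.  Let
`ℓ_i = C (q i) + C (p i - q i) * s` and `Φ(ℓ) ∈ F[s]`, `Fix(ℓ) ∈ ℂ[s]`, `Psi(ℓ) ∈ M[s]` the restrictions
to the line (`eval₂ Polynomial.C ..`), with the value at `q` for `s = 0` and at `p` for `s = 1`.  The
identity of the hypothesis restricted to the line:
`(Φ(ℓ)).map ι = C c * (Fix(ℓ)).map * Psi(ℓ) ^ k`.  At `s = 0`: `ι (Φ(q)) = c Fix(q) Psi(q) ^ k ≠ 0`.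
Let `ψ = C (Psi(q))⁻¹ * Psi(ℓ)`, `ψ(0) = 1`, and `γ = Φ(q) / Fix(q) ∈ F`, `ι γ = c Psi(q) ^ k`.  So
`(Φ(ℓ)).map ι = (C γ * Fix(ℓ)).map ι * ψ ^ k`; by `Polynomial.map_dvd_map'` the polynomial
`C γ * Fix(ℓ)` (over `F`) divides `Φ(ℓ)` over `F`, so `ψ ^ k` is the image of a polynomial over `F`
(cancel).  RTF: `ψ` is the image of `ρ(s)`.  At `s = 1`: `Φ(p) = γ Fix(p) ρ(1) ^ k`
`= (Fix(p) / Fix(q)) * Φ(q) * ρ(1) ^ k`, and `Fix(p) ≠ 0`, `ρ(1) ≠ 0` because `Φ(p) ≠ 0`. -/
def Stmt_LNR : Prop :=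
  ∀ (ν F M : Type) [Field F] [Field M] [Algebra ℂ F] [Algebra ℂ M] (ι : F →ₐ[ℂ] M) (k : ℕ), 1 ≤ k →
    ∀ (Φ : MvPolynomial ν F) (c : M) (Fix : MvPolynomial ν ℂ) (Psi : MvPolynomial ν M),
      map (ι : F →+* M) Φ = C c * map (algebraMap ℂ M) Fix * Psi ^ k →
      ∀ p q : ν → ℂ, eval (fun i => algebraMap ℂ F (p i)) Φ ≠ 0 →
        eval (fun i => algebraMap ℂ F (q i)) Φ ≠ 0 →
        ∃ (a : ℂ) (ρ : F), a ≠ 0 ∧ ρ ≠ 0 ∧ eval (fun i => algebraMap ℂ F (p i)) Φ =
          algebraMap ℂ F a * eval (fun i => algebraMap ℂ F (q i)) Φ * ρ ^ k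

/-- CHN (120 lines), uses NUL M5.LINE M5.PTD M5.FUN (`Pool.Agent.Work.MP_f82ddf_M5.Stmt_LINE`, ..).
For a point `x ≠ 0` with values in a field `κ` containing `ℂ` the Chow form does not vanish at some
numerical point; the same on the lines through a smooth point `v` of `Q = 0`.  PROOF.  For numerical
`p, q` let `R_(p q) = resAt (RingHom.id B) (map C Q) (comb C A X) (C ∘ p) (C ∘ q) d D` in
`B = MvPolynomial (Fin (r + 1)) ℂ` (`comb C A X = ∑ C (X i) * map C (A i)`); by FUN (3), (4) its image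
under `θ = eval₂Hom (algebraMap ℂ κ) x` is the resultant in the claim (`map θ (map C Q) =
map (algebraMap ℂ κ) Q`, `map θ (comb C A X) = comb (algebraMap ℂ κ) A x`).  Suppose that all these are
`0`.  NUL with `K = Ω = ℂ`, `S = ∅`, `E` = the set of the `R_(p q)`, `τ = algebraMap ℂ κ`, `G = X i`
gives `x i = 0` for all `i`, a contradiction, if the only `y ∈ ℂ^(r+1)` at which all the `R_(p q)`
vanish is `y = 0`.  For `y ≠ 0` the form `comb (RingHom.id ℂ) A y` of degree `D` is not divisible by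
`Q` (`Data.nd`), LINE: `chow d D Q (comb (RingHom.id ℂ) A y) ≠ 0`, so it does not vanish at some
numerical point `(p, q)` (`MvPolynomial.funext`), where its value is `R_(p q)(y)` (FUN (5), (3)).  The
second claim in the same way with PTD (`H = 1`). -/
def Stmt_CHN : Prop :=
  ∀ (N r d D : ℕ) (Q : MvPolynomial (Fin N) ℂ) (A : Fin (r + 1) → MvPolynomial (Fin N) ℂ),
    Data N r d D Q A → ∀ (κ : Type) [Field κ] [Algebra ℂ κ] (x : Fin (r + 1) → κ), x ≠ 0 →
      (∃ p q : Fin N → ℂ, resAt (RingHom.id κ) (map (algebraMap ℂ κ) Q)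
        (comb (algebraMap ℂ κ) A x) (fun i => algebraMap ℂ κ (p i))
        (fun i => algebraMap ℂ κ (q i)) d D ≠ 0) ∧
      ∀ (e : ℕ) (v : Fin N → ℂ), d = e + 1 → eval v Q = 0 → (∃ i, eval v (pderiv i Q) ≠ 0) →
        ∃ q : Fin N → ℂ, resAt (RingHom.id κ) (map (algebraMap ℂ κ) Q)
          (comb (algebraMap ℂ κ) A x) (fun i => algebraMap ℂ κ (v i))
          (fun i => algebraMap ℂ κ (q i)) e D ≠ 0

/-- GVA (150 lines), uses LNR CHN M5.FUN M5.IDE.  PROOF.  `x' i₁ = 1` (`ι` is injective).  Let `κ` be the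
residue field of `V` (a `ℂ`-algebra through `V`), `x̄` the reduction of `x'`, `x̄ i₁ = 1`.  CHN: numerical
`(p, q)` and (for `v`) `q'` such that the two resultants for `x̄` are not `0`.  By FUN (3), (4) the same
resultants over `F` for `x'` (which come from resultants over the ring `V`) are elements of `V` with
nonzero reduction, so units of `V`: `α = resAt .. p q (e + 1) D`, `β = resAt .. v q' e D`.  Let
`Φ = chow (e + 1) D (map (algebraMap ℂ F) Q) (comb (algebraMap ℂ F) A x')`.  FUN (6): `map ι Φ` is the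
Chow form for `x / x i₁`, which is `C ((x i₁)⁻¹ ^ (e + 1))` times the Chow form for `x`
(`comb` of a multiple is the multiple, `Polynomial.resultant_C_mul_right`; see the first step of
T_RED.lean), so LNR applies to `Φ`.  By FUN (5) `Φ(p, q) = α` and
`Φ(v, q') = resAt .. v q' (e + 1) D = (-1) ^ D * G(v) * β` (IDE, `Q(v) = 0`) with
`G(v) = ∑ x'_i A_i(v) = a ∑ u_i x'_i = a ζ ≠ 0`.  LNR: `(-1) ^ D a ζ β = a' α ρ ^ k`: `ζ` is a unit of
`V` times `ρ ^ k` (`UPow.mul`). -/
def Stmt_GVA : Prop :=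
  ∀ (N r e D k : ℕ) (Q : MvPolynomial (Fin N) ℂ) (A : Fin (r + 1) → MvPolynomial (Fin N) ℂ),
    1 ≤ k → Data N r (e + 1) D Q A →
    ∀ (F M : Type) [Field F] [Field M] [Algebra ℂ F] [Algebra ℂ M] (ι : F →ₐ[ℂ] M)
      (V : ValuationSubring F), (∀ a : ℂ, algebraMap ℂ F a ∈ V) →
    ∀ (x : Fin (r + 1) → M) (i₁ : Fin (r + 1)) (x' : Fin (r + 1) → F), x i₁ ≠ 0 →
      (∀ i, x' i ∈ V) → (∀ i, ι (x' i) = x i / x i₁) →
    ∀ (c : M) (Fix : MvPolynomial (Fin 2 × Fin N) ℂ) (Psi : MvPolynomial (Fin 2 × Fin N) M),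
      chow (e + 1) D (map (algebraMap ℂ M) Q) (comb (algebraMap ℂ M) A x) =
        C c * map (algebraMap ℂ M) Fix * Psi ^ k →
    ∀ (v : Fin N → ℂ) (a : ℂ) (u : Fin (r + 1) → ℂ), eval v Q = 0 →
      (∃ i, eval v (pderiv i Q) ≠ 0) → a ≠ 0 → (∀ i, eval v (A i) = a * u i) →
      ∑ i, algebraMap ℂ F (u i) * x' i ≠ 0 →
      UPow V k (∑ i, algebraMap ℂ F (u i) * x' i)

/-- CDG (200 lines), uses CRB ThmM.T3 GVA.  The proof is that of CDP (copy B_CDP.lean) with another
conclusion.  CASE 1: no `v ≠ 0` is orthogonal to all of `T`.  CRB gives the factorization of the Chow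
form, `Data (w + 2) r d d Q A` as in CDP.case1, `d = e + 1` (`HypData.hd`).  Let `L, ι, V, u₀, ζ` be as in
the claim.  The span of `T` is everything, so `x_i / ⟨u₀, x⟩ = ι (ξ_i)` with `ξ_i ∈ V` a linear
combination over `ℂ` of the `ζ u`, `u ∈ T`; `∑ i, u₀_i ξ_i = 1` (`ι` is injective), so some `ξ_(i₁)` is
not a nonunit of `V` (the nonunits are closed under linear combinations), i.e. `ξ_(i₁)⁻¹ ∈ V`.  Put
`x' = ξ / ξ_(i₁)`, `ι (x'_i) = x_i / x_(i₁)`.  GVA for `v = lift u` gives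
`UPow V k (∑ i, u_i x'_i)`, and this sum is `ζ u / ξ_(i₁)`; `UPow.mul` with `ξ_(i₁)`.  (`u ≠ 0`, since
`S` has at least two elements, so `⟨u, x⟩ ≠ 0` and `ζ u ≠ 0`.)  CASE 2: the descent to the span of `T`
as in CDP: `⟨c(u), x'⟩ = ⟨u, x⟩` for `u ∈ T`, the induction hypothesis for `ζ' a = ζ (E a)`. -/
def Stmt_CDG : Prop :=
  ∀ r b : ℕ, ∃ N₁ : ℕ, ∀ S : Finset (Fin (r + 1) → ℂ),
    (∀ u ∈ S, ∀ v ∈ S, u ≠ v → NonProp u v) → N₁ ≤ S.card →
    ∀ (k : ℕ) (x : Fin (r + 1) → Mer), 2 ≤ k → LinearIndependent ℂ x → (∀ i, Per (x i)) →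
      (∀ u ∈ S, ∃ y : Mer, ∑ i, algebraMap ℂ Mer (u i) * x i = y ^ k) →
      ∃ T ⊆ S, b ≤ T.card ∧
        ∀ (L : Type) [Field L] [Algebra ℂ L] (ι : L →ₐ[ℂ] Mer) (V : ValuationSubring L),
          (∀ a : ℂ, algebraMap ℂ L a ∈ V) → ∀ u₀ ∈ T, ∀ ζ : (Fin (r + 1) → ℂ) → L,
          (∀ u ∈ T, ζ u ∈ V ∧ ι (ζ u) = (∑ i, algebraMap ℂ Mer (u i) * x i) /
            ∑ i, algebraMap ℂ Mer (u₀ i) * x i) →
          ∀ u ∈ T, UPow V k (ζ u)

/-! ## THEOREM G for points with values in `Mer` -/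

/-- EXV (50 lines).  Extension of valuation rings.  PROOF.  The image of `V` under `ι` is a local
subring of `M` (`LocalSubring.map` or `LocalSubring.range`); by
`LocalSubring.exists_le_valuationSubring` there is a valuation subring `V'` of `M` which dominates it.
If `a ∈ V` then `ι a ∈ V'`; if `a ∉ V` then `a⁻¹ ∈ V` is a nonunit, `ι a⁻¹` is a nonunit of `V'` (local
homomorphism), so `ι a ∉ V'`. -/
def Stmt_EXV : Prop :=
  ∀ (F M : Type) [Field F] [Field M] (ι : F →+* M) (V : ValuationSubring F),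
    ∃ V' : ValuationSubring M, ∀ a, ι a ∈ V' ↔ a ∈ V

/-- The restriction of the hyperplane `a` to the closure of the point `y` of projective space with
values in `Mer` is divisible by `k` at all the valuation rings of the function field: for every field
`L` with a homomorphism `ι` to `Mer` over `ℂ`, every valuation ring `V` of `L` containing `ℂ` and every
chart `c₁` with `y_c / y_(c₁) = ι (η c)`, `η c ∈ V`, the element `∑ a_c η_c` is zero or a `k`-th power up to
a unit of `V`. -/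
def DivAt {n : ℕ} (k : ℕ) (y : Fin (n + 1) → Mer) (a : Fin (n + 1) → ℂ) : Prop :=
  ∀ (L : Type) [Field L] [Algebra ℂ L] (ι : L →ₐ[ℂ] Mer) (V : ValuationSubring L),
    (∀ z : ℂ, algebraMap ℂ L z ∈ V) → ∀ (c₁ : Fin (n + 1)) (η : Fin (n + 1) → L), y c₁ ≠ 0 →
      (∀ c, η c ∈ V) → (∀ c, ι (η c) = y c / y c₁) →
      ∑ c, algebraMap ℂ L (a c) * η c ≠ 0 → UPow V k (∑ c, algebraMap ℂ L (a c) * η c)

/-- GAS (250 lines), uses HPT VAL SPT BAS REP KTH CDG EXV ThmM0.EXPO ThmM0.CST.  THEOREM G.  PROOF.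
Notation as in ONP (copy B_ONP.lean): `B` = the maximum over `ρ ≤ n` of the numbers of CDG for
`(ρ, c + 1)`, increased by 1, `N₀ = c + c * B`; `z_j = ∑ c, l_(j c) y_c = ∑ i, u_(j i) y_(ι i)`.  Let `Bad` be
the set of the `j` for which `DivAt` fails, and suppose `N₀ < Bad.card`; apply REP to the vectors
`u_j`, `j ∈ Bad` (enumerated by `Fin Bad.card`).
(a) At most `c` of the `u_j` are `0` (HPT, as in ONP).
(b) For `u_j ≠ 0`, `j ∈ Bad`, at most `c` of the `u_(j')`, `j' ∈ Bad`, are multiples of `u_j`.  Otherwise let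
`J` be a set of `c + 1` such `j'` containing `j`; VAL (`j₀ = j`): the `y_c / z_j` are algebraic over the
algebra generated by the constants `z_(j') / z_j`, so they are constants (see the proof of
ThmM0.CST, or apply it).  Then for `j` and a witness `L, ι, V, c₁, η` of the failure of `DivAt`,
`ι (∑ c, τ(l_(j c)) η_c) = z_j / y_(c₁)` is a constant `a ≠ 0`, so `∑ .. = algebraMap ℂ L a`, a unit of `V`:
`UPow.unit`, a contradiction.
REP gives `S₁`; `x''_i = φ (y_(ι i) / z_(j₀))` as in ONP; CDG for `(ρ, c + 1)`: `T ⊆ S₁`, `c + 1 ≤ T.card`; for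
`u ∈ T` let `jj u ∈ Bad` with `u_(jj u) = u`, `J = jj(T)`.  Fix one `u₁ ∈ T` and a witness `L, ι, V, c₁, η`
for `jj u₁`.  EXV: `V'` in `Mer` with `ι a ∈ V' ↔ a ∈ V`.  `V'` contains the constants and
`y_c / y_(c₁) = ι (η c)`.  SPT (with `κ = Mer`, `tm τ`, `d = c₁`) gives `j ∈ J` such that `z_j / y_(c₁)` is
not a nonunit of `V'`.  With `θ_j = ∑ c, τ(l_(j c)) η_c ∈ V`, `ι θ_j = z_j / y_(c₁)`: `θ_j⁻¹ ∈ V`.  Let
`j = jj u₀`, `u₀ ∈ T`, and `ζ u = θ_(jj u) / θ_j ∈ V`; `(φ ∘ ι) (ζ u) = φ (z_(jj u) / z_j)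
= ⟨u, x''⟩ / ⟨u₀, x''⟩`.  CDG (with `φ ∘ ι`): `UPow V k (ζ u₁)`, so `UPow V k (θ_(jj u₁))` by `UPow.mul`:
contradiction. -/
def Stmt_GAS : Prop :=
  ∀ n c : ℕ, ∃ N₀ : ℕ, ∀ (k N : ℕ), 2 ≤ k →
    ∀ (K Ω : Type) [Field K] [Field Ω] [Algebra K Ω] [IsAlgClosed Ω] (m : ℕ)
      (S : Set (MvPolynomial (Fin (m + 1)) K)), (∀ F ∈ S, ∃ d, F.IsHomogeneous d) →
      ∀ (g : Mor K Ω m n S) (l : Fin (N + 1) → Fin (n + 1) → Ω),
        (∀ v, v ≠ 0 → OnX S v → {j | g.Meets (l j) v}.ncard ≤ c) →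
        (∀ j, g.Divisible k (l j)) →
        ∀ (τ : Ω →+* ℂ) (x : Fin (m + 1) → Mer), OnK (tm τ) S x → x ≠ 0 → ∀ s ∈ g.tuples,
          (∃ c, eval₂ (tm τ) x (s c) ≠ 0) →
          ∃ J : Finset (Fin (N + 1)), J.card ≤ N₀ ∧
            ∀ j ∉ J, DivAt k (fun c => eval₂ (tm τ) x (s c)) (fun c => τ (l j c))

/-! ## The case in which the image is dense in projective space -/

/-- UFK (60 lines).  PROOF.  `MvPolynomial σ ℂ` is factorial.  The count of every element in the
multiset `normalizedFactors G` (`UniqueFactorizationMonoid`, with a `NormalizationMonoid` instance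
obtained by choice, or `Associates.factors`) is divisible by `k`, so the multiset is `k • s`
(`Multiset.exists_smul_of_dvd_count`) and `G` is `s.prod ^ k` times a unit, which is a constant
(`MvPolynomial.isUnit_iff_eq_C_of_isReduced` or similar), a `k`-th power in `ℂ`. -/
def Stmt_UFK : Prop :=
  ∀ (b k : ℕ), 1 ≤ k → ∀ G : MvPolynomial (Fin b) ℂ, G ≠ 0 →
    (∀ P, Irreducible P → P ∣ G → ∃ (q : ℕ) (a : MvPolynomial (Fin b) ℂ),
      G = P ^ (k * q) * a ∧ ¬ P ∣ a) → ∃ G₁, G = G₁ ^ k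

/-- The form `G` with the variable `i` replaced by `1`, as a polynomial in the other variables. -/
noncomputable def dehom {b : ℕ} (i : Fin (b + 1)) :
    MvPolynomial (Fin (b + 1)) ℂ →ₐ[ℂ] MvPolynomial (Fin b) ℂ :=
  aeval (i.insertNth (α := fun _ => MvPolynomial (Fin b) ℂ) 1 X)

/-- The coordinates `y` satisfy no homogeneous relation over `ℂ`. -/
def NoRel {b : ℕ} (y : Fin (b + 1) → Mer) : Prop :=
  ∀ (e : ℕ) (P : MvPolynomial (Fin (b + 1)) ℂ), P ≠ 0 → P.IsHomogeneous e → aeval y P ≠ 0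

/-- The restriction of the hypersurface `G` to the closure of the point `y` of projective space with
values in `Mer` is divisible by `k` at all the valuation rings of the function field. -/
def DivAtF {b : ℕ} (k : ℕ) (y : Fin (b + 1) → Mer) (G : MvPolynomial (Fin (b + 1)) ℂ) : Prop :=
  ∀ (L : Type) [Field L] [Algebra ℂ L] (ι : L →ₐ[ℂ] Mer) (V : ValuationSubring L),
    (∀ z : ℂ, algebraMap ℂ L z ∈ V) → ∀ (c₁ : Fin (b + 1)) (η : Fin (b + 1) → L), y c₁ ≠ 0 →
      (∀ c, η c ∈ V) → (∀ c, ι (η c) = y c / y c₁) → aeval η G ≠ 0 → UPow V k (aeval η G)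

/-- PK1 (150 lines), uses UFK ThmM0.HOMR.  PROOF.  `y i ≠ 0` (the relation `X i`).  HOMR for
`q = Fin.cons (y i) (fun j => y (i.succAbove j))` (no homogeneous relations: rename the variables;
`b = b' + 1`): the quotients `y (i.succAbove j) / y i` are algebraically independent, so there is
`ι : L → Mer` over `ℂ` with `T_j ↦ y (i.succAbove j) / y i`, `L = FractionRing R`,
`R = MvPolynomial (Fin b) ℂ` (`IsFractionRing.lift` / `IsFractionRing.liftAlgHom`).  If
`dehom i G = 0` the claim is trivial (`0 = 0 ^ k`).  UFK for `dehom i G`: let `P` be an irreducible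
factor, `dehom i G = P ^ μ * a`, `P ∤ a` (finite multiplicity).  `(P)` is a prime ideal; the local
subring `LocalSubring.ofPrime` of `L` (for the image of `R` in `L`) is dominated by a valuation ring `V`
(`LocalSubring.exists_le_valuationSubring`): `R ⊆ V`, the elements of `R` not divisible by `P` are units
of `V`, `P` is a nonunit.  `DivAtF` with `c₁ = i`, `η = i.insertNth 1 T` (images in `L`): `aeval η G` is the
image of `dehom i G`, so it is `t ^ k` up to a unit of `V`, `t = P ^ ν a₁ / b₁`, `ν ∈ ℤ`, `a₁, b₁ ∈ R` not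
divisible by `P`.  So `P ^ (μ - k ν)` is a unit of `V`, hence `μ = k ν` (a power of the nonunit `P` with
a nonzero exponent is not a unit), `ν ≥ 0`. -/
def Stmt_PK1 : Prop :=
  ∀ (b k : ℕ), 1 ≤ b → 1 ≤ k → ∀ (y : Fin (b + 1) → Mer), NoRel y →
    ∀ G : MvPolynomial (Fin (b + 1)) ℂ, DivAtF k y G → ∀ i, ∃ h, dehom i G = h ^ k

/-- PK2 (130 lines), uses UFK.  PROOF.  `G = 0` is trivial.  Let `dehom i G = h ^ k`, `d` the total
degree of `h` and `H_i = ∑_(l ≤ d) X_i ^ (d - l) * rename i.succAbove (homogeneousComponent l h)`.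
CLAIM: `G * X_i ^ (k d) = X_i ^ e * H_i ^ k`.  Both sides, multiplied by `X_i`, have the same values at
all `y ∈ ℂ^(b+1)` (`MvPolynomial.funext`): for `y_i ≠ 0`, `G(y) = y_i ^ e G(y / y_i)
= y_i ^ e h((y_(succAbove j) / y_i)_j) ^ k` and `H_i(y) = y_i ^ d h((y_(succAbove j) / y_i)_j)`.  Cancel
`X_i`.  UFK for `G`: let `P` be an irreducible factor of `G`.  As `b ≥ 1` there are two variables, and
`P` is not associated to both: choose `i` with `P ∤ X_i` (`X_i` is irreducible, `MvPolynomial.prime_X`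
or similar).  `G = P ^ μ a`, `H_i = P ^ ν a'`, `P ∤ a`, `P ∤ a'`; by the claim
`P ^ μ a X_i ^ (k d) = P ^ (k ν) X_i ^ e a' ^ k`, so `μ = k ν` (`P` is prime and does not divide
the other factors). -/
def Stmt_PK2 : Prop :=
  ∀ (b e k : ℕ), 1 ≤ b → 1 ≤ k → ∀ G : MvPolynomial (Fin (b + 1)) ℂ, G.IsHomogeneous e →
    (∀ i, ∃ h, dehom i G = h ^ k) → ∃ G₁, G = G₁ ^ k

/-- KPD (60 lines), uses EXT.  Descent of a `k`-th root to the algebraically closed field `Ω`.
PROOF.  `ℂ` is an `Ω`-algebra via `τ`; let `B` be the subalgebra generated by the coefficients of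
`G₁`; `G₁` is the image of `G' ∈ B[X]`, and `map (algebraMap Ω B) G = G' ^ k` because `B → ℂ` is
injective.  EXT for `A = ⊥` (isomorphic to `Ω`: `Algebra.botEquiv` gives `θ`, `θ h ≠ 0` by
injectivity) gives `Θ : B →ₐ[Ω] Ω`; apply `map Θ`: `G = (map Θ G') ^ k`. -/
def Stmt_KPD : Prop :=
  ∀ (Ω : Type) [Field Ω] [IsAlgClosed Ω] (τ : Ω →+* ℂ) (b k : ℕ) (G : MvPolynomial (Fin b) Ω)
    (G₁ : MvPolynomial (Fin b) ℂ), map τ G = G₁ ^ k → ∃ G₂ : MvPolynomial (Fin b) Ω, G = G₂ ^ k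

/-! ## Forms of degree `e` and the Veronese map -/

section

variable {K Ω : Type} [Field K] [Field Ω] [Algebra K Ω] {m n : ℕ}
  {S : Set (MvPolynomial (Fin (m + 1)) K)}

/-- `g` maps the point `v` of `X` into the hypersurface `F = 0`. -/
def Mor.MeetsF (g : Mor K Ω m n S) (F : MvPolynomial (Fin (n + 1)) Ω) (v : Fin (m + 1) → Ω) :
    Prop :=
  ∀ s ∈ g.tuples, eval (fun c => eval v (s c)) F = 0

/-- The pull back under `g` of the hypersurface `F = 0` is locally on `X` defined by `k`-th powers. -/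
def Mor.DivisibleF (g : Mor K Ω m n S) (k : ℕ) (F : MvPolynomial (Fin (n + 1)) Ω) : Prop :=
  ∀ v : Fin (m + 1) → Ω, v ≠ 0 → OnX S v →
    ∃ s ∈ g.tuples, (∃ c, eval v (s c) ≠ 0) ∧
      ∃ (d e : ℕ) (a b : MvPolynomial (Fin (m + 1)) Ω), a.IsHomogeneous d ∧ b.IsHomogeneous e ∧
        eval v a ≠ 0 ∧
        ∀ u, OnX S u → eval u a * eval (fun c => eval u (s c)) F = eval u b ^ k

end

/-- VER (150 lines).  The composition with the Veronese map of degree `e`.  PROOF.  The number of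
exponents of degree `e` in `b + 1` variables is `(b + e).choose e ≥ 1`
(`Finset.card_finsuppAntidiag_nat_eq_choose` for `Finset.univ`, `Finset.mem_finsuppAntidiag`):
`ε` enumerates them.  `g'.tuples` as in the claim; homogeneous: the product `∏ i, s i ^ (ε c i)` has
degree `e * e_s`.  compatible: `s i (v) t j (v) = s j (v) t i (v)` for all `i, j`; if
`s(v) = 0` or `t(v) = 0` both sides are `0` (`e ≥ 1`), otherwise `s(v) = λ t(v)`.  defined:
`s i (v) ^ e ≠ 0`.  FINITE: let `w' ≠ 0`; if the fibre is empty it is finite; otherwise let `P₀` be in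
it and `w = s(P₀.rep)` for a tuple `s` which is not zero there: the fibre of `g'` over `w'` is
contained in the fibre of `g` over `w` (for `P` in it and a tuple `t` of `g`: the vectors
`(t(P)^ε)_ε` and `(w^ε)_ε` are both proportional to `w' ≠ 0`, so
`t(P)^ε w^(ε') = t(P)^(ε') w^ε`; let `w_(i₀) ≠ 0`, take `ε = e δ_(i₀)` and
`ε' = (e - 1) δ_(i₀) + δ_j`, resp. `ε'= e δ_j`).  MEETS and DIVISIBLE:
`∑ c, coeff (ε c) F * ∏ i, s i (v) ^ (ε c i) = F(s(v))` for a form `F` of degree `e`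
(`MvPolynomial.eval_eq`, the sum over the support extended to all the exponents of degree `e`). -/
def Stmt_VER : Prop :=
  ∀ (K Ω : Type) [Field K] [Field Ω] [Algebra K Ω] (m b e : ℕ)
    (S : Set (MvPolynomial (Fin (m + 1)) K)) (g : Mor K Ω m b S), 1 ≤ e →
    ∃ (ε : Fin ((b + e).choose e - 1 + 1) → Fin (b + 1) →₀ ℕ)
      (g' : Mor K Ω m ((b + e).choose e - 1) S), Function.Injective ε ∧
      (∀ μ : Fin (b + 1) →₀ ℕ, ∑ i, μ i = e ↔ ∃ c, ε c = μ) ∧
      g'.tuples = {t | ∃ s ∈ g.tuples, t = fun c => ∏ i, s i ^ ε c i} ∧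
      (g.Finite → g'.Finite) ∧
      ∀ F : MvPolynomial (Fin (b + 1)) Ω, F.IsHomogeneous e →
        (∀ v, g'.Meets (fun c => coeff (ε c) F) v ↔ g.MeetsF F v) ∧
        ∀ k, g.DivisibleF k F → g'.Divisible k (fun c => coeff (ε c) F)

/-- NHR (100 lines), uses FIB TRX ThmM0.HOMR.  If some `M + 2` coordinates of `x` satisfy no
homogeneous relation, neither do the coordinates of `g(x)`, `g` finite to the projective space of
dimension `M + 1`.  PROOF.  `y_c = s_c(x)`, `y_(c₀) ≠ 0`.  As in ALJ: `p_i = x (r (i+1)) / x (r 0)`,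
`i : Fin (M + 1)`, are algebraically independent (HOMR) and algebraic over
`Algebra.adjoin ℂ (range (y_c / y_(c₀)))` (FIB).  TRX (`A = B = range (y_c / y_(c₀))`) gives
`t_i = y_(γ i) / y_(c₀)`, `i : Fin (M + 1)`, algebraically independent, so `γ` is injective and
`γ i ≠ c₀` (`1` is algebraic): `γ` is a bijection from `Fin (M + 1)` to the indices `≠ c₀`.  Let `P ≠ 0` be
a form of degree `e` with `P(y) = 0`; then `P(y / y_(c₀)) = 0`, i.e. the polynomial obtained from `P` by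
`X_(c₀) ↦ 1`, `X_(γ i) ↦ T_i` vanishes at `t`; so it is `0`, and then `P = 0`, as different monomials of
`P` (all of degree `e`) go to different monomials (or: `P(v) = v_(c₀) ^ e P(v / v_(c₀)) = 0` for all
`v ∈ ℂ^(M+2)` with `v_(c₀) ≠ 0`, so `X_(c₀) P = 0` by `MvPolynomial.funext`). -/
def Stmt_NHR : Prop :=
  ∀ (K Ω : Type) [Field K] [Field Ω] [Algebra K Ω] [IsAlgClosed Ω] (m M : ℕ)
    (S : Set (MvPolynomial (Fin (m + 1)) K)) (g : Mor K Ω m (M + 1) S),
    (∀ F ∈ S, ∃ d, F.IsHomogeneous d) → g.Finite →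
    ∀ (τ : Ω →+* ℂ) (x : Fin (m + 1) → Mer), OnK (tm τ) S x → ∀ s ∈ g.tuples,
      (∃ c, eval₂ (tm τ) x (s c) ≠ 0) → ∀ r : Fin (M + 2) → Fin (m + 1),
      NoRel (fun i => x (r i)) → NoRel (fun c => eval₂ (tm τ) x (s c))

/-- GGL (150 lines), uses VER GAS PK1 PK2 KPD MPT NHR.  PROOF.  `N₀` from GAS for
`n = (M + 1 + e).choose e - 1` and `c`.  Suppose that for `r : Fin (M + 2) → Fin (m + 1)` there is no
relation: `NoRel (x ∘ r)`; `x ≠ 0`.  MPT: a tuple `s` with some `y_c = s_c(x) ≠ 0`; NHR: `NoRel y`.  VER: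
`g', ε`; `l j c = coeff (ε c) (F j)`; the tuple `s' = (∏ i, s i ^ ε c i)_c` of `g'`, `s'_c(x) = ∏ y_i ^ (ε c i)`
(not zero for the index of `e δ_i`, `y_i ≠ 0`).  GAS: `J`, `J.card ≤ N₀`.  As more than `N₀` of the
`F j` are not `k`-th powers, there is `j ∉ J` such that `F j` is not a `k`-th power.
`DivAtF k y (map τ (F j))`: for `L, ι, V, i, η` as in the definition put `η'_c = ∏ η_i ^ (ε c i) ∈ V`, with
`ι (η'_c) = s'_c(x) / s'_(c₁)(x)` where `ε c₁ = e δ_i`, and
`∑ c, τ(coeff (ε c) (F j)) η'_c = aeval η (map τ (F j))` (a form of degree `e`); DivAt.  PK1, PK2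
(`b = M + 1`): `map τ (F j) = G₁ ^ k`; KPD: `F j = G₂ ^ k`, a contradiction. -/
def Stmt_GGL : Prop :=
  ∀ M e c : ℕ, 1 ≤ e → ∃ N₀ : ℕ, ∀ (k N : ℕ), 2 ≤ k →
    ∀ (K Ω : Type) [Field K] [Field Ω] [Algebra K Ω] [IsAlgClosed Ω] (m : ℕ)
      (S : Set (MvPolynomial (Fin (m + 1)) K)), (∀ F ∈ S, ∃ d, F.IsHomogeneous d) →
      ∀ (g : Mor K Ω m (M + 1) S) (F : Fin (N + 1) → MvPolynomial (Fin (M + 2)) Ω), g.Finite →
        (∀ j, (F j).IsHomogeneous e) →
        (∀ v, v ≠ 0 → OnX S v → {j | g.MeetsF (F j) v}.ncard ≤ c) →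
        (∀ j, g.DivisibleF k (F j)) → N₀ < {j | ¬ ∃ G, F j = G ^ k}.ncard →
        ∀ (τ : Ω →+* ℂ) (x : Fin (m + 1) → Mer), OnK (tm τ) S x → RelP M x

/-! ## The final statements -/

/-- THEOREM G, the dimension bounds. -/
def Stmt_DMF : Prop :=
  ∀ M e c : ℕ, 1 ≤ e → ∃ N₀ : ℕ, ∀ (k N : ℕ), 2 ≤ k →
    ∀ (K : Type) [Field K] (m : ℕ) (S : Set (MvPolynomial (Fin (m + 1)) K)),
      (∀ F ∈ S, ∃ d, F.IsHomogeneous d) →
      ∀ (g : Mor K (AlgebraicClosure K) m (M + 1) S)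
        (F : Fin (N + 1) → MvPolynomial (Fin (M + 2)) (AlgebraicClosure K)), g.Finite →
        (∀ j, (F j).IsHomogeneous e) →
        (∀ v, v ≠ 0 → OnX S v → {j | g.MeetsF (F j) v}.ncard ≤ c) →
        (∀ j, g.DivisibleF k (F j)) → N₀ < {j | ¬ ∃ G, F j = G ^ k}.ncard →
        DimMer S M ∧ DimMer S (((M + 1 + e).choose e - 1) / k)

/-- FDM (60 lines), uses GGL VER ONP.  PROOF of `Stmt_DMF`.  `N₀` = the maximum of the numbers of GGL
and of ONP for `n = (M + 1 + e).choose e - 1`.  Note `N₀ < N + 1` (`Set.ncard_le`).  For `σ : K →+* ℂ`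
an extension `τ` to the algebraic closure as in B_DIM.lean.  The first part is GGL, the second one
ONP for `g'` of VER (finite; `Meets` and `Divisible` by VER) and `n / k`. -/
def Stmt_FDM : Prop := Stmt_DMF

/-- The forms `F j` of degree `e`, as points of the space of forms of degree `e`, are not on a
hypersurface of degree at most `D`. -/
def NoHypersurfaceF {Ω : Type} [Field Ω] {b N : ℕ} (D e : ℕ)
    (F : Fin (N + 1) → MvPolynomial (Fin (b + 1)) Ω) : Prop :=
  ∀ (t : ℕ) (P : MvPolynomial {μ : Fin (b + 1) →₀ ℕ // ∑ i, μ i = e} Ω), t ≤ D →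
    P.IsHomogeneous t → P ≠ 0 → ∃ j, eval (fun μ => coeff μ.1 (F j)) P ≠ 0

/-- THEOREM P (iii) for forms of degree `e`. -/
def Stmt_P3F : Prop :=
  ∀ b e : ℕ, 1 ≤ e → ∃ D : ℕ, ∀ (k N : ℕ), 2 ≤ k →
    ∀ (K : Type) [Field K] [CharZero K] (m : ℕ) (S : Set (MvPolynomial (Fin (m + 1)) K)),
      (∀ F ∈ S, ∃ d, F.IsHomogeneous d) →
      ∀ (g : Mor K (AlgebraicClosure K) m b S)
        (F : Fin (N + 1) → MvPolynomial (Fin (b + 1)) (AlgebraicClosure K)),
        g.Finite → (∀ j, (F j).IsHomogeneous e) → NoHypersurfaceF D e F →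
        (∀ j, g.DivisibleF k (F j)) → ∀ σ : K →+* ℂ, KobayashiHyperbolic (complexPoints S σ)

/-- FPF (60 lines), uses VER, with the hypothesis `Stmt_P3`.  PROOF of `Stmt_P3F`: `Stmt_P3` for `g'` of
VER, `n = (b + e).choose e - 1`, `l j c = coeff (ε c) (F j)`; `NoHypersurface D l` follows from
`NoHypersurfaceF D e F` by renaming the variables by the bijection `ε`. -/
def Stmt_FPF : Prop := Stmt_P3F

end Pool.ThmP
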