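import Pool.Agent.Work.MP_f82ddf_P.Interface3

set_option autoImplicit false

/-! # THEOREM G (MP_f82ddf_nt), second file: morphisms which need not be finite, forms of different
degrees, entire curves -/

namespace Pool.ThmP

open MvPolynomial Finset Pool.Agent.Work.MP_f82ddf_nt Pool.Agent.Work.MP_f82ddf_nt.DQ Pool.ThmM
  Pool.ThmM0 Pool.Agent.Work.MP_f82ddf_M5

/-- GGN (150 lines), uses VER GAS PK1 PK2 KPD.  The main part of the proof of GGL, without the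
finiteness of `g`: the coordinates of `g(x)` satisfy a homogeneous relation. -/
def Stmt_GGN : Prop :=
  ∀ M e c : ℕ, 1 ≤ e → ∃ N₀ : ℕ, ∀ (k N : ℕ), 2 ≤ k →
    ∀ (K Ω : Type) [Field K] [Field Ω] [Algebra K Ω] [IsAlgClosed Ω] (m : ℕ)
      (S : Set (MvPolynomial (Fin (m + 1)) K)), (∀ F ∈ S, ∃ d, F.IsHomogeneous d) →
      ∀ (g : Mor K Ω m (M + 1) S) (F : Fin (N + 1) → MvPolynomial (Fin (M + 2)) Ω),
        (∀ j, (F j).IsHomogeneous e) →
        (∀ v, v ≠ 0 → OnX S v → {j | g.MeetsF (F j) v}.ncard ≤ c) →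
        (∀ j, g.DivisibleF k (F j)) → N₀ < {j | ¬ ∃ G, F j = G ^ k}.ncard →
        ∀ (τ : Ω →+* ℂ) (x : Fin (m + 1) → Mer), OnK (tm τ) S x → x ≠ 0 → ∀ s ∈ g.tuples,
          (∃ c, eval₂ (tm τ) x (s c) ≠ 0) → ¬ NoRel (fun c => eval₂ (tm τ) x (s c))

/-- PIG (80 lines).  PROOF.  The indices `j` with `P j` are covered by the sets
`{j | P j ∧ Q t j}`, `1 ≤ t ≤ e`; if all of these had at most `f t` elements, there would be at most
`∑ f t` of them (`Set.ncard`, convert to `Finset.filter` and use `Finset.card_biUnion_le`).  So some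
`t` has `f t < {j | P j ∧ Q t j}.ncard`; enumerate the nonempty finite set `{j | Q t j}` by
`Fin (N' + 1)` (`Finset.equivFin` or `Finset.orderEmbOfFin`); `{i | P (γ i)}` is mapped bijectively
onto `{j | P j ∧ Q t j}`. -/
def Stmt_PIG : Prop :=
  ∀ (N e : ℕ) (f : ℕ → ℕ) (P : Fin (N + 1) → Prop) (Q : ℕ → Fin (N + 1) → Prop),
    (∀ j, ∃ t, 1 ≤ t ∧ t ≤ e ∧ Q t j) → ∑ t ∈ Finset.Icc 1 e, f t < {j | P j}.ncard →
    ∃ (t N' : ℕ) (γ : Fin (N' + 1) → Fin (N + 1)), 1 ≤ t ∧ t ≤ e ∧ Function.Injective γ ∧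
      (∀ i, Q t (γ i)) ∧ f t < {i | P (γ i)}.ncard

/-- GGX (60 lines), uses GGN PIG.  Forms of different degrees.  PROOF.  `N₀ = ∑_(1 ≤ t ≤ e) N₀(t)`
with the numbers of GGN (for `t = 0` put `0`).  PIG with `P j` = not a `k`-th power, `Q t j` = `F j` is
homogeneous of degree `t`; GGN for `t` and the forms `F (γ i)`; the set of the `i` with
`g.MeetsF (F (γ i)) v` is mapped injectively to the set for `F` (`Set.ncard_le_ncard_of_injOn`). -/
def Stmt_GGX : Prop :=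
  ∀ M e c : ℕ, ∃ N₀ : ℕ, ∀ (k N : ℕ), 2 ≤ k →
    ∀ (K Ω : Type) [Field K] [Field Ω] [Algebra K Ω] [IsAlgClosed Ω] (m : ℕ)
      (S : Set (MvPolynomial (Fin (m + 1)) K)), (∀ F ∈ S, ∃ d, F.IsHomogeneous d) →
      ∀ (g : Mor K Ω m (M + 1) S) (F : Fin (N + 1) → MvPolynomial (Fin (M + 2)) Ω),
        (∀ j, ∃ d, 1 ≤ d ∧ d ≤ e ∧ (F j).IsHomogeneous d) →
        (∀ v, v ≠ 0 → OnX S v → {j | g.MeetsF (F j) v}.ncard ≤ c) →
        (∀ j, g.DivisibleF k (F j)) → N₀ < {j | ¬ ∃ G, F j = G ^ k}.ncard →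
        ∀ (τ : Ω →+* ℂ) (x : Fin (m + 1) → Mer), OnK (tm τ) S x → x ≠ 0 → ∀ s ∈ g.tuples,
          (∃ c, eval₂ (tm τ) x (s c) ≠ 0) → ¬ NoRel (fun c => eval₂ (tm τ) x (s c))

/-- The dimension bounds for forms of different degrees. -/
def Stmt_DMX2 : Prop :=
  ∀ M e c : ℕ, ∃ N₀ : ℕ, ∀ (k N : ℕ), 2 ≤ k →
    ∀ (K : Type) [Field K] (m : ℕ) (S : Set (MvPolynomial (Fin (m + 1)) K)),
      (∀ F ∈ S, ∃ d, F.IsHomogeneous d) →
      ∀ (g : Mor K (AlgebraicClosure K) m (M + 1) S)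
        (F : Fin (N + 1) → MvPolynomial (Fin (M + 2)) (AlgebraicClosure K)), g.Finite →
        (∀ j, ∃ d, 1 ≤ d ∧ d ≤ e ∧ (F j).IsHomogeneous d) →
        (∀ v, v ≠ 0 → OnX S v → {j | g.MeetsF (F j) v}.ncard ≤ c) →
        (∀ j, g.DivisibleF k (F j)) → N₀ < {j | ¬ ∃ G, F j = G ^ k}.ncard →
        DimMer S M ∧ DimMer S (((M + 1 + e).choose (M + 1) - 1) / k)

/-- FDX (80 lines), uses PIG, with the hypothesis `Stmt_DMF`.  PROOF of `Stmt_DMX2`.  As GGX, with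
`Stmt_DMF` for the degree `t` in place of GGN.  `DimMer S a` implies `DimMer S b` for `a ≤ b` (apply it
to the first `a + 2` of the `b + 2` coordinates, `Fin.castLE`, and rename the variables), and
`(M + 1 + t).choose t = (M + 1 + t).choose (M + 1) ≤ (M + 1 + e).choose (M + 1)`
(`Nat.choose_symm_add`, `Nat.choose_le_choose`). -/
def Stmt_FDX : Prop := Stmt_DMX2

/-- CUR (100 lines), uses GGX MPT ThmM0.MREL.  Entire curves.  PROOF.  `exists_mer_of_curve`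
(MP_f82ddf_nt/DQ/Hol2.lean, see M0/B_IMG.lean) gives `φ, x_j = Mer.mk (φ j)`, `OnK (tm τ) S x`, some
`x_i = 1`, so `x ≠ 0`.  MPT: a tuple `s₀` of `g` with `y = s₀(x) ≠ 0`; GGX: a form `P ≠ 0` of degree `d` over `ℂ`
with `P(y) = 0`.  Let `s` be any tuple of `g`.  By MPT (2) `s(x)` is a multiple of `y`, so
`P(s(x)) = 0`: the form `Q = aeval (fun c => map τ (s c)) P` in the variables of `X` vanishes at `x`;
MREL (for all the coordinates, `s = id`) gives `Q((f z).rep) = 0` for all `z`. -/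
def Stmt_CUR : Prop :=
  ∀ M e c : ℕ, ∃ N₀ : ℕ, ∀ (k N : ℕ), 2 ≤ k →
    ∀ (K Ω : Type) [Field K] [Field Ω] [Algebra K Ω] [IsAlgClosed Ω] (m : ℕ)
      (S : Set (MvPolynomial (Fin (m + 1)) K)), (∀ F ∈ S, ∃ d, F.IsHomogeneous d) →
      ∀ (g : Mor K Ω m (M + 1) S) (F : Fin (N + 1) → MvPolynomial (Fin (M + 2)) Ω),
        (∀ j, ∃ d, 1 ≤ d ∧ d ≤ e ∧ (F j).IsHomogeneous d) →
        (∀ v, v ≠ 0 → OnX S v → {j | g.MeetsF (F j) v}.ncard ≤ c) →
        (∀ j, g.DivisibleF k (F j)) → N₀ < {j | ¬ ∃ G, F j = G ^ k}.ncard →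
        ∀ (τ : Ω →+* ℂ) (f : ℂ → PSpace ℂ m), HolomorphicOn f Set.univ →
          (∀ z, f z ∈ complexPoints S (τ.comp (algebraMap K Ω))) →
          ∃ (d : ℕ) (P : MvPolynomial (Fin (M + 2)) ℂ), P ≠ 0 ∧ P.IsHomogeneous d ∧
            ∀ z, ∀ s ∈ g.tuples, eval (fun c => eval₂ τ (f z).rep (s c)) P = 0

end Pool.ThmP
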