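import Pool.Agent.Work.MP_f82ddf_P.Interface4

set_option autoImplicit false

/-! # THEOREM G (MP_f82ddf_nt), third file: hypersurfaces in arbitrary position

The condition that at most `c` of the hypersurfaces `F_j = 0` pass through a point of `g(X)` is
replaced by the condition that no irreducible form divides more than `c` of the `F_j` (for different
irreducible hypersurfaces: `c = 1`, no condition on the position at all).  The conclusion is again
that `g(f)` is not dense in the projective space.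

The reason is that in the proof for a dense curve only the valuations of prime divisors of `P^n` are
used, and that for the Chow form at such a valuation ring (CDG) it is enough that one of the forms
`F_u`, `u ∈ T`, does not vanish on the divisor. -/

namespace Pool.ThmP

open MvPolynomial Finset Pool.Agent.Work.MP_f82ddf_nt Pool.Agent.Work.MP_f82ddf_nt.DQ Pool.ThmM
  Pool.ThmM0

/-- EXI (100 lines), uses M5.WGT (`Pool.Agent.Work.MP_f82ddf_M5.Stmt_WGT`).  PROOF.  `c` from WGT,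
`w_i` = the class in `Mer` of the entire function `z ↦ exp (c_i z)`.  Suppose `aeval w p = 0`.  It is
the class of the function `z ↦ ∑_u p_u exp ((∑_i u_i c_i) z)` (`Mer.mk_add`, `Mer.mk_mul`, ..: see
`mer_eval₂_eq_zero` or the proofs in M0/B_MREL.lean); this continuous function vanishes off a
discrete set, so everywhere.  The numbers `∑_i u_i c_i` are different, the functions
`z ↦ exp (λ z)` for different `λ` are different homomorphisms from `ℂ` (additive) to `ℂ`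
(multiplicative), so they are linearly independent (`linearIndependent_monoidHom` for
`Multiplicative ℂ →* ℂ`; two of them are different because their derivatives at `0` are).  So all
`p_u = 0`. -/
def Stmt_EXI : Prop := ∀ n : ℕ, ∃ w : Fin n → Mer, AlgebraicIndependent ℂ w

/-- TRS (120 lines), uses EXI TRX.  Rescaling.  PROOF.  `y_0 ≠ 0`; `r_c = y_c / y_0`,
`A = Algebra.adjoin ℂ (range r)`.  Some `w ∈ Mer` is not algebraic over `A`: otherwise TRX
(`m = n + 2`, `p` from EXI, both sets `range r`) gives `n + 2` algebraically independent elements of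
`range r`, which are different, but `range r` has at most `n + 1` elements.  `θ = w / y_0`, so
`θ y_c = w r_c`.  Suppose `p(θ y) = 0`; with the homogeneous components `p_d` of `p`:
`∑_d w ^ d p_d(r) = 0`, `p_d(r) ∈ A`; `w` is transcendental over `A`, so all `p_d(r) = 0`, so
`p_d(y) = y_0 ^ d p_d(r) = 0`, so `p_d = 0` by `NoRel`, so `p = 0`. -/
def Stmt_TRS : Prop :=
  ∀ (n : ℕ) (y : Fin (n + 1) → Mer), NoRel y →
    ∃ θ : Mer, AlgebraicIndependent ℂ (fun c => θ * y c)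

/-- CDC (100 lines), uses EXT.  Common factors descend to the algebraically closed field `Ω`.
PROOF.  Let `J = {j | P ∣ map τ (F j)}`, `map τ (F j) = P * H_j` for `j ∈ J`.  `P` is not a constant
(irreducible), so it has a coefficient `a ≠ 0` at a monomial `μ ≠ 0`.  `ℂ` is an `Ω`-algebra via `τ`;
`B` = the subalgebra generated by `a⁻¹` and the coefficients of `P` and of the `H_j`.  EXT for
`A = ⊥` (as in B_KPD.lean) gives `Θ : B →ₐ[Ω] Ω`.  `P₁ = Θ(P)` has a nonzero coefficient at `μ`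
(`Θ(a) Θ(a⁻¹) = 1`), so it is not `0` and not a unit, and `F j = P₁ * Θ(H_j)` for `j ∈ J`.  An
irreducible factor `P₂` of `P₁` (`WfDvdMonoid.exists_irreducible_factor`) divides all the `F j`,
`j ∈ J`: `J.ncard ≤ c`. -/
def Stmt_CDC : Prop :=
  ∀ (Ω : Type) [Field Ω] [IsAlgClosed Ω] (τ : Ω →+* ℂ) (b c N : ℕ)
    (F : Fin (N + 1) → MvPolynomial (Fin b) Ω),
    (∀ P, Irreducible P → {j | P ∣ F j}.ncard ≤ c) →
    ∀ P : MvPolynomial (Fin b) ℂ, Irreducible P → {j | P ∣ map τ (F j)}.ncard ≤ c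

/-- GGM (250 lines), uses VER REP KTH CDG UFK KPD TRS CDC ThmM0.EXPO.  THEOREM G for hypersurfaces in
arbitrary position.  PROOF.  `n' = (n + e).choose e - 1`, `N₁` from CDG for `(n', c + 1)`, increased by
1, `N₀ = c + c * N₁`.  Suppose `NoRel y`, `y_c = s_c(x)`.  VER: `g', ε`, `l j c = coeff (ε c) (F j)`,
`s'_c = ∏ i, s i ^ ε c i`, a tuple of `g'`.  `x'_c = s'_c(x) = ∏ y_i ^ (ε c i)`: linearly independent over
`ℂ` (a relation is a form of degree `e` vanishing at `y`).  `u_j c = τ (l j c)`,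
`z_j = ∑ c, u_(j c) x'_c = aeval y (G_j)`, `G_j = map τ (F j)` (see `GGL_val` in B_GGL.lean), so
`z_j ≠ 0` if `F j ≠ 0`.  `Bad` = the set of the `j` such that `F j` is not a `k`-th power, enumerated by
`Fin Bad.card`, `N₀ < Bad.card`.  REP for the `u_j`, `j ∈ Bad`: no `u_j` is `0` (`0 = 0 ^ k`), and for
`j ∈ Bad` at most `c` of the `u_(j')` are multiples of `u_j`: an irreducible factor `P` of the form
`G_j` (of degree `e ≥ 1`, not `0`, so not a unit) divides the corresponding `G_(j')`, CDC.  REP gives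
`S₁`; for `u ∈ S₁` choose `jj u ∈ Bad` with `u_(jj u) = u`.  Fix `v₀ ∈ S₁`, `j₀ = jj v₀`; KTH for `g'`:
`z_j / z_(j₀) = w_j ^ k`; `φ` from EXPO, `x''_c = φ (x'_c / z_(j₀))`; CDG for `(n', c + 1)`: `T ⊆ S₁`,
`c + 1 ≤ T.card` (all as in B_ONP.lean).  Let `u₁ ∈ T`, `j₁ = jj u₁`.  CLAIM: `G_(j₁)` is a `k`-th power;
then so is `F j₁` by KPD, a contradiction.  UFK: let `P` be an irreducible factor of `G_(j₁)`,
`G_(j₁) = P ^ μ a`, `P ∤ a`.  TRS: `θ`; `ι` from `pk1_map` (B_PK1.lean, import it), from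
`L = FractionRing (MvPolynomial (Fin (n + 1)) ℂ)` to `Mer`, `ι r = aeval (θ y) r`, so
`ι G = θ ^ e * aeval y G` for forms of degree `e`.  `V` from `pk1_val` for `P`.  By CDC there is
`u₀ ∈ T` with `P ∤ G_(jj u₀)` (the `jj u`, `u ∈ T`, are `c + 1` different indices), so `G_(jj u₀)` is a unit
of `V`.  `ζ u = G_(jj u) / G_(jj u₀) ∈ V`, `(φ ∘ ι) (ζ u) = φ (z_(jj u) / z_(jj u₀))
= ⟨u, x''⟩ / ⟨u₀, x''⟩` for `u ∈ T`.  CDG: `UPow V k (ζ u₁)`, so `UPow V k G_(j₁)` (`UPow.mul`), and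
`pk1_dvd` gives `k ∣ μ`. -/
def Stmt_GGM : Prop :=
  ∀ n e c : ℕ, 1 ≤ e → ∃ N₀ : ℕ, ∀ (k N : ℕ), 2 ≤ k →
    ∀ (K Ω : Type) [Field K] [Field Ω] [Algebra K Ω] [IsAlgClosed Ω] (m : ℕ)
      (S : Set (MvPolynomial (Fin (m + 1)) K)), (∀ F ∈ S, ∃ d, F.IsHomogeneous d) →
      ∀ (g : Mor K Ω m n S) (F : Fin (N + 1) → MvPolynomial (Fin (n + 1)) Ω),
        (∀ j, (F j).IsHomogeneous e) → (∀ P, Irreducible P → {j | P ∣ F j}.ncard ≤ c) →
        (∀ j, g.DivisibleF k (F j)) → N₀ < {j | ¬ ∃ G, F j = G ^ k}.ncard →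
        ∀ (τ : Ω →+* ℂ) (x : Fin (m + 1) → Mer), OnK (tm τ) S x → x ≠ 0 → ∀ s ∈ g.tuples,
          (∃ c, eval₂ (tm τ) x (s c) ≠ 0) → ¬ NoRel (fun c => eval₂ (tm τ) x (s c))

/-- GMX (60 lines), uses GGM PIG.  Forms of different degrees: as B_GGX.lean (the set of the `i` with
`P ∣ F (γ i)` is mapped injectively to the set for `F`). -/
def Stmt_GMX : Prop :=
  ∀ n e c : ℕ, ∃ N₀ : ℕ, ∀ (k N : ℕ), 2 ≤ k →
    ∀ (K Ω : Type) [Field K] [Field Ω] [Algebra K Ω] [IsAlgClosed Ω] (m : ℕ)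
      (S : Set (MvPolynomial (Fin (m + 1)) K)), (∀ F ∈ S, ∃ d, F.IsHomogeneous d) →
      ∀ (g : Mor K Ω m n S) (F : Fin (N + 1) → MvPolynomial (Fin (n + 1)) Ω),
        (∀ j, ∃ d, 1 ≤ d ∧ d ≤ e ∧ (F j).IsHomogeneous d) →
        (∀ P, Irreducible P → {j | P ∣ F j}.ncard ≤ c) →
        (∀ j, g.DivisibleF k (F j)) → N₀ < {j | ¬ ∃ G, F j = G ^ k}.ncard →
        ∀ (τ : Ω →+* ℂ) (x : Fin (m + 1) → Mer), OnK (tm τ) S x → x ≠ 0 → ∀ s ∈ g.tuples,
          (∃ c, eval₂ (tm τ) x (s c) ≠ 0) → ¬ NoRel (fun c => eval₂ (tm τ) x (s c))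

/-- CU2 (60 lines), uses GMX MPT ThmM0.MREL.  Entire curves: as B_CUR.lean. -/
def Stmt_CU2 : Prop :=
  ∀ n e c : ℕ, ∃ N₀ : ℕ, ∀ (k N : ℕ), 2 ≤ k →
    ∀ (K Ω : Type) [Field K] [Field Ω] [Algebra K Ω] [IsAlgClosed Ω] (m : ℕ)
      (S : Set (MvPolynomial (Fin (m + 1)) K)), (∀ F ∈ S, ∃ d, F.IsHomogeneous d) →
      ∀ (g : Mor K Ω m n S) (F : Fin (N + 1) → MvPolynomial (Fin (n + 1)) Ω),
        (∀ j, ∃ d, 1 ≤ d ∧ d ≤ e ∧ (F j).IsHomogeneous d) →
        (∀ P, Irreducible P → {j | P ∣ F j}.ncard ≤ c) →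
        (∀ j, g.DivisibleF k (F j)) → N₀ < {j | ¬ ∃ G, F j = G ^ k}.ncard →
        ∀ (τ : Ω →+* ℂ) (f : ℂ → PSpace ℂ m), HolomorphicOn f Set.univ →
          (∀ z, f z ∈ complexPoints S (τ.comp (algebraMap K Ω))) →
          ∃ (d : ℕ) (P : MvPolynomial (Fin (n + 1)) ℂ), P ≠ 0 ∧ P.IsHomogeneous d ∧
            ∀ z, ∀ s ∈ g.tuples, eval (fun c => eval₂ τ (f z).rep (s c)) P = 0

/-- DM3 (80 lines), uses GMX MPT NHR.  `g` finite: the closures of the entire curves are of dimension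
at most `n - 1 = M`.  PROOF.  As `p_GGL` in B_GGL.lean and B_DIM.lean (extension `τ` of `σ` to the
algebraic closure). -/
def Stmt_DM3 : Prop :=
  ∀ M e c : ℕ, ∃ N₀ : ℕ, ∀ (k N : ℕ), 2 ≤ k →
    ∀ (K : Type) [Field K] (m : ℕ) (S : Set (MvPolynomial (Fin (m + 1)) K)),
      (∀ F ∈ S, ∃ d, F.IsHomogeneous d) →
      ∀ (g : Mor K (AlgebraicClosure K) m (M + 1) S)
        (F : Fin (N + 1) → MvPolynomial (Fin (M + 2)) (AlgebraicClosure K)), g.Finite →
        (∀ j, ∃ d, 1 ≤ d ∧ d ≤ e ∧ (F j).IsHomogeneous d) →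
        (∀ P, Irreducible P → {j | P ∣ F j}.ncard ≤ c) →
        (∀ j, g.DivisibleF k (F j)) → N₀ < {j | ¬ ∃ G, F j = G ^ k}.ncard → DimMer S M

end Pool.ThmP
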