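import Pool.Agent.Work.MP_f82ddf_P.Interface5
import Pool.Agent.Work.MP_f82ddf_H.Interface

set_option autoImplicit false

/-! # THEOREMS G and V (MP_f82ddf_nt): entire curves in projective space, morphisms which are not finite

Table `thg_blocks`.  Block file `MP_f82ddf_P/B_X.lean`: import this file (and other block files for
auxiliary lemmas), namespace `Pool.ThmP`, final theorem `p_X (h1 : Stmt_A) ... : Stmt_X` with exactly
the blocks of the column `uses` in that order; all other lemmas with the prefix `X_`.  In the column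
`uses`: `H.X` = `Pool.MPH.Stmt_X`, `V.X` = `Pool.MPV.Stmt_X`, `M0.X` = `Pool.ThmM0.Stmt_X`,
`M1.X` = `Pool.ThmM.Stmt_X`, without prefix = `Pool.ThmP.Stmt_X`.

(A) THEOREM G for the entire curves in `P^n` itself which meet many hypersurfaces `F_j = 0` (in any
position) only with multiplicities divisible by `k`, and for morphisms `g : X → P^n` such that
`dim X ≤ d + 1` and the preimages of all the hypersurfaces of `P^n` are of dimension at most `d`.
(B) THEOREM V for generic hypersurfaces: the entire curves in `P^n` which meet them only with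
multiplicities at least 2 are constant. -/

namespace Pool.ThmP

open MvPolynomial Finset Pool.Agent.Work.MP_f82ddf_nt Pool.Agent.Work.MP_f82ddf_nt.DQ Pool.ThmM
  Pool.ThmM0
open Pool.MPV (Ful)
open Pool.MPH (FuF Tng)

/-! ## A1. Entire curves with multiplicities divisible by `k` -/

/-- GGC (200 lines; a copy of B_GGM.lean with small changes), uses VER REP CDG UFK TRS M0.EXPO.
PROOF.  As GGM with `Ω = ℂ`.  The enumeration `ε` of the exponents of degree `e` is taken from VER for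
the identity morphism of `P^n` (`K = Ω = ℂ`, `S = ∅`, `tuples = {X}`), `u_j c = coeff (ε c) (F j)`,
`z_j = aeval y (F j) = ∑ c, u_(j c) ∏ y_i ^ (ε c i)`.  Instead of KTH use the hypothesis on the
quotients; CDC and KPD are not needed. -/
def Stmt_GGC : Prop :=
  ∀ n e c : ℕ, 1 ≤ e → ∃ N₀ : ℕ, ∀ (k N : ℕ), 2 ≤ k →
    ∀ (F : Fin (N + 1) → MvPolynomial (Fin (n + 1)) ℂ), (∀ j, (F j).IsHomogeneous e) →
      (∀ P, Irreducible P → {j | P ∣ F j}.ncard ≤ c) → N₀ < {j | ¬ ∃ G, F j = G ^ k}.ncard →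
      ∀ y : Fin (n + 1) → Mer,
        (∀ j j', aeval y (F j') ≠ 0 → ∃ w : Mer, aeval y (F j) / aeval y (F j') = w ^ k) →
        ¬ NoRel y

/-- GC2 (60 lines), uses GGC PIG.  Forms of different degrees.  PROOF.  As B_GMX.lean. -/
def Stmt_GC2 : Prop :=
  ∀ n e c : ℕ, ∃ N₀ : ℕ, ∀ (k N : ℕ), 2 ≤ k →
    ∀ (F : Fin (N + 1) → MvPolynomial (Fin (n + 1)) ℂ),
      (∀ j, ∃ d, 1 ≤ d ∧ d ≤ e ∧ (F j).IsHomogeneous d) →
      (∀ P, Irreducible P → {j | P ∣ F j}.ncard ≤ c) → N₀ < {j | ¬ ∃ G, F j = G ^ k}.ncard →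
      ∀ y : Fin (n + 1) → Mer,
        (∀ d j j', (F j).IsHomogeneous d → (F j').IsHomogeneous d → aeval y (F j') ≠ 0 →
          ∃ w : Mer, aeval y (F j) / aeval y (F j') = w ^ k) →
        ¬ NoRel y

/-- The map `f` to projective space meets the hypersurface `G = 0` at every point with a multiplicity
divisible by `k` (or is contained in it): for all holomorphic homogeneous coordinates `φ` of `f` near
`z₀`, without common zero at `z₀`, the order of `G(φ)` at `z₀` is a multiple of `k`. -/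
def DivM {b : ℕ} (k : ℕ) (f : ℂ → PSpace ℂ b) (G : MvPolynomial (Fin (b + 1)) ℂ) : Prop :=
  ∀ (z₀ : ℂ) (φ : ℂ → Fin (b + 1) → ℂ), AnalyticAt ℂ φ z₀ → φ z₀ ≠ 0 →
    (∀ᶠ z in nhds z₀, ∃ h : φ z ≠ 0, f z = Projectivization.mk ℂ (φ z) h) →
    ∃ a : ℕ∞, analyticOrderAt (fun z => eval (φ z) G) z₀ = k * a

/-- OTK (120 lines; as `MP_f82ddf_H/B_OTN.lean`, helper4), uses M1.REP M1.ALG M1.POL M1.ORD M1.VAL.
Entire curves and multiplicities divisible by `k`.  PROOF.  Read the docstring of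
`Pool.MPH.Stmt_OTN`: `om (aeval x G) z₀ = e dv x z₀ +` the order of the analytic function `G(ψ)` at `z₀`,
which is `⊤` (excluded, as `aeval x G ≠ 0` has finite order, M1.VAL) or `k * a`, `a : ℕ`. -/
def Stmt_OTK : Prop :=
  ∀ (b e k : ℕ) (G : MvPolynomial (Fin (b + 1)) ℂ) (f : ℂ → PSpace ℂ b), HolomorphicOn f Set.univ →
    1 ≤ k → G.IsHomogeneous e → DivM k f G →
    ∀ (φ : Fin (b + 1) → ℂ → ℂ) (hφ : ∀ j z, MeromorphicAt (φ j) z) (i : Fin (b + 1)),
      Mer.mk (φ i) (hφ i) = 1 →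
      (∀ z₀, ∀ᶠ z in nhdsWithin z₀ {z₀}ᶜ, ∃ c : ℂ, c ≠ 0 ∧ ∀ j, (f z).rep j = c * φ j z) →
      aeval (fun j => Mer.mk (φ j) (hφ j)) G ≠ 0 →
      ∀ z, ∃ q : ℤ, om (aeval (fun j => Mer.mk (φ j) (hφ j)) G) z =
        ((e * dv (fun j => Mer.mk (φ j) (hφ j)) z + k * q : ℤ) : WithTop ℤ)

/-- CVP (80 lines), uses GC2 OTK ROO M0.MREL M1.VAL.  Entire curves in `P^n`.  PROOF.
`exists_mer_of_curve` (DQ/Hol2.lean) with `K = ℂ`, `S = ∅`, `σ = RingHom.id ℂ` (every point is in
`complexPoints ∅ σ`): `φ`, `x`.  For forms `F j`, `F j'` of the same degree `d` with `F_(j')(x) ≠ 0`: if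
`F_j(x) = 0` take `w = 0`; otherwise by OTK and M1.VAL the quotient has at every `z` an order divisible by
`k` (`om` is additive), so ROO.  GC2: a relation `P(x) = 0`, MREL with `s = id`: `P((f z).rep) = 0`. -/
def Stmt_CVP : Prop :=
  ∀ n e c : ℕ, ∃ N₀ : ℕ, ∀ (k N : ℕ), 2 ≤ k →
    ∀ (F : Fin (N + 1) → MvPolynomial (Fin (n + 1)) ℂ),
      (∀ j, ∃ d, 1 ≤ d ∧ d ≤ e ∧ (F j).IsHomogeneous d) →
      (∀ P, Irreducible P → {j | P ∣ F j}.ncard ≤ c) → N₀ < {j | ¬ ∃ G, F j = G ^ k}.ncard →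
      ∀ f : ℂ → PSpace ℂ n, HolomorphicOn f Set.univ → (∀ j, DivM k f (F j)) →
        ∃ (d : ℕ) (P : MvPolynomial (Fin (n + 1)) ℂ), P ≠ 0 ∧ P.IsHomogeneous d ∧
          ∀ z, eval (f z).rep P = 0

/-! ## A2. Morphisms with small preimages of hypersurfaces -/

/-- EXB (120 lines).  Exchange of transcendence bases.  PROOF.  `p` is also algebraically independent
over `F` (`AlgebraicIndependent.restrictScalars` or similar; `F → E` is injective).  Use
`AlgebraicIndependent.matroid F L` (as in B_TRX.lean, `MP_f82ddf_M0/B_TRD.lean`) or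
`exists_isTranscendenceBasis_between`: all the `t_i` are algebraic over `F[p]`, so
`range t ⊆ B ⊆ range t ∪ range p` for an algebraically independent set `B` over `F` such that all elements of
`range t ∪ range p` are algebraic over `F[B]`; `B` has exactly `q` elements, as `range p` is another
basis of `range t ∪ range p`.  The `p_j` are algebraic over `F[B]`, hence over `E[B]`.  Over `E`: if `B` were
not algebraically independent over `E`, a basis `B' ⊂ B` of `B` over `E` would have fewer than `q`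
elements and the `q` algebraically independent elements `p_j` would be algebraic over `E[B']`, a
contradiction.  So `B`, hence `t` (injective), is algebraically independent over `E`. -/
def Stmt_EXB : Prop :=
  ∀ (F E L : Type) [Field F] [Field E] [Field L] [Algebra F E] [Algebra E L] [Algebra F L]
    [IsScalarTower F E L] (q n : ℕ) (p : Fin q → L) (t : Fin n → L),
    AlgebraicIndependent E p → AlgebraicIndependent F t →
    (∀ i, IsAlgebraic (Algebra.adjoin F (Set.range p)) (t i)) → AlgebraicIndependent E t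

section

variable {K Ω : Type} [Field K] [Field Ω] [Algebra K Ω] {m n : ℕ}
  {S : Set (MvPolynomial (Fin (m + 1)) K)}

/-- `X` has dimension at most `d + 1`, and the preimage under `g` of every hypersurface of the
projective space of dimension `n` has dimension at most `d` (any `d + 3`, resp. `d + 2`, homogeneous
coordinates satisfy a homogeneous relation). -/
def Mor.Thin (g : Mor K Ω m n S) (d : ℕ) : Prop :=
  (∀ r : Fin (d + 3) → Fin (m + 1), ∃ (e : ℕ) (R : MvPolynomial (Fin (d + 3)) Ω), R ≠ 0 ∧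
    R.IsHomogeneous e ∧ ∀ v : Fin (m + 1) → Ω, OnX S v → eval (fun i => v (r i)) R = 0) ∧
  ∀ (t : ℕ) (P : MvPolynomial (Fin (n + 1)) Ω), P ≠ 0 → P.IsHomogeneous t →
    ∀ r : Fin (d + 2) → Fin (m + 1), ∃ (e : ℕ) (R : MvPolynomial (Fin (d + 2)) Ω), R ≠ 0 ∧
      R.IsHomogeneous e ∧ ∀ v : Fin (m + 1) → Ω, OnX S v → g.MeetsF P v →
        eval (fun i => v (r i)) R = 0

end

/-- THR (100 lines), uses NUL.  PROOF.  `x (r 0) ≠ 0` (`p` is defined with it).  `Mer` is an `Ω`-algebra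
via `tm τ` (as in the statement).  Let `j` be an index, `r' = (r 0, .., r (d + 1), j)`; the relation `R ≠ 0`
of degree `e` of the first hypothesis for `r'`; NUL with `E = ∅`, `G = rename r' R`:
`eval₂ (tm τ) (x ∘ r') R = 0`, and dividing by `x (r 0) ^ e`: `R(1, p_0, .., p_d, x_j / x_(r 0)) = 0`.
`R(1, Y_0, .., Y_d, Y) ≠ 0` because `R` is homogeneous (different monomials of `R` go to different
monomials).  Regard it as a polynomial in `Y` over `Ω[Y_0, .., Y_d]`; as the `p_i` are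
algebraically independent over `Ω`, this is a nonzero polynomial over `Ω[p]` with the zero
`x_j / x_(r 0)`. -/
def Stmt_THR : Prop :=
  ∀ (K Ω : Type) [Field K] [Field Ω] [Algebra K Ω] [IsAlgClosed Ω] (m d : ℕ)
    (S : Set (MvPolynomial (Fin (m + 1)) K)), (∀ F ∈ S, ∃ d, F.IsHomogeneous d) →
    (∀ r : Fin (d + 3) → Fin (m + 1), ∃ (e : ℕ) (R : MvPolynomial (Fin (d + 3)) Ω), R ≠ 0 ∧
      R.IsHomogeneous e ∧ ∀ v : Fin (m + 1) → Ω, OnX S v → eval (fun i => v (r i)) R = 0) →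
    ∀ (τ : Ω →+* ℂ) (x : Fin (m + 1) → Mer), OnK (tm τ) S x →
      ∀ r : Fin (d + 2) → Fin (m + 1), x (r 0) ≠ 0 →
        letI := (tm τ).toAlgebra
        AlgebraicIndependent Ω (fun i : Fin (d + 1) => x (r i.succ) / x (r 0)) →
        ∀ j, IsAlgebraic (Algebra.adjoin Ω (Set.range fun i : Fin (d + 1) =>
          x (r i.succ) / x (r 0))) (x j / x (r 0))

/-- THN (200 lines), uses EXB THR NUL MPT M0.HOMR.  A complex relation between the coordinates of `g(x)`
gives one over `Ω`.  PROOF.  Suppose `RelP d x` fails: for some `r : Fin (d + 2) → Fin (m + 1)` the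
`x (r i)` satisfy no homogeneous relation; `x (r 0) ≠ 0`.  HOMR: the `p_i = x (r (i+1)) / x (r 0)`,
`i ≤ d`, are algebraically independent over `ℂ`, hence over `Ω` (`Mer` is an `Ω`-algebra via `tm τ`, `ℂ`
via `τ`; `AlgebraicIndependent.restrictScalars`).  THR: all the `x_j / x_(r 0)` are algebraic over
`Ω[p]`.  `y_c = s_c(x)`, `y_(c₀) ≠ 0`; `t_c = y_c / y_(c₀) = s_c(x / x_(r 0)) / s_(c₀)(x / x_(r 0))` is also
algebraic over `Ω[p]` (the algebraic elements over a domain form a field, in particular a ring closed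
under quotients).  CLAIM: there is a form `P ≠ 0` over `Ω` with `eval₂ (tm τ) y P = 0`.  Otherwise the
`t_c`, `c ≠ c₀`, are algebraically independent over `Ω` (the argument of HOMR over `Ω`: homogenise
a polynomial relation), so by EXB (`F = Ω`, `E = ℂ`, `L = Mer`) over `ℂ`; but `¬ NoRel y` gives a complex form
`P' ≠ 0`, `P'(y) = 0`, and dehomogenising at `c₀` a nontrivial complex relation between the `t_c`, a
contradiction.  With `P` of the claim: the second part of `Thin` for `P` and `r` gives `R ≠ 0` over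
`Ω`; NUL with `E = {aeval s' P | s' ∈ g.tuples}` (which vanish at `x`, because `s'(x)` is a multiple of `y`,
MPT (2)) and `G = rename r R`: `eval₂ (tm τ) (x ∘ r) R = 0`, i.e. `map τ R ≠ 0` is a homogeneous
relation between the `x (r i)`, a contradiction. -/
def Stmt_THN : Prop :=
  ∀ (K Ω : Type) [Field K] [Field Ω] [Algebra K Ω] [IsAlgClosed Ω] (m n d : ℕ)
    (S : Set (MvPolynomial (Fin (m + 1)) K)), (∀ F ∈ S, ∃ d, F.IsHomogeneous d) →
    ∀ g : Mor K Ω m n S, g.Thin d → ∀ (τ : Ω →+* ℂ) (x : Fin (m + 1) → Mer), OnK (tm τ) S x →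
      ∀ s ∈ g.tuples, (∃ c, eval₂ (tm τ) x (s c) ≠ 0) →
      ¬ NoRel (fun c => eval₂ (tm τ) x (s c)) → RelP d x

/-- DM4 (60 lines), uses GMX MPT THN.  PROOF.  As B_DM3.lean with THN in place of NHR. -/
def Stmt_DM4 : Prop :=
  ∀ n e c : ℕ, ∃ N₀ : ℕ, ∀ (k N : ℕ), 2 ≤ k →
    ∀ (K : Type) [Field K] (m d : ℕ) (S : Set (MvPolynomial (Fin (m + 1)) K)),
      (∀ F ∈ S, ∃ d, F.IsHomogeneous d) →
      ∀ (g : Mor K (AlgebraicClosure K) m n S)
        (F : Fin (N + 1) → MvPolynomial (Fin (n + 1)) (AlgebraicClosure K)), g.Thin d →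
        (∀ j, ∃ d, 1 ≤ d ∧ d ≤ e ∧ (F j).IsHomogeneous d) →
        (∀ P, Irreducible P → {j | P ∣ F j}.ncard ≤ c) →
        (∀ j, g.DivisibleF k (F j)) → N₀ < {j | ¬ ∃ G, F j = G ^ k}.ncard → DimMer S d

/-! ## B. Generic hypersurfaces -/

/-- GNO (taken by helper32), uses BAS V.LGF M0.PUL V.EXF M1.ORD M1.VAL.  Points of `P^n` over `Mer` which
meet generic hyperplanes with multiplicities at least 2 are constant. -/
def Stmt_GNO : Prop :=
  ∀ n : ℕ, ∃ D : ℕ, ∀ (N : ℕ) (u : Fin (N + 1) → Fin (n + 1) → ℂ), NoHypersurface D u →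
    ∀ y : Fin (n + 1) → Mer, (∀ j, Ful 2 y (u j)) →
      ∀ i j, y i ≠ 0 → ∃ a : ℂ, y j = algebraMap ℂ Mer a * y i

/-- GOC (120 lines), uses GNO H.BPF.  The same for forms of degree `e`; `ε` enumerates the exponents of
degree `e`.  PROOF.  `D` from GNO for `(n + e).choose e - 1`.  `w_c = ∏ i, y_i ^ (ε c i)`,
`u_j c = coeff (ε c) (F j)`, so `aeval y (F j) = ∑ c, u_(j c) w_c` (`GGL_val` in B_GGL.lean, or `VGF_val`).
BPF with `Ω = ℂ`, `τ = RingHom.id ℂ`, `v c = monomial (ε c) 1` (no common zero: `X_i ^ e`): `dv w z = e dv y z`,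
so `Ful 2 w (u j)`.  GNO: for all `c, c'` with `w_(c') ≠ 0` the element `w_c` is a complex multiple of
`w_(c')`.  With the exponents `e δ_i` and `(e - 1) δ_i + δ_j`: `y_i ^ (e-1) y_j = a y_i ^ e`. -/
def Stmt_GOC : Prop :=
  ∀ n e : ℕ, 1 ≤ e → ∃ D : ℕ, ∀ (N : ℕ)
    (ε : Fin ((n + e).choose e - 1 + 1) → Fin (n + 1) →₀ ℕ), Function.Injective ε →
    (∀ μ : Fin (n + 1) →₀ ℕ, ∑ i, μ i = e ↔ ∃ c, ε c = μ) →
    ∀ F : Fin (N + 1) → MvPolynomial (Fin (n + 1)) ℂ, (∀ j, (F j).IsHomogeneous e) →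
      NoHypersurface D (fun j c => coeff (ε c) (F j)) →
      ∀ y : Fin (n + 1) → Mer, (∀ j, FuF 2 y e (F j)) →
        ∀ i j, y i ≠ 0 → ∃ a : ℂ, y j = algebraMap ℂ Mer a * y i

/-- CVG (80 lines), uses VER GOC H.OTN M0.MREL.  Entire curves in `P^n` and generic hypersurfaces.
PROOF.  `ε` from VER for the identity morphism of `P^n`; `noHyp_ver` (VGF.lean).
`exists_mer_of_curve` as in CVP: `x`, `x i = 1`, OTN: `FuF 2 x e (F j)`; GOC: `x j` is a constant for every
`j`; by the last part of `exists_mer_of_curve` `f` is constant. -/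
def Stmt_CVG : Prop :=
  ∀ n e : ℕ, 1 ≤ e → ∃ D : ℕ, ∀ (N : ℕ) (F : Fin (N + 1) → MvPolynomial (Fin (n + 1)) ℂ),
    (∀ j, (F j).IsHomogeneous e) → NoHypersurfaceF D e F →
    ∀ f : ℂ → PSpace ℂ n, HolomorphicOn f Set.univ → (∀ j, Tng f (F j)) → ∀ z₁ z₂, f z₁ = f z₂

/-- GXC (120 lines), uses VER GOC H.OFF MPT M0.NHC M0.MREL.  For any morphism `g : X → P^n` with the
multiplicity condition the entire curves in `X` lie in fibres of `g`.  PROOF.  `ε` from VER for `g`,
`noHyp_ver`, NHC for `τ` (`coeff` commutes with `map τ`).  `exists_mer_of_curve`: `x`, MPT (1): `s₀` with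
`y = s₀(x)`, `y_(c₀) ≠ 0`; OFF: `FuF 2 y e (map τ (F j))`; GOC: `y_c = a_c y_(c₀)`, `w = a`, `a_(c₀) = 1`.  For
`s ∈ g.tuples` the vector `s(x)` is a multiple of `y` (MPT (2)), so the form
`map τ (s c) * C (a_(c')) - map τ (s c') * C (a_c)` vanishes at `x` and by MREL (with `s = id`) at
`(f z).rep`. -/
def Stmt_GXC : Prop :=
  ∀ n e : ℕ, 1 ≤ e → ∃ D : ℕ, ∀ (N : ℕ) (K Ω : Type) [Field K] [Field Ω] [Algebra K Ω]
    [IsAlgClosed Ω] (m : ℕ) (S : Set (MvPolynomial (Fin (m + 1)) K)),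
    (∀ F ∈ S, ∃ d, F.IsHomogeneous d) →
    ∀ (g : Mor K Ω m n S) (F : Fin (N + 1) → MvPolynomial (Fin (n + 1)) Ω),
      (∀ j, (F j).IsHomogeneous e) → NoHypersurfaceF D e F → (∀ j, FullF g 2 (F j)) →
      ∀ (τ : Ω →+* ℂ) (f : ℂ → PSpace ℂ m), HolomorphicOn f Set.univ →
        (∀ z, f z ∈ complexPoints S (τ.comp (algebraMap K Ω))) →
        ∃ w : Fin (n + 1) → ℂ, w ≠ 0 ∧ ∀ z, ∀ s ∈ g.tuples, ∀ c c',
          eval₂ τ (f z).rep (s c) * w c' = eval₂ τ (f z).rep (s c') * w c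

end Pool.ThmP
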