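import Pool.Agent.Work.MP_f82ddf_P.Interface6

set_option autoImplicit false

/-! # THEOREM V (MP_f82ddf_nt), generic hypersurfaces: morphisms with small fibres -/

namespace Pool.ThmP

open MvPolynomial Finset Pool.Agent.Work.MP_f82ddf_nt Pool.Agent.Work.MP_f82ddf_nt.DQ Pool.ThmM
  Pool.ThmM0

section

variable {K Ω : Type} [Field K] [Field Ω] [Algebra K Ω] {m n : ℕ}
  {S : Set (MvPolynomial (Fin (m + 1)) K)}

/-- The fibres of `g` over all the complex points `w` of the projective space have dimension at most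
`d`: any `d + 2` homogeneous coordinates satisfy a homogeneous relation on the fibre. -/
def Mor.FibresLE (g : Mor K Ω m n S) (d : ℕ) : Prop :=
  ∀ (τ : Ω →+* ℂ) (w : Fin (n + 1) → ℂ), w ≠ 0 → ∀ r : Fin (d + 2) → Fin (m + 1),
    ∃ (e : ℕ) (R : MvPolynomial (Fin (d + 2)) ℂ), R ≠ 0 ∧ R.IsHomogeneous e ∧
      ∀ p : PSpace ℂ m, p ∈ complexPoints S (τ.comp (algebraMap K Ω)) →
        (∀ s ∈ g.tuples, ∀ c c', eval₂ τ p.rep (s c) * w c' = eval₂ τ p.rep (s c') * w c) →
        eval (fun i => p.rep (r i)) R = 0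

end

/-- GXD (150 lines), uses VER GOC H.OFF MPT NUL M0.NHC.  For any morphism `g : X → P^n` with the
multiplicity condition and fibres of dimension at most `d` the closures of the entire curves have
dimension at most `d`.  PROOF.  `ε` from VER for `g`, `noHyp_ver` (VGF.lean), NHC for `τ`, the extension of
`σ` to the algebraic closure (as in B_DIM.lean).  Let `x` be a point of `X_σ` over `Mer`; if `x = 0` take the
relation `X 0`.  MPT (1): `s₀` with `y = s₀(x)`, `y_(c₀) ≠ 0`; OFF: `FuF 2 y e (map τ (F j))`; GOC: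
`y_c = a_c y_(c₀)`, `a_(c₀) = 1`.  `FibresLE` for `τ`, `w = a` and `r` gives `R`.  NUL with `Ω = ℂ` (a
`K`-algebra via `τ ∘ algebraMap`), `κ = Mer`, `τ = algebraMap ℂ Mer`,
`E = {map τ (s c) * C (a c') - map τ (s c') * C (a c) | s ∈ g.tuples}`, which vanish at `x` by MPT (2), and
`G = rename r (R * X 0)`: for `v : Fin (m + 1) → ℂ` on `X` with `E(v) = 0` we have `G(v) = 0`: clear for
`v = 0`, otherwise take `p = Projectivization.mk ℂ v _`, `p.rep` is a nonzero multiple of `v` and all the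
polynomials are homogeneous.  So `R * X 0` is a relation between the `x (r i)`. -/
def Stmt_GXD : Prop :=
  ∀ n e : ℕ, 1 ≤ e → ∃ D : ℕ, ∀ (N : ℕ) (K : Type) [Field K] (m : ℕ)
    (S : Set (MvPolynomial (Fin (m + 1)) K)), (∀ F ∈ S, ∃ d, F.IsHomogeneous d) →
    ∀ (g : Mor K (AlgebraicClosure K) m n S)
      (F : Fin (N + 1) → MvPolynomial (Fin (n + 1)) (AlgebraicClosure K)),
      (∀ j, (F j).IsHomogeneous e) → NoHypersurfaceF D e F → (∀ j, FullF g 2 (F j)) →
      ∀ d, g.FibresLE d → DimMer S d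

end Pool.ThmP
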